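import Pool.Agent.P.MP_b2489f_co.Defs

-- part Pool.Agent.P.MP_b2489f_co.Exact
section

set_option autoImplicit false

/-! Chain complex of a pair of dual graphs over `ZMod 2`; exactness for genus-zero maps. -/

namespace Pool.Agent.P.MP_b2489f_co

open Finset Classical Module

abbrev F2 := ZMod 2

lemma F2_add_self (x : F2) : x + x = 0 := CharTwo.add_self_eq_zero x

/-- indicator vector of a point -/
noncomputable def dl {X : Type} (a : X) : X → F2 := fun x => if a = x then 1 else 0

@[simp] lemma dl_self {X : Type} (a : X) : dl a a = 1 := by simp [dl]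

lemma dl_ne {X : Type} {a b : X} (h : a ≠ b) : dl a b = 0 := by simp [dl, h]

@[simp] lemma sum_dl {X : Type} [Fintype X] (a : X) : ∑ x, dl a x = 1 := by simp [dl]

lemma sum_mul_dl {X : Type} [Fintype X] (t : X → F2) (y : X) : ∑ x, t x * dl x y = t y := by
  simp [dl]

lemma sum_dl_mul {X : Type} [Fintype X] (t : X → F2) (y : X) : ∑ x, dl y x * t x = t y := by
  simp [dl]

/-- boundary map of a graph with edge set `D` and end maps `p1 p2` -/
noncomputable def bd {D X : Type} [Fintype D] (p1 p2 : D → X) : (D → F2) →ₗ[F2] (X → F2) where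
  toFun z x := ∑ d, z d * (dl (p1 d) x + dl (p2 d) x)
  map_add' z w := by
    ext x; simp only [Pi.add_apply, add_mul, sum_add_distrib]
  map_smul' c z := by
    ext x; simp only [Pi.smul_apply, smul_eq_mul, RingHom.id_apply, mul_sum, mul_assoc]

lemma bd_apply {D X : Type} [Fintype D] (p1 p2 : D → X) (z : D → F2) (x : X) :
    bd p1 p2 z x = ∑ d, z d * (dl (p1 d) x + dl (p2 d) x) := rfl

lemma bd_single {D X : Type} [Fintype D] (p1 p2 : D → X) (d : D) :
    bd p1 p2 (dl d) = dl (p1 d) + dl (p2 d) := by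
  ext x
  rw [bd_apply, sum_dl_mul (fun d => dl (p1 d) x + dl (p2 d) x)]
  rfl

/-- coboundary map -/
def cb {D Y : Type} (q1 q2 : D → Y) : (Y → F2) →ₗ[F2] (D → F2) where
  toFun u d := u (q1 d) + u (q2 d)
  map_add' u w := by ext d; simp only [Pi.add_apply]; ring
  map_smul' c u := by ext d; simp only [Pi.smul_apply, smul_eq_mul, RingHom.id_apply]; ring

lemma cb_apply {D Y : Type} (q1 q2 : D → Y) (u : Y → F2) (d : D) :
    cb q1 q2 u d = u (q1 d) + u (q2 d) := rfl

/-- sum of all coordinates -/
noncomputable def tot (X : Type) [Fintype X] : (X → F2) →ₗ[F2] F2 where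
  toFun t := ∑ x, t x
  map_add' a b := by simp [sum_add_distrib]
  map_smul' c a := by simp [mul_sum]

lemma finrank_ker_tot (X : Type) [Fintype X] [Nonempty X] :
    finrank F2 (LinearMap.ker (tot X)) + 1 = Fintype.card X := by
  have h := LinearMap.finrank_range_add_finrank_ker (tot X)
  have hr : LinearMap.range (tot X) = ⊤ := by
    rw [LinearMap.range_eq_top]
    intro c
    obtain ⟨x⟩ := ‹Nonempty X›
    refine ⟨c • dl x, ?_⟩
    show ∑ y, (c • dl x) y = c
    simp [← mul_sum]
  rw [hr] at h
  simp at h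
  omega

lemma range_bd_le {D X : Type} [Fintype D] [Fintype X] (p1 p2 : D → X) :
    LinearMap.range (bd p1 p2) ≤ LinearMap.ker (tot X) := by
  rintro _ ⟨z, rfl⟩
  rw [LinearMap.mem_ker]
  show ∑ x, bd p1 p2 z x = 0
  simp only [bd_apply]
  rw [sum_comm]
  refine sum_eq_zero fun d _ => ?_
  rw [← mul_sum, sum_add_distrib]
  simp [F2_add_self]

lemma ker_tot_le {X : Type} [Fintype X] (T : Submodule F2 (X → F2)) (r : X)
    (h : ∀ x, dl x + dl r ∈ T) : LinearMap.ker (tot X) ≤ T := by
  intro t ht
  have ht' : ∑ x, t x = 0 := ht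
  have : t = ∑ x, t x • (dl x + dl r) := by
    simp only [smul_add, sum_add_distrib]
    rw [← sum_smul, ht', zero_smul, add_zero]
    ext y
    simp [Finset.sum_apply, sum_mul_dl]
  rw [this]
  exact T.sum_mem fun x _ => T.smul_mem _ (h x)

section Maps

variable {D : Type} [Fintype D] (σ α : Equiv.Perm D)

instance (π : Equiv.Perm D) : Finite (Orb π) := Quotient.finite _

noncomputable instance (π : Equiv.Perm D) : Fintype (Orb π) := Fintype.ofFinite _

omit [Fintype D] in
lemma orb_apply (π : Equiv.Perm D) (d : D) : orb π (π d) = orb π d :=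
  Quotient.sound (Equiv.Perm.sameCycle_apply_left.2 (Equiv.Perm.SameCycle.refl _ _))

omit [Fintype D] in
lemma orb_symm_apply (π : Equiv.Perm D) (d : D) : orb π (π.symm d) = orb π d := by
  rw [← orb_apply π (π.symm d), Equiv.apply_symm_apply]

omit [Fintype D] in
lemma orb_surj (π : Equiv.Perm D) : Function.Surjective (orb π) := Quotient.mk_surjective

omit [Fintype D] in
lemma orb_eq_iff (π : Equiv.Perm D) (a b : D) : orb π a = orb π b ↔ π.SameCycle a b :=
  Quotient.eq

/-- a function invariant under `π` factors through the orbits -/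
lemma inv_of_orb_eq {β : Type} (π : Equiv.Perm D) (t : D → β) (ht : ∀ d, t (π d) = t d)
    {a b : D} (h : orb π a = orb π b) : t a = t b := by
  obtain ⟨n, hn, rfl⟩ := ((orb_eq_iff π a b).1 h).exists_pow_eq'
  clear hn h
  induction n with
  | zero => simp
  | succ n ih => rw [pow_succ', Equiv.Perm.mul_apply, ht, ← ih]

lemma card_darts (hα : ∀ d, α (α d) = d) (hne : ∀ d, α d ≠ d) :
    Fintype.card D = 2 * Fintype.card (Orb α) := by
  have h : ∀ e : Orb α, (univ.filter fun d => orb α d = e).card = 2 := by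
    intro e
    obtain ⟨a, rfl⟩ := orb_surj α e
    rw [card_eq_two]
    refine ⟨a, α a, (hne a).symm, ?_⟩
    ext d
    simp only [mem_filter, mem_univ, true_and, mem_insert, mem_singleton]
    constructor
    · intro hd
      have := inv_of_orb_eq α (fun d => d = a ∨ d = α a) (fun d => by
        apply propext
        constructor
        · rintro (h | h)
          · right; rw [← h, hα]
          · left; exact α.injective h
        · rintro (h | h)
          · right; rw [h]
          · left; rw [h, hα]) hd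
      simp only [true_or] at this
      exact this.symm ▸ trivial
    · rintro (rfl | rfl)
      · rfl
      · exact orb_apply α a
  have := card_eq_sum_card_fiberwise (s := (univ : Finset D)) (t := (univ : Finset (Orb α)))
    (f := orb α) (fun _ _ => mem_coe.2 (mem_univ _))
  rw [card_univ] at this
  rw [this, sum_congr rfl fun e _ => h e]
  simp [mul_comm]

/-- ends of a dart in the vertex-face incidence graph -/
def rv (d : D) : Orb σ ⊕ Orb (σ * α) := Sum.inl (orb σ d)
def rf (d : D) : Orb σ ⊕ Orb (σ * α) := Sum.inr (orb (σ * α) d)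
def e1 (d : D) : Orb α := orb α d
def e2 (d : D) : Orb α := orb α (σ.symm d)

lemma bd_cb (u : Orb α → F2) :
    bd (rv σ α) (rf σ α) (cb (e1 α) (e2 σ α) u) = 0 := by
  ext x
  rw [bd_apply]
  simp only [cb_apply, add_mul, sum_add_distrib, Pi.zero_apply]
  rcases x with v | f
  · have : ∑ d, u (e2 σ α d) * (dl (rv σ α d) (Sum.inl v) + dl (rf σ α d) (Sum.inl v)) =
        ∑ d, u (e1 α d) * (dl (rv σ α d) (Sum.inl v) + dl (rf σ α d) (Sum.inl v)) := by
      rw [← Equiv.sum_comp σ]
      refine sum_congr rfl fun d _ => ?_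
      simp [e1, e2, rv, rf, orb_apply, dl]
    rw [this, F2_add_self]
  · have : ∑ d, u (e2 σ α d) * (dl (rv σ α d) (Sum.inr f) + dl (rf σ α d) (Sum.inr f)) =
        ∑ d, u (e1 α d) * (dl (rv σ α d) (Sum.inr f) + dl (rf σ α d) (Sum.inr f)) := by
      rw [← Equiv.sum_comp (σ * α)]
      refine sum_congr rfl fun d _ => ?_
      have h1 : orb (σ * α) (σ (α d)) = orb (σ * α) d := orb_apply (σ * α) d
      simp [e1, e2, rv, rf, orb_apply, h1, dl]
    rw [this, F2_add_self]

omit [Fintype D] in
lemma const_of_conn {β : Type}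
    (hc : ∀ x y, Relation.ReflTransGen (fun a b => b = σ a ∨ b = α a) x y)
    (t : D → β) (h1 : ∀ d, t (σ d) = t d) (h2 : ∀ d, t (α d) = t d) (x y : D) : t x = t y := by
  induction hc x y with
  | refl => rfl
  | tail _ h ih => rcases h with rfl | rfl <;> simp [h1, h2, ih]

lemma rank_cb [Nonempty D]
    (hc : ∀ x y, Relation.ReflTransGen (fun a b => b = σ a ∨ b = α a) x y) :
    Fintype.card (Orb α) ≤ finrank F2 (LinearMap.range (cb (e1 α) (e2 σ α))) + 1 := by
  have h := LinearMap.finrank_range_add_finrank_ker (cb (e1 α) (e2 σ α))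
  have hk : finrank F2 (LinearMap.ker (cb (e1 α) (e2 σ α))) ≤ 1 := by
    have : LinearMap.ker (cb (e1 α) (e2 σ α)) ≤ Submodule.span F2 {fun _ => (1 : F2)} := by
      intro u hu
      obtain ⟨d0⟩ := ‹Nonempty D›
      have hu' : ∀ d, u (orb α (σ d)) = u (orb α d) := by
        intro d
        have := congrFun (LinearMap.mem_ker.1 hu) (σ d)
        simp only [cb_apply, e1, e2, Equiv.symm_apply_apply, Pi.zero_apply] at this
        rw [← sub_eq_zero, CharTwo.sub_eq_add]; exact this
      have hconst := const_of_conn σ α hc (fun d => u (orb α d)) hu'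
        (fun d => by simp only [orb_apply])
      rw [Submodule.mem_span_singleton]
      refine ⟨u (orb α d0), ?_⟩
      ext e
      obtain ⟨d, rfl⟩ := orb_surj α e
      simp [hconst d0 d]
    exact (Submodule.finrank_mono this).trans (finrank_span_le_card _ |>.trans (by simp))
  simp at h
  omega

lemma rank_bd [Nonempty D]
    (hc : ∀ x y, Relation.ReflTransGen (fun a b => b = σ a ∨ b = α a) x y) :
    Fintype.card (Orb σ) + Fintype.card (Orb (σ * α)) ≤
      finrank F2 (LinearMap.range (bd (rv σ α) (rf σ α))) + 1 := by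
  obtain ⟨d0⟩ := ‹Nonempty D›
  have : Nonempty (Orb σ ⊕ Orb (σ * α)) := ⟨rv σ α d0⟩
  set T := LinearMap.range (bd (rv σ α) (rf σ α)) with hT
  have hvf : ∀ d, dl (rv σ α d) + dl (rf σ α d) ∈ T := fun d => ⟨dl d, bd_single _ _ d⟩
  have key : ∀ (a b c : Orb σ ⊕ Orb (σ * α) → F2), a + b ∈ T → b + c ∈ T → a + c ∈ T := by
    intro a b c h1 h2
    have : a + c = (a + b) + (b + c) := by
      ext x; simp only [Pi.add_apply]
      have := F2_add_self (b x)
      linear_combination -this
    rw [this]; exact T.add_mem h1 h2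
  have hv : ∀ d, dl (rv σ α d) + dl (rv σ α d0) ∈ T := by
    intro d
    induction hc d0 d with
    | refl =>
      have : dl (rv σ α d0) + dl (rv σ α d0) = 0 := by ext x; exact F2_add_self _
      rw [this]; exact T.zero_mem
    | @tail b c _ h ih =>
      rcases h with rfl | rfl
      · have : rv σ α (σ b) = rv σ α b := by simp [rv, orb_apply]
        rw [this]; exact ih
      · have h1 : rv σ α (α b) = rv σ α ((σ * α) b) := by simp [rv, orb_apply]
        have h2 : rf σ α ((σ * α) b) = rf σ α b := by simp only [rf, orb_apply]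
        have h3 := hvf ((σ * α) b)
        rw [h2, ← h1] at h3
        refine key _ _ _ h3 (key _ _ _ ?_ ih)
        rw [add_comm]; exact hvf b
  have hle : LinearMap.ker (tot (Orb σ ⊕ Orb (σ * α))) ≤ T := by
    refine ker_tot_le T (rv σ α d0) ?_
    rintro (v | f)
    · obtain ⟨d, rfl⟩ := orb_surj σ v
      exact hv d
    · obtain ⟨d, rfl⟩ := orb_surj (σ * α) f
      refine key _ _ _ ?_ (hv d)
      rw [add_comm]; exact hvf d
  have h1 := Submodule.finrank_mono hle
  have h2 := finrank_ker_tot (Orb σ ⊕ Orb (σ * α))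
  rw [Fintype.card_sum] at h2
  omega

lemma range_cb_le :
    LinearMap.range (cb (e1 α) (e2 σ α)) ≤ LinearMap.ker (bd (rv σ α) (rf σ α)) := by
  rintro _ ⟨u, rfl⟩
  exact bd_cb σ α u

/-- Euler's inequality for connected maps -/
lemma euler_le [Nonempty D] (hα : ∀ d, α (α d) = d) (hne : ∀ d, α d ≠ d)
    (hc : ∀ x y, Relation.ReflTransGen (fun a b => b = σ a ∨ b = α a) x y) :
    Fintype.card (Orb σ) + Fintype.card (Orb (σ * α)) ≤ Fintype.card (Orb α) + 2 := by
  have h1 := rank_cb σ α hc
  have h2 := rank_bd σ α hc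
  have h3 := Submodule.finrank_mono (range_cb_le σ α)
  have h4 := LinearMap.finrank_range_add_finrank_ker (bd (rv σ α) (rf σ α))
  have h5 := card_darts α hα hne
  simp only [finrank_fintype_fun_eq_card] at h4
  omega

end Maps

lemma PlaneMap.nonempty {D : Type} (M : PlaneMap D) : Nonempty D := by
  by_contra h
  rw [not_nonempty_iff] at h
  have h1 : ∀ π : Equiv.Perm D, Nat.card (Orb π) = 0 := fun π => by
    have : IsEmpty (Orb π) := ⟨fun e => by obtain ⟨d, -⟩ := orb_surj π e; exact h.elim d⟩
    simp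
  have := M.euler
  simp [h1] at this

lemma PlaneMap.exact {D : Type} [Fintype D] (M : PlaneMap D) :
    LinearMap.range (cb (e1 M.α) (e2 M.σ M.α)) =
      LinearMap.ker (bd (rv M.σ M.α) (rf M.σ M.α)) := by
  have := M.nonempty
  refine Submodule.eq_of_le_of_finrank_le (range_cb_le _ _) ?_
  have h1 := rank_cb M.σ M.α M.conn
  have h2 := rank_bd M.σ M.α M.conn
  have h4 := LinearMap.finrank_range_add_finrank_ker (bd (rv M.σ M.α) (rf M.σ M.α))
  have h5 := card_darts M.α M.α_α M.α_ne
  have h6 := M.euler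
  simp only [Nat.card_eq_fintype_card] at h6
  simp only [finrank_fintype_fun_eq_card] at h4
  omega

end Pool.Agent.P.MP_b2489f_co
end

-- part Pool.Agent.P.MP_b2489f_co.LMap
section

set_option autoImplicit false

/-! Labelled maps: a convenient way to build plane maps, and edge subdivision. -/

namespace Pool.Agent.P.MP_b2489f_co

open Finset Classical

/-- A map on darts `E × Bool` given by its face successor, with vertex and face labels. -/
structure LMap (E V F : Type) [Fintype E] [Fintype V] [Fintype F] where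
  φ : E × Bool → E × Bool
  inj : Function.Injective φ
  t : E × Bool → V
  u : E × Bool → F
  ht : ∀ d, t (φ d) = t (d.1, !d.2)
  hu : ∀ d, u (φ d) = u d
  ts : Function.Surjective t
  us : Function.Surjective u
  conn : ∀ P : E × Bool → Prop, (∀ d, P (φ d) ↔ P d) → (∀ e, P (e, true) ↔ P (e, false)) →
    ∀ x y, P x → P y
  card : Fintype.card V + Fintype.card F = Fintype.card E + 2

/-- exchange the two darts of an edge -/
def flipD (E : Type) : Equiv.Perm (E × Bool) where
  toFun d := (d.1, !d.2)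
  invFun d := (d.1, !d.2)
  left_inv d := by simp
  right_inv d := by simp

lemma flipD_apply {E : Type} (d : E × Bool) : flipD E d = (d.1, !d.2) := rfl

lemma card_le_orb {D L : Type} [Fintype D] [Fintype L] (π : Equiv.Perm D) (t : D → L)
    (ht : ∀ d, t (π d) = t d) (hs : Function.Surjective t) :
    ∃ e : Orb π → L, Function.Surjective e ∧ ∀ d, e (orb π d) = t d := by
  refine ⟨Quotient.lift t fun a b h => inv_of_orb_eq π t ht ((orb_eq_iff π a b).2 h), ?_,
    fun d => rfl⟩
  intro l
  obtain ⟨d, rfl⟩ := hs l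
  exact ⟨orb π d, rfl⟩

theorem LMap.toPlane {E V F : Type} [Fintype E] [Fintype V] [Fintype F] [Nonempty E]
    (L : LMap E V F) :
    ∃ (M : PlaneMap (E × Bool)) (eV : Orb M.σ ≃ V) (eF : Orb (M.σ * M.α) ≃ F),
      ∀ v f, v ∈ M.faceVerts f ↔ ∃ d, L.t d = eV v ∧ L.u d = eF f := by
  let φ : Equiv.Perm (E × Bool) :=
    Equiv.ofBijective L.φ (Finite.injective_iff_bijective.1 L.inj)
  let α := flipD E
  have hαα : ∀ d, α (α d) = d := fun d => by simp [α, flipD_apply]
  have hne : ∀ d, α d ≠ d := fun d h => by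
    have := congrArg Prod.snd h
    simp [α, flipD_apply] at this
  let σ := φ * α
  have hσα : ∀ d, (σ * α) d = L.φ d := fun d => by
    show φ (α (α d)) = _
    rw [hαα]; rfl
  have hconn : ∀ x y, Relation.ReflTransGen (fun a b => b = σ a ∨ b = α a) x y := by
    intro x y
    have hφ : ∀ d, Relation.ReflTransGen (fun a b => b = σ a ∨ b = α a) d (φ d) := fun d => by
      refine Relation.ReflTransGen.head (b := α d) (Or.inr rfl) (Relation.ReflTransGen.single ?_)
      left
      show φ d = φ (α (α d))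
      rw [hαα]
    have hpow : ∀ (n : ℕ) d, Relation.ReflTransGen (fun a b => b = σ a ∨ b = α a) d
        ((φ ^ n) d) := by
      intro n
      induction n with
      | zero => intro d; rfl
      | succ n ih => intro d; rw [pow_succ']; exact (ih d).trans (hφ _)
    refine L.conn (fun d => Relation.ReflTransGen (fun a b => b = σ a ∨ b = α a) x d) ?_ ?_ x y
      Relation.ReflTransGen.refl
    · intro d
      refine ⟨fun h => ?_, fun h => h.trans (hφ d)⟩
      have h1 := hpow (orderOf φ - 1) (φ d)
      have h2 : (φ ^ (orderOf φ - 1)) (φ d) = d := by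
        rw [← Equiv.Perm.mul_apply, ← pow_succ, Nat.sub_add_cancel (orderOf_pos φ),
          pow_orderOf_eq_one]
        rfl
      rw [h2] at h1
      exact h.trans h1
    · intro e
      exact ⟨fun h => h.tail (Or.inr rfl), fun h => h.tail (Or.inr rfl)⟩
  have hV := card_le_orb σ L.t (fun d => by
    show L.t (L.φ (α d)) = _
    rw [L.ht]; simp [α, flipD_apply]) L.ts
  have hF := card_le_orb (σ * α) L.u (fun d => by rw [hσα, L.hu]) L.us
  obtain ⟨eV, sV, hV⟩ := hV
  obtain ⟨eF, sF, hF⟩ := hF
  have c1 := Fintype.card_le_of_surjective _ sV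
  have c2 := Fintype.card_le_of_surjective _ sF
  have c3 := euler_le σ α hαα hne hconn
  have c4 := card_darts α hαα hne
  have c5 := L.card
  rw [Fintype.card_prod, Fintype.card_bool] at c4
  have bV : Function.Bijective eV := (Fintype.bijective_iff_surjective_and_card _).2 ⟨sV, by omega⟩
  have bF : Function.Bijective eF := (Fintype.bijective_iff_surjective_and_card _).2 ⟨sF, by omega⟩
  refine ⟨⟨σ, α, hαα, hne, hconn, ?_⟩, Equiv.ofBijective eV bV, Equiv.ofBijective eF bF, ?_⟩
  · simp only [Nat.card_eq_fintype_card]; omega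
  · intro v f
    refine exists_congr fun d => and_congr ?_ ?_
    · rw [← hV]; exact bV.1.eq_iff.symm
    · rw [← hF]; exact bF.1.eq_iff.symm

section Sub

variable {E V F : Type} [Fintype E] [Fintype V] [Fintype F] (L : LMap E V F) (len : E → ℕ)

/-- first segment of a dart -/
def ent (d : E × Bool) : (Σ e, Fin (len e + 1)) × Bool :=
  (⟨d.1, if d.2 then 0 else Fin.last _⟩, d.2)

/-- face successor after subdivision -/
def subφ : (Σ e, Fin (len e + 1)) × Bool → (Σ e, Fin (len e + 1)) × Bool
  | (⟨e, j⟩, true) => if h : j.1 < len e then (⟨e, ⟨j.1 + 1, by omega⟩⟩, true)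
      else ent len (L.φ (e, true))
  | (⟨e, j⟩, false) => if h : 0 < j.1 then (⟨e, ⟨j.1 - 1, by omega⟩⟩, false)
      else ent len (L.φ (e, false))

/-- vertex labels after subdivision -/
def subt : (Σ e, Fin (len e + 1)) × Bool → V ⊕ Σ e, Fin (len e)
  | (⟨e, j⟩, true) => if h : 0 < j.1 then Sum.inr ⟨e, ⟨j.1 - 1, by omega⟩⟩
      else Sum.inl (L.t (e, true))
  | (⟨e, j⟩, false) => if h : j.1 < len e then Sum.inr ⟨e, ⟨j.1, h⟩⟩
      else Sum.inl (L.t (e, false))

lemma subt_ent (d : E × Bool) : subt L len (ent len d) = Sum.inl (L.t d) := by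
  rcases d with ⟨e, _ | _⟩ <;> simp [ent, subt]

omit [Fintype E] in
lemma ent_inj : Function.Injective (ent len) := by
  rintro ⟨e, b⟩ ⟨e', b'⟩ h
  have h1 : e = e' := congrArg (fun x => x.1.1) h
  have h2 : b = b' := congrArg (fun x => x.2) h
  rw [h1, h2]

/-- code of a subdivided dart -/
def cod (x : (Σ e, Fin (len e + 1)) × Bool) : E × ℕ × Bool := (x.1.1, x.1.2.1, x.2)

omit [Fintype E] in
lemma cod_inj : Function.Injective (cod len) := by
  rintro ⟨⟨e, j⟩, b⟩ ⟨⟨e', j'⟩, b'⟩ h
  simp only [cod, Prod.mk.injEq] at h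
  obtain ⟨rfl, h1, rfl⟩ := h
  rw [Fin.ext h1]

omit [Fintype E] in
lemma cod_ent (d : E × Bool) : cod len (ent len d) = (d.1, if d.2 then 0 else len d.1, d.2) := by
  rcases d with ⟨e, _ | _⟩ <;> simp [ent, cod]

lemma subφ_cases (e : E) (j : Fin (len e + 1)) (b : Bool) :
    (j.1 = (if b then len e else 0) ∧ subφ L len (⟨e, j⟩, b) = ent len (L.φ (e, b))) ∨
    (b = true ∧ j.1 < len e ∧ cod len (subφ L len (⟨e, j⟩, b)) = (e, j.1 + 1, true)) ∨
    (b = false ∧ 0 < j.1 ∧ cod len (subφ L len (⟨e, j⟩, b)) = (e, j.1 - 1, false)) := by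
  have := j.2
  cases b <;> simp only [subφ] <;> split_ifs with h <;> simp_all [cod]
  omega

lemma subφ_inj : Function.Injective (subφ L len) := by
  rintro ⟨⟨e, j⟩, b⟩ ⟨⟨e', j'⟩, b'⟩ h
  have hj := j.2
  have hj' := j'.2
  apply cod_inj len
  have h' := congrArg (cod len) h
  simp only [cod, Prod.mk.injEq]
  rcases subφ_cases L len e j b with ⟨h1, h2⟩ | ⟨rfl, h1, h2⟩ | ⟨rfl, h1, h2⟩ <;>
  rcases subφ_cases L len e' j' b' with ⟨h3, h4⟩ | ⟨rfl, h3, h4⟩ | ⟨rfl, h3, h4⟩ <;>
  rw [h2, h4] at h'
  · rw [h2, h4] at h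
    have := L.inj (ent_inj len h)
    simp only [Prod.mk.injEq] at this
    obtain ⟨rfl, rfl⟩ := this
    exact ⟨rfl, by omega, rfl⟩
  all_goals
    try rw [cod_ent] at h'
    simp only [Prod.mk.injEq] at h'
    obtain ⟨h5, h6, h7⟩ := h'
  · rw [h7] at h6; simp at h6
  · rw [h7, h5] at h6; simp at h6; omega
  · rw [← h7] at h6; simp at h6
  · exact ⟨h5, by omega, rfl⟩
  · simp at h7
  · rw [← h7, ← h5] at h6; simp at h6; omega
  · simp at h7
  · exact ⟨h5, by omega, rfl⟩

/-- the subdivided map -/
def LMap.sub : LMap (Σ e, Fin (len e + 1)) (V ⊕ Σ e, Fin (len e)) F where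
  φ := subφ L len
  inj := subφ_inj L len
  t := subt L len
  u := fun x => L.u (x.1.1, x.2)
  ht := by
    rintro ⟨⟨e, j⟩, _ | _⟩
    · simp only [subφ]
      split_ifs with h
      · have := j.2
        simp only [subt, Bool.not_false, h, dif_pos]
        rw [dif_pos (by omega)]
      · rw [subt_ent, L.ht]
        simp only [subt, Bool.not_false, h]
        rfl
    · simp only [subφ]
      split_ifs with h
      · simp [subt, h]
      · rw [subt_ent, L.ht]
        simp only [subt, Bool.not_true, h]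
        rfl
  hu := by
    rintro ⟨⟨e, j⟩, _ | _⟩ <;> simp only [subφ] <;> split_ifs with h
    · rfl
    · exact L.hu _
    · rfl
    · exact L.hu _
  ts := by
    rintro (v | ⟨e, j⟩)
    · obtain ⟨d, rfl⟩ := L.ts v
      exact ⟨_, subt_ent L len d⟩
    · exact ⟨(⟨e, j.castSucc⟩, false), by simp [subt]⟩
  us := fun f => by
    obtain ⟨d, rfl⟩ := L.us f
    exact ⟨ent len d, rfl⟩
  conn := by
    intro P h1 h2
    have up : ∀ e (n : ℕ) (h : n < len e + 1), P (⟨e, ⟨n, h⟩⟩, true) ↔ P (⟨e, 0⟩, true) := by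
      intro e n
      induction n with
      | zero => intro h; rfl
      | succ n ih =>
        intro h
        rw [← ih (by omega), ← h1 (⟨e, ⟨n, by omega⟩⟩, true)]
        simp only [subφ]
        rw [dif_pos (by omega)]
    have all : ∀ e j b, P (⟨e, j⟩, b) ↔ P (⟨e, 0⟩, true) := by
      intro e j b
      cases b
      · rw [← h2]; exact up e j.1 j.2
      · exact up e j.1 j.2
    have := L.conn (fun d => P (⟨d.1, 0⟩, true)) ?_ (fun e => Iff.rfl)
    · rintro ⟨⟨e, j⟩, b⟩ ⟨⟨e', j'⟩, b'⟩ hx
      rw [all] at hx ⊢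
      exact this (e, true) (e', true) hx
    · rintro ⟨e, _ | _⟩
      · have := h1 (⟨e, 0⟩, false)
        simp only [subφ] at this
        rw [dif_neg (by simp), ent, all, all e] at this
        exact this
      · have := h1 (⟨e, Fin.last _⟩, true)
        simp only [subφ] at this
        rw [dif_neg (by simp), ent, all, all e] at this
        exact this
  card := by
    have := L.card
    simp only [Fintype.card_sum, Fintype.card_sigma, Fintype.card_fin, sum_add_distrib, sum_const,
      card_univ, smul_eq_mul, mul_one]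
    omega

lemma sub_inc_inl (v : V) (f : F) :
    (∃ d, (L.sub len).t d = Sum.inl v ∧ (L.sub len).u d = f) ↔ ∃ d, L.t d = v ∧ L.u d = f := by
  constructor
  · rintro ⟨⟨⟨e, j⟩, _ | _⟩, h1, h2⟩ <;> simp only [LMap.sub, subt] at h1 h2 <;>
      split_ifs at h1 <;> exact ⟨_, Sum.inl_injective h1, h2⟩
  · rintro ⟨d, rfl, rfl⟩
    exact ⟨ent len d, subt_ent L len d, rfl⟩

lemma sub_inc_inr (x : Σ e, Fin (len e)) (f : F) :
    (∃ d, (L.sub len).t d = Sum.inr x ∧ (L.sub len).u d = f) ↔ ∃ b, L.u (x.1, b) = f := by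
  constructor
  · rintro ⟨⟨⟨e, j⟩, _ | _⟩, h1, h2⟩ <;> simp only [LMap.sub, subt] at h1 h2 <;>
      split_ifs at h1 <;> obtain rfl := Sum.inr_injective h1 <;> exact ⟨_, h2⟩
  · obtain ⟨e, j⟩ := x
    rintro ⟨_ | _, rfl⟩
    · exact ⟨(⟨e, j.castSucc⟩, false), by simp [LMap.sub, subt], rfl⟩
    · exact ⟨(⟨e, j.succ⟩, true), by simp [LMap.sub, subt], rfl⟩

lemma card_sub_filter (p : V ⊕ (Σ e, Fin (len e)) → Prop) (q : E → Prop)
    [DecidablePred p] [DecidablePred q]
    (hq : ∀ x, p (Sum.inr x) ↔ q x.1) :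
    (univ.filter p).card = (univ.filter fun v => p (Sum.inl v)).card +
      ∑ e, if q e then len e else 0 := by
  rw [card_filter, card_filter, Fintype.sum_sum_type, Fintype.sum_sigma]
  congr 1
  refine sum_congr rfl fun e _ => ?_
  simp only [hq]
  split_ifs <;> simp

end Sub

end Pool.Agent.P.MP_b2489f_co
end
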