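import Pool.Agent.K.MP_b2489f_co.C0

-- part Pool.Agent.P.MP_b2489f_co.Minor
section

set_option autoImplicit false

/-! Euler-type bounds for minors of a graph with an exact dual. -/

namespace Pool.Agent.P.MP_b2489f_co

open Finset Classical Module

lemma F2_cases (x : F2) : x = 0 ∨ x = 1 := by
  fin_cases x
  · exact Or.inl rfl
  · exact Or.inr rfl

lemma add_mem_trans {X : Type} (T : Submodule F2 (X → F2)) (a b c : X → F2) (h1 : a + b ∈ T)
    (h2 : b + c ∈ T) : a + c ∈ T := by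
  have : a + c = (a + b) + (b + c) := by
    ext x; simp only [Pi.add_apply]
    have := F2_add_self (b x)
    linear_combination -this
  rw [this]; exact T.add_mem h1 h2

theorem minor_core {D X Y ι : Type} [Fintype D] [Fintype X] [Fintype Y] [Fintype ι] [Nonempty ι]
    (p1 p2 : D → X) (q1 q2 : D → Y)
    (hex : LinearMap.range (cb q1 q2) = LinearMap.ker (bd p1 p2))
    (W : ι → Set X) (hdis : ∀ i j x, x ∈ W i → x ∈ W j → i = j)
    (hconn : ∀ i, ∃ r, ∀ x ∈ W i, Relation.ReflTransGen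
      (fun a b => a ∈ W i ∧ b ∈ W i ∧ ∃ d, (p1 d = a ∧ p2 d = b) ∨ (p1 d = b ∧ p2 d = a)) r x)
    (A : Finset (ι × ι)) (hne : ∀ a ∈ A, a.1 ≠ a.2) (hasym : ∀ a ∈ A, a.swap ∉ A)
    (hadj : ∀ a ∈ A, ∃ x ∈ W a.1, ∃ y ∈ W a.2,
      ∃ d, (p1 d = x ∧ p2 d = y) ∨ (p1 d = y ∧ p2 d = x))
    (γ : ℕ) (hγ : ∀ z : A → F2, bd (fun a : A => a.1.1) (fun a : A => a.1.2) z = 0 → z ≠ 0 →
      γ ≤ (univ.filter fun a => z a ≠ 0).card)
    (hcard : Fintype.card ι ≤ A.card) :
    γ * (A.card + 2) ≤ 2 * A.card + γ * Fintype.card ι := by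
  choose r hr using hconn
  have hrep : ∀ a : A, ∃ d, (p1 d ∈ W a.1.1 ∧ p2 d ∈ W a.1.2) ∨
      (p1 d ∈ W a.1.2 ∧ p2 d ∈ W a.1.1) := by
    intro a
    obtain ⟨x, hx, y, hy, d, h | h⟩ := hadj a.1 a.2
    · exact ⟨d, Or.inl ⟨h.1 ▸ hx, h.2 ▸ hy⟩⟩
    · exact ⟨d, Or.inr ⟨h.1 ▸ hy, h.2 ▸ hx⟩⟩
  choose rep hrep using hrep
  have hinj : Function.Injective rep := by
    intro a b hab
    have ha := hrep a
    have hb := hrep b
    rw [hab] at ha
    rcases ha with ha | ha <;> rcases hb with hb | hb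
    · exact Subtype.ext (Prod.ext (hdis _ _ _ ha.1 hb.1) (hdis _ _ _ ha.2 hb.2))
    · exfalso
      apply hasym a.1 a.2
      have : a.1.swap = b.1 := Prod.ext (hdis _ _ _ ha.2 hb.2) (hdis _ _ _ ha.1 hb.1)
      rw [this]; exact b.2
    · exfalso
      apply hasym a.1 a.2
      have : a.1.swap = b.1 := Prod.ext (hdis _ _ _ ha.1 hb.1) (hdis _ _ _ ha.2 hb.2)
      rw [this]; exact b.2
    · exact Subtype.ext (Prod.ext (hdis _ _ _ ha.2 hb.2) (hdis _ _ _ ha.1 hb.1))
  -- contracted darts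
  let C : D → Prop := fun d => ∃ i, p1 d ∈ W i ∧ p2 d ∈ W i
  have hrepC : ∀ a, ¬ C (rep a) := by
    rintro a ⟨i, h1, h2⟩
    rcases hrep a with h | h
    · exact hne a.1 a.2 ((hdis _ _ _ h.1 h1).trans (hdis _ _ _ h2 h.2))
    · exact hne a.1 a.2 ((hdis _ _ _ h.2 h2).trans (hdis _ _ _ h1 h.1))
  let Del : D → Prop := fun d => ¬ C d ∧ ∀ a, rep a ≠ d
  let st : Setoid Y := Relation.EqvGen.setoid fun y y' => ∃ d, Del d ∧ q1 d = y ∧ q2 d = y'
  let K := Quotient st
  let _ : Fintype K := Fintype.ofFinite _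
  let cl : Y → K := Quotient.mk st
  have hcl : ∀ d, Del d → cl (q1 d) = cl (q2 d) := fun d hd =>
    Quotient.sound (Relation.EqvGen.rel _ _ ⟨d, hd, rfl, rfl⟩)
  let Ψ : (K → F2) →ₗ[F2] (A → F2) := cb (fun a => cl (q1 (rep a))) (fun a => cl (q2 (rep a)))
  let ZA := LinearMap.ker (bd (fun a : A => a.1.1) (fun a : A => a.1.2))
  -- indicator of a branch set
  let χ : ι → X → F2 := fun i x => if x ∈ W i then 1 else 0
  have hχ : ∀ i j x, x ∈ W j → χ i x = dl j i := by
    intro i j x hx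
    by_cases h : j = i
    · subst h; simp [χ, hx]
    · rw [dl_ne h]
      have : x ∉ W i := fun h' => h (hdis _ _ _ hx h')
      simp [χ, this]
  have hχrep : ∀ i a, χ i (p1 (rep a)) + χ i (p2 (rep a)) = dl a.1.1 i + dl a.1.2 i := by
    intro i a
    rcases hrep a with h | h
    · rw [hχ i _ _ h.1, hχ i _ _ h.2]
    · rw [hχ i _ _ h.1, hχ i _ _ h.2, add_comm]
  have hpush : ∀ (z : D → F2) i, ∑ x, χ i x * bd p1 p2 z x =
      ∑ d, z d * (χ i (p1 d) + χ i (p2 d)) := by
    intro z i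
    simp only [bd_apply, mul_sum]
    rw [sum_comm]
    refine sum_congr rfl fun d _ => ?_
    have : ∀ x, χ i x * (z d * (dl (p1 d) x + dl (p2 d) x)) =
        z d * (dl (p1 d) x * χ i x) + z d * (dl (p2 d) x * χ i x) := fun x => by ring
    simp only [this, sum_add_distrib, ← mul_sum, sum_dl_mul]
    ring
  have hsumrep : ∀ (g : D → F2), (∀ d, (∀ a, rep a ≠ d) → g d = 0) →
      ∑ d, g d = ∑ a, g (rep a) := by
    intro g hg
    rw [← sum_image (s := univ) (g := rep) (fun a _ b _ h => hinj h)]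
    refine (sum_subset (subset_univ _) fun d _ hd => hg d fun a ha => hd ?_).symm
    exact mem_image.2 ⟨a, mem_univ _, ha⟩
  -- (i) the image of Ψ consists of cycles
  have h1 : ∀ c, Ψ c ∈ ZA := by
    intro c
    have hz : bd p1 p2 (cb q1 q2 (c ∘ cl)) = 0 := by
      rw [← LinearMap.mem_ker, ← hex]; exact ⟨_, rfl⟩
    rw [LinearMap.mem_ker]
    ext i
    have := hpush (cb q1 q2 (c ∘ cl)) i
    rw [hz] at this
    simp only [Pi.zero_apply, mul_zero, sum_const_zero] at this
    rw [hsumrep] at this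
    · rw [bd_apply, Pi.zero_apply, this]
      refine sum_congr rfl fun a _ => ?_
      rw [hχrep]; rfl
    · intro d hd
      by_cases hC : C d
      · obtain ⟨j, h1, h2⟩ := hC
        rw [hχ i j _ h1, hχ i j _ h2, F2_add_self, mul_zero]
      · have := hcl d ⟨hC, hd⟩
        simp only [cb_apply, Function.comp, this, F2_add_self, zero_mul]
  -- (ii) every cycle is in the image
  have h2 : ∀ z ∈ ZA, ∃ c, Ψ c = z := by
    intro z hz
    let S : Submodule F2 (D → F2) :=
      { carrier := {w | ∀ d, ¬ C d → w d = 0}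
        add_mem' := fun {a b} ha hb d hd => by simp [ha d hd, hb d hd]
        zero_mem' := fun d _ => rfl
        smul_mem' := fun c w hw d hd => by simp [hw d hd] }
    let T := S.map (bd p1 p2)
    have hT : ∀ i, ∀ x ∈ W i, dl x + dl (r i) ∈ T := by
      intro i x hx
      have := hr i x hx
      clear hx
      induction this with
      | refl =>
        have : dl (r i) + dl (r i) = 0 := by ext x; exact F2_add_self _
        rw [this]; exact T.zero_mem
      | @tail b c _ h ih =>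
        obtain ⟨hb, hc, d, hd⟩ := h
        refine add_mem_trans T _ _ _ ?_ ih
        refine ⟨dl d, ?_, ?_⟩
        · intro d' hd'
          refine dl_ne ?_
          rintro rfl
          rcases hd with hd | hd
          · exact hd' ⟨i, hd.1 ▸ hb, hd.2 ▸ hc⟩
          · exact hd' ⟨i, hd.1 ▸ hc, hd.2 ▸ hb⟩
        · rw [bd_single]
          rcases hd with hd | hd
          · rw [hd.1, hd.2, add_comm]
          · rw [hd.1, hd.2]
    let z0 : D → F2 := ∑ a, z a • dl (rep a)
    have hz0 : ∀ a, z0 (rep a) = z a := by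
      intro a
      simp only [z0, Finset.sum_apply, Pi.smul_apply, smul_eq_mul]
      rw [sum_eq_single a]
      · simp
      · intro b _ hb
        rw [dl_ne fun h => hb (hinj h), mul_zero]
      · simp
    have hz0' : ∀ d, (∀ a, rep a ≠ d) → z0 d = 0 := by
      intro d hd
      simp only [z0, Finset.sum_apply, Pi.smul_apply, smul_eq_mul]
      exact sum_eq_zero fun a _ => by rw [dl_ne (hd a), mul_zero]
    have hzero : ∑ a, z a • (dl (r a.1.1) + dl (r a.1.2)) = (0 : X → F2) := by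
      ext x
      have hz' : ∀ i, ∑ a : A, z a * (dl a.1.1 i + dl a.1.2 i) = 0 := fun i =>
        congrFun (LinearMap.mem_ker.1 hz) i
      have : ∑ i, (∑ a : A, z a * (dl a.1.1 i + dl a.1.2 i)) * dl (r i) x = 0 := by
        simp only [hz', zero_mul, sum_const_zero]
      rw [Pi.zero_apply, ← this]
      simp only [Finset.sum_apply, Pi.smul_apply, smul_eq_mul, Pi.add_apply, sum_mul]
      rw [sum_comm]
      refine sum_congr rfl fun a _ => ?_
      have : ∀ i, z a * (dl a.1.1 i + dl a.1.2 i) * dl (r i) x =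
          z a * (dl a.1.1 i * dl (r i) x) + z a * (dl a.1.2 i * dl (r i) x) := fun i => by ring
      simp only [this, sum_add_distrib, ← mul_sum]
      rw [sum_dl_mul (fun i => dl (r i) x), sum_dl_mul (fun i => dl (r i) x)]
      ring
    have hmem : bd p1 p2 z0 ∈ T := by
      have : bd p1 p2 z0 = ∑ a, z a • ((dl (p1 (rep a)) + dl (p2 (rep a))) +
          (dl (r a.1.1) + dl (r a.1.2))) := by
        simp only [smul_add (z _) (dl (p1 _) + dl (p2 _)), sum_add_distrib, hzero, add_zero]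
        simp only [z0, map_sum, map_smul, bd_single]
      rw [this]
      refine T.sum_mem fun a _ => T.smul_mem _ ?_
      rcases hrep a with h | h
      · have := T.add_mem (hT _ _ h.1) (hT _ _ h.2)
        convert this using 1; abel
      · have := T.add_mem (hT _ _ h.1) (hT _ _ h.2)
        convert this using 1; abel
    obtain ⟨w, hwS, hw⟩ := hmem
    have hker : z0 + w ∈ LinearMap.ker (bd p1 p2) := by
      rw [LinearMap.mem_ker, map_add, hw]
      ext x; exact F2_add_self _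
    rw [← hex] at hker
    obtain ⟨u, hu⟩ := hker
    have hu' : ∀ y y', st.r y y' → u y = u y' := by
      intro y y' h
      induction h with
      | rel a b h =>
        obtain ⟨d, hd, rfl, rfl⟩ := h
        have := congrFun hu d
        rw [cb_apply, Pi.add_apply, hz0' d hd.2, hwS d hd.1, add_zero] at this
        rw [← sub_eq_zero, CharTwo.sub_eq_add]; exact this
      | refl => rfl
      | symm _ _ _ ih => exact ih.symm
      | trans _ _ _ _ _ ih1 ih2 => exact ih1.trans ih2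
    refine ⟨Quotient.lift u hu', ?_⟩
    ext a
    have := congrFun hu (rep a)
    rw [cb_apply, Pi.add_apply, hz0, hwS _ (hrepC a), add_zero] at this
    exact this
  -- dimension of the cycle space
  have h3 : A.card + 1 ≤ finrank F2 ZA + Fintype.card ι := by
    have ha := LinearMap.finrank_range_add_finrank_ker
      (bd (fun a : A => a.1.1) (fun a : A => a.1.2))
    have hb := Submodule.finrank_mono (range_bd_le (fun a : A => a.1.1) (fun a : A => a.1.2))
    have hc := finrank_ker_tot ι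
    simp only [finrank_fintype_fun_eq_card, Fintype.card_coe] at ha
    show A.card + 1 ≤ finrank F2 (LinearMap.ker (bd (fun a : A => a.1.1) (fun a : A => a.1.2))) + _
    omega
  let Q : K → A → F2 := fun κ => Ψ (dl κ)
  let S := univ.filter fun κ => Q κ ≠ 0
  have hdec : ∀ c : K → F2, Ψ c = ∑ κ, c κ • Q κ := by
    intro c
    have : c = ∑ κ, c κ • dl κ := by
      ext y; simp [Finset.sum_apply, sum_mul_dl]
    conv_lhs => rw [this]
    simp only [map_sum, map_smul, Q]
  have hS : S.Nonempty := by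
    by_contra hS
    have hall : ∀ κ, Q κ = 0 := by
      intro κ
      by_contra h
      exact hS ⟨κ, by simp [S, h]⟩
    have : ZA = ⊥ := by
      rw [eq_bot_iff]
      intro z hz
      obtain ⟨c, rfl⟩ := h2 z hz
      rw [hdec]; simp [hall]
    rw [this] at h3
    simp at h3
    omega
  obtain ⟨κ0, hκ0⟩ := hS
  have h4 : finrank F2 ZA + 1 ≤ S.card := by
    have hle : ZA ≤ Submodule.span F2 (((S.erase κ0).image Q : Finset (A → F2)) : Set (A → F2)) := by
      intro z hz
      obtain ⟨c, rfl⟩ := h2 z hz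
      have h0 : Ψ (fun _ => c κ0) = 0 := by ext a; exact F2_add_self _
      have : Ψ c = Ψ (c + fun _ => c κ0) := by rw [map_add, h0, add_zero]
      rw [this, hdec]
      refine Submodule.sum_mem _ fun κ _ => ?_
      by_cases hk : κ = κ0
      · subst hk
        simp [F2_add_self]
      by_cases hq : Q κ = 0
      · simp [hq]
      refine Submodule.smul_mem _ _ (Submodule.subset_span ?_)
      simp only [coe_image, Set.mem_image, mem_coe]
      exact ⟨κ, by simp [S, hk, hq], rfl⟩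
    have := (Submodule.finrank_mono hle).trans (finrank_span_finset_le_card _)
    have h' := card_image_le (s := S.erase κ0) (f := Q)
    rw [card_erase_of_mem hκ0] at h'
    have := card_pos.2 ⟨κ0, hκ0⟩
    omega
  have h5 : ∑ κ ∈ S, (univ.filter fun a => Q κ a ≠ 0).card ≤ 2 * A.card := by
    have := sum_card_bipartiteAbove_eq_sum_card_bipartiteBelow (s := S) (t := (univ : Finset A))
      (fun κ a => Q κ a ≠ 0)
    simp only [bipartiteAbove, bipartiteBelow] at this
    rw [this]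
    calc ∑ a : A, (S.filter fun κ => Q κ a ≠ 0).card ≤ ∑ _a : A, 2 := by
          refine sum_le_sum fun a _ => ?_
          refine (card_le_card (t := {cl (q1 (rep a)), cl (q2 (rep a))}) ?_).trans card_le_two
          intro κ hκ
          rw [mem_filter] at hκ
          by_contra hn
          simp only [mem_insert, mem_singleton, not_or] at hn
          apply hκ.2
          show dl κ (cl (q1 (rep a))) + dl κ (cl (q2 (rep a))) = 0
          rw [dl_ne hn.1, dl_ne hn.2, add_zero]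
      _ = 2 * A.card := by simp [mul_comm]
  have h6 : γ * S.card ≤ ∑ κ ∈ S, (univ.filter fun a => Q κ a ≠ 0).card := by
    rw [mul_comm, ← smul_eq_mul, ← sum_const]
    refine sum_le_sum fun κ hκ => hγ _ (h1 _) (mem_filter.1 hκ).2
  have h7 : γ * (A.card + 2) ≤ γ * (S.card + Fintype.card ι) := Nat.mul_le_mul_left _ (by omega)
  rw [mul_add γ S.card] at h7
  omega

end Pool.Agent.P.MP_b2489f_co
end

-- part Pool.Agent.P.MP_b2489f_co.Plan
section

set_option autoImplicit false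

/-! Planarity interface for a vertex-face incidence relation. -/

namespace Pool.Agent.P.MP_b2489f_co

open Finset Classical Module

lemma girth3 {ι : Type} (A : Finset (ι × ι)) (hne : ∀ a ∈ A, a.1 ≠ a.2)
    (hasym : ∀ a ∈ A, a.swap ∉ A) (z : A → F2)
    (hz : bd (fun a : A => a.1.1) (fun a : A => a.1.2) z = 0) (hz0 : z ≠ 0) :
    3 ≤ (univ.filter fun a => z a ≠ 0).card := by
  obtain ⟨a, ha⟩ : ∃ a, z a ≠ 0 := by
    by_contra h
    push Not at h
    exact hz0 (funext h)
  have key : ∀ i, (a.1.1 = i ∨ a.1.2 = i) → ∃ b, b ≠ a ∧ z b ≠ 0 ∧ (b.1.1 = i ∨ b.1.2 = i) := by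
    intro i hi
    by_contra h
    push Not at h
    have := congrFun hz i
    rw [bd_apply, sum_eq_single a] at this
    · have h1 : dl a.1.1 i + dl a.1.2 i = 1 := by
        rcases hi with rfl | rfl
        · rw [dl_self, dl_ne (hne a.1 a.2).symm, add_zero]
        · rw [dl_self, dl_ne (hne a.1 a.2), zero_add]
      rw [h1, mul_one] at this
      exact ha this
    · intro b _ hb
      by_cases hzb : z b = 0
      · rw [hzb, zero_mul]
      · obtain ⟨h1, h2⟩ := h b hb hzb
        rw [dl_ne h1, dl_ne h2, add_zero, mul_zero]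
    · simp
  obtain ⟨b, hba, hb, hb'⟩ := key _ (Or.inl rfl)
  obtain ⟨c, hca, hc, hc'⟩ := key _ (Or.inr rfl)
  have hbc : b ≠ c := by
    rintro rfl
    rcases hb' with h1 | h1 <;> rcases hc' with h2 | h2
    · exact hne a.1 a.2 (h1.symm.trans h2)
    · exact hba (Subtype.ext (Prod.ext h1 h2))
    · apply hasym a.1 a.2
      have : a.1.swap = b.1 := Prod.ext h2.symm h1.symm
      rw [this]; exact b.2
    · exact hne a.1 a.2 (h1.symm.trans h2)
  have : ({a, b, c} : Finset A).card = 3 := by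
    rw [card_eq_three]; exact ⟨a, b, c, hba.symm, hca.symm, hbc, rfl⟩
  rw [← this]
  refine card_le_card fun x hx => ?_
  simp only [mem_insert, mem_singleton] at hx
  rcases hx with rfl | rfl | rfl <;> simp [*]

lemma girth4 {ι : Type} [Fintype ι] (A : Finset (ι × ι)) (χ : ι → Prop)
    (hχ : ∀ a ∈ A, χ a.1 ∧ ¬ χ a.2) (z : A → F2)
    (hz : bd (fun a : A => a.1.1) (fun a : A => a.1.2) z = 0) (hz0 : z ≠ 0) :
    4 ≤ (univ.filter fun a => z a ≠ 0).card := by
  have h3 := girth3 A (fun a ha h => (hχ a ha).2 (h ▸ (hχ a ha).1))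
    (fun a ha h => (hχ a ha).2 (hχ _ h).1) z hz hz0
  have h0 : ∑ a, z a = 0 := by
    have : ∑ i ∈ univ.filter χ, bd (fun a : A => a.1.1) (fun a : A => a.1.2) z i = 0 := by
      simp only [hz, Pi.zero_apply, sum_const_zero]
    rw [← this]
    simp only [bd_apply]
    rw [sum_comm]
    refine sum_congr rfl fun a _ => ?_
    rw [← mul_sum, sum_add_distrib]
    have h1 : ∑ i ∈ univ.filter χ, dl a.1.1 i = 1 := by
      rw [sum_eq_single a.1.1]
      · simp
      · intro b _ hb; exact dl_ne hb.symm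
      · intro h; exact absurd (mem_filter.2 ⟨mem_univ _, (hχ _ a.2).1⟩) h
    have h2 : ∑ i ∈ univ.filter χ, dl a.1.2 i = 0 := by
      refine sum_eq_zero fun i hi => dl_ne ?_
      rintro rfl
      exact (hχ _ a.2).2 (mem_filter.1 hi).2
    rw [h1, h2, add_zero, mul_one]
  have h1 : (((univ.filter fun a => z a ≠ 0).card : ℕ) : F2) = 0 := by
    refine Eq.trans ?_ h0
    rw [card_filter, Nat.cast_sum]
    refine sum_congr rfl fun a _ => ?_
    rcases F2_cases (z a) with h | h <;> simp [h]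
  by_contra h
  have : (univ.filter fun a => z a ≠ 0).card = 3 := by omega
  rw [this] at h1
  exact absurd h1 (by decide)

variable {V F : Type}

/-- adjacency in the incidence graph -/
def Adj (I : V → F → Prop) : V ⊕ F → V ⊕ F → Prop
  | Sum.inl v, Sum.inr f => I v f
  | Sum.inr f, Sum.inl v => I v f
  | _, _ => False

@[simp] lemma adj_lr {I : V → F → Prop} {v : V} {f : F} :
    Adj I (Sum.inl v) (Sum.inr f) ↔ I v f := Iff.rfl
@[simp] lemma adj_rl {I : V → F → Prop} {v : V} {f : F} :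
    Adj I (Sum.inr f) (Sum.inl v) ↔ I v f := Iff.rfl

lemma Adj.symm {I : V → F → Prop} {a b : V ⊕ F} (h : Adj I a b) : Adj I b a := by
  rcases a with a | a <;> rcases b with b | b <;> exact h

/-- connected subsets of the incidence graph (with a root) -/
def Conn (I : V → F → Prop) (W : Set (V ⊕ F)) : Prop :=
  ∃ r, ∀ x ∈ W, Relation.ReflTransGen (fun a b => a ∈ W ∧ b ∈ W ∧ Adj I a b) r x

/-- two sets joined by an incidence -/
def Touch (I : V → F → Prop) (W W' : Set (V ⊕ F)) : Prop := ∃ x ∈ W, ∃ y ∈ W', Adj I x y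

lemma Touch.symm {I : V → F → Prop} {W W' : Set (V ⊕ F)} (h : Touch I W W') : Touch I W' W := by
  obtain ⟨x, hx, y, hy, h⟩ := h
  exact ⟨y, hy, x, hx, h.symm⟩

lemma Touch.mono {I : V → F → Prop} {W W' U U' : Set (V ⊕ F)} (h : Touch I W W') (h1 : W ⊆ U)
    (h2 : W' ⊆ U') : Touch I U U' := by
  obtain ⟨x, hx, y, hy, h⟩ := h
  exact ⟨x, h1 hx, y, h2 hy, h⟩

lemma conn_singleton (I : V → F → Prop) (a : V ⊕ F) : Conn I {a} :=
  ⟨a, fun x hx => by rw [Set.mem_singleton_iff.1 hx]⟩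

lemma rtg_symm {I : V → F → Prop} {W : Set (V ⊕ F)} {a b : V ⊕ F}
    (h : Relation.ReflTransGen (fun a b => a ∈ W ∧ b ∈ W ∧ Adj I a b) a b) :
    Relation.ReflTransGen (fun a b => a ∈ W ∧ b ∈ W ∧ Adj I a b) b a := by
  induction h with
  | refl => rfl
  | tail _ h ih => exact Relation.ReflTransGen.head ⟨h.2.1, h.1, h.2.2.symm⟩ ih

lemma rtg_imp {β : Type} {r s : β → β → Prop} (hrs : ∀ a b, r a b → s a b) {a b : β}
    (h : Relation.ReflTransGen r a b) : Relation.ReflTransGen s a b := by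
  induction h with
  | refl => rfl
  | tail _ h ih => exact ih.tail (hrs _ _ h)

lemma rtg_mono {I : V → F → Prop} {W U : Set (V ⊕ F)} (hWU : W ⊆ U) {a b : V ⊕ F}
    (h : Relation.ReflTransGen (fun a b => a ∈ W ∧ b ∈ W ∧ Adj I a b) a b) :
    Relation.ReflTransGen (fun a b => a ∈ U ∧ b ∈ U ∧ Adj I a b) a b :=
  rtg_imp (fun _ _ h => ⟨hWU h.1, hWU h.2.1, h.2.2⟩) h

/-- a connected set together with connected sets touching it -/
lemma conn_iUnion {I : V → F → Prop} {ι : Type} {W : Set (V ⊕ F)} (hW : Conn I W)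
    (P : ι → Prop) (Q : ι → Set (V ⊕ F)) (hQ : ∀ i, P i → Conn I (Q i))
    (hT : ∀ i, P i → Touch I W (Q i)) : Conn I (W ∪ {x | ∃ i, P i ∧ x ∈ Q i}) := by
  obtain ⟨r, hr⟩ := hW
  refine ⟨r, ?_⟩
  rintro x (hx | ⟨i, hi, hx⟩)
  · exact rtg_mono Set.subset_union_left (hr x hx)
  · obtain ⟨a, ha, b, hb, hab⟩ := hT i hi
    obtain ⟨s, hs⟩ := hQ i hi
    have hsub : Q i ⊆ W ∪ {x | ∃ i, P i ∧ x ∈ Q i} := fun y hy => Or.inr ⟨i, hi, hy⟩
    refine (rtg_mono Set.subset_union_left (hr a ha)).trans ?_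
    refine Relation.ReflTransGen.head ⟨Or.inl ha, hsub hb, hab⟩ ?_
    exact (rtg_mono hsub (rtg_symm (hs b hb))).trans (rtg_mono hsub (hs x hx))

lemma Conn.union {I : V → F → Prop} {W U : Set (V ⊕ F)} (hW : Conn I W) (hU : Conn I U)
    (hT : Touch I W U) : Conn I (W ∪ U) := by
  have := conn_iUnion hW (fun _ : Unit => True) (fun _ => U) (fun _ _ => hU) (fun _ _ => hT)
  simpa using this

/-- planarity of an incidence relation, in MacLane-Whitney form -/
def Plan (I : V → F → Prop) : Prop :=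
  ∃ (D Y : Type) (_ : Fintype D) (_ : Fintype Y) (pv : D → V) (pf : D → F) (q1 q2 : D → Y),
    (∀ v f, I v f → ∃ d, pv d = v ∧ pf d = f) ∧
    LinearMap.range (cb q1 q2) =
      LinearMap.ker (bd (fun d => (Sum.inl (pv d) : V ⊕ F)) (fun d => Sum.inr (pf d)))

lemma PlaneMap.plan {D : Type} [Fintype D] (M : PlaneMap D) :
    Plan fun v f => v ∈ M.faceVerts f :=
  ⟨D, Orb M.α, inferInstance, inferInstance, orb M.σ, orb (M.σ * M.α), e1 M.α, e2 M.σ M.α,
    fun _ _ h => h, M.exact⟩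

lemma Plan.mono {I J : V → F → Prop} (h : Plan I) (hJ : ∀ v f, J v f → I v f) : Plan J := by
  obtain ⟨D, Y, _, _, pv, pf, q1, q2, h1, h2⟩ := h
  exact ⟨D, Y, inferInstance, inferInstance, pv, pf, q1, q2, fun v f h => h1 v f (hJ v f h), h2⟩

variable [Fintype V] [Fintype F]

theorem Plan.minor {I : V → F → Prop} (h : Plan I) {ι : Type} [Fintype ι] [Nonempty ι]
    (W : ι → Set (V ⊕ F)) (hdis : ∀ i j x, x ∈ W i → x ∈ W j → i = j)
    (hconn : ∀ i, Conn I (W i))
    (A : Finset (ι × ι)) (hne : ∀ a ∈ A, a.1 ≠ a.2) (hasym : ∀ a ∈ A, a.swap ∉ A)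
    (hadj : ∀ a ∈ A, Touch I (W a.1) (W a.2))
    (γ : ℕ) (hγ : ∀ z : A → F2, bd (fun a : A => a.1.1) (fun a : A => a.1.2) z = 0 → z ≠ 0 →
      γ ≤ (univ.filter fun a => z a ≠ 0).card)
    (hcard : Fintype.card ι ≤ A.card) :
    γ * (A.card + 2) ≤ 2 * A.card + γ * Fintype.card ι := by
  obtain ⟨D, Y, _, _, pv, pf, q1, q2, h1, h2⟩ := h
  have key : ∀ a b, Adj I a b → ∃ d, ((Sum.inl (pv d) : V ⊕ F) = a ∧ Sum.inr (pf d) = b) ∨
      ((Sum.inl (pv d) : V ⊕ F) = b ∧ Sum.inr (pf d) = a) := by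
    rintro (a | a) (b | b) hab
    · exact hab.elim
    · obtain ⟨d, rfl, rfl⟩ := h1 _ _ hab
      exact ⟨d, Or.inl ⟨rfl, rfl⟩⟩
    · obtain ⟨d, rfl, rfl⟩ := h1 _ _ hab
      exact ⟨d, Or.inr ⟨rfl, rfl⟩⟩
    · exact hab.elim
  refine minor_core _ _ q1 q2 h2 W hdis (fun i => ?_) A hne hasym (fun a ha => ?_) γ hγ hcard
  · obtain ⟨r, hr⟩ := hconn i
    exact ⟨r, fun x hx => rtg_imp (fun a b h => ⟨h.1, h.2.1, key _ _ h.2.2⟩) (hr x hx)⟩
  · obtain ⟨x, hx, y, hy, hxy⟩ := hadj a ha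
    exact ⟨x, hx, y, hy, key _ _ hxy⟩

theorem Plan.minor3 {I : V → F → Prop} (h : Plan I) {ι : Type} [Fintype ι]
    (W : ι → Set (V ⊕ F)) (hdis : ∀ i j x, x ∈ W i → x ∈ W j → i = j)
    (hconn : ∀ i, Conn I (W i))
    (A : Finset (ι × ι)) (hne : ∀ a ∈ A, a.1 ≠ a.2) (hasym : ∀ a ∈ A, a.swap ∉ A)
    (hadj : ∀ a ∈ A, Touch I (W a.1) (W a.2)) : A.card ≤ 3 * Fintype.card ι := by
  rcases A.eq_empty_or_nonempty with rfl | ⟨a, -⟩
  · simp
  have : Nonempty ι := ⟨a.1⟩
  by_cases hc : Fintype.card ι ≤ A.card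
  · have := h.minor W hdis hconn A hne hasym hadj 3 (girth3 A hne hasym) hc
    omega
  · omega

theorem Plan.minor4 {I : V → F → Prop} (h : Plan I) {ι : Type} [Fintype ι] [Nonempty ι]
    (W : ι → Set (V ⊕ F)) (hdis : ∀ i j x, x ∈ W i → x ∈ W j → i = j)
    (hconn : ∀ i, Conn I (W i))
    (A : Finset (ι × ι)) (χ : ι → Prop) (hχ : ∀ a ∈ A, χ a.1 ∧ ¬ χ a.2)
    (hadj : ∀ a ∈ A, Touch I (W a.1) (W a.2)) (hc : Fintype.card ι ≤ A.card) :
    A.card + 4 ≤ 2 * Fintype.card ι := by
  have := h.minor W hdis hconn A (fun a ha h => (hχ a ha).2 (h ▸ (hχ a ha).1))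
    (fun a ha h => (hχ a ha).2 (hχ _ h).1) hadj 4 (girth4 A χ hχ) hc
  omega

/-- no `K_{3,3}` minor -/
theorem Plan.noK33 {I : V → F → Prop} (h : Plan I) (W U : Fin 3 → Set (V ⊕ F))
    (hW : ∀ i j x, x ∈ W i → x ∈ W j → i = j) (hU : ∀ i j x, x ∈ U i → x ∈ U j → i = j)
    (hWU : ∀ i j x, x ∈ W i → x ∉ U j) (cW : ∀ i, Conn I (W i)) (cU : ∀ i, Conn I (U i))
    (hT : ∀ i j, Touch I (W i) (U j)) : False := by
  let A : Finset ((Fin 3 ⊕ Fin 3) × (Fin 3 ⊕ Fin 3)) :=
    univ.image fun p : Fin 3 × Fin 3 => (Sum.inl p.1, Sum.inr p.2)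
  have hA : A.card = 9 := by
    rw [card_image_of_injective]
    · simp
    · rintro ⟨a, b⟩ ⟨c, d⟩ h
      simpa using h
  have := h.minor4 (ι := Fin 3 ⊕ Fin 3) (Sum.elim W U) ?_ ?_ A (fun i => i.isLeft = true) ?_ ?_
    (by simp [hA])
  · simp [hA] at this
  · rintro (i | i) (j | j) x h1 h2
    · rw [hW i j x h1 h2]
    · exact (hWU i j x h1 h2).elim
    · exact (hWU j i x h2 h1).elim
    · rw [hU i j x h1 h2]
  · rintro (i | i)
    · exact cW i
    · exact cU i
  · intro a ha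
    obtain ⟨p, -, rfl⟩ := mem_image.1 ha
    simp
  · intro a ha
    obtain ⟨p, -, rfl⟩ := mem_image.1 ha
    exact hT _ _

/-- sparsity of the incidence graph -/
theorem Plan.sparse {I : V → F → Prop} (h : Plan I) (E : Finset (V × F))
    (hE : ∀ e ∈ E, I e.1 e.2) (X : Finset V) (Y : Finset F) (hX : ∀ e ∈ E, e.1 ∈ X)
    (hY : ∀ e ∈ E, e.2 ∈ Y) : E.card ≤ 2 * (X.card + Y.card) := by
  rcases E.eq_empty_or_nonempty with rfl | ⟨e0, he0⟩
  · simp
  have : Nonempty (X ⊕ Y) := ⟨Sum.inl ⟨e0.1, hX _ he0⟩⟩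
  let g : E → (X ⊕ Y) × (X ⊕ Y) := fun e =>
    (Sum.inl ⟨e.1.1, hX _ e.2⟩, Sum.inr ⟨e.1.2, hY _ e.2⟩)
  have hg : Function.Injective g := by
    intro a b hab
    simp only [g, Prod.mk.injEq, Sum.inl.injEq, Subtype.mk.injEq, Sum.inr.injEq] at hab
    exact Subtype.ext (Prod.ext hab.1 hab.2)
  have hA : (univ.image g).card = E.card := by
    rw [card_image_of_injective _ hg]; simp
  by_cases hc : Fintype.card (X ⊕ Y) ≤ (univ.image g).card
  · have := h.minor4 (ι := X ⊕ Y) (fun i => {Sum.map Subtype.val Subtype.val i}) ?_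
      (fun i => conn_singleton _ _) (univ.image g) (fun i => i.isLeft = true) ?_ ?_ hc
    · simp only [Fintype.card_sum, Fintype.card_coe] at this
      omega
    · intro i j x h1 h2
      rw [Set.mem_singleton_iff] at h1 h2
      exact (Subtype.val_injective.sumMap Subtype.val_injective) (h1.symm.trans h2)
    · intro a ha
      obtain ⟨p, -, rfl⟩ := mem_image.1 ha
      simp [g]
    · intro a ha
      obtain ⟨p, -, rfl⟩ := mem_image.1 ha
      exact ⟨_, rfl, _, rfl, hE _ p.2⟩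
  · simp only [Fintype.card_sum, Fintype.card_coe] at hc
    omega

/-- pairs of cells joined through pairwise disjoint connectors -/
theorem Plan.connectors {I : V → F → Prop} (h : Plan I) {C Γ : Type} [Fintype C]
    (W : C → Set (V ⊕ F)) (Q : Γ → Set (V ⊕ F)) (P : Γ → Prop)
    (hW : ∀ i j x, x ∈ W i → x ∈ W j → i = j)
    (hQ : ∀ i j x, P i → P j → x ∈ Q i → x ∈ Q j → i = j)
    (hWQ : ∀ i j x, P j → x ∈ W i → x ∉ Q j) (cW : ∀ i, Conn I (W i))
    (cQ : ∀ i, P i → Conn I (Q i))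
    (R : Γ → C → Prop) (hR : ∀ γ c, P γ → R γ c → Touch I (W c) (Q γ)) (M : ℕ)
    (hM : ∀ γ, P γ → (univ.filter (R γ)).card ≤ M) :
    (univ.filter fun p : C × C => p.1 ≠ p.2 ∧ ∃ γ, P γ ∧ R γ p.1 ∧ R γ p.2).card ≤
      6 * M * Fintype.card C := by
  have henum : ∀ γ, ∃ e : C → Fin M → Prop, P γ → (∀ c, R γ c → ∃ j, e c j) ∧
      (∀ c c' j, e c j → e c' j → c = c') ∧ ∀ c j, e c j → R γ c := by
    intro γ
    by_cases hP : P γ
    · have hc : Fintype.card (univ.filter (R γ)) ≤ Fintype.card (Fin M) := by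
        rw [Fintype.card_coe, Fintype.card_fin]; exact hM γ hP
      obtain ⟨f⟩ := Function.Embedding.nonempty_of_card_le hc
      refine ⟨fun c j => ∃ hc : c ∈ univ.filter (R γ), f ⟨c, hc⟩ = j, fun _ => ⟨?_, ?_, ?_⟩⟩
      · intro c hc
        exact ⟨_, by simpa using hc, rfl⟩
      · rintro c c' j ⟨h1, h2⟩ ⟨h3, h4⟩
        exact congrArg Subtype.val (f.injective (h2.trans h4.symm))
      · rintro c j ⟨h1, -⟩
        exact (mem_filter.1 h1).2
    · exact ⟨fun _ _ => False, fun h => absurd h hP⟩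
  choose e he using henum
  let lt : C → C → Prop := fun a b => (Fintype.equivFin C a) < Fintype.equivFin C b
  let B : Fin M → Finset (C × C) := fun j =>
    univ.filter fun p => p.1 ≠ p.2 ∧ ∃ γ, P γ ∧ e γ p.1 j ∧ R γ p.2
  have hB : ∀ j, (B j).card ≤ 6 * Fintype.card C := by
    intro j
    let W' : C → Set (V ⊕ F) := fun c => W c ∪ {x | ∃ γ, (P γ ∧ e γ c j) ∧ x ∈ Q γ}
    have hdis : ∀ a b x, x ∈ W' a → x ∈ W' b → a = b := by
      rintro a b x (h1 | ⟨γ, ⟨p1, e1⟩, h1⟩) (h2 | ⟨γ', ⟨p2, e2⟩, h2⟩)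
      · exact hW _ _ _ h1 h2
      · exact (hWQ _ _ _ p2 h1 h2).elim
      · exact (hWQ _ _ _ p1 h2 h1).elim
      · obtain rfl := hQ _ _ _ p1 p2 h1 h2
        exact (he γ p1).2.1 _ _ _ e1 e2
    have hconn : ∀ c, Conn I (W' c) := fun c =>
      conn_iUnion (cW c) _ Q (fun γ h => cQ γ h.1)
        (fun γ h => hR γ c h.1 ((he γ h.1).2.2 _ _ h.2))
    have hT : ∀ p ∈ B j, Touch I (W' p.1) (W' p.2) := by
      intro p hp
      obtain ⟨-, γ, h1, h2, h3⟩ := (mem_filter.1 hp).2
      exact (hR γ p.2 h1 h3).symm.mono (fun x hx => Or.inr ⟨γ, ⟨h1, h2⟩, hx⟩)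
        Set.subset_union_left
    have h1 := h.minor3 W' hdis hconn ((B j).filter fun p => lt p.1 p.2)
      (fun a ha => (mem_filter.1 (mem_filter.1 ha).1).2.1)
      (fun a ha ha' => lt_asymm (mem_filter.1 ha).2 (mem_filter.1 ha').2)
      (fun a ha => hT a (mem_filter.1 ha).1)
    have h2 := h.minor3 W' hdis hconn ((B j).filter fun p => ¬ lt p.1 p.2)
      (fun a ha => (mem_filter.1 (mem_filter.1 ha).1).2.1)
      (fun a ha ha' => by
        have e1 := (mem_filter.1 ha).2
        have e2 := (mem_filter.1 ha').2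
        simp only [lt, not_lt, Prod.fst_swap, Prod.snd_swap] at e1 e2
        exact (mem_filter.1 (mem_filter.1 ha).1).2.1
          ((Fintype.equivFin C).injective (le_antisymm e2 e1)))
      (fun a ha => hT a (mem_filter.1 ha).1)
    have := card_filter_add_card_filter_not (s := B j) (fun p => lt p.1 p.2)
    omega
  calc _ ≤ (univ.biUnion B).card := by
        refine card_le_card fun p hp => ?_
        obtain ⟨h1, γ, h2, h3, h4⟩ := (mem_filter.1 hp).2
        obtain ⟨j, hj⟩ := (he γ h2).1 _ h3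
        exact mem_biUnion.2 ⟨j, mem_univ _, mem_filter.2 ⟨mem_univ _, h1, γ, h2, hj, h4⟩⟩
    _ ≤ ∑ j, (B j).card := card_biUnion_le
    _ ≤ ∑ _j : Fin M, 6 * Fintype.card C := sum_le_sum fun j _ => hB j
    _ = 6 * M * Fintype.card C := by simp; ring

end Pool.Agent.P.MP_b2489f_co
end
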