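import Mathlib

-- part Pool.Agent.P.MP_b2489f_co.Kempe
section

set_option autoImplicit false

/-! Edge colouring of multigraphs without dense triangles (an improvement of Shannon's bound). -/

namespace Pool.Agent.P.MP_b2489f_co.Kempe

open Finset Classical

variable {E N : Type} (p q : E → N) {k : ℕ}

def Jn (e : E) (x y : N) : Prop := (p e = x ∧ q e = y) ∨ (p e = y ∧ q e = x)
def Ic (e : E) (v : N) : Prop := p e = v ∨ q e = v
def Pr (B : Finset E) (c : E → Fin k) : Prop :=
  ∀ e ∈ B, ∀ e' ∈ B, ∀ v, Ic p q e v → Ic p q e' v → c e = c e' → e = e'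
def Ms (B : Finset E) (c : E → Fin k) (v : N) (α : Fin k) : Prop :=
  ∀ e ∈ B, Ic p q e v → c e ≠ α
def St (B : Finset E) (c : E → Fin k) (α γ : Fin k) (a b : N) : Prop :=
  ∃ e ∈ B, (c e = α ∨ c e = γ) ∧ Jn p q e a b
def Rc (B : Finset E) (c : E → Fin k) (α γ : Fin k) : N → N → Prop :=
  Relation.ReflTransGen (St p q B c α γ)

variable {p q}

lemma Jn.symm {e : E} {x y : N} (h : Jn p q e x y) : Jn p q e y x := Or.symm h
lemma Jn.left {e : E} {x y : N} (h : Jn p q e x y) : Ic p q e x := by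
  rcases h with h | h
  · exact Or.inl h.1
  · exact Or.inr h.2
lemma Jn.right {e : E} {x y : N} (h : Jn p q e x y) : Ic p q e y := h.symm.left
lemma Jn.ic {e : E} {x y v : N} (h : Jn p q e x y) (hv : Ic p q e v) : v = x ∨ v = y := by
  rcases h with ⟨rfl, rfl⟩ | ⟨rfl, rfl⟩ <;> rcases hv with rfl | rfl <;> simp
lemma Ic.jn {e : E} {v : N} (h : Ic p q e v) : ∃ w, Jn p q e v w := by
  rcases h with h | h
  · exact ⟨_, Or.inl ⟨h, rfl⟩⟩
  · exact ⟨_, Or.inr ⟨rfl, h⟩⟩
lemma Jn.ne {e : E} {x y : N} (h : Jn p q e x y) (hl : p e ≠ q e) : x ≠ y := by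
  rintro rfl
  rcases h with h | h <;> exact hl (h.1.trans h.2.symm)

lemma Rc.symm {B : Finset E} {c : E → Fin k} {α γ : Fin k} {a b : N} (h : Rc p q B c α γ a b) :
    Rc p q B c α γ b a := by
  induction h with
  | refl => exact Relation.ReflTransGen.refl
  | tail _ h ih =>
    obtain ⟨e, he, h1, h2⟩ := h
    exact Relation.ReflTransGen.head ⟨e, he, h1, h2.symm⟩ ih

lemma Rc.trans {B : Finset E} {c : E → Fin k} {α γ : Fin k} {a b d : N} (h : Rc p q B c α γ a b)
    (h' : Rc p q B c α γ b d) : Rc p q B c α γ a d := Relation.ReflTransGen.trans h h'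

/-- a connected graph has at least `n - 1` edges -/
lemma conn_card (T : Finset E) (r : N) (K : Finset N) (hr : r ∈ K)
    (hK : ∀ u ∈ K, Relation.ReflTransGen (fun a b => b ∈ K ∧ ∃ e ∈ T, Jn p q e a b) r u) :
    K.card ≤ T.card + 1 := by
  have key : ∀ n, n + 1 ≤ K.card → ∃ S ⊆ K, r ∈ S ∧ S.card = n + 1 ∧ ∃ T' ⊆ T, T'.card = n ∧
      ∀ e ∈ T', p e ∈ S ∧ q e ∈ S := by
    intro n
    induction n with
    | zero => intro _; exact ⟨{r}, by simpa, by simp, by simp, ∅, by simp, by simp, by simp⟩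
    | succ n ih =>
      intro hn
      obtain ⟨S, hS, hrS, hc, T', hT', hc', hT⟩ := ih (by omega)
      obtain ⟨u, hu, huS⟩ : ∃ u ∈ K, u ∉ S := by
        by_contra h
        push Not at h
        have := card_le_card (show K ⊆ S from h)
        omega
      have : ∃ a ∈ S, ∃ b ∈ K, b ∉ S ∧ ∃ e ∈ T, Jn p q e a b := by
        have h := hK u hu
        clear hu
        induction h with
        | refl => exact absurd hrS huS
        | @tail b d _ h ih =>
          by_cases hb : b ∈ S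
          · exact ⟨b, hb, d, h.1, huS, h.2⟩
          · exact ih hb
      obtain ⟨a, ha, b, hb, hbS, e, he, hj⟩ := this
      have heT : e ∉ T' := fun h => by
        rcases hj with h' | h'
        · exact hbS (h'.2 ▸ (hT e h).2)
        · exact hbS (h'.1 ▸ (hT e h).1)
      refine ⟨insert b S, insert_subset hb hS, mem_insert_of_mem hrS,
        by rw [card_insert_of_notMem hbS, hc], insert e T', insert_subset he hT',
        by rw [card_insert_of_notMem heT, hc'], ?_⟩
      intro e' he'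
      rcases mem_insert.1 he' with rfl | h
      · rcases hj with ⟨rfl, rfl⟩ | ⟨rfl, rfl⟩ <;> simp [ha]
      · exact ⟨mem_insert_of_mem (hT _ h).1, mem_insert_of_mem (hT _ h).2⟩
  have h0 : 0 < K.card := card_pos.2 ⟨r, hr⟩
  obtain ⟨S, -, -, -, T', h1, h2, -⟩ := key (K.card - 1) (by omega)
  have := card_le_card h1
  omega

variable [Fintype N]

lemma ends {B : Finset E} {c : E → Fin k} (hl : ∀ e ∈ B, p e ≠ q e) (hc : Pr p q B c)
    {α γ : Fin k} {x y z : N} (hxy : x ≠ y) (hxz : x ≠ z) (hyz : y ≠ z)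
    (h1 : Rc p q B c α γ x y) (h2 : Rc p q B c α γ x z)
    (mx : Ms p q B c x α ∨ Ms p q B c x γ) (my : Ms p q B c y α ∨ Ms p q B c y γ)
    (mz : Ms p q B c z α ∨ Ms p q B c z γ) : False := by
  let K : Finset N := univ.filter fun u => Rc p q B c α γ x u
  let T : Finset E := B.filter fun e => (c e = α ∨ c e = γ) ∧ p e ∈ K
  have hK : ∀ u, u ∈ K ↔ Rc p q B c α γ x u := fun u => by simp [K]
  have hx : x ∈ K := (hK x).2 Relation.ReflTransGen.refl
  have c1 : K.card ≤ T.card + 1 := by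
    refine conn_card (p := p) (q := q) T x K hx fun u hu => ?_
    rw [hK] at hu
    induction hu with
    | refl => rfl
    | @tail b d h h' ih =>
      have hd : d ∈ K := (hK d).2 (Relation.ReflTransGen.tail h h')
      refine ih.tail ⟨hd, ?_⟩
      obtain ⟨e, he, h3, h4⟩ := h'
      refine ⟨e, mem_filter.2 ⟨he, h3, ?_⟩, h4⟩
      rcases h4 with h4 | h4
      · rw [h4.1]; exact (hK b).2 h
      · rw [h4.1]; exact hd
  have c2 : T.card * 2 ≤ ∑ u ∈ K, (T.filter fun e => Ic p q e u).card := by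
    simp only [card_filter]
    rw [sum_comm, ← smul_eq_mul, ← sum_const]
    refine sum_le_sum fun e he => ?_
    obtain ⟨he, h3, h4⟩ := mem_filter.1 he
    rw [← card_filter, ← card_pair (hl e he)]
    refine card_le_card fun u hu => ?_
    rcases mem_insert.1 hu with rfl | hu
    · exact mem_filter.2 ⟨h4, Or.inl rfl⟩
    · rw [mem_singleton.1 hu]
      exact mem_filter.2 ⟨(hK _).2 (Relation.ReflTransGen.tail ((hK _).1 h4)
        ⟨e, he, h3, Or.inl ⟨rfl, rfl⟩⟩), Or.inr rfl⟩
  have dg : ∀ (u : N) (S : Finset (Fin k)),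
      (∀ e ∈ B, Ic p q e u → (c e = α ∨ c e = γ) → c e ∈ S) →
      (T.filter fun e => Ic p q e u).card ≤ S.card := by
    intro u S hS
    refine card_le_card_of_injOn c (fun e he => ?_) fun e he e' he' h => ?_
    · obtain ⟨h3, h4⟩ := mem_filter.1 he
      exact hS e (mem_filter.1 h3).1 h4 (mem_filter.1 h3).2.1
    · obtain ⟨h3, h4⟩ := mem_filter.1 he
      obtain ⟨h5, h6⟩ := mem_filter.1 he'
      exact hc e (mem_filter.1 h3).1 e' (mem_filter.1 h5).1 u h4 h6 h
  have d2 : ∀ u, (T.filter fun e => Ic p q e u).card ≤ 2 := fun u =>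
    (dg u {α, γ} fun e _ _ h => by simpa using h).trans card_le_two
  have d1 : ∀ u, (Ms p q B c u α ∨ Ms p q B c u γ) → (T.filter fun e => Ic p q e u).card ≤ 1 := by
    rintro u (h | h)
    · exact dg u {γ} fun e he h3 h4 => by simpa [h e he h3] using h4
    · exact dg u {α} fun e he h3 h4 => by simpa [h e he h3] using h4
  have hsub : ({x, y, z} : Finset N) ⊆ K := by
    intro u hu
    simp only [mem_insert, mem_singleton] at hu
    rcases hu with rfl | rfl | rfl
    · exact hx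
    · exact (hK _).2 h1
    · exact (hK _).2 h2
  have c3 : ({x, y, z} : Finset N).card = 3 := card_eq_three.2 ⟨x, y, z, hxy, hxz, hyz, rfl⟩
  rw [← sum_sdiff hsub] at c2
  have c4 : ∑ u ∈ K \ {x, y, z}, (T.filter fun e => Ic p q e u).card ≤ (K \ {x, y, z}).card * 2 :=
    by rw [← smul_eq_mul]; exact sum_le_card_nsmul _ _ _ fun u _ => d2 u
  have c5 : ∑ u ∈ {x, y, z}, (T.filter fun e => Ic p q e u).card ≤
      ({x, y, z} : Finset N).card * 1 := by
    rw [← smul_eq_mul]
    refine sum_le_card_nsmul _ _ _ fun u hu => d1 u ?_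
    simp only [mem_insert, mem_singleton] at hu
    rcases hu with rfl | rfl | rfl <;> assumption
  have c6 := card_sdiff_add_card_eq_card hsub
  omega

omit [Fintype N] in
lemma swap {B : Finset E} {c : E → Fin k} (hc : Pr p q B c) (α γ : Fin k) (v : N) :
    ∃ c' : E → Fin k, Pr p q B c' ∧ (Ms p q B c v γ → Ms p q B c' v α) ∧
      (∀ e, c e ≠ α → c e ≠ γ → c' e = c e) ∧
      (∀ u δ, δ ≠ α → δ ≠ γ → Ms p q B c u δ → Ms p q B c' u δ) ∧
      ∀ u, ¬ Rc p q B c α γ v u → (∀ e ∈ B, Ic p q e u → c' e = c e) ∧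
        ∀ δ, Ms p q B c u δ → Ms p q B c' u δ := by
  let c' : E → Fin k := fun e => if Rc p q B c α γ v (p e) then Equiv.swap α γ (c e) else c e
  have f1 : ∀ e, c e ≠ α → c e ≠ γ → c' e = c e := fun e h1 h2 => by
    simp only [c']
    split_ifs
    · exact Equiv.swap_apply_of_ne_of_ne h1 h2
    · rfl
  have key : ∀ e ∈ B, (c e = α ∨ c e = γ) → ∀ u, Ic p q e u →
      (Rc p q B c α γ v (p e) ↔ Rc p q B c α γ v u) := by
    rintro e he h u (rfl | rfl)
    · rfl
    · exact ⟨fun h' => h'.tail ⟨e, he, h, Or.inl ⟨rfl, rfl⟩⟩,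
        fun h' => h'.tail ⟨e, he, h, Or.inr ⟨rfl, rfl⟩⟩⟩
  have fin : ∀ e ∈ B, ∀ u, Ic p q e u → Rc p q B c α γ v u → c' e = Equiv.swap α γ (c e) := by
    intro e he u hu h
    by_cases h1 : c e = α ∨ c e = γ
    · simp only [c']
      rw [if_pos ((key e he h1 u hu).2 h)]
    · push Not at h1
      rw [f1 e h1.1 h1.2, Equiv.swap_apply_of_ne_of_ne h1.1 h1.2]
  have fout : ∀ e ∈ B, ∀ u, Ic p q e u → ¬ Rc p q B c α γ v u → c' e = c e := by
    intro e he u hu h
    by_cases h1 : c e = α ∨ c e = γ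
    · simp only [c']
      rw [if_neg fun h' => h ((key e he h1 u hu).1 h')]
    · push Not at h1
      exact f1 e h1.1 h1.2
  refine ⟨c', ?_, ?_, f1, ?_, fun u hu => ⟨fun e he h => fout e he u h hu, ?_⟩⟩
  · intro e he e' he' u h1 h2 h
    by_cases hu : Rc p q B c α γ v u
    · rw [fin e he u h1 hu, fin e' he' u h2 hu] at h
      exact hc e he e' he' u h1 h2 ((Equiv.swap α γ).injective h)
    · rw [fout e he u h1 hu, fout e' he' u h2 hu] at h
      exact hc e he e' he' u h1 h2 h
  · intro h e he h1 h2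
    rw [fin e he v h1 Relation.ReflTransGen.refl, Equiv.swap_apply_eq_iff,
      Equiv.swap_apply_left] at h2
    exact h e he h1 h2
  · intro u δ h1 h2 h e he h3 h4
    by_cases hu : Rc p q B c α γ v u
    · rw [fin e he u h3 hu, Equiv.swap_apply_eq_iff, Equiv.swap_apply_of_ne_of_ne h1 h2] at h4
      exact h e he h3 h4
    · rw [fout e he u h3 hu] at h4
      exact h e he h3 h4
  · intro δ h e he h3
    rw [fout e he u h3 hu]
    exact h e he h3

omit [Fintype N] in
lemma pr_update {B B' : Finset E} {c : E → Fin k} (hc : Pr p q B c) {e : E} {x y : N} {α : Fin k}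
    (hj : Jn p q e x y) (hB : ∀ e' ∈ B', e' ≠ e → e' ∈ B)
    (hx : ∀ e' ∈ B', e' ≠ e → Ic p q e' x → c e' ≠ α)
    (hy : ∀ e' ∈ B', e' ≠ e → Ic p q e' y → c e' ≠ α) : Pr p q B' (Function.update c e α) := by
  have key : ∀ e' ∈ B', e' ≠ e → ∀ v, Ic p q e v → Ic p q e' v → c e' ≠ α := by
    intro e' he' h v h1 h2
    rcases hj.ic h1 with rfl | rfl
    · exact hx e' he' h h2
    · exact hy e' he' h h2
  intro a ha b hb v h1 h2 h
  by_cases h3 : a = e <;> by_cases h4 : b = e
  · rw [h3, h4]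
  · subst h3
    rw [Function.update_self, Function.update_of_ne h4] at h
    exact (key b hb h4 v h1 h2 h.symm).elim
  · subst h4
    rw [Function.update_self, Function.update_of_ne h3] at h
    exact (key a ha h3 v h2 h1 h).elim
  · rw [Function.update_of_ne h3, Function.update_of_ne h4] at h
    exact hc a (hB a ha h3) b (hB b hb h4) v h1 h2 h

omit [Fintype N] in
lemma ms_update {B B' : Finset E} {c : E → Fin k} {e : E} {v : N} {α β : Fin k}
    (hB : ∀ e' ∈ B', e' ≠ e → Ic p q e' v → e' ∈ B) (h : Ms p q B c v β)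
    (he : Ic p q e v → α ≠ β) : Ms p q B' (Function.update c e α) v β := by
  intro e' he' h1
  by_cases h2 : e' = e
  · subst h2
    rw [Function.update_self]; exact he h1
  · rw [Function.update_of_ne h2]; exact h e' (hB e' he' h2 h1) h1

/-- standing assumptions: a critical multigraph -/
structure Crit (p q : E → N) (k : ℕ) (A : Finset E) (Δ : ℕ) : Prop where
  loop : ∀ e ∈ A, p e ≠ q e
  deg : ∀ v, (A.filter fun e => Ic p q e v).card ≤ Δ
  lt : Δ < k
  big : k < 4 * (k - Δ) + 2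
  no : ∀ c : E → Fin k, ¬ Pr p q A c

/-- a configuration: one edge left uncoloured -/
structure Cf (p q : E → N) {k : ℕ} (A : Finset E) (e0 : E) (x y : N) (c : E → Fin k) : Prop where
  mem : e0 ∈ A
  jn : Jn p q e0 x y
  pr : Pr p q (A.erase e0) c

section

variable {A : Finset E} {Δ : ℕ} (H : Crit p q k A Δ) {e0 : E} {x y : N} {c : E → Fin k}

omit [Fintype N] in
lemma Cf.symm (C : Cf p q A e0 x y c) : Cf p q A e0 y x c := ⟨C.mem, C.jn.symm, C.pr⟩

omit [Fintype N] in
lemma ms_card (B : Finset E) (c : E → Fin k) (v : N) :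
    k ≤ (univ.filter (Ms p q B c v)).card + (B.filter fun e => Ic p q e v).card := by
  have h1 := card_filter_add_card_filter_not (s := univ) (Ms p q B c v)
  have h2 : (univ.filter fun α => ¬ Ms p q B c v α) ⊆ (B.filter fun e => Ic p q e v).image c := by
    intro α hα
    have := (mem_filter.1 hα).2
    simp only [Ms] at this
    push Not at this
    obtain ⟨e, he, h3, h4⟩ := this
    exact mem_image.2 ⟨e, mem_filter.2 ⟨he, h3⟩, h4⟩
  have h3 := (card_le_card h2).trans card_image_le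
  simp only [card_univ, Fintype.card_fin] at h1
  omega

include H

omit [Fintype N] in
lemma ms_ge (e0 : E) (c : E → Fin k) (v : N) :
    k - Δ ≤ (univ.filter (Ms p q (A.erase e0) c v)).card := by
  have h1 := ms_card (p := p) (q := q) (A.erase e0) c v
  have h2 : ((A.erase e0).filter fun e => Ic p q e v).card ≤ Δ :=
    (card_le_card (filter_subset_filter _ (erase_subset _ _))).trans (H.deg v)
  omega

omit [Fintype N] in
lemma ms_ge' (C : Cf p q A e0 x y c) :
    k - Δ + 1 ≤ (univ.filter (Ms p q (A.erase e0) c x)).card := by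
  have h1 := ms_card (p := p) (q := q) (A.erase e0) c x
  have h2 := H.deg x
  rw [filter_erase, card_erase_of_mem (mem_filter.2 ⟨C.mem, C.jn.left⟩)] at h1
  have h3 : 0 < (A.filter fun e => Ic p q e x).card :=
    card_pos.2 ⟨e0, mem_filter.2 ⟨C.mem, C.jn.left⟩⟩
  have := H.lt
  omega

omit [Fintype N] in
lemma ms_ex (C : Cf p q A e0 x y c) (β : Fin k) : ∃ α, α ≠ β ∧ Ms p q (A.erase e0) c x α := by
  have h1 := ms_ge' H C
  have := H.lt
  obtain ⟨α, h2, h3⟩ := exists_mem_ne (s := univ.filter (Ms p q (A.erase e0) c x)) (by omega) β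
  exact ⟨α, h3, (mem_filter.1 h2).2⟩

omit [Fintype N] in
lemma loop' {e : E} (he : e ∈ A.erase e0) : p e ≠ q e := H.loop e (mem_of_mem_erase he)

omit [Fintype N] in
lemma c0 (C : Cf p q A e0 x y c) {α : Fin k} (hx : Ms p q (A.erase e0) c x α)
    (hy : Ms p q (A.erase e0) c y α) : False :=
  H.no _ (pr_update (B' := A) C.pr C.jn (fun _ h1 h2 => mem_erase.2 ⟨h2, h1⟩)
    (fun _ h1 h2 => hx _ (mem_erase.2 ⟨h2, h1⟩)) (fun _ h1 h2 => hy _ (mem_erase.2 ⟨h2, h1⟩)))

omit [Fintype N] in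
lemma c0' (C : Cf p q A e0 x y c) {α γ : Fin k} (hx : Ms p q (A.erase e0) c x α)
    (hy : Ms p q (A.erase e0) c y γ) : Rc p q (A.erase e0) c α γ y x := by
  by_contra h
  obtain ⟨c', h1, h2, -, -, h5⟩ := swap C.pr α γ y
  exact c0 H ⟨C.mem, C.jn, h1⟩ ((h5 x h).2 α hx) (h2 hy)

omit [Fintype N] in
lemma c1a (C : Cf p q A e0 x y c) {e : E} {z : N} (he : e ∈ A.erase e0) (hj : Jn p q e x z)
    (hy : Ms p q (A.erase e0) c y (c e)) {α : Fin k} (hx : Ms p q (A.erase e0) c x α)
    (hz : Ms p q (A.erase e0) c z α) : False := by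
  have h1 : Pr p q (A.erase e0) (Function.update c e α) :=
    pr_update C.pr hj (fun _ h _ => h) (fun _ h _ => hx _ h) (fun _ h _ => hz _ h)
  refine c0 H (α := c e) ⟨C.mem, C.jn, h1⟩ ?_
    (ms_update (fun _ h _ _ => h) hy fun h => (hy e he h rfl).elim)
  intro e' he' h2
  by_cases h3 : e' = e
  · subst h3
    rw [Function.update_self]
    exact (hx e' he h2).symm
  · rw [Function.update_of_ne h3]
    exact fun h => h3 (C.pr e' he' e he x h2 hj.left h)

omit [Fintype N] in
lemma c1b (C : Cf p q A e0 x y c) {e : E} {z : N} (he : e ∈ A.erase e0) (hj : Jn p q e x z)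
    (hy : Ms p q (A.erase e0) c y (c e)) {α γ : Fin k} (hx : Ms p q (A.erase e0) c x α)
    (hz : Ms p q (A.erase e0) c z γ) : Rc p q (A.erase e0) c α γ z x := by
  by_contra h
  obtain ⟨c', h1, h2, -, h4, h5⟩ := swap C.pr α γ z
  refine c1a H ⟨C.mem, C.jn, h1⟩ he hj ?_ ((h5 x h).2 α hx) (h2 hz)
  rw [(h5 x h).1 e he hj.left]
  exact h4 y _ (hx e he hj.left) (hz e he hj.right) hy

lemma c1c (C : Cf p q A e0 x y c) {e : E} {z : N} (he : e ∈ A.erase e0) (hj : Jn p q e x z)
    (hy : Ms p q (A.erase e0) c y (c e)) {γ : Fin k} (hy' : Ms p q (A.erase e0) c y γ)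
    (hz : Ms p q (A.erase e0) c z γ) : False := by
  obtain ⟨α, -, hx⟩ := ms_ex H C γ
  refine ends (fun e he => loop' H he) C.pr (C.jn.ne (H.loop _ C.mem)) (hj.ne (loop' H he)) ?_
    (c0' H C hx hy').symm (c1b H C he hj hy hx hz).symm (Or.inl hx) (Or.inr hy') (Or.inr hz)
  rintro rfl
  exact hy e he hj.right rfl

lemma c4 (C : Cf p q A e0 x y c) {e : E} {z : N} (he : e ∈ A.erase e0) (hj : Jn p q e x z)
    (hy : Ms p q (A.erase e0) c y (c e)) (w : N) :
    ∃ γ, Ms p q (A.erase e0) c w γ ∧ (Ms p q (A.erase e0) c x γ ∨ Ms p q (A.erase e0) c y γ ∨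
      Ms p q (A.erase e0) c z γ) := by
  by_contra h
  push Not at h
  have a1 := ms_ge' H C
  have a2 := ms_ge' H C.symm
  have a3 := ms_ge H e0 c z
  have a4 := ms_ge H e0 c w
  have a5 := H.big
  have : (univ.filter (Ms p q (A.erase e0) c x)).card + (univ.filter (Ms p q (A.erase e0) c y)).card
      + (univ.filter (Ms p q (A.erase e0) c z)).card + (univ.filter (Ms p q (A.erase e0) c w)).card
      ≤ ∑ _γ : Fin k, 1 := by
    simp only [card_filter, ← sum_add_distrib]
    refine sum_le_sum fun γ _ => ?_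
    have b1 := fun hx hy => c0 H C (α := γ) hx hy
    have b2 := fun hx hz => c1a H C he hj hy (α := γ) hx hz
    have b3 := fun hy' hz => c1c H C he hj hy (γ := γ) hy' hz
    have b4 := h γ
    split_ifs <;> simp_all
  simp only [sum_const, card_univ, Fintype.card_fin, smul_eq_mul] at this
  omega

lemma c2 (C : Cf p q A e0 x y c) {e e' : E} {z z' : N} (he : e ∈ A.erase e0) (hj : Jn p q e x z)
    (hy : Ms p q (A.erase e0) c y (c e)) (he' : e' ∈ A.erase e0) (hj' : Jn p q e' x z')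
    (hy' : Ms p q (A.erase e0) c y (c e')) : z = z' := by
  by_contra hne
  obtain ⟨γ, h1, h2 | h2 | h2⟩ := c4 H C he hj hy z'
  · exact c1a H C he' hj' hy' h2 h1
  · exact c1c H C he' hj' hy' h2 h1
  · obtain ⟨α, -, hx⟩ := ms_ex H C γ
    exact ends (fun e he => loop' H he) C.pr (hj.ne (loop' H he)) (hj'.ne (loop' H he')) hne
      (c1b H C he hj hy hx h2).symm (c1b H C he' hj' hy' hx h1).symm (Or.inl hx) (Or.inr h2)
      (Or.inr h1)

lemma c2' (C : Cf p q A e0 x y c) {e e' : E} {z z' : N} (he : e ∈ A.erase e0) (hj : Jn p q e x z)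
    (hy : Ms p q (A.erase e0) c y (c e)) (he' : e' ∈ A.erase e0) (hj' : Jn p q e' y z')
    (hx' : Ms p q (A.erase e0) c x (c e')) : z = z' := by
  by_contra hne
  obtain ⟨γ, h1, h2 | h2 | h2⟩ := c4 H C he hj hy z'
  · exact c1c H C.symm he' hj' hx' h2 h1
  · exact c1a H C.symm he' hj' hx' h2 h1
  · obtain ⟨α, hα, hx⟩ := ms_ex H C (c e')
    have h : ¬ Rc p q (A.erase e0) c α γ z' x := fun h => by
      refine ends (fun e he => loop' H he) C.pr (hj.ne (loop' H he)) ?_ hne
        (c1b H C he hj hy hx h2).symm h.symm (Or.inl hx) (Or.inr h2) (Or.inr h1)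
      rintro rfl
      exact hx' e' he' hj'.right rfl
    obtain ⟨c', a1, a2, a3, -, a5⟩ := swap C.pr α γ z'
    refine c1c H (Cf.symm ⟨C.mem, C.jn, a1⟩) he' hj' ?_ ((a5 x h).2 α hx) (a2 h1)
    rw [a3 e' hα.symm (h1 e' he' hj'.right)]
    exact (a5 x h).2 _ hx'

lemma c5a (C : Cf p q A e0 x y c) {e : E} {z : N} (he : e ∈ A.erase e0) (hj : Jn p q e x z)
    (hy : Ms p q (A.erase e0) c y (c e)) {ex ey : E} {w w' : N} (hex : ex ∈ A.erase e0)
    (hey : ey ∈ A.erase e0) (jx : Jn p q ex x w) (jy : Jn p q ey y w') (hδ : c ex = c ey)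
    (hwy : w ≠ y) (hwz : w ≠ z) (hw' : w' ≠ z) {α : Fin k} (hx : Ms p q (A.erase e0) c x α)
    (hw : Ms p q (A.erase e0) c w α) : False := by
  have hxy := C.jn.ne (H.loop _ C.mem)
  have h1 : Pr p q (A.erase e0) (Function.update c ex α) :=
    pr_update C.pr jx (fun _ h _ => h) (fun _ h _ => hx _ h) (fun _ h _ => hw _ h)
  have hy0 : ¬ Ic p q ex y := fun h => by
    rcases jx.ic h with h | h
    · exact hxy h.symm
    · exact hwy h.symm
  have n1 : e ≠ ex := by
    rintro rfl
    rcases jx.ic hj.right with h | h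
    · exact hj.ne (loop' H he) h.symm
    · exact hwz h.symm
  have n2 : ey ≠ ex := by
    rintro rfl
    exact hy0 jy.left
  refine hw' (c2' H ⟨C.mem, C.jn, h1⟩ he hj ?_ hey jy ?_).symm
  · rw [Function.update_of_ne n1]
    exact ms_update (fun _ h _ _ => h) hy fun h => (hy0 h).elim
  · rw [Function.update_of_ne n2, ← hδ]
    intro a ha h
    by_cases h3 : a = ex
    · subst h3
      rw [Function.update_self]
      exact (hx a ha h).symm
    · rw [Function.update_of_ne h3]
      exact fun h' => h3 (C.pr a ha ex hex x h jx.left h')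

lemma c5 (C : Cf p q A e0 x y c) {e : E} {z : N} (he : e ∈ A.erase e0) (hj : Jn p q e x z)
    (hy : Ms p q (A.erase e0) c y (c e)) {ex ey : E} {w w' : N} (hex : ex ∈ A.erase e0)
    (hey : ey ∈ A.erase e0) (jx : Jn p q ex x w) (jy : Jn p q ey y w') (hδ : c ex = c ey)
    (hwy : w ≠ y) (hwz : w ≠ z) (hw' : w' ≠ z) : False := by
  have hxy := C.jn.ne (H.loop _ C.mem)
  have hxw := jx.ne (loop' H hex)
  obtain ⟨γ, h1, h2⟩ := c4 H C he hj hy w
  obtain ⟨α, -, hx⟩ := ms_ex H C γ
  obtain ⟨c', a1, a2, a3, a4, a5⟩ := swap C.pr α γ w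
  have fin : ¬ Rc p q (A.erase e0) c α γ w x → Ms p q (A.erase e0) c' y (c e) → False := by
    intro h hy'
    refine c5a H ⟨C.mem, C.jn, a1⟩ he hj ?_ hex hey jx jy ?_ hwy hwz hw' ((a5 x h).2 α hx) (a2 h1)
    · rw [(a5 x h).1 e he hj.left]; exact hy'
    · rw [(a5 x h).1 ex hex jx.left, a3 ey (hδ ▸ hx ex hex jx.left) (hδ ▸ h1 ex hex jx.right), hδ]
  rcases h2 with h2 | h2 | h2
  · exact c5a H C he hj hy hex hey jx jy hδ hwy hwz hw' h2 h1
  · have r1 := c0' H C hx h2
    have h : ¬ Rc p q (A.erase e0) c α γ w x := fun h =>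
      ends (fun e he => loop' H he) C.pr hxy hxw hwy.symm r1.symm h.symm (Or.inl hx) (Or.inr h2)
        (Or.inr h1)
    exact fin h ((a5 y fun h' => h (h'.trans r1)).2 _ hy)
  · have h : ¬ Rc p q (A.erase e0) c α γ w x := fun h =>
      ends (fun e he => loop' H he) C.pr (hj.ne (loop' H he)) hxw hwz.symm
        (c1b H C he hj hy hx h2).symm h.symm (Or.inl hx) (Or.inr h2) (Or.inr h1)
    exact fin h (a4 y _ (hx e he hj.left) (h2 e he hj.right) hy)

lemma dense (C : Cf p q A e0 x y c) : ∃ z, k + 1 ≤ (A.filter fun e =>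
    (p e = x ∨ p e = y ∨ p e = z) ∧ (q e = x ∨ q e = y ∨ q e = z)).card := by
  have ex : ∀ v α, ¬ Ms p q (A.erase e0) c v α →
      ∃ e ∈ A.erase e0, c e = α ∧ ∃ w, Jn p q e v w := by
    intro v α h
    simp only [Ms] at h
    push Not at h
    obtain ⟨e, he, h1, h2⟩ := h
    exact ⟨e, he, h2, h1.jn⟩
  obtain ⟨β, -, hβ⟩ := ms_ex H C.symm (c e0)
  obtain ⟨e, he, rfl, z, hj⟩ := ex x β fun h => c0 H C h hβ
  refine ⟨z, ?_⟩
  have ins : ∀ a u v, Jn p q a u v → (u = x ∨ u = y ∨ u = z) → (v = x ∨ v = y ∨ v = z) →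
      (p a = x ∨ p a = y ∨ p a = z) ∧ (q a = x ∨ q a = y ∨ q a = z) := by
    rintro a u v (⟨rfl, rfl⟩ | ⟨rfl, rfl⟩) h1 h2
    · exact ⟨h1, h2⟩
    · exact ⟨h2, h1⟩
  have all : ∀ δ, ∃ a ∈ A.erase e0, c a = δ ∧
      (p a = x ∨ p a = y ∨ p a = z) ∧ (q a = x ∨ q a = y ∨ q a = z) := by
    intro δ
    by_cases my : Ms p q (A.erase e0) c y δ
    · obtain ⟨a, ha, rfl, w, hw⟩ := ex x δ fun h => c0 H C h my
      exact ⟨a, ha, rfl, ins a _ _ hw (by simp) (by simp [c2 H C he hj hβ ha hw my])⟩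
    obtain ⟨ey, hey, h1, w', jy⟩ := ex y δ my
    by_cases mx : Ms p q (A.erase e0) c x δ
    · exact ⟨ey, hey, h1, ins ey _ _ jy (by simp) (by simp [c2' H C he hj hβ hey jy (h1 ▸ mx)])⟩
    obtain ⟨ex', hex, h2, w, jx⟩ := ex x δ mx
    by_cases b1 : w = y
    · exact ⟨ex', hex, h2, ins _ _ _ jx (by simp) (by simp [b1])⟩
    by_cases b2 : w = z
    · exact ⟨ex', hex, h2, ins _ _ _ jx (by simp) (by simp [b2])⟩
    by_cases b3 : w' = z
    · exact ⟨ey, hey, h1, ins _ _ _ jy (by simp) (by simp [b3])⟩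
    exact (c5 H C he hj hβ hex hey jx jy (h2.trans h1.symm) b1 b2 b3).elim
  have m0 : e0 ∈ A.filter fun e =>
      (p e = x ∨ p e = y ∨ p e = z) ∧ (q e = x ∨ q e = y ∨ q e = z) :=
    mem_filter.2 ⟨C.mem, ins _ _ _ C.jn (by simp) (by simp)⟩
  rw [← card_erase_add_one m0, ← filter_erase, add_le_add_iff_right]
  calc k = (univ : Finset (Fin k)).card := by simp
    _ ≤ _ := card_le_card_of_surjOn c fun δ _ => by
      obtain ⟨a, ha, h1, h2⟩ := all δ
      exact ⟨a, mem_coe.2 (mem_filter.2 ⟨ha, h2⟩), h1⟩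

end

theorem colour (p q : E → N) (k Δ : ℕ) (lt : Δ < k) (big : k < 4 * (k - Δ) + 2) (A : Finset E)
    (loop : ∀ e ∈ A, p e ≠ q e) (deg : ∀ v, (A.filter fun e => Ic p q e v).card ≤ Δ)
    (tri : ∀ x y z, (A.filter fun e =>
      (p e = x ∨ p e = y ∨ p e = z) ∧ (q e = x ∨ q e = y ∨ q e = z)).card ≤ k) :
    ∃ c : E → Fin k, Pr p q A c := by
  induction A using Finset.induction_on with
  | empty => exact ⟨fun _ => ⟨0, by omega⟩, fun e he => by simp at he⟩
  | insert e0 A h0 ih =>
    obtain ⟨c, hc⟩ := ih (fun e he => loop e (mem_insert_of_mem he))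
      (fun v => (card_le_card (filter_subset_filter _ (subset_insert _ _))).trans (deg v))
      (fun x y z => (card_le_card (filter_subset_filter _ (subset_insert _ _))).trans (tri x y z))
    by_contra h
    push Not at h
    obtain ⟨z, hz⟩ := dense ⟨loop, deg, lt, big, h⟩ (e0 := e0) (x := p e0) (y := q e0) (c := c)
      ⟨mem_insert_self _ _, Or.inl ⟨rfl, rfl⟩, by rwa [erase_insert h0]⟩
    have := tri (p e0) (q e0) z
    omega

end Pool.Agent.P.MP_b2489f_co.Kempe
end

-- part Pool.Agent.P.MP_b2489f_co.Tools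
section

set_option autoImplicit false

/-! Finite combinatorial tools. -/

namespace Pool.Agent.P.MP_b2489f_co

open Finset Classical

section Hall

variable {V K : Type}

lemma hall_aux [Nonempty K] (P : Finset V) (t : V → Finset K)
    (h : ∀ S ⊆ P, S.Nonempty → S.card ≤ (S.biUnion t).card) :
    ∃ f : V → K, Set.InjOn f P ∧ ∀ z ∈ P, f z ∈ t z := by
  obtain ⟨f, h1, h2⟩ := (all_card_le_biUnion_card_iff_exists_injective
    (fun z : P => t z.1)).1 fun S => by
      rcases S.eq_empty_or_nonempty with rfl | hS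
      · simp
      · have := h (S.map (Function.Embedding.subtype _)) (fun x hx => by
          obtain ⟨y, -, rfl⟩ := mem_map.1 hx
          exact y.2) (by simpa using hS)
        rw [card_map] at this
        refine this.trans (card_le_card fun a ha => ?_)
        obtain ⟨x, hx, ha⟩ := mem_biUnion.1 ha
        obtain ⟨y, hy, rfl⟩ := mem_map.1 hx
        exact mem_biUnion.2 ⟨y, hy, ha⟩
  refine ⟨fun z => if hz : z ∈ P then f ⟨z, hz⟩ else Classical.arbitrary K, ?_, ?_⟩
  · intro a ha b hb hab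
    simp only [mem_coe.1 ha, mem_coe.1 hb, dif_pos] at hab
    exact congrArg Subtype.val (h1 hab)
  · intro z hz
    simp only [hz, dif_pos]
    exact h2 ⟨z, hz⟩

/-- a bijection avoiding few forbidden pairs -/
lemma hall_bij [Nonempty K] (P : Finset V) (M : Finset K) (hc : P.card ≤ M.card)
    (bad : V → K → Prop) (B B' : ℕ) (h1 : ∀ z ∈ P, (M.filter (bad z)).card ≤ B)
    (h2 : ∀ α ∈ M, (P.filter fun z => bad z α).card ≤ B') (hB : B + B' ≤ M.card) :
    ∃ f : V → K, Set.InjOn f P ∧ ∀ z ∈ P, f z ∈ M ∧ ¬ bad z (f z) := by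
  obtain ⟨f, a1, a2⟩ := hall_aux P (fun z => M.filter fun α => ¬ bad z α) fun S hS ⟨z, hz⟩ => by
    by_cases h : S.card ≤ B'
    · have b1 := card_filter_add_card_filter_not (s := M) (bad z)
      have b2 := h1 z (hS hz)
      have b3 := card_le_card (subset_biUnion_of_mem (fun z => M.filter fun α => ¬ bad z α) hz)
      omega
    · refine ((card_le_card hS).trans hc).trans (card_le_card fun α hα => ?_)
      by_contra h'
      refine h ((card_le_card fun z hz => ?_).trans (h2 α hα))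
      refine mem_filter.2 ⟨hS hz, ?_⟩
      by_contra h''
      exact h' (mem_biUnion.2 ⟨z, hz, mem_filter.2 ⟨hα, h''⟩⟩)
  exact ⟨f, a1, fun z hz => mem_filter.1 (a2 z hz)⟩

/-- greedy injective list colouring -/
lemma hall_greedy [Nonempty K] [Fintype K] (P : Finset V) (bad : V → Finset K)
    (h1 : ∀ z ∈ P, (bad z).card + P.card ≤ Fintype.card K) :
    ∃ f : V → K, Set.InjOn f P ∧ ∀ z ∈ P, f z ∉ bad z := by
  obtain ⟨f, a1, a2⟩ := hall_aux P (fun z => (bad z)ᶜ) fun S hS ⟨z, hz⟩ => by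
    have b1 := card_compl (bad z)
    have b2 := h1 z (hS hz)
    have b3 := card_le_card (subset_biUnion_of_mem (fun z => (bad z)ᶜ) hz)
    have b4 := card_le_card hS
    omega
  exact ⟨f, a1, fun z hz => mem_compl.1 (a2 z hz)⟩

lemma cover_inj [Nonempty K] (P : Finset V) (T W : Finset K) (hTW : T ⊆ W) (h1 : T.card ≤ P.card)
    (h2 : P.card ≤ W.card) :
    ∃ f : V → K, Set.InjOn f P ∧ (∀ z ∈ P, f z ∈ W) ∧ ∀ α ∈ T, ∃ z ∈ P, f z = α := by
  obtain ⟨U, h3, h4, h5⟩ := exists_subsuperset_card_eq hTW h1 h2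
  obtain ⟨f, a1, a2⟩ := hall_aux P (fun _ => U) fun S hS ⟨z, hz⟩ =>
    ((card_le_card hS).trans h5.ge).trans (card_le_card (subset_biUnion_of_mem (fun _ => U) hz))
  refine ⟨f, a1, fun z hz => h4 (a2 z hz), fun α hα => ?_⟩
  have : P.image f = U := eq_of_subset_of_card_le (fun a ha => by
    obtain ⟨z, hz, rfl⟩ := mem_image.1 ha
    exact a2 z hz) (by rw [card_image_of_injOn a1, h5])
  have h6 := h3 hα
  rw [← this] at h6
  exact mem_image.1 h6

end Hall

section Split

variable {V : Type} {Q : ℕ}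

lemma split1 (hQ : 0 < Q) (S : Finset V) : ∃ (lab : V → Fin Q) (R : Finset V), R.card ≤ Q ∧
    ∀ J : Finset (Fin Q), Q * ((S \ R).filter fun v => lab v ∈ J).card = J.card * (S \ R).card := by
  obtain ⟨S', h1, h2⟩ := exists_subset_card_eq (s := S) (n := S.card / Q * Q)
    (Nat.div_mul_le_self _ _)
  have e : S' ≃ Fin (S.card / Q) × Fin Q := Fintype.equivOfCardEq (by simp [h2])
  refine ⟨fun v => if hv : v ∈ S' then (e ⟨v, hv⟩).2 else ⟨0, hQ⟩, S \ S', ?_, fun J => ?_⟩
  · rw [card_sdiff_of_subset h1, h2]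
    have := Nat.div_add_mod S.card Q
    have := Nat.mod_lt S.card hQ
    rw [mul_comm]; omega
  · rw [Finset.sdiff_sdiff_eq_self h1, h2]
    have : (S'.filter fun v => (if hv : v ∈ S' then (e ⟨v, hv⟩).2 else ⟨0, hQ⟩) ∈ J).card =
        ((univ : Finset (Fin (S.card / Q))) ×ˢ J).card := by
      refine card_bij (fun v hv => e ⟨v, (mem_filter.1 hv).1⟩) ?_ ?_ ?_
      · intro v hv
        obtain ⟨h3, h4⟩ := mem_filter.1 hv
        rw [dif_pos h3] at h4
        exact mem_product.2 ⟨mem_univ _, h4⟩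
      · intro a _ b _ h
        exact congrArg Subtype.val (e.injective h)
      · intro x hx
        refine ⟨(e.symm x).1, mem_filter.2 ⟨(e.symm x).2, ?_⟩, by simp⟩
        rw [dif_pos (e.symm x).2]
        simpa using (mem_product.1 hx).2
    rw [this, card_product, card_univ, Fintype.card_fin]
    ring

/-- simultaneous proportional labelling for two nested partitions -/
lemma split2 (hQ : 0 < Q) {K : Type} [Fintype K] (W : Finset V) (a b : V → K) :
    ∃ lab : V → Fin Q, ∀ J : Finset (Fin Q),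
      (∀ n m, Q * (W.filter fun v => a v = n ∧ b v = m ∧ lab v ∈ J).card ≤
        J.card * (W.filter fun v => a v = n ∧ b v = m).card + Q * Q) ∧
      ∀ n, Q * (W.filter fun v => a v = n ∧ lab v ∈ J).card ≤
        J.card * (W.filter fun v => a v = n).card + Q * Q := by
  choose l1 R1 h1 h2 using fun n m => split1 hQ (W.filter fun v => a v = n ∧ b v = m)
  choose l2 R2 h3 h4 using fun n => split1 hQ (W.filter fun v => a v = n ∧ v ∈ R1 (a v) (b v))
  refine ⟨fun v => if v ∈ R1 (a v) (b v) then l2 (a v) v else l1 (a v) (b v) v, fun J => ⟨?_, ?_⟩⟩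
  · intro n m
    have : (W.filter fun v => a v = n ∧ b v = m ∧
        (if v ∈ R1 (a v) (b v) then l2 (a v) v else l1 (a v) (b v) v) ∈ J) ⊆
        (((W.filter fun v => a v = n ∧ b v = m) \ R1 n m).filter fun v => l1 n m v ∈ J) ∪ R1 n m := by
      intro v hv
      obtain ⟨hW, rfl, rfl, h⟩ := mem_filter.1 hv
      by_cases hR : v ∈ R1 (a v) (b v)
      · exact mem_union_right _ hR
      · rw [if_neg hR] at h
        exact mem_union_left _ (mem_filter.2 ⟨mem_sdiff.2 ⟨mem_filter.2 ⟨hW, rfl, rfl⟩, hR⟩, h⟩)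
    have c1 := (card_le_card this).trans (card_union_le _ _)
    have c2 := h2 n m J
    have c3 := Nat.mul_le_mul_left J.card
      (card_le_card (sdiff_subset (s := W.filter fun v => a v = n ∧ b v = m) (t := R1 n m)))
    have c4 := Nat.mul_le_mul_left Q (c1.trans (Nat.add_le_add_left (h1 n m) _))
    rw [mul_add] at c4
    beta_reduce
    omega
  · intro n
    have : (W.filter fun v => a v = n ∧
        (if v ∈ R1 (a v) (b v) then l2 (a v) v else l1 (a v) (b v) v) ∈ J) ⊆
        (univ.biUnion fun m =>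
          (((W.filter fun v => a v = n ∧ b v = m) \ R1 n m).filter fun v => l1 n m v ∈ J)) ∪
        ((((W.filter fun v => a v = n ∧ v ∈ R1 (a v) (b v)) \ R2 n).filter fun v => l2 n v ∈ J) ∪
          R2 n) := by
      intro v hv
      obtain ⟨hW, rfl, h⟩ := mem_filter.1 hv
      by_cases hR : v ∈ R1 (a v) (b v)
      · rw [if_pos hR] at h
        refine mem_union_right _ ?_
        by_cases hR2 : v ∈ R2 (a v)
        · exact mem_union_right _ hR2
        · exact mem_union_left _ (mem_filter.2 ⟨mem_sdiff.2 ⟨mem_filter.2 ⟨hW, rfl, hR⟩, hR2⟩, h⟩)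
      · rw [if_neg hR] at h
        exact mem_union_left _ (mem_biUnion.2 ⟨b v, mem_univ _,
          mem_filter.2 ⟨mem_sdiff.2 ⟨mem_filter.2 ⟨hW, rfl, rfl⟩, hR⟩, h⟩⟩)
    have c1 := (card_le_card this).trans ((card_union_le _ _).trans
      (Nat.add_le_add card_biUnion_le ((card_union_le _ _).trans (Nat.add_le_add_left (h3 n) _))))
    have c2 := Nat.mul_le_mul_left Q c1
    rw [mul_add, mul_add, mul_sum, h4 n J, sum_congr rfl fun m _ => h2 n m J, ← mul_sum,
      ← add_assoc, ← mul_add] at c2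
    refine c2.trans (Nat.add_le_add_right (Nat.mul_le_mul_left _ ?_) _)
    have c3 : ∑ m, ((W.filter fun v => a v = n ∧ b v = m) \ R1 n m).card =
        (W.filter fun v => a v = n ∧ v ∉ R1 (a v) (b v)).card := by
      rw [card_eq_sum_card_fiberwise (f := b) (t := univ) fun _ _ => mem_coe.2 (mem_univ _)]
      refine sum_congr rfl fun m _ => congrArg card ?_
      ext v
      simp only [mem_sdiff, mem_filter]
      constructor
      · rintro ⟨⟨h, rfl, rfl⟩, h'⟩; exact ⟨⟨h, rfl, h'⟩, rfl⟩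
      · rintro ⟨⟨h, rfl, h'⟩, rfl⟩; exact ⟨⟨h, rfl, rfl⟩, h'⟩
    have c4 := card_filter_add_card_filter_not (s := W.filter fun v => a v = n)
      (fun v => v ∈ R1 (a v) (b v))
    rw [filter_filter, filter_filter] at c4
    have c5 := card_le_card
      (sdiff_subset (s := W.filter fun v => a v = n ∧ v ∈ R1 (a v) (b v)) (t := R2 n))
    omega

end Split

/-- greedy construction of an elimination order -/
lemma greedy_order {O : Type} [Fintype O] (Good : Finset O → O → Prop) (Inv : Finset O → Prop)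
    (h0 : Inv univ) (step : ∀ U, Inv U → U.Nonempty → ∃ o ∈ U, Good U o ∧ Inv (U.erase o)) :
    ∃ pos : O → ℕ, Function.Injective pos ∧ ∀ o, Good (univ.filter fun m => pos m ≤ pos o) o := by
  have key : ∀ (n : ℕ) (U : Finset O), U.card = n → Inv U → ∃ pos : O → ℕ, Set.InjOn pos U ∧
      (∀ o ∈ U, pos o < n) ∧ ∀ o ∈ U, Good (U.filter fun m => pos m ≤ pos o) o := by
    intro n
    induction n with
    | zero =>
      intro U hU _
      obtain rfl := card_eq_zero.1 hU
      exact ⟨fun _ => 0, by simp, by simp, by simp⟩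
    | succ n ih =>
      intro U hU hI
      obtain ⟨o, ho, h1, h2⟩ := step U hI (card_pos.1 (by omega))
      obtain ⟨pos, a1, a2, a3⟩ := ih (U.erase o) (by rw [card_erase_of_mem ho]; omega) h2
      have b1 : ∀ m ∈ U, m ≠ o → pos m < n := fun m hm h => a2 m (mem_erase.2 ⟨h, hm⟩)
      refine ⟨Function.update pos o n, ?_, ?_, ?_⟩
      · intro x hx y hy h
        by_cases h3 : x = o <;> by_cases h4 : y = o
        · rw [h3, h4]
        · subst h3
          rw [Function.update_self, Function.update_of_ne h4] at h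
          have := b1 y hy h4
          omega
        · subst h4
          rw [Function.update_self, Function.update_of_ne h3] at h
          have := b1 x hx h3
          omega
        · rw [Function.update_of_ne h3, Function.update_of_ne h4] at h
          exact a1 (mem_erase.2 ⟨h3, hx⟩) (mem_erase.2 ⟨h4, hy⟩) h
      · intro x hx
        by_cases h3 : x = o
        · subst h3; simp
        · rw [Function.update_of_ne h3]
          have := b1 x hx h3
          omega
      · intro x hx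
        by_cases h3 : x = o
        · subst h3
          rw [filter_true_of_mem]
          · exact h1
          · intro m hm
            by_cases h4 : m = x
            · rw [h4]
            · rw [Function.update_self, Function.update_of_ne h4]
              exact (b1 m hm h4).le
        · have := a3 x (mem_erase.2 ⟨h3, hx⟩)
          convert this using 1
          ext m
          simp only [mem_filter, mem_erase, Function.update_of_ne h3]
          by_cases h4 : m = o
          · subst h4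
            have := b1 x hx h3
            simp only [Function.update_self, ne_eq, not_true_eq_false, false_and, iff_false]
            omega
          · simp [h4]
  obtain ⟨pos, a1, -, a3⟩ := key _ univ rfl h0
  exact ⟨pos, fun x y h => a1 (by simp) (by simp) h, fun o => a3 o (mem_univ _)⟩

/-- a colouring respecting the conflict relations is injective off one point -/
lemma inj_off_one {V K : Type} [Nonempty V] (E : Finset V) (T : V → ℕ) (c : V → K)
    (h1 : ∀ x ∈ E, ∀ z ∈ E, T x < T z → (∃ y ∈ E, y ≠ x ∧ T y < T z) →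
      (∃ y ∈ E, y ≠ z ∧ T y ≤ T z ∧ T y ≠ T x) → c x ≠ c z)
    (h2 : ∀ x ∈ E, ∀ z ∈ E, x ≠ z → T x = T z → c x ≠ c z) :
    ∃ u, ∀ x ∈ E, ∀ z ∈ E, x ≠ u → z ≠ u → c x = c z → x = z := by
  have red : ∀ u, (∀ x ∈ E, ∀ z ∈ E, x ≠ u → z ≠ u → T x < T z → c x ≠ c z) →
      ∃ u, ∀ x ∈ E, ∀ z ∈ E, x ≠ u → z ≠ u → c x = c z → x = z := by
    intro u h
    refine ⟨u, fun x hx z hz a1 a2 a3 => ?_⟩
    by_contra a4
    rcases lt_trichotomy (T x) (T z) with a5 | a5 | a5
    · exact h x hx z hz a1 a2 a5 a3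
    · exact h2 x hx z hz a4 a5 a3
    · exact h z hz x hx a2 a1 a5 a3.symm
  rcases E.eq_empty_or_nonempty with rfl | hE
  · exact ⟨Classical.arbitrary V, by simp⟩
  obtain ⟨x1, m1, b1⟩ := exists_min_image E T hE
  by_cases h3 : ∃ x2 ∈ E, x2 ≠ x1 ∧ T x2 = T x1
  · obtain ⟨x2, m2, b2, b3⟩ := h3
    rcases (E.filter fun y => T x1 < T y).eq_empty_or_nonempty with h4 | h4
    · refine red x1 fun x hx z hz _ _ h => ?_
      have := b1 x hx
      exact absurd (mem_filter.2 ⟨hz, by omega⟩) (h4 ▸ notMem_empty z)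
    · obtain ⟨w, m3, b4⟩ := exists_min_image _ T h4
      obtain ⟨m3, b5⟩ := mem_filter.1 m3
      refine red w fun x hx z hz a1 a2 h => h1 x hx z hz h ?_ ?_
      · have := b1 x hx
        by_cases a3 : x = x1
        · exact ⟨x2, m2, a3 ▸ b2, by omega⟩
        · exact ⟨x1, m1, Ne.symm a3, by omega⟩
      · have := b1 x hx
        by_cases a3 : T x = T x1
        · exact ⟨w, m3, a2.symm, b4 z (mem_filter.2 ⟨hz, by omega⟩), by omega⟩
        · exact ⟨x1, m1, by rintro rfl; omega, by omega, Ne.symm a3⟩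
  · push Not at h3
    refine red x1 fun x hx z hz a1 a2 h => ?_
    have a3 := b1 x hx
    have a4 := h3 x hx a1
    exact h1 x hx z hz h ⟨x1, m1, a1.symm, by omega⟩ ⟨x1, m1, a2.symm, by omega, a4.symm⟩

/-- completing a colouring on three faces -/
lemma complete {V : Type} {k g : ℕ} (hk : 0 < k) (A P : Fin 3 → Finset V) (Y : Finset V)
    (hA : ∀ i, (A i).card = g) (hg : 4 * k + 1 ≤ 3 * g)
    (h3 : (Y.filter fun v => ∀ i, v ∈ A i).card ≤ 2)
    (hP : ∀ i, ∀ v ∈ P i, v ∉ A i ∧ v ∉ Y ∧ ∀ j, j ≠ i → v ∈ A j)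
    (hY : ∀ v ∈ Y, ∃ i, v ∈ A i) (hcov : ∀ i, ∀ v ∈ A i, v ∈ Y ∨ ∃ j, v ∈ P j)
    (hs : ∀ i, (P i).card + Y.card ≤ k) (c : V → Fin k) (u : V)
    (hc : ∀ x ∈ Y, ∀ z ∈ Y, x ≠ u → z ≠ u → c x = c z → x = z) :
    ∃ c' : V → Fin k, (∀ v, (∀ i, v ∉ P i) → c' v = c v) ∧ (∀ i, Set.InjOn c' (P i)) ∧
      (∀ i, ∀ z ∈ P i, ∀ y ∈ Y, (∀ j, j ≠ i → y ∈ A j) → c' z ≠ c y) ∧
      ∀ i α, ∃ v ∈ A i, c' v = α := by
  have : Nonempty (Fin k) := ⟨⟨0, hk⟩⟩
  have hPP : ∀ i j, ∀ v ∈ P i, v ∈ P j → i = j := fun i j v h1 h2 => by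
    by_contra h
    exact (hP i v h1).1 ((hP j v h2).2.2 i h)
  let Cy := Y.image c
  let full : Fin k → Prop := fun α => ∀ i, ∃ y ∈ Y, y ∈ A i ∧ c y = α
  have hι : ∀ α, ∃ i, α ∈ Cy → ∃ y ∈ Y, y ∈ A i ∧ c y = α := fun α => by
    by_cases h : α ∈ Cy
    · obtain ⟨y, hy, rfl⟩ := mem_image.1 h
      obtain ⟨i, hi⟩ := hY y hy
      exact ⟨i, fun _ => ⟨y, hy, hi, rfl⟩⟩
    · exact ⟨0, fun h' => absurd h' h⟩
  choose ι hι using hι
  let Ty : Fin 3 → Finset (Fin k) := fun i => Cy.filter fun α => ¬ full α ∧ ι α = i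
  have c1 : ∑ i, (Ty i).card + (Cy.filter full).card = Cy.card := by
    rw [← card_filter_add_card_filter_not (s := Cy) full, add_comm,
      card_eq_sum_card_fiberwise (f := ι) (s := Cy.filter fun α => ¬ full α) (t := univ)
        fun _ _ => mem_coe.2 (mem_univ _)]
    simp only [filter_filter, Ty]
  have c2 : Y.card ≤ Cy.card + 1 := by
    have : (Y.erase u).card ≤ Cy.card := card_le_card_of_injOn c
      (fun y hy => mem_image_of_mem c (mem_of_mem_erase hy))
      fun x hx z hz h => hc x (mem_of_mem_erase hx) z (mem_of_mem_erase hz) (ne_of_mem_erase hx)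
        (ne_of_mem_erase hz) h
    have := pred_card_le_card_erase (s := Y) (a := u)
    omega
  have c3 : Cy.card ≤ Y.card := card_image_le
  have c4 : 0 < (Y.filter fun v => ∀ i, v ∈ A i).card → 0 < (Cy.filter full).card := by
    intro h
    obtain ⟨y, hy⟩ := card_pos.1 h
    obtain ⟨h1, h2⟩ := mem_filter.1 hy
    exact card_pos.2 ⟨c y, mem_filter.2 ⟨mem_image_of_mem c h1, fun i => ⟨y, h1, h2 i, rfl⟩⟩⟩
  have c5 : 3 * g ≤ 2 * (∑ i, (P i).card + Y.card) + (Y.filter fun v => ∀ i, v ∈ A i).card := by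
    have a1 : ∀ i, g ≤ (Y.filter fun v => v ∈ A i).card + ∑ j, if j = i then 0 else (P j).card := by
      intro i
      have : A i ⊆ (Y.filter fun v => v ∈ A i) ∪ univ.biUnion fun j => if j = i then ∅ else P j := by
        intro v hv
        rcases hcov i v hv with h | ⟨j, h⟩
        · exact mem_union_left _ (mem_filter.2 ⟨h, hv⟩)
        · refine mem_union_right _ (mem_biUnion.2 ⟨j, mem_univ _, ?_⟩)
          rw [if_neg]
          · exact h
          · rintro rfl; exact (hP j v h).1 hv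
      rw [← hA i]
      refine (card_le_card this).trans ((card_union_le _ _).trans (Nat.add_le_add_left
        (card_biUnion_le.trans (sum_le_sum fun j _ => ?_)) _))
      split_ifs <;> simp
    have a2 : ∑ i, (Y.filter fun v => v ∈ A i).card ≤
        ∑ _v ∈ Y, 2 + (Y.filter fun v => ∀ i, v ∈ A i).card := by
      simp only [card_filter]
      rw [sum_comm, ← sum_add_distrib]
      refine sum_le_sum fun v _ => ?_
      simp only [Fin.sum_univ_three, Fin.forall_fin_succ, IsEmpty.forall_iff, and_true,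
        Fin.succ_zero_eq_one, Fin.succ_one_eq_two]
      split_ifs <;> simp_all
    have b0 := a1 0
    have b1 := a1 1
    have b2 := a1 2
    simp only [Fin.sum_univ_three, sum_const, smul_eq_mul] at a2 b0 b1 b2 ⊢
    simp at b0 b1 b2
    omega
  have c6 : Cyᶜ.card + Cy.card = k := by rw [card_compl_add_card]; simp
  have hex : ∃ Fr : Fin 3 → Finset (Fin k), (∀ i, Fr i ⊆ Cyᶜ) ∧
      (∀ i j α, α ∈ Fr i → α ∈ Fr j → i = j) ∧
      ∀ i, (Ty i).card + Cyᶜ.card ≤ (P i).card + (Fr i).card := by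
    have s0 := hs 0
    have s1 := hs 1
    have s2 := hs 2
    simp only [Fin.sum_univ_three] at c1 c5
    obtain ⟨F0, a1, a2⟩ := exists_subset_card_eq (s := Cyᶜ)
      (n := (Ty 0).card + Cyᶜ.card - (P 0).card) (by omega)
    have a3 := card_sdiff_add_card_eq_card a1
    obtain ⟨F1, b1, b2⟩ := exists_subset_card_eq (s := Cyᶜ \ F0)
      (n := (Ty 1).card + Cyᶜ.card - (P 1).card) (by omega)
    have b3 := card_sdiff_add_card_eq_card b1
    refine ⟨![F0, F1, (Cyᶜ \ F0) \ F1], ?_, ?_, ?_⟩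
    · intro i
      fin_cases i
      · exact a1
      · exact b1.trans sdiff_subset
      · exact sdiff_subset.trans sdiff_subset
    · intro i j α h1 h2
      have := @b1 α
      fin_cases i <;> fin_cases j <;> simp_all
    · intro i
      fin_cases i <;> simp only [Fin.zero_eta, Fin.mk_one, Fin.reduceFinMk, Matrix.cons_val] <;>
        omega
  obtain ⟨Fr, f1, f2, f3⟩ := hex
  have hf : ∀ i, ∃ f : V → Fin k, Set.InjOn f (P i) ∧
      (∀ z ∈ P i, f z ∈ ((Y.filter fun y => ∀ j, j ≠ i → y ∈ A j).image c)ᶜ) ∧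
      ∀ α ∈ Ty i ∪ (Cyᶜ \ Fr i), ∃ z ∈ P i, f z = α := by
    intro i
    refine cover_inj _ _ _ ?_ ?_ ?_
    · intro α hα
      rw [mem_compl]
      intro h
      obtain ⟨y, hy, rfl⟩ := mem_image.1 h
      obtain ⟨h1, h2⟩ := mem_filter.1 hy
      rcases mem_union.1 hα with h4 | h4
      · obtain ⟨h4, h5, h6⟩ := mem_filter.1 h4
        refine h5 fun j => ?_
        by_cases h7 : j = i
        · rw [h7, ← h6]; exact hι _ h4
        · exact ⟨y, h1, h2 j h7, rfl⟩
      · exact mem_compl.1 (mem_sdiff.1 h4).1 (mem_image_of_mem c h1)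
    · have := card_union_le (Ty i) (Cyᶜ \ Fr i)
      have := card_sdiff_add_card_eq_card (f1 i)
      have := f3 i
      omega
    · have a1 := card_compl_add_card ((Y.filter fun y => ∀ j, j ≠ i → y ∈ A j).image c)
      have a2 : ((Y.filter fun y => ∀ j, j ≠ i → y ∈ A j).image c).card ≤ Y.card :=
        card_image_le.trans (card_filter_le _ _)
      have := hs i
      rw [Fintype.card_fin] at a1
      omega
  choose f g1 g2 g3 using hf
  let c' : V → Fin k := fun v => if h : ∃ i, v ∈ P i then f h.choose v else c v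
  have e1 : ∀ i, ∀ v ∈ P i, c' v = f i v := fun i v hv => by
    have h : ∃ i, v ∈ P i := ⟨i, hv⟩
    simp only [c', dif_pos h]
    rw [hPP _ _ v h.choose_spec hv]
  have e2 : ∀ v, (∀ i, v ∉ P i) → c' v = c v := fun v hv => by
    simp only [c']
    rw [dif_neg (not_exists.2 hv)]
  have e3 : ∀ y ∈ Y, c' y = c y := fun y hy => e2 y fun i h => (hP i y h).2.1 hy
  refine ⟨c', e2, fun i x hx y hy h => ?_, fun i z hz y hy h h' => ?_, fun j α => ?_⟩
  · rw [e1 i x hx, e1 i y hy] at h
    exact g1 i hx hy h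
  · rw [e1 i z hz] at h'
    exact mem_compl.1 (g2 i z hz) (h' ▸ mem_image_of_mem c (mem_filter.2 ⟨hy, h⟩))
  · have fin : ∀ i, i ≠ j → α ∈ Ty i ∪ (Cyᶜ \ Fr i) → ∃ v ∈ A j, c' v = α := fun i h h' => by
      obtain ⟨z, hz, h1⟩ := g3 i α h'
      exact ⟨z, (hP i z hz).2.2 j h.symm, by rw [e1 i z hz, h1]⟩
    by_cases h : α ∈ Cy
    · by_cases h1 : full α
      · obtain ⟨y, hy, h2, h4⟩ := h1 j
        exact ⟨y, h2, by rw [e3 y hy, h4]⟩
      · by_cases h2 : ι α = j
        · obtain ⟨y, hy, h5, h4⟩ := hι α h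
          exact ⟨y, h2 ▸ h5, by rw [e3 y hy, h4]⟩
        · exact fin _ h2 (mem_union_left _ (mem_filter.2 ⟨h, h1, rfl⟩))
    · by_cases h1 : α ∈ Fr (j + 1)
      · refine fin (j + 2) (by fin_cases j <;> decide) (mem_union_right _
          (mem_sdiff.2 ⟨mem_compl.2 h, fun h2 => ?_⟩))
        have := f2 _ _ α h1 h2
        revert this
        fin_cases j <;> decide
      · exact fin (j + 1) (by fin_cases j <;> decide) (mem_union_right _
          (mem_sdiff.2 ⟨mem_compl.2 h, h1⟩))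

end Pool.Agent.P.MP_b2489f_co
end
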