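import Pool.Agent.K.MP_b2489f_co.C2
import Pool.Agent.K.MP_b2489f_co.C1

-- part Pool.Agent.P.MP_b2489f_co.Five1
section

set_option autoImplicit false

/-! Rado's transversal theorem and the choice of colour shifts. -/

namespace Pool.Agent.P.MP_b2489f_co.Five

open Finset Classical Module

theorem rado {B O : Type} (r : Finset (B × O) → ℕ) (mono : ∀ A A', A ⊆ A' → r A ≤ r A')
    (sub : ∀ A A', r (A ∪ A') + r (A ∩ A') ≤ r A + r A') (P : B → Prop) (S : Finset (B × O))
    (hS : ∀ U : Finset B, (∀ b ∈ U, P b) → U.card ≤ r (S.filter fun p => p.1 ∈ U)) :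
    ∃ S' ⊆ S, (∀ U : Finset B, (∀ b ∈ U, P b) → U.card ≤ r (S'.filter fun p => p.1 ∈ U)) ∧
      ∀ p ∈ S', ∀ q ∈ S', p.1 = q.1 → p = q := by
  induction S using Finset.strongInduction with
  | H S ih =>
  by_cases h : ∀ p ∈ S, ∀ q ∈ S, p.1 = q.1 → p = q
  · exact ⟨S, Subset.refl _, hS, h⟩
  push Not at h
  obtain ⟨p, hp, q, hq, e, ne⟩ := h
  have key : ∀ x ∈ S, (∀ U : Finset B, (∀ b ∈ U, P b) →
      U.card ≤ r ((S.erase x).filter fun p => p.1 ∈ U)) → ∃ S' ⊆ S,
      (∀ U : Finset B, (∀ b ∈ U, P b) → U.card ≤ r (S'.filter fun p => p.1 ∈ U)) ∧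
      ∀ p ∈ S', ∀ q ∈ S', p.1 = q.1 → p = q := fun x hx H => by
    obtain ⟨S', h1, h2⟩ := ih _ (erase_ssubset hx) H
    exact ⟨S', h1.trans (erase_subset _ _), h2⟩
  by_contra hn
  have k2 : ∀ x ∈ S, ∃ U : Finset B, (∀ b ∈ U, P b) ∧ x.1 ∈ U ∧
      r ((S.erase x).filter fun p => p.1 ∈ U) < U.card := fun x hx => by
    by_contra c
    refine hn (key x hx fun U hU => ?_)
    by_cases m : x.1 ∈ U
    · exact not_lt.1 fun l => c ⟨U, hU, m, l⟩
    · refine (hS U hU).trans (mono _ _ fun y hy => ?_)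
      rw [mem_filter] at hy ⊢
      exact ⟨mem_erase.2 ⟨fun e => m (e ▸ hy.2), hy.1⟩, hy.2⟩
  obtain ⟨U1, a1, a2, a3⟩ := k2 p hp
  obtain ⟨U2, b1, b2, b3⟩ := k2 q hq
  have c1 := sub ((S.erase p).filter fun p => p.1 ∈ U1) ((S.erase q).filter fun p => p.1 ∈ U2)
  have c2 := (hS (U1 ∪ U2) fun b hb => (mem_union.1 hb).elim (a1 b) (b1 b)).trans
    (mono _ (((S.erase p).filter fun p => p.1 ∈ U1) ∪ ((S.erase q).filter fun p => p.1 ∈ U2))
      fun y hy => by
        simp only [mem_filter, mem_union, mem_erase] at hy ⊢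
        by_cases y1 : y = p
        · exact Or.inr ⟨⟨y1 ▸ ne, hy.1⟩, by rw [y1, e]; exact b2⟩
        by_cases y2 : y = q
        · exact Or.inl ⟨⟨y1, hy.1⟩, by rw [y2, ← e]; exact a2⟩
        exact hy.2.imp (fun z => ⟨⟨y1, hy.1⟩, z⟩) fun z => ⟨⟨y2, hy.1⟩, z⟩)
  have c3 := (hS ((U1 ∩ U2).erase p.1) fun b hb => a1 b (mem_inter.1 (mem_erase.1 hb).2).1).trans
    (mono _ (((S.erase p).filter fun p => p.1 ∈ U1) ∩ ((S.erase q).filter fun p => p.1 ∈ U2))
      fun y hy => by
        simp only [mem_filter, mem_inter, mem_erase] at hy ⊢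
        exact ⟨⟨⟨fun z => hy.2.1 (z ▸ rfl), hy.1⟩, hy.2.2.1⟩,
          ⟨fun z => hy.2.1 (z ▸ e.symm), hy.1⟩, hy.2.2.2⟩)
  have c4 : p.1 ∈ U1 ∩ U2 := mem_inter.2 ⟨a2, e ▸ b2⟩
  rw [card_erase_of_mem c4] at c3
  have c5 := card_union_add_card_inter U1 U2
  have c6 := card_pos.2 ⟨_, c4⟩
  omega

lemma dl_add_self {X : Type} (a : X) : dl a + dl a = 0 := by
  ext x; exact F2_add_self _

variable {V Q : Type} [AddCommGroup Q] [Module F2 Q] (π : (V → F2) →ₗ[F2] Q)

theorem solve {B : Type} [DecidableEq B] (x y : B → V) (t : B → ZMod 3) (U : Finset B)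
    (hU : ∀ b ∈ U, π (dl (x b) + dl (y b)) ∉
      Submodule.span F2 ((fun b => π (dl (x b) + dl (y b))) '' (U.erase b : Finset B))) :
    ∃ s : V → ZMod 3, (∀ a a', π (dl a + dl a') = 0 → s a = s a') ∧
      ∀ b ∈ U, s (y b) - s (x b) = t b := by
  induction U using Finset.induction_on with
  | empty => exact ⟨fun _ => 0, fun _ _ _ => rfl, by simp⟩
  | insert b U hb ih =>
  obtain ⟨s, h1, h2⟩ := ih fun c hc m => hU c (mem_insert_of_mem hc)
    (Submodule.span_mono (Set.image_mono (coe_subset.2 (erase_subset_erase _ (subset_insert _ _)))) m)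
  have h3 := hU b (mem_insert_self _ _)
  rw [erase_insert hb] at h3
  set T := (Submodule.span F2 ((fun b => π (dl (x b) + dl (y b))) '' (U : Finset B))).comap π
  have h4 : ∀ a a', dl a + dl a' ∈ T → (dl a + dl (y b) ∈ T ↔ dl a' + dl (y b) ∈ T) :=
    fun a a' h => ⟨add_mem_trans T _ _ _ (add_comm (dl a) _ ▸ h), add_mem_trans T _ _ _ h⟩
  refine ⟨fun z => s z + if dl z + dl (y b) ∈ T then t b - (s (y b) - s (x b)) else 0,
    fun a a' h => ?_, fun c hc => ?_⟩
  · have : dl a + dl a' ∈ T := by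
      rw [Submodule.mem_comap, h]; exact Submodule.zero_mem _
    simp only [h1 a a' h, h4 a a' this]
  · rcases mem_insert.1 hc with rfl | hc
    · have : dl (y c) + dl (y c) ∈ T := by rw [dl_add_self]; exact T.zero_mem
      have h3' : dl (x c) + dl (y c) ∉ T := h3
      simp only [this, h3', if_true, if_false]
      ring
    · have : dl (x c) + dl (y c) ∈ T := Submodule.subset_span ⟨c, hc, rfl⟩
      simp only [h4 _ _ this, ← h2 c hc]
      ring

theorem shifts {B O : Type} [Fintype B] [Fintype O] [Module.Finite F2 Q] (P : B → Prop)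
    (x y : B × O → V) (t : B × O → ZMod 3)
    (h : ∀ U : Finset B, (∀ b ∈ U, P b) → U.card ≤ finrank F2
      (Submodule.span F2 ((fun p => π (dl (x p) + dl (y p))) '' {p | p.1 ∈ U}))) :
    ∃ s : V → ZMod 3, (∀ a a', π (dl a + dl a') = 0 → s a = s a') ∧
      ∀ b, P b → ∃ o, s (y (b, o)) - s (x (b, o)) = t (b, o) := by
  let w : B × O → Q := fun p => π (dl (x p) + dl (y p))
  let r : Finset (B × O) → ℕ := fun A => finrank F2 (Submodule.span F2 (w '' A))
  have mono : ∀ A A', A ⊆ A' → r A ≤ r A' := fun A A' hA =>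
    Submodule.finrank_mono (Submodule.span_mono (Set.image_mono (coe_subset.2 hA)))
  have le : ∀ A, r A ≤ A.card := fun A => by
    have := finrank_span_finset_le_card (R := F2) (A.image w)
    rw [Set.finrank, coe_image] at this
    exact this.trans card_image_le
  obtain ⟨S, h1, h2, h3⟩ := rado r mono (fun A A' => by
      have a1 := Submodule.finrank_sup_add_finrank_inf_eq (Submodule.span F2 (w '' A))
        (Submodule.span F2 (w '' A'))
      have a2 : r (A ∩ A') ≤ finrank F2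
          (Submodule.span F2 (w '' A) ⊓ Submodule.span F2 (w '' A') : Submodule F2 Q) :=
        Submodule.finrank_mono (le_inf
          (Submodule.span_mono (Set.image_mono (coe_subset.2 inter_subset_left)))
          (Submodule.span_mono (Set.image_mono (coe_subset.2 inter_subset_right))))
      have a3 : r (A ∪ A') = finrank F2
          (Submodule.span F2 (w '' A) ⊔ Submodule.span F2 (w '' A') : Submodule F2 Q) := by
        simp only [r]
        rw [coe_union, Set.image_union, Submodule.span_union]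
      simp only [r] at a2 a3 ⊢
      omega) P (univ.filter fun p => P p.1) fun U hU => (h U hU).trans
    (Submodule.finrank_mono (Submodule.span_mono (Set.image_mono fun p hp => by
      have hp' : p.1 ∈ U := hp
      simp [hp', hU _ hp'])))
  obtain ⟨s, a1, a2⟩ := solve π x y t S fun p hp m => by
    have b1 := h2 (S.image Prod.fst) fun b hb => by
      obtain ⟨q, hq, rfl⟩ := mem_image.1 hb
      exact (mem_filter.1 (h1 hq)).2
    rw [card_image_of_injOn fun a ha b hb => h3 a ha b hb] at b1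
    have b2 := le (S.erase p)
    rw [card_erase_of_mem hp] at b2
    have b3 : r (S.filter fun q => q.1 ∈ S.image Prod.fst) ≤ r (S.erase p) := by
      refine Submodule.finrank_mono (Submodule.span_le.2 ?_)
      rintro _ ⟨q, hq, rfl⟩
      by_cases e : q = p
      · rw [e]; exact m
      · exact Submodule.subset_span ⟨q, mem_erase.2 ⟨e, (mem_filter.1 hq).1⟩, rfl⟩
    have := card_pos.2 ⟨p, hp⟩
    omega
  refine ⟨s, a1, fun b hb => ?_⟩
  have b1 := (h2 {b} (by simpa using hb)).trans (le _)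
  obtain ⟨p, hp⟩ := card_pos.1 (lt_of_lt_of_le (by simp) b1)
  rw [mem_filter, mem_singleton] at hp
  exact ⟨p.2, hp.2 ▸ a2 p hp.1⟩

end Pool.Agent.P.MP_b2489f_co.Five
end

-- part Pool.Agent.P.MP_b2489f_co.Five2
section

set_option autoImplicit false

/-! Outerplanar graphs (planar after adding an apex) are 3-colourable. -/

namespace Pool.Agent.P.MP_b2489f_co.Five

open Finset Classical Module

variable {D X Y : Type} (p1 p2 : D → X)

/-- adjacency -/
def Ad (a b : X) : Prop := ∃ d, (p1 d = a ∧ p2 d = b) ∨ (p1 d = b ∧ p2 d = a)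

/-- connected sets -/
def Cn (W : Set X) : Prop :=
  ∃ r, ∀ x ∈ W, Relation.ReflTransGen (fun a b => a ∈ W ∧ b ∈ W ∧ Ad p1 p2 a b) r x

/-- touching sets -/
def Tc (W W' : Set X) : Prop := ∃ x ∈ W, ∃ y ∈ W', Ad p1 p2 x y

variable {p1 p2}

lemma Ad.symm {a b : X} (h : Ad p1 p2 a b) : Ad p1 p2 b a := h.imp fun _ => Or.symm

lemma Tc.symm {W W' : Set X} (h : Tc p1 p2 W W') : Tc p1 p2 W' W := by
  obtain ⟨x, hx, y, hy, h⟩ := h
  exact ⟨y, hy, x, hx, h.symm⟩

lemma Tc.mono {W W' U U' : Set X} (h : Tc p1 p2 W W') (h1 : W ⊆ U) (h2 : W' ⊆ U') :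
    Tc p1 p2 U U' := by
  obtain ⟨x, hx, y, hy, h⟩ := h
  exact ⟨x, h1 hx, y, h2 hy, h⟩

lemma Cn.union {W U : Set X} (hW : Cn p1 p2 W) (hU : Cn p1 p2 U) (hT : Tc p1 p2 W U) :
    Cn p1 p2 (W ∪ U) := by
  obtain ⟨r, hr⟩ := hW
  obtain ⟨s, hs⟩ := hU
  obtain ⟨a, ha, b, hb, hab⟩ := hT
  have m : ∀ {Z : Set X} {a b : X}, Z ⊆ W ∪ U →
      Relation.ReflTransGen (fun a b => a ∈ Z ∧ b ∈ Z ∧ Ad p1 p2 a b) a b →
      Relation.ReflTransGen (fun a b => a ∈ W ∪ U ∧ b ∈ W ∪ U ∧ Ad p1 p2 a b) a b :=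
    fun hZ h => rtg_imp (fun _ _ h => ⟨hZ h.1, hZ h.2.1, h.2.2⟩) h
  have sy : ∀ {a b : X}, Relation.ReflTransGen (fun a b => a ∈ U ∧ b ∈ U ∧ Ad p1 p2 a b) a b →
      Relation.ReflTransGen (fun a b => a ∈ U ∧ b ∈ U ∧ Ad p1 p2 a b) b a := fun h => by
    induction h with
    | refl => rfl
    | tail _ h ih => exact Relation.ReflTransGen.head ⟨h.2.1, h.1, h.2.2.symm⟩ ih
  refine ⟨r, ?_⟩
  rintro x (hx | hx)
  · exact m Set.subset_union_left (hr x hx)
  · refine (m Set.subset_union_left (hr a ha)).trans ?_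
    refine Relation.ReflTransGen.head ⟨Or.inl ha, Or.inr hb, hab⟩ ?_
    exact m Set.subset_union_right ((sy (hs b hb)).trans (hs x hx))

variable (p1 p2) in
/-- a family of branch sets, all touching the apex set `W0` -/
structure Fam (W0 : Set X) (S : Finset X) (W : X → Set X) : Prop where
  dis : ∀ i ∈ S, ∀ j ∈ S, ∀ x, x ∈ W i → x ∈ W j → i = j
  out : ∀ i ∈ S, ∀ x ∈ W i, x ∉ W0
  cn : ∀ i ∈ S, Cn p1 p2 (W i)
  tc : ∀ i ∈ S, Tc p1 p2 W0 (W i)

lemma Fam.mono {W0 : Set X} {S S' : Finset X} {W : X → Set X} (h : Fam p1 p2 W0 S W)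
    (hS : S' ⊆ S) : Fam p1 p2 W0 S' W :=
  ⟨fun i hi j hj => h.dis i (hS hi) j (hS hj), fun i hi => h.out i (hS hi),
    fun i hi => h.cn i (hS hi), fun i hi => h.tc i (hS hi)⟩

variable [Fintype D] [Fintype X] [Fintype Y] {q1 q2 : D → Y}
  (hex : LinearMap.range (cb q1 q2) = LinearMap.ker (bd p1 p2)) {W0 : Set X} (h0 : Cn p1 p2 W0)

include hex h0

lemma bound1 {S : Finset X} {W : X → Set X} (h : Fam p1 p2 W0 S W) (hS : 2 ≤ S.card)
    (E : Finset (X × X)) (hE : ∀ e ∈ E, e.1 ∈ S ∧ e.2 ∈ S ∧ e.1 ≠ e.2 ∧ Tc p1 p2 (W e.1) (W e.2))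
    (ha : ∀ e ∈ E, e.swap ∉ E) : E.card + 3 ≤ 2 * S.card := by
  rcases E.eq_empty_or_nonempty with rfl | hne
  · simp; omega
  have := card_pos.2 hne
  let g : S ⊕ E → Option S × Option S := fun e => match e with
    | Sum.inl i => (none, some i)
    | Sum.inr e => (some ⟨e.1.1, (hE _ e.2).1⟩, some ⟨e.1.2, (hE _ e.2).2.1⟩)
  have hg : Function.Injective g := by
    rintro (a | a) (b | b) hab <;> simp only [g, Prod.mk.injEq, Option.some.injEq, true_and,
      Subtype.mk.injEq, reduceCtorEq, false_and] at hab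
    · rw [hab]
    · rw [Subtype.ext (Prod.ext hab.1 hab.2 : a.1 = b.1)]
  have hA : (univ.image g).card = S.card + E.card := by
    rw [card_image_of_injective _ hg]; simp
  have hne : ∀ a ∈ univ.image g, a.1 ≠ a.2 := by
    intro a ha
    obtain ⟨b | b, -, rfl⟩ := mem_image.1 ha
    · simp [g]
    · simpa [g] using (hE _ b.2).2.2.1
  have has : ∀ a ∈ univ.image g, a.swap ∉ univ.image g := by
    intro a h1 h2
    obtain ⟨b | b, -, rfl⟩ := mem_image.1 h1 <;> obtain ⟨c | c, -, h3⟩ := mem_image.1 h2 <;>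
      simp only [g, Prod.swap, Prod.mk.injEq, Option.some.injEq, Subtype.mk.injEq, reduceCtorEq,
        false_and, and_false] at h3
    refine ha _ b.2 ?_
    rw [show b.1.swap = c.1 from Prod.ext h3.1.symm h3.2.symm]
    exact c.2
  have := minor_core (ι := Option S) p1 p2 q1 q2 hex (fun i => i.elim W0 fun i => W i) ?_ ?_
    (univ.image g) hne has ?_ 3 (girth3 _ hne has) (by rw [hA]; simp; omega)
  · rw [hA] at this
    simp only [Fintype.card_option, Fintype.card_coe] at this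
    omega
  · rintro (_ | i) (_ | j) x h1 h2
    · rfl
    · exact (h.out j j.2 x h2 h1).elim
    · exact (h.out i i.2 x h1 h2).elim
    · rw [Subtype.ext (h.dis i i.2 j j.2 x h1 h2)]
  · rintro (_ | i)
    · exact h0
    · exact h.cn i i.2
  · intro a ha
    obtain ⟨b | b, -, rfl⟩ := mem_image.1 ha
    · exact h.tc b b.2
    · exact (hE _ b.2).2.2.2

lemma bound2 {S : Finset X} {W : X → Set X} (h : Fam p1 p2 W0 S W) (hS : 2 ≤ S.card)
    (E : Finset (X × X))
    (hE : ∀ e ∈ E, e.1 ∈ S ∧ e.2 ∈ S ∧ e.1 ≠ e.2 ∧ Tc p1 p2 (W e.1) (W e.2)) :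
    E.card + 6 ≤ 4 * S.card := by
  let lt : X → X → Prop := fun a b => (Fintype.equivFin X a) < Fintype.equivFin X b
  have h1 := bound1 hex h0 h hS (E.filter fun p => lt p.1 p.2)
    (fun e he => hE e (mem_filter.1 he).1)
    (fun a ha ha' => lt_asymm (mem_filter.1 ha).2 (mem_filter.1 ha').2)
  have h2 := bound1 hex h0 h hS (E.filter fun p => ¬ lt p.1 p.2)
    (fun e he => hE e (mem_filter.1 he).1) (fun a ha ha' => by
      have e1 := (mem_filter.1 ha).2
      have e2 := (mem_filter.1 ha').2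
      simp only [lt, not_lt, Prod.fst_swap, Prod.snd_swap] at e1 e2
      exact (hE a (mem_filter.1 ha).1).2.2.1 ((Fintype.equivFin X).injective (le_antisymm e2 e1)))
  have := card_filter_add_card_filter_not (s := E) (fun p => lt p.1 p.2)
  omega

theorem col3 (n : ℕ) : ∀ (S : Finset X) (W : X → Set X), S.card ≤ n → Fam p1 p2 W0 S W →
    ∃ c : X → ZMod 3, ∀ i ∈ S, ∀ j ∈ S, i ≠ j → Tc p1 p2 (W i) (W j) → c i ≠ c j := by
  induction n with
  | zero =>
    intro S W hS _
    rw [Nat.le_zero, card_eq_zero] at hS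
    exact ⟨0, by simp [hS]⟩
  | succ n ih =>
  intro S W hS h
  by_cases h2 : S.card ≤ 1
  · exact ⟨0, fun i hi j hj e => absurd (card_le_one.1 h2 i hi j hj) e⟩
  let N : X → Finset X := fun v => S.filter fun j => v ≠ j ∧ Tc p1 p2 (W v) (W j)
  obtain ⟨v, hv, hN⟩ : ∃ v ∈ S, (N v).card ≤ 3 := by
    by_contra c
    push Not at c
    have a1 := bound2 hex h0 h (by omega) ((S.sigma N).image fun p => (p.1, p.2)) fun e he => by
      obtain ⟨p, hp, rfl⟩ := mem_image.1 he
      rw [mem_sigma, mem_filter] at hp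
      exact ⟨hp.1, hp.2⟩
    rw [card_image_of_injective _ (fun a b e => by
      cases a; cases b; simp only [Prod.mk.injEq] at e; rw [e.1, e.2]), card_sigma] at a1
    have a2 := card_nsmul_le_sum S (fun v => (N v).card) 4 c
    rw [smul_eq_mul] at a2
    omega
  have hv' := card_erase_of_mem hv
  obtain ⟨c, c1, c2⟩ : ∃ c : X → ZMod 3, (∀ i ∈ S.erase v, ∀ j ∈ S.erase v, i ≠ j →
      Tc p1 p2 (W i) (W j) → c i ≠ c j) ∧ ((N v).image c).card ≤ 2 := by
    by_cases h3 : (N v).card ≤ 2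
    · obtain ⟨c, hc⟩ := ih (S.erase v) W (by omega) (h.mono (erase_subset _ _))
      exact ⟨c, hc, card_image_le.trans h3⟩
    obtain ⟨a, ha, b, hb, ab, nt⟩ : ∃ a ∈ N v, ∃ b ∈ N v, a ≠ b ∧ ¬ Tc p1 p2 (W a) (W b) := by
      by_contra c
      push Not at c
      have a0 : (insert v (N v)).card = 4 := by
        rw [card_insert_of_notMem (by simp [N])]; omega
      have a1 := bound2 hex h0 (h.mono (S' := insert v (N v))
        (insert_subset hv (filter_subset _ _))) (by omega) (insert v (N v)).offDiag fun e he => by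
          rw [mem_offDiag] at he
          refine ⟨he.1, he.2.1, he.2.2, ?_⟩
          rcases mem_insert.1 he.1 with e1 | e1 <;> rcases mem_insert.1 he.2.1 with e2 | e2
          · exact absurd (e1.trans e2.symm) he.2.2
          · rw [e1]; exact (mem_filter.1 e2).2.2
          · rw [e2]; exact (mem_filter.1 e1).2.2.symm
          · exact c _ e1 _ e2 he.2.2
      rw [offDiag_card, a0] at a1
      omega
    have ha' := mem_filter.1 ha
    have hb' := mem_filter.1 hb
    have sub : (S.erase v).erase b ⊆ S := (erase_subset _ _).trans (erase_subset _ _)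
    let W' : X → Set X := fun i => if i = a then W a ∪ W v ∪ W b else W i
    have w1 : ∀ i, W i ⊆ W' i := fun i x hx => by
      by_cases e : i = a
      · simp only [W', e, if_true]; exact Or.inl (Or.inl (e ▸ hx))
      · simp only [W', e, if_false]; exact hx
    have w2 : ∀ i ∈ (S.erase v).erase b, ∀ x ∈ W' i, ∃ j ∈ S, x ∈ W j ∧
        (j = i ∨ (i = a ∧ j ∉ (S.erase v).erase b)) := fun i hi x hx => by
      by_cases e : i = a
      · simp only [W', e, if_true] at hx
        rcases hx with (hx | hx) | hx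
        · exact ⟨a, ha'.1, hx, Or.inl e.symm⟩
        · exact ⟨v, hv, hx, Or.inr ⟨e, by simp⟩⟩
        · exact ⟨b, hb'.1, hx, Or.inr ⟨e, by simp⟩⟩
      · simp only [W', e, if_false] at hx
        exact ⟨i, sub hi, hx, Or.inl rfl⟩
    obtain ⟨c, hc⟩ := ih ((S.erase v).erase b) W' (card_erase_le.trans (by omega))
      ⟨fun i hi j hj x h1 h2 => by
        obtain ⟨k, k1, k2, k3⟩ := w2 i hi x h1
        obtain ⟨l, l1, l2, l3⟩ := w2 j hj x h2
        obtain rfl := h.dis k k1 l l1 x k2 l2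
        rcases k3 with k3 | k3 <;> rcases l3 with l3 | l3
        · exact k3.symm.trans l3
        · exact absurd (k3 ▸ hi) l3.2
        · exact absurd (l3 ▸ hj) k3.2
        · exact k3.1.trans l3.1.symm,
      fun i hi x hx => by
        obtain ⟨k, k1, k2, -⟩ := w2 i hi x hx
        exact h.out k k1 x k2,
      fun i hi => by
        by_cases e : i = a
        · simp only [W', e, if_true]
          exact ((h.cn a ha'.1).union (h.cn v hv) ha'.2.2.symm).union (h.cn b hb'.1)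
            (hb'.2.2.mono Set.subset_union_right (Set.Subset.refl _))
        · simp only [W', e, if_false]; exact h.cn i (sub hi),
      fun i hi => (h.tc i (sub hi)).mono (Set.Subset.refl _) (w1 i)⟩
    let m : X → X := fun i => if i = b then a else i
    have m1 : ∀ i ∈ S.erase v, m i ∈ (S.erase v).erase b ∧ W i ⊆ W' (m i) := fun i hi => by
      by_cases e : i = b
      · simp only [m, e, if_true, W']
        exact ⟨mem_erase.2 ⟨ab, mem_erase.2 ⟨ha'.2.1.symm, ha'.1⟩⟩, Set.subset_union_right⟩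
      · simp only [m, e, if_false]
        exact ⟨mem_erase.2 ⟨e, hi⟩, w1 i⟩
    refine ⟨c ∘ m, fun i hi j hj e t => hc _ (m1 i hi).1 _ (m1 j hj).1 (fun q => ?_)
      (t.mono (m1 i hi).2 (m1 j hj).2), ?_⟩
    · by_cases e1 : i = b <;> by_cases e2 : j = b <;> simp only [m, e1, e2, if_true, if_false] at q
      · exact e (e1.trans e2.symm)
      · exact nt (by rw [q, ← e1]; exact t.symm)
      · exact nt (by rw [← q, ← e2]; exact t)
      · exact e q
    · refine (card_le_card (t := ((N v).erase b).image c) fun z hz => ?_).trans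
        (card_image_le.trans (by rw [card_erase_of_mem hb]; omega))
      obtain ⟨i, hi, rfl⟩ := mem_image.1 hz
      refine mem_image.2 ⟨m i, ?_, rfl⟩
      by_cases e : i = b
      · simp only [m, e, if_true]; exact mem_erase.2 ⟨ab, ha⟩
      · simp only [m, e, if_false]; exact mem_erase.2 ⟨e, hi⟩
  obtain ⟨z, -, hz⟩ := exists_mem_notMem_of_card_lt_card (s := (N v).image c) (t := univ)
    (by rw [card_univ, ZMod.card]; omega)
  have k : ∀ j ∈ S, v ≠ j → Tc p1 p2 (W v) (W j) → z ≠ c j := fun j hj e t q =>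
    hz (mem_image.2 ⟨j, mem_filter.2 ⟨hj, e, t⟩, q.symm⟩)
  refine ⟨fun i => if i = v then z else c i, fun i hi j hj e t => ?_⟩
  by_cases e1 : i = v <;> by_cases e2 : j = v <;> simp only [e1, e2, if_true, if_false]
  · exact absurd (e1.trans e2.symm) e
  · exact k j hj (e1 ▸ e) (e1 ▸ t)
  · exact (k i hi (e2 ▸ e.symm) (e2 ▸ t.symm)).symm
  · exact c1 i (mem_erase.2 ⟨e1, hi⟩) j (mem_erase.2 ⟨e2, hj⟩) e t

omit h0 in
/-- the edges inside the levels of a breadth-first search are properly 3-colourable -/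
theorem levels (rt : X → X) (h : X → ℕ) (h1 : ∀ x, h x = 0 → x = rt x)
    (h2 : ∀ x k, h x = k + 1 → ∃ y, Ad p1 p2 y x ∧ rt y = rt x ∧ h y = k) :
    ∃ c : X → ZMod 3, ∀ x y, x ≠ y → Ad p1 p2 x y → rt x = rt y → h x = h y → c x ≠ c y := by
  have : ∀ r k, ∃ c : X → ZMod 3, ∀ x y, x ≠ y → Ad p1 p2 x y → rt x = r → rt y = r →
      h x = k → h y = k → c x ≠ c y := by
    intro r k
    rcases k with _ | k
    · exact ⟨0, fun x y e _ a b c d => absurd (by rw [h1 x c, h1 y d, a, b]) e⟩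
    have h0 : Cn p1 p2 {x | rt x = r ∧ h x ≤ k} := by
      refine ⟨r, fun x hx => ?_⟩
      induction hm : h x generalizing x with
      | zero => rw [h1 x hm, hx.1]
      | succ m ih =>
        obtain ⟨y, a, b, c⟩ := h2 x m hm
        have hy : y ∈ {x | rt x = r ∧ h x ≤ k} := ⟨b.trans hx.1, by have := hx.2; omega⟩
        exact (ih y hy c).tail ⟨hy, hx, a⟩
    obtain ⟨c, hc⟩ := col3 hex h0 _ (univ.filter fun x => rt x = r ∧ h x = k + 1) (fun x => {x})
      le_rfl ⟨fun i _ j _ x a b => a.symm.trans b, fun i hi x a b => by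
        have := b.2
        rw [a, (mem_filter.1 hi).2.2] at this
        omega, fun i _ => ⟨i, fun x hx => by rw [hx]⟩, fun i hi => by
        obtain ⟨y, a, b, c⟩ := h2 i k (mem_filter.1 hi).2.2
        exact ⟨y, ⟨b.trans (mem_filter.1 hi).2.1, c.le⟩, i, rfl, a⟩⟩
    exact ⟨c, fun x y e t a b c d => hc x (by simp [a, c]) y (by simp [b, d]) e ⟨x, rfl, y, rfl, t⟩⟩
  choose c hc using this
  refine ⟨fun x => c (rt x) (h x) x, fun x y e t a b => ?_⟩
  have := hc _ _ x y e t rfl a.symm rfl b.symm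
  simp only [← a, ← b]
  exact this

end Pool.Agent.P.MP_b2489f_co.Five
end

-- part Pool.Agent.P.MP_b2489f_co.Five3
section

set_option autoImplicit false

/-! Plane systems of pentagons: breadth-first levels, chords, and the rank bound. -/

namespace Pool.Agent.P.MP_b2489f_co.Five

open Finset Classical Module

lemma bfs {X : Type} (A : X → X → Prop) (sy : ∀ x y, A x y → A y x) :
    ∃ (rt : X → X) (h : X → ℕ), (∀ x, h x = 0 → x = rt x) ∧
      (∀ x k, h x = k + 1 → ∃ y, A y x ∧ h y = k) ∧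
      ∀ x y, A x y → rt x = rt y ∧ h y ≤ h x + 1 := by
  let st : Setoid X := ⟨Relation.ReflTransGen A, fun _ => Relation.ReflTransGen.refl,
    fun h => by
      induction h with
      | refl => rfl
      | tail _ h ih => exact Relation.ReflTransGen.head (sy _ _ h) ih,
    Relation.ReflTransGen.trans⟩
  let rt : X → X := fun x => (Quotient.mk st x).out
  let R : ℕ → X → Prop := fun n => Nat.rec (fun x => x = rt x) (fun _ r x => ∃ y, A y x ∧ r y) n
  have ex : ∀ x, ∃ n, R n x := fun x => by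
    have : Relation.ReflTransGen A (rt x) x := Quotient.exact (Quotient.out_eq (Quotient.mk st x))
    have h0 : R 0 (rt x) := by
      show rt x = (Quotient.mk st (Quotient.mk st x).out).out
      rw [Quotient.out_eq]
    generalize rt x = r at this h0
    induction this with
    | refl => exact ⟨0, h0⟩
    | tail _ h ih => exact ih.elim fun n hn => ⟨n + 1, _, h, hn⟩
  let H : X → ℕ := fun x => sInf {n | R n x}
  have sp : ∀ x, R (H x) x := fun x => Nat.sInf_mem (ex x)
  have mn : ∀ x n, R n x → H x ≤ n := fun x n h => Nat.sInf_le h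
  have le : ∀ x y, A x y → H y ≤ H x + 1 := fun x y h => mn _ _ ⟨x, h, sp x⟩
  refine ⟨rt, H, fun x hx => ?_, fun x k hx => ?_, fun x y h =>
    ⟨congrArg Quotient.out (Quotient.sound (Relation.ReflTransGen.single h)), le x y h⟩⟩
  · have := sp x
    rwa [hx] at this
  · have := sp x
    rw [hx] at this
    obtain ⟨y, h1, h2⟩ := this
    have a1 := le y x h1
    have a2 := mn y k h2
    exact ⟨y, h1, by omega⟩

lemma classify (h : Fin 5 → ℕ) (H : ∀ i, h (i + 1) ≤ h i + 1 ∧ h i ≤ h (i + 1) + 1) :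
    ∃ ρ : Fin 5, h (0 + ρ) = h (1 + ρ) ∧ (h (1 + ρ) = h (2 + ρ) ∨
      ∀ i : Fin 4, h (i.succ + ρ) ≠ h (i.succ + 1 + ρ)) := by
  have h0 : h 1 ≤ h 0 + 1 ∧ h 0 ≤ h 1 + 1 := H 0
  have h1 : h 2 ≤ h 1 + 1 ∧ h 1 ≤ h 2 + 1 := H 1
  have h2 : h 3 ≤ h 2 + 1 ∧ h 2 ≤ h 3 + 1 := H 2
  have h3 : h 4 ≤ h 3 + 1 ∧ h 3 ≤ h 4 + 1 := H 3
  have h4 : h 0 ≤ h 4 + 1 ∧ h 4 ≤ h 0 + 1 := H 4
  have k : ∀ ρ : Fin 5, (h (1 + ρ) ≠ h (2 + ρ) ∧ h (2 + ρ) ≠ h (3 + ρ) ∧ h (3 + ρ) ≠ h (4 + ρ) ∧
      h (4 + ρ) ≠ h (0 + ρ)) → ∀ i : Fin 4, h (i.succ + ρ) ≠ h (i.succ + 1 + ρ) := by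
    intro ρ a i
    fin_cases i
    exacts [a.1, a.2.1, a.2.2.1, a.2.2.2]
  by_contra c
  push Not at c
  have c' : ∀ ρ : Fin 5, h (0 + ρ) = h (1 + ρ) → h (1 + ρ) ≠ h (2 + ρ) ∧
      ¬ (h (1 + ρ) ≠ h (2 + ρ) ∧ h (2 + ρ) ≠ h (3 + ρ) ∧ h (3 + ρ) ≠ h (4 + ρ) ∧
      h (4 + ρ) ≠ h (0 + ρ)) := fun ρ a =>
    ⟨(c ρ a).1, fun b => (c ρ a).2.elim fun i hi => k ρ b i hi⟩
  have c0 : h 0 = h 1 → h 1 ≠ h 2 ∧ ¬ (h 1 ≠ h 2 ∧ h 2 ≠ h 3 ∧ h 3 ≠ h 4 ∧ h 4 ≠ h 0) := c' 0
  have c1 : h 1 = h 2 → h 2 ≠ h 3 ∧ ¬ (h 2 ≠ h 3 ∧ h 3 ≠ h 4 ∧ h 4 ≠ h 0 ∧ h 0 ≠ h 1) := c' 1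
  have c2 : h 2 = h 3 → h 3 ≠ h 4 ∧ ¬ (h 3 ≠ h 4 ∧ h 4 ≠ h 0 ∧ h 0 ≠ h 1 ∧ h 1 ≠ h 2) := c' 2
  have c3 : h 3 = h 4 → h 4 ≠ h 0 ∧ ¬ (h 4 ≠ h 0 ∧ h 0 ≠ h 1 ∧ h 1 ≠ h 2 ∧ h 2 ≠ h 3) := c' 3
  have c4 : h 4 = h 0 → h 0 ≠ h 1 ∧ ¬ (h 0 ≠ h 1 ∧ h 1 ≠ h 2 ∧ h 2 ≠ h 3 ∧ h 3 ≠ h 4) := c' 4
  omega

lemma selforth {ε : Type} [Fintype ε] (W : Submodule F2 (ε → F2))
    (h : ∀ w ∈ W, ∀ w' ∈ W, ∑ e, w e * w' e = 0) : 2 * finrank F2 W ≤ Fintype.card ε := by
  have a1 := Subspace.finrank_add_finrank_dualAnnihilator_eq W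
  have a2 : W.map (dotProductEquiv F2 ε : (ε → F2) →ₗ[F2] Module.Dual F2 (ε → F2)) ≤
      W.dualAnnihilator := by
    rintro _ ⟨w, hw, rfl⟩
    rw [Submodule.mem_dualAnnihilator]
    exact fun w' hw' => h w hw w' hw'
  have a3 := Submodule.finrank_mono a2
  rw [LinearEquiv.finrank_map_eq] at a3
  rw [finrank_fintype_fun_eq_card] at a1
  omega

lemma bd_pair {D X : Type} [Fintype D] [Fintype X] (p1 p2 : D → X) (κ : X → F2) (z : D → F2)
    (hz : bd p1 p2 z = 0) : ∑ d, z d * (κ (p1 d) + κ (p2 d)) = 0 := by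
  have : ∑ x, κ x * bd p1 p2 z x = 0 := by simp [hz]
  rw [← this]
  simp only [bd_apply, mul_sum]
  rw [sum_comm]
  refine sum_congr rfl fun d _ => ?_
  have : ∀ x, κ x * (z d * (dl (p1 d) x + dl (p2 d) x)) =
      z d * (dl (p1 d) x * κ x) + z d * (dl (p2 d) x * κ x) := fun x => by ring
  simp only [this, sum_add_distrib, ← mul_sum, sum_dl_mul]
  ring

lemma bd_eq_sum {D X : Type} [Fintype D] (p1 p2 : D → X) (z : D → F2) :
    bd p1 p2 z = ∑ d, z d • (dl (p1 d) + dl (p2 d)) := by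
  ext x
  simp [bd_apply, Finset.sum_apply, mul_add]

lemma sum5 (t : Fin 5 → F2) : ∑ i, (t i + t (i + 1)) = 0 := by
  rw [sum_add_distrib, Equiv.sum_comp (Equiv.addRight (1 : Fin 5)) t |>.symm]
  exact F2_add_self _

/-- pentagons drawn in the plane: `v f i` are the corners, `g f i` is the region on the other
side of the side from corner `i` to corner `i + 1` -/
structure Pent (V F K : Type) [Fintype F] where
  v : F → Fin 5 → V
  g : F → Fin 5 → K
  inj : ∀ f, Function.Injective (v f)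
  cyc : ∀ u : K → F2, bd (fun s : F × Fin 5 => v s.1 s.2) (fun s => v s.1 (s.2 + 1))
    (fun s => u (g s.1 s.2)) = 0
  ex : ∀ z, bd (fun s : F × Fin 5 => v s.1 s.2) (fun s => v s.1 (s.2 + 1)) z = 0 →
    ∃ (t : F → F2) (u : K → F2), ∀ f i, z (f, i) = t f + u (g f i)

namespace Pent

variable {V F K : Type} [Fintype F] (P : Pent V F K)

abbrev a : F × Fin 5 → V := fun s => P.v s.1 s.2
abbrev b : F × Fin 5 → V := fun s => P.v s.1 (s.2 + 1)

lemma bd_rot (ρ : F → Fin 5) (z : F × Fin 5 → F2) :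
    bd (fun s : F × Fin 5 => P.v s.1 (s.2 + ρ s.1)) (fun s => P.v s.1 (s.2 + 1 + ρ s.1))
      (fun s => z (s.1, s.2 + ρ s.1)) = bd P.a P.b z := by
  ext x
  simp only [bd_apply, Fintype.sum_prod_type]
  refine sum_congr rfl fun f _ => ?_
  refine Eq.trans ?_ (Equiv.sum_comp (Equiv.addRight (ρ f)) _)
  simp only [Equiv.coe_addRight, add_right_comm _ (1 : Fin 5)]

/-- rotate the corner numbers -/
def rot (ρ : F → Fin 5) : Pent V F K where
  v f i := P.v f (i + ρ f)
  g f i := P.g f (i + ρ f)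
  inj f _ _ h := add_right_cancel (P.inj f h)
  cyc u := (P.bd_rot ρ fun s => u (P.g s.1 s.2)).trans (P.cyc u)
  ex z hz := by
    obtain ⟨t, u, h⟩ := P.ex (fun s => z (s.1, s.2 - ρ s.1)) (by
      rw [← hz]
      refine (P.bd_rot ρ _).symm.trans ?_
      simp only [add_sub_cancel_right])
    exact ⟨t, u, fun f i => by rw [← h]; simp only [add_sub_cancel_right]⟩

lemma ad_rot (ρ : F → Fin 5) (x y : V) : Ad (P.rot ρ).a (P.rot ρ).b x y ↔ Ad P.a P.b x y := by
  constructor
  · rintro ⟨s, h⟩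
    refine ⟨(s.1, s.2 + ρ s.1), ?_⟩
    simpa only [rot, a, b, add_right_comm _ (1 : Fin 5)] using h
  · rintro ⟨s, h⟩
    refine ⟨(s.1, s.2 - ρ s.1), ?_⟩
    simpa only [rot, a, b, add_right_comm _ (1 : Fin 5), sub_add_cancel] using h

lemma bd_fst (t : F → F2) : bd P.a P.b (fun s => t s.1) = 0 := by
  ext x
  simp only [bd_apply, Fintype.sum_prod_type, ← mul_sum, Pi.zero_apply]
  refine sum_eq_zero fun f _ => ?_
  rw [sum5 fun i => dl (P.v f i) x, mul_zero]

/-- sides and chords -/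
def a' : (F × Fin 5) ⊕ F → V := Sum.elim P.a fun f => P.v f 0
def b' : (F × Fin 5) ⊕ F → V := Sum.elim P.b fun f => P.v f 2
def l' : (F × Fin 5) ⊕ F → (F × Bool) ⊕ K :=
  Sum.elim (fun s => Sum.inl (s.1, ![true, true, false, false, false] s.2)) fun f => Sum.inl (f, true)
def r' : (F × Fin 5) ⊕ F → (F × Bool) ⊕ K :=
  Sum.elim (fun s => Sum.inr (P.g s.1 s.2)) fun f => Sum.inl (f, false)

lemma bd_chord (z : (F × Fin 5) ⊕ F → F2) : bd P.a' P.b' z =
    bd P.a P.b fun s => z (Sum.inl s) + ![1, 1, 0, 0, 0] s.2 * z (Sum.inr s.1) := by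
  ext x
  simp only [bd_apply, Fintype.sum_sum_type, Fintype.sum_prod_type, add_mul, sum_add_distrib, a', b',
    Sum.elim_inl, Sum.elim_inr]
  congr 1
  refine sum_congr rfl fun f _ => ?_
  simp [Fin.sum_univ_five, a, b]
  have := F2_add_self (z (Sum.inr f) * dl (P.v f 1) x)
  linear_combination -this

lemma exact' : LinearMap.range (cb (l' (K := K)) P.r') = LinearMap.ker (bd P.a' P.b') := by
  refine le_antisymm ?_ fun z hz => ?_
  · rintro _ ⟨u, rfl⟩
    rw [LinearMap.mem_ker, bd_chord]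
    have := congrArg₂ (· + ·) (P.bd_fst fun f => u (Sum.inl (f, false)))
      (P.cyc fun k => u (Sum.inr k))
    simp only [add_zero] at this
    rw [← this, ← map_add]
    congr 1
    ext ⟨f, i⟩
    have := F2_add_self (u (Sum.inl (f, true)))
    fin_cases i <;> simp [cb_apply, l', r'] <;> linear_combination this
  · rw [LinearMap.mem_ker, bd_chord] at hz
    obtain ⟨t, u, h⟩ := P.ex _ hz
    refine ⟨Sum.elim (fun p => t p.1 + if p.2 then z (Sum.inr p.1) else 0) u, ?_⟩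
    ext (⟨f, i⟩ | f)
    · have := h f i
      have h2 := F2_add_self (z (Sum.inr f))
      fin_cases i <;> simp [cb_apply, l', r'] at this ⊢ <;> first
        | linear_combination h2 - this
        | exact this.symm
    · have h2 := F2_add_self (t f)
      simp [cb_apply, l', r']
      linear_combination h2

end Pent

end Pool.Agent.P.MP_b2489f_co.Five
end

-- part Pool.Agent.P.MP_b2489f_co.Five4
section

set_option autoImplicit false

/-! Every plane system of pentagons has a colouring with all three colours on each pentagon. -/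

namespace Pool.Agent.P.MP_b2489f_co.Five.Pent

open Finset Classical Module

variable {V F K : Type} [Fintype F] [Fintype V] (P : Pent V F K) (κ : V → F2)

/-- `1` on the sides whose ends have different parity -/
def cut (s : F × Fin 5) : F2 := κ (P.a s) + κ (P.b s)

/-- chains on the sides whose ends have equal parity -/
def S0 : Submodule F2 (F × Fin 5 → F2) where
  carrier := {w | ∀ s, P.cut κ s ≠ 0 → w s = 0}
  add_mem' := fun {a b} ha hb d hd => by simp [ha d hd, hb d hd]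
  zero_mem' := fun _ _ => rfl
  smul_mem' := fun c w hw d hd => by simp [hw d hd]

/-- weights that agree across the pentagons outside `U` -/
def Adm (U : Finset F) : Submodule F2 (K → F2) where
  carrier := {u | ∀ f ∉ U, ∃ t, ∀ i, P.cut κ (f, i) ≠ 0 → u (P.g f i) = t}
  add_mem' := fun {a b} ha hb f hf => by
    obtain ⟨t, h⟩ := ha f hf
    obtain ⟨t', h'⟩ := hb f hf
    exact ⟨t + t', fun i hi => by rw [Pi.add_apply, h i hi, h' i hi]⟩
  zero_mem' := fun _ _ => ⟨0, fun _ _ => rfl⟩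
  smul_mem' := fun c w hw f hf => by
    obtain ⟨t, h⟩ := hw f hf
    exact ⟨c • t, fun i hi => by rw [Pi.smul_apply, h i hi]⟩

lemma parity (U : Finset F) (hU : ∀ f ∈ U, P.cut κ (f, 0) = 0 ∧ ∀ i : Fin 4, P.cut κ (f, i.succ) = 1)
    (u : K → F2) (hu : u ∈ P.Adm κ U) : ∑ e : U × Fin 4, u (P.g e.1 e.2.succ) = 0 := by
  have h := bd_pair _ _ κ _ (P.cyc u)
  rw [Fintype.sum_prod_type, ← sum_add_sum_compl U] at h
  have h2 : ∑ f ∈ Uᶜ, ∑ i, u (P.g f i) * P.cut κ (f, i) = 0 := by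
    refine sum_eq_zero fun f hf => ?_
    obtain ⟨t, ht⟩ := hu f (mem_compl.1 hf)
    have : ∀ i, u (P.g f i) * P.cut κ (f, i) = t * P.cut κ (f, i) := fun i => by
      by_cases c : P.cut κ (f, i) = 0
      · rw [c, mul_zero, mul_zero]
      · rw [ht i c]
    simp only [this, ← mul_sum]
    exact (congrArg _ (sum5 fun i => κ (P.v f i))).trans (mul_zero _)
  have h3 : ∑ f ∈ U, ∑ i, u (P.g f i) * P.cut κ (f, i) = 0 := by
    rw [← h, eq_comm]
    exact (congrArg _ h2).trans (add_zero _)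
  rw [Fintype.sum_prod_type, ← h3, ← sum_coe_sort U]
  refine sum_congr rfl fun f _ => ?_
  rw [Fin.sum_univ_succ (n := 4), (hU f f.2).1]
  simp only [(hU f f.2).2, mul_one, mul_zero, zero_add]

lemma rank (U : Finset F)
    (hU : ∀ f ∈ U, P.cut κ (f, 0) = 0 ∧ ∀ i : Fin 4, P.cut κ (f, i.succ) = 1) :
    U.card ≤ finrank F2 (Submodule.span F2 ((fun p : F × Fin 5 =>
      ((P.S0 κ).map (bd P.a P.b)).mkQ (dl (P.v p.1 0) + dl (P.v p.1 p.2))) '' {p | p.1 ∈ U})) := by
  set π := ((P.S0 κ).map (bd P.a P.b)).mkQ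
  let ι : U × Fin 4 → F × Fin 5 := fun e => (e.1, e.2.succ)
  have hι : Function.Injective ι := fun a b h => by
    simp only [ι, Prod.mk.injEq, Fin.succ_inj] at h
    exact Prod.ext (Subtype.ext h.1) h.2
  let Φ := π ∘ₗ bd (P.a ∘ ι) (P.b ∘ ι)
  let W := (P.Adm κ U).map (LinearMap.funLeft F2 F2 fun e => P.g (ι e).1 (ι e).2)
  let T := LinearMap.funLeft F2 F2 (Prod.fst : U × Fin 4 → U)
  have h1 := LinearMap.finrank_range_add_finrank_ker Φ
  have h2 := selforth W (by
    rintro _ ⟨u, hu, rfl⟩ _ ⟨u', hu', rfl⟩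
    refine P.parity κ U hU (u * u') fun f hf => ?_
    obtain ⟨t, h⟩ := hu f hf
    obtain ⟨t', h'⟩ := hu' f hf
    exact ⟨t * t', fun i hi => by rw [Pi.mul_apply, h i hi, h' i hi]⟩)
  have h3 := LinearMap.finrank_range_le T
  have h4 := Submodule.finrank_add_le_finrank_add_finrank (LinearMap.range T) W
  have h5 : LinearMap.ker Φ ≤ LinearMap.range T ⊔ W := by
    intro z hz
    obtain ⟨j, hj, e⟩ := (Submodule.Quotient.mk_eq_zero _).1 (LinearMap.mem_ker.1 hz)
    let z0 : F × Fin 5 → F2 := ∑ e, z e • dl (ι e)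
    have a1 : ∀ e, z0 (ι e) = z e := fun a => by
      simp only [z0, Finset.sum_apply, Pi.smul_apply, smul_eq_mul]
      rw [sum_eq_single a]
      · simp
      · intro b _ hb
        rw [dl_ne fun h => hb (hι h), mul_zero]
      · simp
    have a2 : ∀ f ∉ U, ∀ i, z0 (f, i) = 0 := fun f hf i => by
      simp only [z0, Finset.sum_apply, Pi.smul_apply, smul_eq_mul]
      refine sum_eq_zero fun a _ => ?_
      have : ι a ≠ (f, i) := fun h => hf (by
        rw [← show (a.1 : F) = f from congrArg Prod.fst h]; exact a.1.2)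
      rw [dl_ne this, mul_zero]
    obtain ⟨t, u, h⟩ := P.ex (z0 + j) (by
      rw [map_add, e, bd_eq_sum _ _ z]
      simp only [z0, map_sum, map_smul, bd_single]
      ext x
      exact F2_add_self _)
    refine Submodule.mem_sup.2 ⟨_, ⟨fun f => t f, rfl⟩, _, ⟨u, fun f hf => ⟨t f, fun i hi => ?_⟩,
      rfl⟩, ?_⟩
    · have := h f i
      rw [Pi.add_apply, a2 f hf, hj _ hi] at this
      linear_combination F2_add_self (u (P.g f i)) + this
    · ext e
      have := h (ι e).1 (ι e).2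
      rw [Pi.add_apply, a1, hj _ (by rw [(hU _ e.1.2).2]; exact one_ne_zero), add_zero] at this
      exact this.symm
  have h6 := Submodule.finrank_mono h5
  simp only [finrank_fintype_fun_eq_card, Fintype.card_prod, Fintype.card_coe, Fintype.card_fin]
    at h1 h2 h3
  refine le_trans (by omega) (Submodule.finrank_mono (s := LinearMap.range Φ) ?_)
  rintro _ ⟨z, rfl⟩
  rw [LinearMap.comp_apply, bd_eq_sum, map_sum]
  refine Submodule.sum_mem _ fun e _ => ?_
  rw [map_smul]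
  refine Submodule.smul_mem _ _ ?_
  have : dl ((P.a ∘ ι) e) + dl ((P.b ∘ ι) e) = (dl (P.v e.1 0) + dl (P.v e.1 e.2.succ)) +
      (dl (P.v e.1 0) + dl (P.v e.1 (e.2.succ + 1))) := by
    rw [add_add_add_comm, dl_add_self, zero_add]; rfl
  rw [this, map_add]
  exact Submodule.add_mem _ (Submodule.subset_span ⟨(e.1, e.2.succ), e.1.2, rfl⟩)
    (Submodule.subset_span ⟨(e.1, e.2.succ + 1), e.1.2, rfl⟩)

omit κ

lemma normal [Fintype K] (rt : V → V) (h : V → ℕ) (h1 : ∀ x, h x = 0 → x = rt x)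
    (h2 : ∀ x k, h x = k + 1 → ∃ y, Ad P.a P.b y x ∧ h y = k)
    (h3 : ∀ x y, Ad P.a P.b x y → rt x = rt y ∧ h y ≤ h x + 1)
    (h4 : ∀ f, h (P.v f 0) = h (P.v f 1) ∧ (h (P.v f 1) = h (P.v f 2) ∨
      ∀ i : Fin 4, h (P.v f i.succ) ≠ h (P.v f (i.succ + 1)))) :
    ∃ c : V → ZMod 3, ∀ f z, ∃ i, c (P.v f i) = z := by
  have ad : ∀ f i, Ad P.a P.b (P.v f i) (P.v f (i + 1)) := fun f i => ⟨(f, i), Or.inl ⟨rfl, rfl⟩⟩
  have up : ∀ {x y}, Ad P.a P.b x y → Ad P.a' P.b' x y := fun ⟨s, hs⟩ => ⟨Sum.inl s, hs⟩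
  obtain ⟨l, hl⟩ := levels P.exact' rt h h1 fun x k hx => by
    obtain ⟨y, a, b⟩ := h2 x k hx
    exact ⟨y, up a, (h3 _ _ a).1, b⟩
  let κ : V → F2 := fun x => h x
  have fl : ∀ f i, h (P.v f i) = h (P.v f (i + 1)) → P.cut κ (f, i) = 0 := fun f i e => by
    simp only [cut, κ, a, b, e]; exact F2_add_self _
  obtain ⟨s, s1, s2⟩ := shifts ((P.S0 κ).map (bd P.a P.b)).mkQ
    (fun f => h (P.v f 1) ≠ h (P.v f 2)) (fun p : F × Fin 5 => P.v p.1 0) (fun p => P.v p.1 p.2)
    (fun p => - l (P.v p.1 0) - l (P.v p.1 1) - l (P.v p.1 p.2)) fun U hU =>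
      P.rank κ U fun f hf => ⟨fl f 0 (h4 f).1, fun i => by
        have a1 := (h4 f).2.resolve_left (hU f hf) i
        have a2 := (h3 _ _ (ad f i.succ)).2
        have a3 := (h3 _ _ (ad f i.succ).symm).2
        simp only [cut, κ, a, b]
        rcases (by omega : h (P.v f i.succ) = h (P.v f (i.succ + 1)) + 1 ∨
          h (P.v f (i.succ + 1)) = h (P.v f i.succ) + 1) with e | e <;> rw [e] <;> push_cast
        · linear_combination F2_add_self (h (P.v f (i.succ + 1)) : F2)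
        · linear_combination F2_add_self (h (P.v f i.succ) : F2)⟩
  have sf : ∀ f i, h (P.v f i) = h (P.v f (i + 1)) → s (P.v f i) = s (P.v f (i + 1)) ∧
      l (P.v f i) ≠ l (P.v f (i + 1)) := fun f i e => by
    refine ⟨s1 _ _ ((Submodule.Quotient.mk_eq_zero _).2 ⟨dl (f, i), fun d hd => dl_ne ?_,
      bd_single _ _ _⟩), hl _ _ (fun q => ?_) (up (ad f i)) (h3 _ _ (ad f i)).1 e⟩
    · rintro rfl
      exact hd (fl f i e)
    · simpa using P.inj f q
  have rb : ∀ a b c : ZMod 3, a ≠ b → (b ≠ c ∧ a ≠ c) ∨ a + b + c = 0 →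
      ∀ z, a = z ∨ b = z ∨ c = z := by decide
  refine ⟨l + s, fun f z => ?_⟩
  obtain ⟨a1, a2⟩ : s (P.v f 0) = s (P.v f 1) ∧ l (P.v f 0) ≠ l (P.v f 1) := sf f 0 (h4 f).1
  have : ∃ o, ((l + s) (P.v f 1) ≠ (l + s) (P.v f o) ∧ (l + s) (P.v f 0) ≠ (l + s) (P.v f o)) ∨
      (l + s) (P.v f 0) + (l + s) (P.v f 1) + (l + s) (P.v f o) = 0 := by
    by_cases c : h (P.v f 1) = h (P.v f 2)
    · obtain ⟨b1, b2⟩ : s (P.v f 1) = s (P.v f 2) ∧ l (P.v f 1) ≠ l (P.v f 2) := sf f 1 c
      have b3 := hl (P.v f 0) (P.v f 2) (fun q => by simpa using P.inj f q)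
        ⟨Sum.inr f, Or.inl ⟨rfl, rfl⟩⟩ ((h3 _ _ (ad f 0)).1.trans (h3 _ _ (ad f 1)).1)
        ((h4 f).1.trans c)
      refine ⟨2, Or.inl ?_⟩
      simp only [Pi.add_apply, a1, b1, ne_eq, add_left_inj]
      exact ⟨b2, b3⟩
    · obtain ⟨o, ho⟩ := s2 f c
      refine ⟨o, Or.inr ?_⟩
      simp only [Pi.add_apply, ← a1] at ho ⊢
      have h3 : (3 : ZMod 3) = 0 := rfl
      linear_combination ho + s (P.v f 0) * h3
  obtain ⟨o, ho⟩ := this
  rcases rb _ _ _ (by simpa [a1] using a2) ho z with e | e | e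
  exacts [⟨_, e⟩, ⟨_, e⟩, ⟨_, e⟩]

theorem colouring [Fintype K] : ∃ c : V → ZMod 3, ∀ f z, ∃ i, c (P.v f i) = z := by
  obtain ⟨rt, h, h1, h2, h3⟩ := bfs (Ad P.a P.b) fun _ _ => Ad.symm
  have ad : ∀ f i, Ad P.a P.b (P.v f i) (P.v f (i + 1)) := fun f i => ⟨(f, i), Or.inl ⟨rfl, rfl⟩⟩
  choose ρ hρ using fun f => classify (fun i => h (P.v f i)) fun i =>
    ⟨(h3 _ _ (ad f i)).2, (h3 _ _ (ad f i).symm).2⟩
  obtain ⟨c, hc⟩ := (P.rot ρ).normal rt h h1 (by simpa only [ad_rot] using h2)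
    (by simpa only [ad_rot] using h3) hρ
  exact ⟨c, fun f z => (hc f z).elim fun i hi => ⟨_, hi⟩⟩

end Pool.Agent.P.MP_b2489f_co.Five.Pent
end

-- part Pool.Agent.P.MP_b2489f_co.Five5
section

set_option autoImplicit false

/-! Pentagons inside the faces of a plane map, and `p(5) = 3`. -/

namespace Pool.Agent.P.MP_b2489f_co.Five

open Finset Classical Module Function

variable {D : Type} [Fintype D] (M : PlaneMap D)

lemma pick (f : Orb (M.σ * M.α)) (hf : 5 ≤ (M.faceVerts f).ncard) :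
    ∃ (b : D) (k : Fin 5 → ℕ), orb (M.σ * M.α) b = f ∧ StrictMono k ∧
      (∀ i, k i < minimalPeriod (M.σ * M.α) b) ∧
      Injective fun i => orb M.σ ((M.σ * M.α)^[k i] b) := by
  obtain ⟨b, rfl⟩ := orb_surj _ f
  rw [Set.ncard_eq_toFinset_card'] at hf
  obtain ⟨N, h2, h3⟩ := exists_subset_card_eq hf
  have : ∀ v : N, ∃ m < minimalPeriod (M.σ * M.α) b, orb M.σ ((M.σ * M.α)^[m] b) = v := fun v => by
    obtain ⟨d, e1, e2⟩ := Set.mem_toFinset.1 (h2 v.2)
    obtain ⟨m, -, rfl⟩ := ((orb_eq_iff _ _ _).1 e2.symm).exists_pow_eq'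
    refine ⟨m % minimalPeriod (M.σ * M.α) b, Nat.mod_lt _
      (minimalPeriod_pos_of_mem_periodicPts ((M.σ * M.α).injective.mem_periodicPts b)), ?_⟩
    rw [iterate_mod_minimalPeriod_eq, ← e1, Equiv.Perm.iterate_eq_pow]
  choose idx i1 i2 using this
  have hT : (univ.image idx).card = 5 := by
    rw [card_image_of_injective _ fun a b e => Subtype.ext (by rw [← i2, ← i2, e])]
    simpa using h3
  have : ∀ i, ∃ v, idx v = (univ.image idx).orderEmbOfFin hT i := fun i =>
    (mem_image.1 (orderEmbOfFin_mem _ hT i)).imp fun _ h => h.2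
  choose w hw using this
  refine ⟨b, (univ.image idx).orderEmbOfFin hT, rfl, (orderEmbOfFin _ hT).strictMono,
    fun i => hw i ▸ i1 _, fun i j e => (orderEmbOfFin _ hT).injective ?_⟩
  simp only [← hw, i2] at e
  rw [← hw, ← hw, Subtype.ext e]

omit [Fintype D] in
lemma orb_iter (π : Equiv.Perm D) (b : D) (m : ℕ) : orb π (π^[m] b) = orb π b := by
  induction m with
  | zero => rfl
  | succ m ih => rw [iterate_succ_apply', orb_apply, ih]

lemma corners (hM : ∀ f, 5 ≤ (M.faceVerts f).ncard) :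
    ∃ d : Orb (M.σ * M.α) × Fin 5 → D, (∀ s, orb (M.σ * M.α) (d s) = s.1) ∧
      (∀ f, Injective fun i => orb M.σ (d (f, i))) ∧
      ∀ {K : Type} (cl : Orb M.α → K), (∀ x, (¬ ∃ s, d s = x) → cl (e1 M.α x) = cl (e2 M.σ M.α x)) →
        ∀ f i, cl (e2 M.σ M.α (d (f, i + 1))) = cl (e1 M.α (d (f, i))) := by
  choose b k h1 h2 h3 h4 using fun f => pick M f (hM f)
  refine ⟨fun s => (M.σ * M.α)^[k s.1 s.2] (b s.1), fun s => (orb_iter _ _ _).trans (h1 _), h4,
    fun cl hcl f => ?_⟩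
  have key : ∀ a m, a < m → (∀ x, a < x → x < m → ∀ j,
      (M.σ * M.α)^[k f j] (b f) ≠ (M.σ * M.α)^[x] (b f)) →
      cl (e2 M.σ M.α ((M.σ * M.α)^[m] (b f))) = cl (e1 M.α ((M.σ * M.α)^[a] (b f))) := by
    intro a m hm
    have st : ∀ x, e2 M.σ M.α ((M.σ * M.α)^[x + 1] (b f)) = e1 M.α ((M.σ * M.α)^[x] (b f)) :=
      fun x => by
        rw [iterate_succ_apply']
        simp only [e1, e2, Equiv.Perm.mul_apply, Equiv.symm_apply_apply, orb_apply]
    induction m, hm using Nat.le_induction with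
    | base => exact fun _ => congrArg cl (st a)
    | succ m hm ih =>
      intro h
      rw [st, hcl, ih fun x a1 a2 => h x a1 (by omega)]
      rintro ⟨⟨f', j⟩, e⟩
      have : f' = f := by
        have := congrArg (orb (M.σ * M.α)) e
        rwa [orb_iter, orb_iter, h1, h1] at this
      subst this
      exact h m hm (by omega) j e
  intro i
  by_cases hi : i = 4
  · subst hi
    have := key (k f 4) (k f 0 + minimalPeriod (M.σ * M.α) (b f)) (by have := h3 f 4; omega)
      fun x a1 a2 j e => by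
        have b1 := (h2 f).monotone (Fin.le_last j)
        have b2 := (h2 f).monotone (Fin.zero_le j)
        have b3 : k f (Fin.last 4) = k f 4 := rfl
        by_cases c : x < minimalPeriod (M.σ * M.α) (b f)
        · have := (iterate_eq_iterate_iff_of_lt_minimalPeriod (h3 f j) c).1 e
          omega
        · obtain ⟨y, rfl⟩ : ∃ y, x = y + minimalPeriod (M.σ * M.α) (b f) :=
            ⟨x - minimalPeriod (M.σ * M.α) (b f), by omega⟩
          rw [iterate_add_minimalPeriod_eq] at e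
          have := (iterate_eq_iterate_iff_of_lt_minimalPeriod (h3 f j)
            (by have := h3 f 0; omega)).1 e
          omega
    rwa [iterate_add_minimalPeriod_eq] at this
  · have lt : i < i + 1 := by revert i; decide
    refine key _ _ (h2 f lt) fun x a1 a2 j e => ?_
    have := (iterate_eq_iterate_iff_of_lt_minimalPeriod (h3 f j) (a2.trans (h3 f _))).1 e
    subst this
    exact (by decide : ∀ i j : Fin 5, i < j → j < i + 1 → False) i j ((h2 f).lt_iff_lt.1 a1)
      ((h2 f).lt_iff_lt.1 a2)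

lemma transfer (d : Orb (M.σ * M.α) × Fin 5 → D) (h1 : ∀ s, orb (M.σ * M.α) (d s) = s.1)
    (hd : Injective d) (z : Orb (M.σ * M.α) × Fin 5 → F2) (z' : D → F2)
    (h2 : ∀ x, (¬ ∃ s, d s = x) → z' x = 0) (h3 : ∀ f i, z' (d (f, i + 1)) = z (f, i + 1) + z (f, i)) :
    bd (rv M.σ M.α) (rf M.σ M.α) z' = 0 ↔
      bd (fun s => orb M.σ (d (s.1, s.2))) (fun s => orb M.σ (d (s.1, s.2 + 1))) z = 0 := by
  have sm : ∀ g : D → F2, ∑ x, z' x * g x =
      ∑ s : Orb (M.σ * M.α) × Fin 5, z s * (g (d (s.1, s.2)) + g (d (s.1, s.2 + 1))) := by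
    intro g
    rw [← sum_subset (subset_univ (univ.image d)) fun x _ hx => by
      rw [h2 x (by simpa using hx), zero_mul], sum_image fun a _ b _ e => hd e]
    simp only [Fintype.sum_prod_type]
    refine sum_congr rfl fun f _ => ?_
    rw [← Equiv.sum_comp (Equiv.addRight (1 : Fin 5))]
    simp only [Equiv.coe_addRight, h3, add_mul, mul_add, sum_add_distrib]
    rw [← Equiv.sum_comp (Equiv.addRight (1 : Fin 5)) fun i => z (f, i) * g (d (f, i))]
    rfl
  have a1 : ∀ x, bd (rv M.σ M.α) (rf M.σ M.α) z' (Sum.inl x) =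
      bd (fun s => orb M.σ (d (s.1, s.2))) (fun s => orb M.σ (d (s.1, s.2 + 1))) z x := fun x => by
    rw [bd_apply, sm, bd_apply]
    simp [rv, rf, dl]
  refine ⟨fun h => funext fun x => by rw [← a1, h]; rfl, fun h => funext ?_⟩
  rintro (x | f)
  · rw [a1, h]; rfl
  · rw [bd_apply, sm]
    refine sum_eq_zero fun s _ => ?_
    simp [rv, rf, dl, h1, F2_add_self]

theorem three (hM : ∀ f, 5 ≤ (M.faceVerts f).ncard) :
    ∃ c : Orb M.σ → Fin 3, M.Polychromatic c := by
  obtain ⟨d, h1, h2, h3⟩ := corners M hM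
  have hd : Injective d := by
    rintro ⟨f, i⟩ ⟨f', j⟩ e
    obtain rfl : f = f' := (h1 _).symm.trans ((congrArg _ e).trans (h1 _))
    rw [h2 f (congrArg (orb M.σ) e : orb M.σ (d (f, i)) = orb M.σ (d (f, j)))]
  let st : Setoid (Orb M.α) := Relation.EqvGen.setoid fun y y' =>
    ∃ x, (¬ ∃ s, d s = x) ∧ e1 M.α x = y ∧ e2 M.σ M.α x = y'
  let _ : Fintype (Quotient st) := Fintype.ofFinite _
  have hcl : ∀ x, (¬ ∃ s, d s = x) → Quotient.mk st (e1 M.α x) = Quotient.mk st (e2 M.σ M.α x) :=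
    fun x hx => Quotient.sound (Relation.EqvGen.rel _ _ ⟨x, hx, rfl, rfl⟩)
  have h4 := h3 _ hcl
  let P : Pent (Orb M.σ) (Orb (M.σ * M.α)) (Quotient st) :=
    ⟨fun f i => orb M.σ (d (f, i)), fun f i => Quotient.mk st (e1 M.α (d (f, i))), h2,
      fun u => (transfer M d h1 hd _ (cb (e1 M.α) (e2 M.σ M.α) (u ∘ Quotient.mk st))
        (fun x hx => by simp only [cb_apply, comp, hcl x hx, F2_add_self])
        (fun f i => by simp only [cb_apply, comp, h4])).1 (bd_cb _ _ _),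
      fun z hz => by
        have := (transfer M d h1 hd z (extend d (fun s => z s + z (s.1, s.2 - 1)) 0)
          (fun x hx => extend_apply' _ _ _ hx)
          (fun f i => by rw [hd.extend_apply, add_sub_cancel_right])).2 hz
        rw [← LinearMap.mem_ker, ← M.exact] at this
        obtain ⟨u, hu⟩ := this
        have hu' : ∀ y y', st.r y y' → u y = u y' := by
          intro y y' h
          induction h with
          | rel a b h =>
            obtain ⟨x, hx, rfl, rfl⟩ := h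
            have := congrFun hu x
            rw [cb_apply, extend_apply' _ _ _ hx] at this
            rw [← sub_eq_zero, CharTwo.sub_eq_add]; exact this
          | refl => rfl
          | symm _ _ _ ih => exact ih.symm
          | trans _ _ _ _ _ ih1 ih2 => exact ih1.trans ih2
        refine ⟨fun f => z (f, 0) + u (e1 M.α (d (f, 0))), Quotient.lift u hu', fun f i => ?_⟩
        have st1 : ∀ i, z (f, i + 1) + u (e1 M.α (d (f, i + 1))) = z (f, i) + u (e1 M.α (d (f, i))) :=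
          fun i => by
            have a1 := congrFun hu (d (f, i + 1))
            rw [cb_apply, hd.extend_apply, add_sub_cancel_right,
              hu' _ _ (Quotient.exact (h4 f i))] at a1
            linear_combination a1 + F2_add_self (z (f, i + 1)) - F2_add_self (u (e1 M.α (d (f, i))))
        have st2 : z (f, i) + u (e1 M.α (d (f, i))) = z (f, 0) + u (e1 M.α (d (f, 0))) := by
          fin_cases i
          exacts [rfl, st1 0, (st1 1).trans (st1 0), (st1 2).trans ((st1 1).trans (st1 0)),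
            (st1 4).symm]
        show _ = _ + u (e1 M.α (d (f, i)))
        linear_combination st2 - F2_add_self (u (e1 M.α (d (f, i))))⟩
  obtain ⟨c, hc⟩ := P.colouring
  exact ⟨c, fun f z => (hc f z).elim fun i hi => ⟨_, ⟨d (f, i), rfl, h1 _⟩, hi⟩⟩

theorem five :
    IsLeast {k | ∃ (D : Type) (_ : Finite D) (M : PlaneMap D), M.minFace = 5 ∧ M.polyNum = k} 3 := by
  have lower : ∀ (D : Type) [Finite D] (M : PlaneMap D), M.minFace = 5 → 3 ≤ M.polyNum := by
    intro D _ M hM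
    have := Fintype.ofFinite D
    obtain ⟨d⟩ := M.nonempty
    refine le_csSup ⟨Fintype.card (Orb M.σ), ?_⟩
      (three M fun f => hM ▸ Nat.sInf_le ⟨f, rfl⟩)
    rintro k ⟨c, hc⟩
    rw [← Fintype.card_fin k]
    refine Fintype.card_le_of_surjective c fun α => ?_
    obtain ⟨v, -, h⟩ := hc (orb _ d) α
    exact ⟨v, h⟩
  obtain ⟨D, _, M, h1, h2⟩ := upper 5 le_rfl
  refine ⟨⟨D, inferInstance, M, h1, le_antisymm h2 (lower D M h1)⟩, ?_⟩
  rintro k ⟨D', _, M', h3, rfl⟩
  exact lower D' M' h3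

end Pool.Agent.P.MP_b2489f_co.Five
end
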