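import Pool.Agent.K.MP_b2489f_co.C2
import Pool.Agent.K.MP_b2489f_co.C3
import Pool.Agent.K.MP_b2489f_co.C1

-- part Pool.Agent.P.MP_b2489f_co.Order
section

set_option autoImplicit false

/-! Node systems and the elimination order. -/

namespace Pool.Agent.P.MP_b2489f_co

open Finset Classical

lemma mf {α : Type} {p : α → Prop} {_ : DecidablePred p} {s : Finset α} {a : α} :
    a ∈ s.filter p ↔ a ∈ s ∧ p a := mem_filter

variable {V F Nd : Type} [Fintype V] [Fintype F] [Fintype Nd]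

theorem Plan.le_two {I : V → F → Prop} (h : Plan I) {ι : Type} (S : Finset ι)
    (H : Fin 3 → Set (V ⊕ F)) (Q : ι → Set (V ⊕ F))
    (hH : ∀ i j x, x ∈ H i → x ∈ H j → i = j)
    (hQ : ∀ a ∈ S, ∀ b ∈ S, ∀ x, x ∈ Q a → x ∈ Q b → a = b)
    (hHQ : ∀ i, ∀ a ∈ S, ∀ x ∈ H i, x ∉ Q a) (cH : ∀ i, Conn I (H i))
    (cQ : ∀ a ∈ S, Conn I (Q a)) (hT : ∀ i, ∀ a ∈ S, Touch I (H i) (Q a)) : S.card ≤ 2 := by
  by_contra hc
  have : Fintype.card (Fin 3) ≤ Fintype.card S := by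
    rw [Fintype.card_coe, Fintype.card_fin]; omega
  obtain ⟨e⟩ := Function.Embedding.nonempty_of_card_le this
  exact h.noK33 H (fun j => Q (e j)) hH
    (fun i j x h1 h2 => e.injective (Subtype.ext (hQ _ (e i).2 _ (e j).2 x h1 h2)))
    (fun i j x h1 => hHQ i _ (e j).2 x h1) cH (fun j => cQ _ (e j).2) fun i j => hT i _ (e j).2

/-- two faces and a connected set have at most two common neighbours -/
theorem Plan.bl {I : V → F → Prop} (h : Plan I) {φ ψ : F} (hne : φ ≠ ψ) (H : Set (V ⊕ F))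
    (cH : Conn I H) (h1 : Sum.inr φ ∉ H) (h2 : Sum.inr ψ ∉ H) (Z : Finset V)
    (hZ : ∀ z ∈ Z, I z φ ∧ I z ψ ∧ Sum.inl z ∉ H ∧ ∃ χ, Sum.inr χ ∈ H ∧ I z χ) : Z.card ≤ 2 := by
  refine h.le_two Z ![{Sum.inr φ}, {Sum.inr ψ}, H] (fun z => {Sum.inl z}) ?_ ?_ ?_ ?_
    (fun _ _ => conn_singleton _ _) ?_
  · intro i j x a1 a2
    fin_cases i <;> fin_cases j <;> simp_all
  · intro a _ b _ x a1 a2
    exact Sum.inl_injective (a1.symm.trans a2)
  · intro i a ha x a1 a2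
    rw [Set.mem_singleton_iff.1 a2] at a1
    have := (hZ a ha).2.2.1
    fin_cases i <;> simp_all
  · intro i
    fin_cases i
    · exact conn_singleton _ _
    · exact conn_singleton _ _
    · exact cH
  · intro i a ha
    obtain ⟨a1, a2, -, χ, a3, a4⟩ := hZ a ha
    fin_cases i
    · exact ⟨_, rfl, _, rfl, a1⟩
    · exact ⟨_, rfl, _, rfl, a2⟩
    · exact ⟨_, a3, _, rfl, a4⟩

omit [Fintype V] [Fintype F] in
lemma conn_star (I : V → F → Prop) (φ : F) (S : V → Prop) (hS : ∀ x, S x → I x φ) :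
    Conn I ({Sum.inr φ} ∪ {y | ∃ x, S x ∧ y = Sum.inl x}) :=
  conn_iUnion (conn_singleton I _) S (fun x => {Sum.inl x}) (fun _ _ => conn_singleton _ _)
    fun x hx => ⟨_, rfl, _, rfl, hS x hx⟩

lemma card_biUnion_le_mul {α β : Type} [DecidableEq β] (S : Finset α) (f : α → Finset β) (a b : ℕ)
    (h1 : S.card ≤ a) (h2 : ∀ x ∈ S, (f x).card ≤ b) : (S.biUnion f).card ≤ a * b :=
  (card_biUnion_le_card_mul S f b h2).trans (Nat.mul_le_mul_right _ h1)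

/-- faces grouped into nodes: single faces and heavy triples -/
structure Sys (V F Nd : Type) [DecidableEq V] where
  N : F → Finset V
  plan : Plan fun v f => v ∈ N f
  nd : F → Nd
  fc : Nd → Fin 3 → F
  sup : Nd → Prop
  h : ℕ
  nd_fc : ∀ n i, nd (fc n i) = n
  fc_nd : ∀ φ, ∃ i, fc (nd φ) i = φ
  fc_sup : ∀ n, sup n → Function.Injective (fc n)
  fc_nor : ∀ n, ¬ sup n → ∀ i, fc n i = fc n 0
  heavy : ∀ n, sup n → ∀ i j, i ≠ j → h ≤ (N (fc n i) ∩ N (fc n j)).card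

namespace Sys

variable (S : Sys V F Nd)

/-- admissible vertex sets of the nodes -/
structure Adm (X : Nd → Finset V) : Prop where
  sub : ∀ n, ∀ v ∈ X n, ∃ i, v ∈ S.N (S.fc n i)
  sup : ∀ n, S.sup n → ∀ i, S.N (S.fc n i) ⊆ X n

omit [Fintype Nd] in
lemma tri {a b c : F} (h1 : a ≠ b) (h2 : a ≠ c) (h3 : b ≠ c) (Z : Finset V)
    (hZ : ∀ z ∈ Z, z ∈ S.N a ∧ z ∈ S.N b ∧ z ∈ S.N c) : Z.card ≤ 2 :=
  S.plan.bl h1 {Sum.inr c} (conn_singleton _ _) (by simpa) (by simpa) Z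
    fun z hz => ⟨(hZ z hz).1, (hZ z hz).2.1, by simp, c, rfl, (hZ z hz).2.2⟩

omit [Fintype V] [Fintype F] [Fintype Nd] in
lemma fc_ne {n m : Nd} (h : n ≠ m) (i j : Fin 3) : S.fc n i ≠ S.fc m j := fun h' =>
  h (by rw [← S.nd_fc n i, h', S.nd_fc])

omit [Fintype Nd] in
lemma share {X : Nd → Finset V} (hX : S.Adm X) {s m : Nd} (hs : S.sup s) (hm : m ≠ s)
    (Z : Finset V) (hZ : ∀ z ∈ Z, z ∈ X m ∧ ∃ i j, i ≠ j ∧ z ∈ S.N (S.fc s i) ∧ z ∈ S.N (S.fc s j)) :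
    Z.card ≤ 54 := by
  have : Z ⊆ (univ : Finset (Fin 3 × Fin 3 × Fin 3)).biUnion fun p => Z.filter fun z =>
      p.1 ≠ p.2.1 ∧ z ∈ S.N (S.fc s p.1) ∧ z ∈ S.N (S.fc s p.2.1) ∧ z ∈ S.N (S.fc m p.2.2) := by
    intro z hz
    obtain ⟨h1, i, j, h2, h3, h4⟩ := hZ z hz
    obtain ⟨l, hl⟩ := hX.sub m z h1
    exact mem_biUnion.2 ⟨(i, j, l), mem_univ _, mem_filter.2 ⟨hz, h2, h3, h4, hl⟩⟩
  refine (card_le_card this).trans (card_biUnion_le_mul _ _ 27 2 (by simp) fun p _ => ?_)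
  by_cases h : p.1 = p.2.1
  · simp [h]
  · exact S.tri (fun h' => h (S.fc_sup s hs h')) (S.fc_ne hm.symm _ _) (S.fc_ne hm.symm _ _) _
      fun z hz => (mem_filter.1 hz).2.2

omit [Fintype V] [Fintype Nd] in
lemma card_faces (T : Finset Nd) : (univ.filter fun φ => S.nd φ ∈ T).card ≤ 3 * T.card := by
  have : (univ.filter fun φ => S.nd φ ∈ T) ⊆ (T ×ˢ univ).image fun p => S.fc p.1 p.2 := by
    intro φ hφ
    obtain ⟨i, hi⟩ := S.fc_nd φ
    exact mem_image.2 ⟨(S.nd φ, i), mem_product.2 ⟨(mem_filter.1 hφ).2, mem_univ _⟩, hi⟩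
  refine (card_le_card this).trans (card_image_le.trans ?_)
  rw [card_product, card_univ, Fintype.card_fin, mul_comm]

omit [Fintype V] [Fintype F] [Fintype Nd] in
lemma Adm.can {S : Sys V F Nd} {X : Nd → Finset V} (hX : S.Adm X) :
    ∃ can : Nd → V → F, (∀ n v, S.nd (can n v) = n) ∧ ∀ n, ∀ v ∈ X n, v ∈ S.N (can n v) := by
  have : ∀ n v, ∃ φ, S.nd φ = n ∧ (v ∈ X n → v ∈ S.N φ) := fun n v => by
    by_cases h : v ∈ X n
    · obtain ⟨i, hi⟩ := hX.sub n v h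
      exact ⟨_, S.nd_fc n i, fun _ => hi⟩
    · exact ⟨_, S.nd_fc n 0, fun h' => absurd h' h⟩
  choose can h1 h2 using this
  exact ⟨can, h1, h2⟩

/-- a heavy triple together with two linking vertices -/
def blob (ℓ : Nd → Bool → V) (s : Nd) : Set (V ⊕ F) :=
  {y | (∃ i, y = Sum.inr (S.fc s i)) ∨ ∃ b, y = Sum.inl (ℓ s b)}

omit [Fintype V] [Fintype F] [Fintype Nd] in
lemma blob_conn (ℓ : Nd → Bool → V) (s : Nd)
    (h : ∀ b, ℓ s b ∈ S.N (S.fc s 0) ∧ ℓ s b ∈ S.N (S.fc s (if b then 2 else 1))) :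
    Conn (fun v f => v ∈ S.N f) (S.blob ℓ s) := by
  refine ⟨Sum.inr (S.fc s 0), ?_⟩
  have a1 : ∀ b, Relation.ReflTransGen (fun a b => a ∈ S.blob ℓ s ∧ b ∈ S.blob ℓ s ∧
      Adj (fun v f => v ∈ S.N f) a b) (Sum.inr (S.fc s 0)) (Sum.inl (ℓ s b)) := fun b =>
    Relation.ReflTransGen.single ⟨Or.inl ⟨0, rfl⟩, Or.inr ⟨b, rfl⟩, (h b).1⟩
  rintro _ (⟨i, rfl⟩ | ⟨b, rfl⟩)
  · fin_cases i
    · rfl
    · exact (a1 false).tail ⟨Or.inr ⟨_, rfl⟩, Or.inl ⟨_, rfl⟩, (h false).2⟩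
    · exact (a1 true).tail ⟨Or.inr ⟨_, rfl⟩, Or.inl ⟨_, rfl⟩, (h true).2⟩
  · exact a1 b

omit [Fintype V] [Fintype F] [Fintype Nd] in
lemma blob_disj (ℓ : Nd → Bool → V) {s s' : Nd} (h : ∀ b b', ℓ s b = ℓ s' b' → s = s')
    {y : V ⊕ F} (h1 : y ∈ S.blob ℓ s) (h2 : y ∈ S.blob ℓ s') : s = s' := by
  rcases h1 with ⟨i, rfl⟩ | ⟨b, rfl⟩ <;> rcases h2 with ⟨j, h2⟩ | ⟨b', h2⟩
  · by_contra h3; exact S.fc_ne h3 _ _ (Sum.inr_injective h2)
  · simp at h2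
  · simp at h2
  · exact h _ _ (Sum.inl_injective h2)

variable (X : Nd → Finset V)

/-- number of current nodes containing a vertex -/
noncomputable def dg (U : Finset Nd) (v : V) : ℕ := (U.filter fun m => v ∈ X m).card

noncomputable def Hv (U : Finset Nd) (n : Nd) : Finset V := (X n).filter fun v => 3 ≤ dg X U v

noncomputable def Tc (U : Finset Nd) (n : Nd) : Finset Nd :=
  U.filter fun m => ∃ x ∈ X n, x ∈ X m ∧ dg X U x ≤ 2

def Gh (U : Finset Nd) (o : Nd) (x : V) : Prop :=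
  ∃ s, s ∉ U ∧ S.sup s ∧ x ∈ X s ∧ ∃ z ∈ X s, z ∈ X o ∧ dg X U z ≤ 1

noncomputable def G1 (U : Finset Nd) (o : Nd) : Finset V :=
  univ.filter fun x => 3 ≤ dg X U x ∧ S.Gh X U o x

noncomputable def G2 (U : Finset Nd) (o : Nd) : Finset Nd :=
  (U.erase o).filter fun m => ∃ x ∈ X m, dg X U x ≤ 2 ∧ S.Gh X U o x

def Good (U : Finset Nd) (o : Nd) : Prop :=
  (Hv X U o).card ≤ 71 ∧ ((Tc X U o).erase o).card ≤ 143 ∧
    (S.G1 X U o).card + (S.G2 X U o).card ≤ 369359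

def Inv (U : Finset Nd) : Prop :=
  (∀ s, s ∉ U → S.sup s → 2 * (Hv X U s).card + (Tc X U s).card ≤ 285) ∧
  ∃ ℓ : Nd → Bool → V, (∀ s, s ∉ U → S.sup s → ∀ b, (ℓ s b ∈ S.N (S.fc s 0) ∧
      ℓ s b ∈ S.N (S.fc s (if b then 2 else 1))) ∧ ∀ m ∈ U, ℓ s b ∉ X m) ∧
    ∀ s s', s ∉ U → s' ∉ U → S.sup s → S.sup s' → ∀ b b', ℓ s b = ℓ s' b' → s = s'

omit [Fintype V] [Fintype Nd] in
lemma dg_erase_le (U : Finset Nd) (o : Nd) (v : V) : dg X (U.erase o) v ≤ dg X U v :=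
  card_le_card (filter_subset_filter _ (erase_subset _ _))

omit [Fintype V] [Fintype Nd] in
lemma wt_step (U : Finset Nd) (o s : Nd) :
    2 * (Hv X (U.erase o) s).card + (Tc X (U.erase o) s).card ≤
      2 * (Hv X U s).card + ((Tc X U s).erase o).card := by
  have h1 : Hv X (U.erase o) s ⊆ Hv X U s := fun v hv =>
    mem_filter.2 ⟨(mem_filter.1 hv).1, (mem_filter.1 hv).2.trans (dg_erase_le X U o v)⟩
  have h2 : Tc X (U.erase o) s ⊆ (Tc X U s).erase o ∪ (Hv X U s \ Hv X (U.erase o) s).biUnion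
      fun x => (U.erase o).filter fun m => x ∈ X m := by
    intro m hm
    obtain ⟨a1, x, a2, a3, a4⟩ := mem_filter.1 hm
    by_cases h : dg X U x ≤ 2
    · exact mem_union_left _ (mem_erase.2 ⟨(mem_erase.1 a1).1,
        mem_filter.2 ⟨(mem_erase.1 a1).2, x, a2, a3, h⟩⟩)
    · refine mem_union_right _ (mem_biUnion.2 ⟨x, mem_sdiff.2 ⟨mem_filter.2 ⟨a2, by omega⟩,
        fun h' => ?_⟩, mem_filter.2 ⟨a1, a3⟩⟩)
      have := (mem_filter.1 h').2
      omega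
  have h3 := (card_le_card h2).trans ((card_union_le _ _).trans (Nat.add_le_add_left
    (card_biUnion_le_card_mul _ _ 2 fun x hx => by
      obtain ⟨a1, a2⟩ := mem_sdiff.1 hx
      by_contra h
      exact a2 (mem_filter.2 ⟨(mem_filter.1 a1).1, not_le.1 h⟩)) _))
  have h4 := card_sdiff_add_card_eq_card h1
  omega

variable {X}

omit [Fintype Nd] in
lemma link_ex (hX : S.Adm X) (hh : 71 + 143 * 54 < S.h) {U : Finset Nd} {o : Nd}
    (hs : S.sup o) (hG : S.Good X U o) {i j : Fin 3} (hij : i ≠ j) :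
    ∃ v, (v ∈ S.N (S.fc o i) ∧ v ∈ S.N (S.fc o j)) ∧ ∀ m ∈ U.erase o, v ∉ X m := by
  by_contra h
  push Not at h
  have : S.N (S.fc o i) ∩ S.N (S.fc o j) ⊆ Hv X U o ∪ ((Tc X U o).erase o).biUnion
      fun m => (S.N (S.fc o i) ∩ S.N (S.fc o j)).filter fun v => v ∈ X m := by
    intro v hv
    obtain ⟨m, h1, h2⟩ := h v (mem_inter.1 hv)
    have h3 := hX.sup o hs i (mem_inter.1 hv).1
    by_cases h4 : dg X U v ≤ 2
    · exact mem_union_right _ (mem_biUnion.2 ⟨m, mem_erase.2 ⟨(mem_erase.1 h1).1,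
        mem_filter.2 ⟨(mem_erase.1 h1).2, v, h3, h2, h4⟩⟩, mem_filter.2 ⟨hv, h2⟩⟩)
    · exact mem_union_left _ (mem_filter.2 ⟨h3, by omega⟩)
  have h3 := (card_le_card this).trans ((card_union_le _ _).trans (Nat.add_le_add hG.1
    (card_biUnion_le_mul _ _ 143 54 hG.2.1 fun m hm => S.share hX hs (mem_erase.1 hm).1 _
      fun z hz => ⟨(mem_filter.1 hz).2, i, j, hij, mem_inter.1 (mem_filter.1 hz).1⟩)))
  have := S.heavy o hs i j hij
  omega

omit [Fintype Nd] in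
lemma inv_step (hX : S.Adm X) (hh : 71 + 143 * 54 < S.h) {U : Finset Nd} {o : Nd} (ho : o ∈ U)
    (hI : S.Inv X U) (hG : S.Good X U o) : S.Inv X (U.erase o) := by
  obtain ⟨h1, ℓ, h2, h3⟩ := hI
  have nm : ∀ s, s ∉ U.erase o → s ≠ o → s ∉ U := fun s a b c => a (mem_erase.2 ⟨b, c⟩)
  refine ⟨fun s a b => ?_, ?_⟩
  · have := wt_step X U o s
    by_cases c : s = o
    · subst c
      have := hG.1
      have := hG.2.1
      omega
    · have := h1 s (nm s a c) b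
      have := card_erase_le (s := Tc X U s) (a := o)
      omega
  · by_cases hs : S.sup o
    · have : ∀ b : Bool, ∃ v, (v ∈ S.N (S.fc o 0) ∧ v ∈ S.N (S.fc o (if b then 2 else 1))) ∧
          ∀ m ∈ U.erase o, v ∉ X m := fun b => S.link_ex hX hh hs hG (by cases b <;> decide)
      choose l hl using this
      have key : ∀ s, s ∉ U → S.sup s → ∀ b b', ℓ s b ≠ l b' := fun s a c b b' h =>
        (h2 s a c b).2 o ho (h ▸ hX.sup o hs 0 (hl b').1.1)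
      refine ⟨Function.update ℓ o l, fun s a c b => ?_, fun s s' a a' c c' b b' h => ?_⟩
      · by_cases d : s = o
        · subst d
          rw [Function.update_self]; exact hl b
        · rw [Function.update_of_ne d]
          exact ⟨(h2 s (nm s a d) c b).1, fun m hm => (h2 s (nm s a d) c b).2 m (mem_of_mem_erase hm)⟩
      · by_cases d : s = o <;> by_cases d' : s' = o
        · rw [d, d']
        · subst d
          rw [Function.update_self, Function.update_of_ne d'] at h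
          exact (key s' (nm s' a' d') c' _ _ h.symm).elim
        · subst d'
          rw [Function.update_self, Function.update_of_ne d] at h
          exact (key s (nm s a d) c _ _ h).elim
        · rw [Function.update_of_ne d, Function.update_of_ne d'] at h
          exact h3 s s' (nm s a d) (nm s' a' d') c c' _ _ h
    · have nm' : ∀ s, s ∉ U.erase o → S.sup s → s ∉ U := fun s a c =>
        nm s a (by rintro rfl; exact hs c)
      exact ⟨ℓ, fun s a c b => ⟨(h2 s (nm' s a c) c b).1,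
        fun m hm => (h2 s (nm' s a c) c b).2 m (mem_of_mem_erase hm)⟩,
        fun s s' a a' c c' => h3 s s' (nm' s a c) (nm' s' a' c') c c'⟩

lemma sum_hv (hX : S.Adm X) (U : Finset Nd) :
    (univ.filter fun v => 3 ≤ dg X U v).card ≤ 6 * U.card ∧
      ∑ o ∈ U, (Hv X U o).card ≤ 18 * U.card := by
  obtain ⟨can, c1, c2⟩ := hX.can
  let E := (U.sigma fun o => Hv X U o).image fun p => (p.2, can p.1 p.2)
  have e1 : E.card = ∑ o ∈ U, (Hv X U o).card := by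
    rw [card_image_of_injective, card_sigma]
    rintro ⟨a, x⟩ ⟨b, y⟩ h
    simp only [Prod.mk.injEq] at h
    obtain ⟨rfl, h⟩ := h
    obtain rfl : a = b := by rw [← c1 a x, h, c1]
    rfl
  have e2 := S.plan.sparse E (fun e he => by
      obtain ⟨p, hp, rfl⟩ := mem_image.1 he
      exact c2 _ _ (mem_filter.1 (mem_sigma.1 hp).2).1)
    (univ.filter fun v => 3 ≤ dg X U v) (univ.filter fun φ => S.nd φ ∈ U)
    (fun e he => by
      obtain ⟨p, hp, rfl⟩ := mem_image.1 he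
      exact mem_filter.2 ⟨mem_univ _, (mem_filter.1 (mem_sigma.1 hp).2).2⟩)
    (fun e he => by
      obtain ⟨p, hp, rfl⟩ := mem_image.1 he
      exact mem_filter.2 ⟨mem_univ _, by rw [c1]; exact (mem_sigma.1 hp).1⟩)
  have e3 := S.card_faces U
  have e4 : (univ.filter fun v => 3 ≤ dg X U v).card * 3 ≤ ∑ o ∈ U, (Hv X U o).card := by
    have : ∀ o, (Hv X U o).card =
        ∑ v ∈ univ.filter fun v => 3 ≤ dg X U v, if v ∈ X o then 1 else 0 := fun o => by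
      rw [← card_filter]
      congr 1
      ext v
      simp [Hv, and_comm]
    rw [sum_congr rfl fun o _ => this o, sum_comm, ← smul_eq_mul, ← sum_const]
    refine sum_le_sum fun v hv => ?_
    rw [← card_filter]
    exact (mem_filter.1 hv).2
  omega

lemma sum_tc (hX : S.Adm X) (U : Finset Nd) :
    ∑ o ∈ U, ((Tc X U o).erase o).card ≤ 36 * U.card := by
  obtain ⟨can, c1, c2⟩ := hX.can
  have h1 := S.plan.connectors (C := {φ // S.nd φ ∈ U}) (Γ := V) (fun c => {Sum.inr c.1})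
    (fun v => {Sum.inl v}) (fun v => dg X U v ≤ 2)
    (fun i j x a b => Subtype.ext (Sum.inr_injective (a.symm.trans b)))
    (fun i j x _ _ a b => Sum.inl_injective (a.symm.trans b))
    (fun i j x _ a b => by rw [Set.mem_singleton_iff.1 a] at b; simp at b)
    (fun _ => conn_singleton _ _) (fun _ _ => conn_singleton _ _)
    (fun v c => ∃ m, v ∈ X m ∧ c.1 = can m v)
    (fun v c _ ⟨m, a, b⟩ => ⟨_, rfl, _, rfl, by rw [b]; exact c2 m v a⟩) 2
    (fun v hv => le_trans (card_le_card_of_injOn (fun c => S.nd c.1) (fun c hc => by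
      obtain ⟨m, a, b⟩ := (mf.1 hc).2
      refine mem_coe.2 (mf.2 ⟨c.2, ?_⟩)
      beta_reduce
      rw [b, c1]; exact a) (fun c hc c' hc' h => by
      obtain ⟨m, a, b⟩ := (mf.1 hc).2
      obtain ⟨m', a', b'⟩ := (mf.1 hc').2
      simp only [b, b', c1] at h
      exact Subtype.ext (by rw [b, b', h]))) hv)
  have h2 := S.card_faces U
  rw [Fintype.card_subtype] at h1
  rw [← card_sigma]
  refine le_trans (card_le_card_of_surjOn
    (fun p : {φ // S.nd φ ∈ U} × {φ // S.nd φ ∈ U} => (⟨S.nd p.1.1, S.nd p.2.1⟩ : Σ _ : Nd, Nd))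
    ?_) (h1.trans (by omega))
  rintro ⟨o, m⟩ hp
  obtain ⟨a1, a2⟩ := mem_sigma.1 (mem_coe.1 hp)
  obtain ⟨a2, a3⟩ := mem_erase.1 a2
  obtain ⟨a3, x, a4, a5, a6⟩ := mf.1 a3
  refine ⟨(⟨can o x, by rw [c1]; exact a1⟩, ⟨can m x, by rw [c1]; exact a3⟩),
    mem_coe.2 (mf.2 ⟨mem_univ _, fun h => a2 ?_, x, a6, ⟨o, a4, rfl⟩, ⟨m, a5, rfl⟩⟩),
    by simp [c1]⟩
  have := congrArg (fun c : {φ // S.nd φ ∈ U} => S.nd c.1) h
  simpa [c1] using this.symm

lemma sum_gh_aux (hX : S.Adm X) (U : Finset Nd) (hI : S.Inv X U) (a : V → Nd) :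
    (((U.sigma fun o => S.G1 X U o).filter fun p => ∀ z ∈ X p.1, dg X U z ≤ 1 → a z = p.1).card +
    ((U.sigma fun o => (U.erase o).filter fun m =>
      ∃ x ∈ X m, a x = m ∧ dg X U x ≤ 2 ∧ S.Gh X U o x).filter
        fun p => ∀ z ∈ X p.1, dg X U z ≤ 1 → a z = p.1).card) ≤ 46170 * U.card := by
  obtain ⟨can, c1, c2⟩ := hX.can
  obtain ⟨w, ℓ, l1, l2⟩ := hI
  let W : {φ // S.nd φ ∈ U} ⊕ {x // 3 ≤ dg X U x} → Set (V ⊕ F) := Sum.elim
    (fun c => {Sum.inr c.1} ∪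
      {y | ∃ x, (dg X U x ≤ 2 ∧ x ∈ X (a x) ∧ can (a x) x = c.1) ∧ y = Sum.inl x})
    fun x => {Sum.inl x.1}
  have hW : ∀ c x, Sum.inl x ∈ W c ↔ Sum.elim
      (fun c : {φ // S.nd φ ∈ U} => dg X U x ≤ 2 ∧ x ∈ X (a x) ∧ can (a x) x = c.1)
      (fun y : {x // 3 ≤ dg X U x} => x = y.1) c := by
    rintro (c | c) x <;> simp [W]
  have hW' : ∀ c φ, Sum.inr φ ∈ W c ↔ Sum.elim (fun c : {φ // S.nd φ ∈ U} => φ = c.1)
      (fun _ : {x // 3 ≤ dg X U x} => False) c := by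
    rintro (c | c) x <;> simp [W]
  have h1 := S.plan.connectors W (S.blob ℓ) (fun s => s ∉ U ∧ S.sup s) ?_
    (fun i j x a b => S.blob_disj ℓ (l2 i j a.1 b.1 a.2 b.2)) ?_ ?_
    (fun s hs => S.blob_conn ℓ s fun b => (l1 s hs.1 hs.2 b).1)
    (fun s c => ∃ x ∈ X s, Sum.inl x ∈ W c) ?_ 855 ?_
  · have h2 := S.card_faces U
    have h3 := (S.sum_hv hX U).1
    rw [Fintype.card_sum, Fintype.card_subtype, Fintype.card_subtype] at h1
    rw [← card_disjSum]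
    refine le_trans (card_le_card_of_surjOn (fun p => Sum.elim
      (fun c : {φ // S.nd φ ∈ U} => Sum.elim
        (fun d : {φ // S.nd φ ∈ U} => (Sum.inr ⟨S.nd c.1, S.nd d.1⟩ :
          (Σ _ : Nd, V) ⊕ (Σ _ : Nd, Nd)))
        (fun x : {x // 3 ≤ dg X U x} => Sum.inl ⟨S.nd c.1, x.1⟩) p.2)
      (fun x : {x // 3 ≤ dg X U x} => Sum.inr ⟨a x.1, a x.1⟩) p.1) ?_) (h1.trans (by omega))
    rintro (⟨o, x⟩ | ⟨o, m⟩) hp
    · obtain ⟨a1, a2⟩ := mf.1 (inl_mem_disjSum.1 (mem_coe.1 hp))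
      obtain ⟨a1, a3⟩ := mem_sigma.1 a1
      obtain ⟨a3, s, a4, a5, a6, z, a7, a8, a9⟩ := (mf.1 a3).2
      have b1 : a z = o := a2 z a8 a9
      refine ⟨(Sum.inl ⟨can o z, by rw [c1]; exact a1⟩, Sum.inr ⟨x, a3⟩),
        mem_coe.2 (mf.2 ⟨mem_univ _, by simp, s, ⟨a4, a5⟩, ⟨z, a7, ?_⟩, x, a6, ?_⟩),
        by simp [c1]⟩
      · rw [hW]; exact ⟨by omega, b1 ▸ a8, by rw [b1]⟩
      · rw [hW]; rfl
    · obtain ⟨a1, a2⟩ := mf.1 (inr_mem_disjSum.1 (mem_coe.1 hp))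
      obtain ⟨a1, a3⟩ := mem_sigma.1 a1
      obtain ⟨a0, x, b2, b3, b4, s, a4, a5, a6, z, a7, a8, a9⟩ := mf.1 a3
      have b1 : a z = o := a2 z a8 a9
      refine ⟨(Sum.inl ⟨can o z, by rw [c1]; exact a1⟩,
        Sum.inl ⟨can m x, by rw [c1]; exact (mem_erase.1 a0).2⟩),
        mem_coe.2 (mf.2 ⟨mem_univ _, fun h => (mem_erase.1 a0).1 ?_, s, ⟨a4, a5⟩,
          ⟨z, a7, ?_⟩, x, a6, ?_⟩), by simp [c1]⟩
      · have := congrArg (fun c : {φ // S.nd φ ∈ U} => S.nd c.1) (Sum.inl_injective h)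
        simpa [c1] using this.symm
      · rw [hW]; exact ⟨by omega, b1 ▸ a8, by rw [b1]⟩
      · rw [hW]; exact ⟨b4, b3.symm ▸ b2, by rw [b3]⟩
  · rintro (i | i) (j | j) (x | x) h1 h2 <;>
      simp only [hW, hW', Sum.elim_inl, Sum.elim_inr] at h1 h2
    · rw [Subtype.ext (h1.2.2.symm.trans h2.2.2)]
    · rw [Subtype.ext (h1.symm.trans h2)]
    · have := j.2; rw [← h2] at this; omega
    · have := i.2; rw [← h1] at this; omega
    · rw [Subtype.ext (h1.symm.trans h2)]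
  · rintro c s y hs h1 (⟨i, rfl⟩ | ⟨b, rfl⟩)
    · rcases c with c | c
      · rw [hW'] at h1
        have := c.2
        rw [← show _ = c.1 from h1, S.nd_fc] at this
        exact hs.1 this
      · exact (hW' _ _).1 h1
    · rw [hW] at h1
      rcases c with c | c
      · have := c.2
        rw [← h1.2.2, c1] at this
        exact (l1 s hs.1 hs.2 b).2 _ this h1.2.1
      · have := c.2
        rw [← show _ = c.1 from h1] at this
        obtain ⟨m, hm⟩ := card_pos.1 (lt_of_lt_of_le (by norm_num) this)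
        exact (l1 s hs.1 hs.2 b).2 m (mf.1 hm).1 (mf.1 hm).2
  · rintro (c | c)
    · exact conn_star _ _ _ fun x hx => hx.2.2 ▸ c2 _ _ hx.2.1
    · exact conn_singleton _ _
  · rintro s c - ⟨x, h1, h2⟩
    obtain ⟨i, hi⟩ := hX.sub s x h1
    exact ⟨_, h2, _, Or.inl ⟨i, rfl⟩, hi⟩
  · intro s hs
    have b1 := w s hs.1 hs.2
    have b2 := S.card_faces (Tc X U s)
    refine le_trans (card_le_card_of_injOn (t := (univ.filter fun φ => S.nd φ ∈ Tc X U s).disjSum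
      (Hv X U s)) (Sum.map Subtype.val Subtype.val) ?_
      (Subtype.val_injective.sumMap Subtype.val_injective).injOn) ?_
    · rintro (c | c) hc <;> obtain ⟨x, h1, h2⟩ := (mf.1 hc).2 <;> rw [hW] at h2
      · refine mem_coe.2 (inl_mem_disjSum.2 (mf.2 ⟨mem_univ _, mf.2
          ⟨c.2, x, h1, ?_, h2.1⟩⟩))
        rw [← h2.2.2, c1]; exact h2.2.1
      · exact mem_coe.2 (inr_mem_disjSum.2 (mf.2 ⟨(show x = c.1 from h2) ▸ h1, c.2⟩))
    · rw [card_disjSum]; omega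

lemma sum_gh (hX : S.Adm X) (U : Finset Nd) (hI : S.Inv X U) (hU : U.Nonempty) :
    ∑ o ∈ U, ((S.G1 X U o).card + (S.G2 X U o).card) ≤ 92340 * U.card := by
  have : ∀ x, ∃ m1 m2, (dg X U x ≤ 2 → ∀ m ∈ U, x ∈ X m → m1 = m ∨ m2 = m) ∧
      (dg X U x ≤ 1 → ∀ m ∈ U, x ∈ X m → m1 = m ∧ m2 = m) := by
    intro x
    obtain ⟨o, -⟩ := hU
    by_cases h1 : dg X U x ≤ 1
    · have : Nonempty Nd := ⟨o⟩
      obtain ⟨m1, h⟩ := card_le_one_iff_subset_singleton.1 h1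
      have : ∀ m ∈ U, x ∈ X m → m1 = m := fun m a b =>
        (mem_singleton.1 (h (mf.2 ⟨a, b⟩))).symm
      exact ⟨m1, m1, fun _ m a b => Or.inl (this m a b), fun _ m a b => ⟨this m a b, this m a b⟩⟩
    · by_cases h2 : dg X U x = 2
      · obtain ⟨m1, m2, -, h⟩ := card_eq_two.1 h2
        refine ⟨m1, m2, fun _ m a b => ?_, fun h' => absurd h' h1⟩
        have : m ∈ ({m1, m2} : Finset Nd) := h ▸ mf.2 ⟨a, b⟩
        simpa [eq_comm] using this
      · exact ⟨o, o, fun h => by omega, fun h => absurd h h1⟩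
  choose a1 a2 h1 h2 using this
  have b1 := S.sum_gh_aux hX U hI a1
  have b2 := S.sum_gh_aux hX U hI a2
  rw [filter_true_of_mem fun p hp z c d => (h2 z d _ (mem_sigma.1 hp).1 c).1,
    filter_true_of_mem fun p hp z c d => (h2 z d _ (mem_sigma.1 hp).1 c).1] at b1
  rw [filter_true_of_mem fun p hp z c d => (h2 z d _ (mem_sigma.1 hp).1 c).2,
    filter_true_of_mem fun p hp z c d => (h2 z d _ (mem_sigma.1 hp).1 c).2] at b2
  rw [card_sigma, card_sigma] at b1 b2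
  have b3 : ∑ o ∈ U, (S.G2 X U o).card ≤ ∑ o ∈ U, (((U.erase o).filter fun m =>
      ∃ x ∈ X m, a1 x = m ∧ dg X U x ≤ 2 ∧ S.Gh X U o x).card + ((U.erase o).filter fun m =>
      ∃ x ∈ X m, a2 x = m ∧ dg X U x ≤ 2 ∧ S.Gh X U o x).card) := by
    refine sum_le_sum fun o _ => le_trans (card_le_card fun m hm => ?_) (card_union_le _ _)
    obtain ⟨c1, x, c2, c3, c4⟩ := mf.1 hm
    rcases h1 x c3 m (mem_of_mem_erase c1) c2 with h | h
    · exact mem_union_left _ (mf.2 ⟨c1, x, c2, h, c3, c4⟩)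
    · exact mem_union_right _ (mf.2 ⟨c1, x, c2, h, c3, c4⟩)
  rw [sum_add_distrib] at b3 ⊢
  omega

lemma good_ex (hX : S.Adm X) (U : Finset Nd) (hI : S.Inv X U) (hU : U.Nonempty) :
    ∃ o ∈ U, S.Good X U o := by
  by_contra h
  push Not at h
  have a1 := (S.sum_hv hX U).2
  have a2 := S.sum_tc hX U
  have a3 := S.sum_gh hX U hI hU
  have a4 : ∑ _o ∈ U, 369360 ≤ ∑ o ∈ U, (5130 * (Hv X U o).card +
      2565 * ((Tc X U o).erase o).card + ((S.G1 X U o).card + (S.G2 X U o).card)) := by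
    refine sum_le_sum fun o ho => ?_
    have := h o ho
    simp only [Good] at this
    omega
  rw [sum_add_distrib, sum_add_distrib, ← mul_sum, ← mul_sum, sum_const, smul_eq_mul] at a4
  have := hU.card_pos
  omega

theorem order [Nonempty V] (hX : S.Adm X) (hh : 71 + 143 * 54 < S.h) :
    ∃ pos : Nd → ℕ, Function.Injective pos ∧
      ∀ o, S.Good X (univ.filter fun m => pos m ≤ pos o) o := by
  refine greedy_order (S.Good X) (S.Inv X) ⟨by simp, fun _ _ => Classical.arbitrary V, by simp,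
    by simp⟩ fun U hI hU => ?_
  obtain ⟨o, h1, h2⟩ := S.good_ex hX U hI hU
  exact ⟨o, h1, h2, S.inv_step hX hh h1 hI h2⟩

end Sys

end Pool.Agent.P.MP_b2489f_co
end

-- part Pool.Agent.P.MP_b2489f_co.Ord
section

set_option autoImplicit false
set_option linter.unusedSectionVars false

/-! The elimination order in terms of first owners. -/

namespace Pool.Agent.P.MP_b2489f_co

open Finset Classical

variable {V F Nd : Type} [Fintype V] [Fintype F] [Fintype Nd]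

/-- `n` is the second node containing `v` -/
def Sec (X : Nd → Finset V) (pos : Nd → ℕ) (τ : V → Nd) (v : V) (n : Nd) : Prop :=
  v ∈ X n ∧ τ v ≠ n ∧ ∀ m, v ∈ X m → pos m < pos n → m = τ v

/-- an order of the nodes with bounded back-connectivity -/
structure Ord (S : Sys V F Nd) (X : Nd → Finset V) where
  pos : Nd → ℕ
  inj : Function.Injective pos
  τ : V → Nd
  τ_mem : ∀ v n, v ∈ X n → v ∈ X (τ v)
  τ_le : ∀ v n, v ∈ X n → pos (τ v) ≤ pos n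
  p2 : ∀ n, ((X n).filter fun v => τ v ≠ n ∧ ¬ Sec X pos τ v n).card ≤ 71
  p3 : ∀ n, (univ.filter fun m => ∃ v, Sec X pos τ v n ∧ τ v = m).card ≤ 143
  p4 : ∀ o, (univ.filter fun m => pos m < pos o ∧ ∃ s, S.sup s ∧ pos o < pos s ∧
    ∃ z ∈ X s, ∃ x ∈ X s, τ z = o ∧ τ x = m).card ≤ 369359
  ℓ : Nd → Bool → V
  hℓ : ∀ s, S.sup s → ∀ b, ℓ s b ∈ S.N (S.fc s 0) ∧ ℓ s b ∈ S.N (S.fc s (if b then 2 else 1))
  τℓ : ∀ s, S.sup s → ∀ b, τ (ℓ s b) = s

theorem Sys.ord [Nonempty V] [Nonempty Nd] (S : Sys V F Nd) {X : Nd → Finset V} (hX : S.Adm X)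
    (hh : 71 + 143 * 54 < S.h) : Nonempty (Ord S X) := by
  obtain ⟨pos, inj, hG⟩ := S.order hX hh
  have : ∀ v, ∃ t, ∀ n, v ∈ X n → v ∈ X t ∧ pos t ≤ pos n := fun v => by
    rcases (univ.filter fun n => v ∈ X n).eq_empty_or_nonempty with h | h
    · exact ⟨Classical.arbitrary Nd, fun n hn =>
        (filter_eq_empty_iff.1 h (mem_univ n) hn).elim⟩
    · obtain ⟨t, h1, h2⟩ := exists_min_image _ pos h
      exact ⟨t, fun n hn => ⟨(mf.1 h1).2, h2 n (mf.2 ⟨mem_univ _, hn⟩)⟩⟩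
  choose τ hτ using this
  have : ∀ s (b : Bool), ∃ v, S.sup s → (v ∈ S.N (S.fc s 0) ∧
      v ∈ S.N (S.fc s (if b then 2 else 1))) ∧ τ v = s := fun s b => by
    by_cases hs : S.sup s
    · obtain ⟨v, h1, h2⟩ := S.link_ex hX hh hs (hG s) (i := 0) (j := if b then 2 else 1)
        (by cases b <;> decide)
      refine ⟨v, fun _ => ⟨h1, ?_⟩⟩
      by_contra h
      have := hτ v s (hX.sup s hs 0 h1.1)
      exact h2 _ (mem_erase.2 ⟨h, mf.2 ⟨mem_univ _, this.2⟩⟩) this.1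
    · exact ⟨Classical.arbitrary V, fun h => absurd h hs⟩
  choose ℓ hℓ using this
  refine ⟨⟨pos, inj, τ, fun v n h => (hτ v n h).1, fun v n h => (hτ v n h).2, fun n => ?_,
    fun n => ?_, fun o => ?_, ℓ, fun s h b => (hℓ s b h).1, fun s h b => (hℓ s b h).2⟩⟩
  · refine le_trans (card_le_card fun v hv => ?_) (hG n).1
    obtain ⟨h1, h2, h3⟩ := mf.1 hv
    refine mf.2 ⟨h1, ?_⟩
    simp only [Sec, not_and, not_forall] at h3
    obtain ⟨m, h4, h5, h6⟩ := h3 h1 h2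
    have : ({n, τ v, m} : Finset Nd).card = 3 :=
      card_eq_three.2 ⟨_, _, _, h2.symm, by rintro rfl; omega, Ne.symm h6, rfl⟩
    rw [← this]
    refine card_le_card fun a ha => ?_
    simp only [mem_insert, mem_singleton] at ha
    rcases ha with rfl | rfl | rfl
    · exact mf.2 ⟨mf.2 ⟨mem_univ _, le_rfl⟩, h1⟩
    · exact mf.2 ⟨mf.2 ⟨mem_univ _, (hτ v n h1).2⟩, (hτ v n h1).1⟩
    · exact mf.2 ⟨mf.2 ⟨mem_univ _, h5.le⟩, h4⟩
  · refine le_trans (card_le_card fun m hm => ?_) (hG n).2.1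
    obtain ⟨v, ⟨h1, h2, h3⟩, rfl⟩ := (mf.1 hm).2
    refine mem_erase.2 ⟨h2, mf.2 ⟨mf.2 ⟨mem_univ _, (hτ v n h1).2⟩, v, h1, (hτ v n h1).1, ?_⟩⟩
    refine le_trans (card_le_card (t := {n, τ v}) fun a ha => ?_) card_le_two
    obtain ⟨h4, h5⟩ := mf.1 ha
    rcases (mf.1 h4).2.lt_or_eq with h | h
    · simp [h3 a h5 h]
    · simp [inj h]
  · refine le_trans ?_ (hG o).2.2
    refine le_trans (card_le_card fun m hm => ?_) ((card_union_le _ _).trans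
      (Nat.add_le_add_right (card_image_le (f := τ)) _))
    obtain ⟨h1, s, h2, h3, z, h4, x, h5, rfl, rfl⟩ := (mf.1 hm).2
    have g : S.Gh X (univ.filter fun m => pos m ≤ pos (τ z)) (τ z) x := by
      refine ⟨s, fun h => by have := (mf.1 h).2; omega, h2, h5, z, h4, (hτ z s h4).1, ?_⟩
      refine le_trans (card_le_card (t := {τ z}) fun a ha => ?_) (by simp)
      obtain ⟨h6, h7⟩ := mf.1 ha
      exact mem_singleton.2 (inj (le_antisymm (mf.1 h6).2 (hτ z a h7).2))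
    by_cases h : Sys.dg X (univ.filter fun m => pos m ≤ pos (τ z)) x ≤ 2
    · exact mem_union_right _ (mf.2 ⟨mem_erase.2 ⟨by rintro h'; rw [h'] at h1; omega,
        mf.2 ⟨mem_univ _, h1.le⟩⟩, x, (hτ x s h5).1, h, g⟩)
    · exact mem_union_left _ (mem_image_of_mem _ (mf.2 ⟨mem_univ _, by omega, g⟩))

namespace Ord

variable {S : Sys V F Nd} {X : Nd → Finset V} (O : Ord S X)

abbrev sec (v : V) (n : Nd) : Prop := Sec X O.pos O.τ v n

lemma τ_lt {v : V} {n : Nd} (h : v ∈ X n) (h' : O.τ v ≠ n) : O.pos (O.τ v) < O.pos n :=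
  lt_of_le_of_ne (O.τ_le v n h) fun e => h' (O.inj e)

lemma sec_lt {v : V} {n : Nd} (h : O.sec v n) : O.pos (O.τ v) < O.pos n := O.τ_lt h.1 h.2.1

lemma sec_uniq {v : V} {n m : Nd} (h : O.sec v n) (h' : O.sec v m) : n = m := by
  rcases lt_trichotomy (O.pos n) (O.pos m) with a | a | a
  · exact absurd (h'.2.2 n h.1 a).symm h.2.1
  · exact O.inj a
  · exact absurd (h.2.2 m h'.1 a).symm h'.2.1

/-- bounding a set of vertices second-owned by `n`, class by class -/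
lemma card_sec (n : Nd) (Z : Finset V) (hZ : ∀ z ∈ Z, O.sec z n) (b : ℕ)
    (h : ∀ m, (Z.filter fun z => O.τ z = m).card ≤ b) : Z.card ≤ 143 * b := by
  refine le_trans (card_le_card fun z hz => ?_)
    (card_biUnion_le_mul _ (fun m => Z.filter fun z => O.τ z = m) 143 b (O.p3 n) fun m _ => h m)
  exact mem_biUnion.2 ⟨O.τ z, mf.2 ⟨mem_univ _, z, hZ z hz, rfl⟩, mf.2 ⟨hz, rfl⟩⟩

lemma blob_disj {s s' : Nd} (hs : S.sup s) (hs' : S.sup s') {y : V ⊕ F}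
    (h1 : y ∈ S.blob O.ℓ s) (h2 : y ∈ S.blob O.ℓ s') : s = s' :=
  S.blob_disj O.ℓ (fun b b' h => by rw [← O.τℓ s hs b, h, O.τℓ s' hs' b']) h1 h2

/-- few later supers touch three disjoint earlier hubs -/
lemma tl (hX : S.Adm X) (o : Nd) (H : Fin 3 → Set (V ⊕ F))
    (hH : ∀ i j x, x ∈ H i → x ∈ H j → i = j) (cH : ∀ i, Conn (fun v f => v ∈ S.N f) (H i))
    (h1 : ∀ i x, Sum.inl x ∈ H i → O.pos (O.τ x) ≤ O.pos o)
    (h2 : ∀ i φ, Sum.inr φ ∈ H i → O.pos (S.nd φ) ≤ O.pos o) (T : Finset Nd)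
    (hT : ∀ s ∈ T, S.sup s ∧ O.pos o < O.pos s ∧ ∀ i, ∃ x ∈ X s, Sum.inl x ∈ H i) :
    T.card ≤ 2 := by
  refine S.plan.le_two T H (S.blob O.ℓ) hH
    (fun a ha b hb x => O.blob_disj (hT a ha).1 (hT b hb).1) ?_ cH
    (fun a ha => S.blob_conn _ _ (O.hℓ a (hT a ha).1)) fun i a ha => ?_
  · rintro i a ha _ hx (⟨j, rfl⟩ | ⟨b, rfl⟩)
    · have := h2 i _ hx
      rw [S.nd_fc] at this
      have := (hT a ha).2.1
      omega
    · have := h1 i _ hx
      rw [O.τℓ a (hT a ha).1] at this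
      have := (hT a ha).2.1
      omega
  · obtain ⟨x, a1, a2⟩ := (hT a ha).2.2 i
    obtain ⟨j, hj⟩ := hX.sub a x a1
    exact ⟨_, a2, _, Or.inl ⟨j, rfl⟩, hj⟩

/-- few common vertices of two faces are tied to a hub through later supers -/
lemma bl (hX : S.Adm X) (o : Nd) {φ ψ : F} (hne : φ ≠ ψ) (H : Set (V ⊕ F))
    (cH : Conn (fun v f => v ∈ S.N f) H) (h1 : Sum.inr φ ∉ H) (h2 : Sum.inr ψ ∉ H)
    (h3 : ∀ s, S.sup s → O.pos o < O.pos s → S.nd φ ≠ s ∧ S.nd ψ ≠ s) (Z : Finset V)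
    (hZ : ∀ z ∈ Z, z ∈ S.N φ ∧ z ∈ S.N ψ ∧ O.τ z = o ∧ Sum.inl z ∉ H ∧
      ∃ s, S.sup s ∧ O.pos o < O.pos s ∧ z ∈ X s ∧ ∃ x ∈ X s, Sum.inl x ∈ H) : Z.card ≤ 2 := by
  refine S.plan.bl hne (H ∪ {y | ∃ s, (S.sup s ∧ O.pos o < O.pos s ∧ ∃ x ∈ X s, Sum.inl x ∈ H) ∧
    y ∈ S.blob O.ℓ s}) (conn_iUnion cH _ _ (fun s hs => S.blob_conn _ _ (O.hℓ s hs.1)) ?_) ?_ ?_ Z ?_
  · rintro s ⟨-, -, x, a1, a2⟩
    obtain ⟨j, hj⟩ := hX.sub s x a1
    exact ⟨_, a2, _, Or.inl ⟨j, rfl⟩, hj⟩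
  · rintro (h | ⟨s, a1, ⟨i, a2⟩ | ⟨b, a2⟩⟩)
    · exact h1 h
    · exact (h3 s a1.1 a1.2.1).1 (by rw [Sum.inr_injective a2, S.nd_fc])
    · simp at a2
  · rintro (h | ⟨s, a1, ⟨i, a2⟩ | ⟨b, a2⟩⟩)
    · exact h2 h
    · exact (h3 s a1.1 a1.2.1).2 (by rw [Sum.inr_injective a2, S.nd_fc])
    · simp at a2
  · intro z hz
    obtain ⟨a1, a2, a3, a4, s, a5, a6, a7, a8⟩ := hZ z hz
    obtain ⟨j, hj⟩ := hX.sub s z a7
    refine ⟨a1, a2, ?_, S.fc s j, Or.inr ⟨s, ⟨a5, a6, a8⟩, Or.inl ⟨j, rfl⟩⟩, hj⟩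
    rintro (h | ⟨s', b1, ⟨i, b2⟩ | ⟨b, b2⟩⟩)
    · exact a4 h
    · simp at b2
    · have := O.τℓ s' b1.1 b
      rw [← Sum.inl_injective b2, a3] at this
      have := b1.2.1
      subst_vars
      omega

end Ord

end Pool.Agent.P.MP_b2489f_co
end

-- part Pool.Agent.P.MP_b2489f_co.Stage
section

set_option autoImplicit false
set_option linter.unusedSectionVars false

/-! Set-up of the sequential colouring: kept vertices, times, labels and conflict counts. -/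

namespace Pool.Agent.P.MP_b2489f_co

open Finset Classical

variable {V F Nd : Type} [Fintype V] [Fintype F] [Fintype Nd]

/-- `z` lies on at most one face of `s` -/
def Sys.Sing (S : Sys V F Nd) (z : V) (s : Nd) : Prop :=
  ∀ i j, z ∈ S.N (S.fc s i) → z ∈ S.N (S.fc s j) → i = j

namespace Ord

variable {S : Sys V F Nd} {X : Nd → Finset V} (O : Ord S X)

def Bad (z : V) : Prop :=
  ∃ s, S.sup s ∧ O.pos (O.τ z) < O.pos s ∧ z ∈ X s ∧ ∃ x ∈ X s, O.pos (O.τ x) < O.pos (O.τ z)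

def GC (z : V) : Prop := ¬ S.sup (O.τ z) ∧ (∃ n, ¬ S.sup n ∧ O.sec z n) ∧ ¬ O.Bad z

def Keep (f : Nd) (z : V) : Prop :=
  z ∈ X f ∧ (O.τ z = f ∨ (O.sec z f ∧ (O.GC z ∨ (S.sup (O.τ z) ∧ S.Sing z (O.τ z)))))

def Must (f : Nd) (z : V) : Prop := O.Keep f z ∧ (O.GC z ∨ O.τ z ≠ f)

/-- vertices on two faces tied to strictly earlier owners -/
lemma bl_early (hX : S.Adm X) (o : Nd) {φ ψ : F} (hne : φ ≠ ψ)
    (h1 : O.pos o ≤ O.pos (S.nd φ)) (h2 : O.pos o ≤ O.pos (S.nd ψ))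
    (h3 : ∀ s, S.sup s → O.pos o < O.pos s → S.nd φ ≠ s ∧ S.nd ψ ≠ s) (Z : Finset V)
    (hZ : ∀ z ∈ Z, z ∈ S.N φ ∧ z ∈ S.N ψ ∧ O.τ z = o ∧ O.Bad z) : Z.card ≤ 2216154 := by
  have a1 := (S.card_faces _).trans (Nat.mul_le_mul_left 3 (O.p4 o))
  refine le_trans (card_le_card fun z hz => ?_) (card_biUnion_le_mul _ (fun χ => Z.filter fun z =>
    ∃ s, S.sup s ∧ O.pos o < O.pos s ∧ z ∈ X s ∧ ∃ x ∈ X s, x ∈ S.N χ ∧ O.τ x = S.nd χ)
    (3 * 369359) 2 a1 fun χ hχ => ?_)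
  · obtain ⟨-, -, rfl, s, b1, b2, b3, x, b4, b5⟩ := hZ z hz
    obtain ⟨i, hi⟩ := hX.sub _ x (O.τ_mem x s b4)
    refine mem_biUnion.2 ⟨S.fc (O.τ x) i, mf.2 ⟨mem_univ _, mf.2 ⟨mem_univ _, ?_⟩⟩,
      mf.2 ⟨hz, s, b1, b2, b3, x, b4, hi, by rw [S.nd_fc]⟩⟩
    rw [S.nd_fc]
    exact ⟨b5, s, b1, b2, z, b3, x, b4, rfl, rfl⟩
  · have b1 := (mf.1 (mf.1 hχ).2).2.1
    refine O.bl hX o hne _ (conn_star _ χ (fun x => x ∈ S.N χ ∧ O.τ x = S.nd χ) fun x hx => hx.1)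
      ?_ ?_ h3 _ fun z hz => ?_
    · simp only [Set.mem_union, Set.mem_singleton_iff, Sum.inr.injEq, Set.mem_ofPred_eq,
        reduceCtorEq, and_false, exists_false, or_false]
      rintro rfl; omega
    · simp only [Set.mem_union, Set.mem_singleton_iff, Sum.inr.injEq, Set.mem_ofPred_eq,
        reduceCtorEq, and_false, exists_false, or_false]
      rintro rfl; omega
    · obtain ⟨c1, s, c2, c3, c4, x, c5, c6⟩ := mf.1 hz
      obtain ⟨d1, d2, d3, -⟩ := hZ z c1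
      refine ⟨d1, d2, d3, ?_, s, c2, c3, c4, x, c5, Or.inr ⟨x, c6, rfl⟩⟩
      rintro (h | ⟨y, h, h'⟩)
      · simp at h
      · rw [← Sum.inl_injective h', d3] at h
        rw [← h.2] at b1
        omega

lemma card_notKeep (hX : S.Adm X) {f : Nd} (hf : ¬ S.sup f) :
    ((X f).filter fun z => ¬ O.Keep f z).card ≤ 71 + 143 * 2216154 := by
  have : ((X f).filter fun z => ¬ O.Keep f z) ⊆ ((X f).filter fun v => O.τ v ≠ f ∧ ¬ O.sec v f) ∪
      ((X f).filter fun z => O.sec z f ∧ ¬ O.Keep f z) := by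
    intro z hz
    obtain ⟨h1, h2⟩ := mf.1 hz
    by_cases h : O.sec z f
    · exact mem_union_right _ (mf.2 ⟨h1, h, h2⟩)
    · exact mem_union_left _ (mf.2 ⟨h1, fun h' => h2 ⟨h1, Or.inl h'⟩, h⟩)
  refine (card_le_card this).trans ((card_union_le _ _).trans (Nat.add_le_add (O.p2 f)
    (O.card_sec f _ (fun z hz => (mf.1 hz).2.1) _ fun m => ?_)))
  by_cases hm : S.sup m
  · refine le_trans (S.share hX hm (m := f) (by rintro rfl; exact hf hm) _ fun z hz => ?_)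
      (by norm_num)
    obtain ⟨h1, rfl⟩ := mf.1 hz
    obtain ⟨h1, h2, h3⟩ := mf.1 h1
    refine ⟨h1, ?_⟩
    by_contra h
    push Not at h
    exact h3 ⟨h1, Or.inr ⟨h2, Or.inr ⟨hm, fun i j a b => by
      by_contra c; exact h i j c a b⟩⟩⟩
  · by_cases hlt : O.pos m < O.pos f
    · refine O.bl_early hX m (φ := S.fc m 0) (ψ := S.fc f 0)
        (S.fc_ne (by rintro rfl; omega) _ _) (by rw [S.nd_fc]) (by rw [S.nd_fc]; omega)
        (fun s a _ => by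
          rw [S.nd_fc, S.nd_fc]
          exact ⟨by rintro rfl; exact hm a, by rintro rfl; exact hf a⟩) _ fun z hz => ?_
      obtain ⟨h1, rfl⟩ := mf.1 hz
      obtain ⟨h1, h2, h3⟩ := mf.1 h1
      obtain ⟨i, hi⟩ := hX.sub _ z (O.τ_mem z f h1)
      obtain ⟨j, hj⟩ := hX.sub _ z h1
      rw [S.fc_nor _ hm] at hi
      rw [S.fc_nor _ hf] at hj
      refine ⟨hi, hj, rfl, ?_⟩
      by_contra h
      exact h3 ⟨h1, Or.inr ⟨h2, Or.inl ⟨hm, ⟨f, hf, h2⟩, h⟩⟩⟩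
    · rw [filter_eq_empty_iff.2, card_empty]
      · omega
      · rintro z hz rfl
        exact hlt (O.sec_lt (mf.1 hz).2.1)

lemma gc_core {f : Nd} {z : V} (h1 : z ∈ X f) (h : O.GC z) :
    z ∈ (X f).filter fun v => ∃ m, ¬ S.sup m ∧ m ≠ f ∧ v ∈ X m := by
  refine mf.2 ⟨h1, ?_⟩
  by_cases h2 : O.τ z = f
  · obtain ⟨n, a1, a2⟩ := h.2.1
    exact ⟨n, a1, fun e => a2.2.1 (h2.trans e.symm), a2.1⟩
  · exact ⟨_, h.1, h2, O.τ_mem z f h1⟩

lemma card_must {f : Nd} {Δ C : ℕ}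
    (h1 : ((X f).filter fun v => ∃ m, ¬ S.sup m ∧ m ≠ f ∧ v ∈ X m).card ≤ Δ)
    (hC : ∀ s, S.sup s → ((X s).filter fun z => S.Sing z s).card ≤ C) :
    (univ.filter (O.Must f)).card ≤ Δ + 143 * C := by
  have : univ.filter (O.Must f) ⊆ ((X f).filter fun v => ∃ m, ¬ S.sup m ∧ m ≠ f ∧ v ∈ X m) ∪
      univ.filter fun z => O.sec z f ∧ S.sup (O.τ z) ∧ S.Sing z (O.τ z) := by
    intro z hz
    obtain ⟨⟨a1, a2⟩, a3⟩ := (mf.1 hz).2
    by_cases h : O.GC z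
    · exact mem_union_left _ (O.gc_core a1 h)
    · obtain ⟨a4, a5⟩ := a2.resolve_left (a3.resolve_left h)
      exact mem_union_right _ (mf.2 ⟨mem_univ _, a4, a5.resolve_left h⟩)
  refine (card_le_card this).trans ((card_union_le _ _).trans (Nat.add_le_add h1
    (O.card_sec f _ (fun z hz => (mf.1 hz).2.1) _ fun m => ?_)))
  by_cases hm : S.sup m
  · refine le_trans (card_le_card fun z hz => ?_) (hC m hm)
    obtain ⟨a1, rfl⟩ := mf.1 hz
    exact mf.2 ⟨O.τ_mem z f (mf.1 a1).2.1.1, (mf.1 a1).2.2.2⟩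
  · rw [filter_eq_empty_iff.2, card_empty]
    · omega
    · rintro z hz rfl
      exact hm (mf.1 hz).2.2.1

end Ord

/-- all data of the sequential colouring -/
structure Ctx (S : Sys V F Nd) where
  X : Nd → Finset V
  hX : S.Adm X
  O : Ord S X
  k : ℕ
  κ : ℕ
  M : ℕ
  C : ℕ
  c0 : V → Fin k
  hc0 : ∀ f, ¬ S.sup f → ∀ x ∈ X f, ∀ y ∈ X f, O.GC x → O.GC y → c0 x = c0 y → x = y
  hC : ∀ s, S.sup s → ((X s).filter fun z => S.Sing z s).card ≤ C
  hM : ∀ f, ¬ S.sup f → (univ.filter (O.Must f)).card ≤ M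
  can : Nd → V → F
  can_nd : ∀ n v, S.nd (can n v) = n
  can_mem : ∀ n, ∀ v ∈ X n, v ∈ S.N (can n v)
  D : Nd → Finset V
  D_keep : ∀ f, ¬ S.sup f → ∀ z ∈ D f, O.Keep f z
  D_card : ∀ f, ¬ S.sup f → (D f).card = k
  D_must : ∀ f, ¬ S.sup f → ∀ z, O.Must f z → z ∈ D f
  D_ext : ∀ f, ¬ S.sup f → (X f \ D f).card ≤ κ

namespace Ctx

variable {S : Sys V F Nd} (Z : Ctx S)

def Extra (z : V) : Prop := ¬ S.sup (Z.O.τ z) ∧ z ∉ Z.D (Z.O.τ z)

noncomputable def T (z : V) : ℕ := Z.O.pos (Z.O.τ z) * (Fintype.card V + 1) +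
  if Z.Extra z then (Fintype.equivFin V z).1 + 1 else 0

noncomputable def hb (z : V) : V ⊕ F :=
  if Z.Extra z then Sum.inl z else Sum.inr (Z.can (Z.O.τ z) z)

noncomputable def Ext (s : Nd) : Finset V := (Z.X s).filter fun z => Z.O.τ z ≠ s

def Con (x z : V) : Prop := ∃ s, S.sup s ∧ x ∈ Z.Ext s ∧ z ∈ Z.Ext s ∧ Z.T x < Z.T z ∧
  (∃ y ∈ Z.Ext s, y ≠ x ∧ Z.T y < Z.T z) ∧ ∃ y ∈ Z.Ext s, y ≠ z ∧ Z.T y ≤ Z.T z ∧ Z.T y ≠ Z.T x

def Grp (x z : V) : Prop := x ≠ z ∧ Z.T x = Z.T z ∧ ∃ s, S.sup s ∧ x ∈ Z.Ext s ∧ z ∈ Z.Ext s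

lemma T_ge (z : V) : Z.O.pos (Z.O.τ z) * (Fintype.card V + 1) ≤ Z.T z := Nat.le_add_right _ _

lemma T_lt (z : V) : Z.T z < (Z.O.pos (Z.O.τ z) + 1) * (Fintype.card V + 1) := by
  have := (Fintype.equivFin V z).2
  rw [T, add_mul]
  split_ifs <;> omega

lemma T_lt_mul {x : V} {n : ℕ} (h : Z.O.pos (Z.O.τ x) < n) : Z.T x < n * (Fintype.card V + 1) :=
  (Z.T_lt x).trans_le (Nat.mul_le_mul_right _ h)

lemma T_lt_of_pos {x z : V} (h : Z.O.pos (Z.O.τ x) < Z.O.pos (Z.O.τ z)) : Z.T x < Z.T z :=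
  (Z.T_lt_mul h).trans_le (Z.T_ge z)

lemma pos_le_of_T {x z : V} (h : Z.T x ≤ Z.T z) : Z.O.pos (Z.O.τ x) ≤ Z.O.pos (Z.O.τ z) := by
  by_contra h'
  have := Z.T_lt_of_pos (not_le.1 h')
  omega

lemma T_non {z : V} (h : ¬ Z.Extra z) : Z.T z = Z.O.pos (Z.O.τ z) * (Fintype.card V + 1) := by
  rw [T, if_neg h, add_zero]

lemma pos_lt_of_T {x z : V} (hz : ¬ Z.Extra z) (h : Z.T x < Z.T z) :
    Z.O.pos (Z.O.τ x) < Z.O.pos (Z.O.τ z) := by
  rw [Z.T_non hz] at h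
  exact Nat.lt_of_mul_lt_mul_right ((Z.T_ge x).trans_lt h)

lemma T_eq_mul {z : V} {n : Nd} (h : Z.T z = Z.O.pos n * (Fintype.card V + 1)) :
    Z.O.τ z = n ∧ ¬ Z.Extra z := by
  have a1 := Z.T_ge z
  have a2 := Z.T_lt z
  rw [h] at a1 a2
  have a3 := Nat.le_of_mul_le_mul_right a1 (Nat.succ_pos _)
  have a4 := Nat.lt_of_mul_lt_mul_right a2
  have a5 : Z.O.τ z = n := Z.O.inj (by omega)
  refine ⟨a5, fun he => ?_⟩
  rw [T, if_pos he, a5] at h
  omega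

lemma T_extra {x z : V} (hz : Z.Extra z) (h : Z.T x = Z.T z) : x = z := by
  have a1 : Z.O.τ x = Z.O.τ z := Z.O.inj (le_antisymm (Z.pos_le_of_T h.le) (Z.pos_le_of_T h.ge))
  rw [T, T, a1, if_pos hz] at h
  split_ifs at h
  · exact (Fintype.equivFin V).injective (Fin.ext (by omega))
  · omega

lemma hb_T {x y : V} (h : Z.hb x = Z.hb y) : Z.T x = Z.T y := by
  unfold hb at h
  split_ifs at h with h1 h2
  · rw [Sum.inl_injective h]
  · rename_i h2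
    rw [Z.T_non h1, Z.T_non h2, ← Z.can_nd (Z.O.τ x) x, Sum.inr_injective h, Z.can_nd]

lemma ext_lt {s : Nd} {z : V} (h : z ∈ Z.Ext s) : Z.O.pos (Z.O.τ z) < Z.O.pos s :=
  Z.O.τ_lt (mf.1 h).1 (mf.1 h).2

lemma card_ext {s : Nd} (hs : S.sup s) : (Z.Ext s).card ≤ 71 + 143 * (Z.C + 54) := by
  have : Z.Ext s ⊆ ((Z.X s).filter fun v => Z.O.τ v ≠ s ∧ ¬ Z.O.sec v s) ∪
      univ.filter fun z => Z.O.sec z s := by
    intro z hz
    by_cases h : Z.O.sec z s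
    · exact mem_union_right _ (mf.2 ⟨mem_univ _, h⟩)
    · exact mem_union_left _ (mf.2 ⟨(mf.1 hz).1, (mf.1 hz).2, h⟩)
  refine (card_le_card this).trans ((card_union_le _ _).trans (Nat.add_le_add (Z.O.p2 s)
    (Z.O.card_sec s _ (fun z hz => (mf.1 hz).2) _ fun m => ?_)))
  rw [← card_filter_add_card_filter_not (fun z => S.Sing z s)]
  refine Nat.add_le_add (le_trans (card_le_card fun z hz => ?_) (Z.hC s hs)) ?_
  · exact mf.2 ⟨(mf.1 (mf.1 (mf.1 hz).1).1).2.1, (mf.1 hz).2⟩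
  · by_cases hm : m = s
    · rw [filter_eq_empty_iff.2, card_empty]
      · omega
      · intro z hz
        exact absurd ((mf.1 hz).2.trans hm) (mf.1 (mf.1 hz).1).2.2.1
    · refine S.share Z.hX hs hm _ fun z hz => ?_
      obtain ⟨h1, h2⟩ := mf.1 hz
      obtain ⟨h3, rfl⟩ := mf.1 h1
      refine ⟨Z.O.τ_mem z s (mf.1 h3).2.1, ?_⟩
      simp only [Sys.Sing] at h2
      push Not at h2
      obtain ⟨i, j, a, b, c⟩ := h2
      exact ⟨i, j, c, a, b⟩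

/-- labels that can interact with the owner `o` -/
noncomputable def Lb (o : Nd) : Finset (V ⊕ F) :=
  (univ.filter fun x => Z.O.pos (Z.O.τ x) ≤ Z.O.pos o ∧ ∃ s, S.sup s ∧ Z.O.pos o < Z.O.pos s ∧
    x ∈ Z.X s ∧ ∃ z ∈ Z.X s, Z.O.τ z = o).image Z.hb

lemma card_Lb (o : Nd) : (Z.Lb o).card ≤ 369360 * (3 + Z.κ) := by
  refine le_trans (card_le_card fun η hη => ?_) (card_biUnion_le_mul _ (fun m =>
    (univ.image fun i => (Sum.inr (S.fc m i) : V ⊕ F)) ∪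
      (if S.sup m then ∅ else Z.X m \ Z.D m).image Sum.inl) _ _
    ((card_insert_le o _).trans (Nat.add_le_add_right (Z.O.p4 o) 1)) fun m _ => ?_)
  · obtain ⟨x, hx, rfl⟩ := mem_image.1 hη
    obtain ⟨h1, s, h2, h3, h4, z, h5, h6⟩ := (mf.1 hx).2
    refine mem_biUnion.2 ⟨Z.O.τ x, ?_, ?_⟩
    · rcases h1.lt_or_eq with h | h
      · exact mem_insert_of_mem (mf.2 ⟨mem_univ _, h, s, h2, h3, z, h5, x, h4, h6, rfl⟩)
      · rw [Z.O.inj h]; exact mem_insert_self _ _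
    · unfold hb
      by_cases a : Z.Extra x
      · rw [if_pos a, if_neg a.1]
        exact mem_union_right _ (mem_image_of_mem _ (mem_sdiff.2 ⟨Z.O.τ_mem x s h4, a.2⟩))
      · rw [if_neg a]
        obtain ⟨i, hi⟩ := S.fc_nd (Z.can (Z.O.τ x) x)
        rw [Z.can_nd] at hi
        exact mem_union_left _ (mem_image.2 ⟨i, mem_univ _, by rw [hi]⟩)
  · refine (card_union_le _ _).trans (Nat.add_le_add (card_image_le.trans (by simp))
      (card_image_le.trans ?_))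
    split_ifs with h
    · simp
    · exact Z.D_ext m h

/-- hub of a label, without the vertex `u` -/
def hub (u : V) : V ⊕ F → Set (V ⊕ F)
  | Sum.inl v => {Sum.inl v}
  | Sum.inr φ => {Sum.inr φ} ∪
      {y | ∃ x, (Z.hb x = Sum.inr φ ∧ x ≠ u ∧ x ∈ Z.X (Z.O.τ x)) ∧ y = Sum.inl x}

lemma hb_inl {x v : V} (h : Z.hb x = Sum.inl v) : x = v := by
  unfold hb at h
  split_ifs at h
  exact Sum.inl_injective h

lemma hb_inr {x : V} {φ : F} (h : Z.hb x = Sum.inr φ) : Z.can (Z.O.τ x) x = φ := by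
  unfold hb at h
  split_ifs at h
  exact Sum.inr_injective h

lemma hub_conn (u : V) (η : V ⊕ F) : Conn (fun v f => v ∈ S.N f) (Z.hub u η) := by
  rcases η with v | φ
  · exact conn_singleton _ _
  · exact conn_star _ _ _ fun x hx => Z.hb_inr hx.1 ▸ Z.can_mem _ _ hx.2.2

lemma mem_hub {u x : V} {s : Nd} (h1 : x ≠ u) (h2 : x ∈ Z.X s) : Sum.inl x ∈ Z.hub u (Z.hb x) := by
  rcases h : Z.hb x with v | φ
  · rw [Z.hb_inl h]; rfl
  · exact Or.inr ⟨x, ⟨h, h1, Z.O.τ_mem x s h2⟩, rfl⟩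

lemma hub_inl {u x y : V} (h1 : x ≠ u) (h : Sum.inl y ∈ Z.hub u (Z.hb x)) :
    Z.hb y = Z.hb x ∧ y ≠ u := by
  rcases h' : Z.hb x with v | φ <;> rw [h'] at h
  · obtain rfl := Z.hb_inl h'
    obtain rfl := Sum.inl_injective h
    exact ⟨h', h1⟩
  · rcases h with h | ⟨w, h, e⟩
    · simp at h
    · obtain rfl := Sum.inl_injective e
      exact ⟨h.1, h.2.1⟩

lemma hub_inr {u : V} {η : V ⊕ F} {φ : F} (h : Sum.inr φ ∈ Z.hub u η) : η = Sum.inr φ := by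
  rcases η with v | ψ
  · simp [hub] at h
  · simp only [hub, Set.mem_union, Set.mem_singleton_iff, Sum.inr.injEq, Set.mem_ofPred_eq,
      reduceCtorEq, and_false, exists_false, or_false] at h
    rw [h]

lemma few_sup (o : Nd) (u : V) (hu : Z.O.pos (Z.O.τ u) ≤ Z.O.pos o) (T : Finset Nd)
    (hT : ∀ s ∈ T, S.sup s ∧ Z.O.pos o < Z.O.pos s ∧ u ∈ Z.X s ∧ (∃ z ∈ Z.X s, Z.O.τ z = o) ∧
      ∃ x ∈ Z.X s, ∃ y ∈ Z.X s, x ≠ u ∧ y ≠ u ∧ Z.hb x ≠ Z.hb y ∧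
        Z.O.pos (Z.O.τ x) ≤ Z.O.pos o ∧ Z.O.pos (Z.O.τ y) ≤ Z.O.pos o) :
    T.card ≤ 369360 * (3 + Z.κ) * (369360 * (3 + Z.κ)) * 2 := by
  refine le_trans (card_le_card fun s hs => ?_) (card_biUnion_le_mul (Z.Lb o ×ˢ Z.Lb o)
    (fun p => T.filter fun s => ∃ x ∈ Z.X s, ∃ y ∈ Z.X s, x ≠ u ∧ y ≠ u ∧ Z.hb x ≠ Z.hb y ∧
      Z.O.pos (Z.O.τ x) ≤ Z.O.pos o ∧ Z.O.pos (Z.O.τ y) ≤ Z.O.pos o ∧ Z.hb x = p.1 ∧ Z.hb y = p.2)
    _ 2 (by rw [card_product]; exact Nat.mul_le_mul (Z.card_Lb o) (Z.card_Lb o)) fun p _ => ?_)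
  · obtain ⟨a1, a2, -, a4, x, a5, y, a6, a7, a8, a9, b1, b2⟩ := hT s hs
    exact mem_biUnion.2 ⟨(Z.hb x, Z.hb y), mem_product.2
      ⟨mem_image_of_mem _ (mf.2 ⟨mem_univ _, b1, s, a1, a2, a5, a4⟩),
        mem_image_of_mem _ (mf.2 ⟨mem_univ _, b2, s, a1, a2, a6, a4⟩)⟩,
      mf.2 ⟨hs, x, a5, y, a6, a7, a8, a9, b1, b2, rfl, rfl⟩⟩
  · rcases eq_empty_or_nonempty (T.filter fun s => ∃ x ∈ Z.X s, ∃ y ∈ Z.X s, x ≠ u ∧ y ≠ u ∧
      Z.hb x ≠ Z.hb y ∧ Z.O.pos (Z.O.τ x) ≤ Z.O.pos o ∧ Z.O.pos (Z.O.τ y) ≤ Z.O.pos o ∧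
      Z.hb x = p.1 ∧ Z.hb y = p.2) with h | ⟨s0, h⟩
    · rw [h]; simp
    obtain ⟨-, x0, -, y0, -, a1, a2, a3, a4, a5, a6, a7⟩ := mf.1 h
    have k1 : ∀ x y, x ≠ u → Z.O.pos (Z.O.τ x) ≤ Z.O.pos o → Sum.inl y ∈ Z.hub u (Z.hb x) →
        Z.O.pos (Z.O.τ y) ≤ Z.O.pos o := fun x y b1 b2 b3 =>
      (Z.pos_le_of_T (Z.hb_T (Z.hub_inl b1 b3).1).le).trans b2
    have k2 : ∀ x φ, Z.O.pos (Z.O.τ x) ≤ Z.O.pos o → Sum.inr φ ∈ Z.hub u (Z.hb x) →
        Z.O.pos (S.nd φ) ≤ Z.O.pos o := fun x φ b2 b3 => by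
      rw [← Z.hb_inr (Z.hub_inr b3), Z.can_nd]; exact b2
    have k3 : ∀ w, w ∈ Z.hub u (Z.hb x0) → w ∈ Z.hub u (Z.hb y0) → False := by
      rintro (w | w) b1 b2
      · exact a3 ((Z.hub_inl a1 b1).1.symm.trans (Z.hub_inl a2 b2).1)
      · exact a3 ((Z.hub_inr b1).trans (Z.hub_inr b2).symm)
    have k4 : ∀ x, x ≠ u → Sum.inl u ∉ Z.hub u (Z.hb x) := fun x b1 b2 => (Z.hub_inl b1 b2).2 rfl
    refine Z.O.tl Z.hX o ![{Sum.inl u}, Z.hub u (Z.hb x0), Z.hub u (Z.hb y0)] ?_ ?_ ?_ ?_ _ ?_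
    · intro i j w b1 b2
      fin_cases i <;> fin_cases j
      · rfl
      · exact (k4 _ a1 ((show w = _ from b1) ▸ b2)).elim
      · exact (k4 _ a2 ((show w = _ from b1) ▸ b2)).elim
      · exact (k4 _ a1 ((show w = _ from b2) ▸ b1)).elim
      · rfl
      · exact (k3 w b1 b2).elim
      · exact (k4 _ a2 ((show w = _ from b2) ▸ b1)).elim
      · exact (k3 w b2 b1).elim
      · rfl
    · intro i
      fin_cases i
      · exact conn_singleton _ _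
      · exact Z.hub_conn _ _
      · exact Z.hub_conn _ _
    · intro i x hx
      fin_cases i
      · rw [Sum.inl_injective (show Sum.inl x = Sum.inl u from hx)]; exact hu
      · exact k1 _ _ a1 a4 hx
      · exact k1 _ _ a2 a5 hx
    · intro i φ hx
      fin_cases i
      · exact absurd (show Sum.inr φ = Sum.inl u from hx) (by simp)
      · exact k2 _ _ a4 hx
      · exact k2 _ _ a5 hx
    · intro s hs
      obtain ⟨b1, x, b2, y, b3, b4, b5, -, -, -, b6, b7⟩ := mf.1 hs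
      refine ⟨(hT s b1).1, (hT s b1).2.1, fun i => ?_⟩
      fin_cases i
      · exact ⟨u, (hT s b1).2.2.1, rfl⟩
      · exact ⟨x, b2, by rw [a6, ← b6]; exact Z.mem_hub b4 b2⟩
      · exact ⟨y, b3, by rw [a7, ← b7]; exact Z.mem_hub b5 b3⟩

/-- bound on the number of conflicts -/
def B : ℕ := 369360 * (3 + Z.κ) * (369360 * (3 + Z.κ)) * 2 * (71 + 143 * (Z.C + 54))

lemma card_con1 (z : V) : (univ.filter fun x => Z.Con x z).card ≤ Z.B := by
  refine le_trans (card_le_card fun x hx => ?_) (card_biUnion_le_mul (univ.filter fun s =>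
    S.sup s ∧ z ∈ Z.Ext s ∧ ∃ x ∈ Z.Ext s, Z.T x < Z.T z ∧
      ∃ y ∈ Z.Ext s, y ≠ z ∧ Z.T y ≤ Z.T z ∧ Z.T y ≠ Z.T x) Z.Ext _ _
    (Z.few_sup (Z.O.τ z) z le_rfl _ fun s hs => ?_) fun s hs => Z.card_ext (mf.1 hs).2.1)
  · obtain ⟨s, a1, a2, a3, a4, -, a5⟩ := (mf.1 hx).2
    exact mem_biUnion.2 ⟨s, mf.2 ⟨mem_univ _, a1, a3, x, a2, a4, a5⟩, a2⟩
  · obtain ⟨a1, a2, x, a3, a4, y, a5, a6, a7, a8⟩ := (mf.1 hs).2
    exact ⟨a1, Z.ext_lt a2, (mf.1 a2).1, ⟨z, (mf.1 a2).1, rfl⟩, x, (mf.1 a3).1, y, (mf.1 a5).1,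
      by rintro rfl; omega, a6, fun h => a8 (Z.hb_T h).symm, Z.pos_le_of_T a4.le, Z.pos_le_of_T a7⟩

lemma card_con2 (x : V) (o : Nd) :
    (univ.filter fun z => Z.O.τ z = o ∧ Z.Con x z).card ≤ Z.B := by
  rcases eq_empty_or_nonempty (univ.filter fun z => Z.O.τ z = o ∧ Z.Con x z) with h | ⟨z0, h⟩
  · rw [h]; simp
  obtain ⟨rfl, s0, -, -, -, h0, -⟩ := (mf.1 h).2
  refine le_trans (card_le_card fun z hz => ?_) (card_biUnion_le_mul (univ.filter fun s =>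
    S.sup s ∧ x ∈ Z.Ext s ∧ ∃ z ∈ Z.Ext s, Z.O.τ z = Z.O.τ z0 ∧ Z.T x < Z.T z ∧
      ∃ y ∈ Z.Ext s, y ≠ x ∧ Z.T y < Z.T z) Z.Ext _ _
    (Z.few_sup (Z.O.τ z0) x (Z.pos_le_of_T h0.le) _ fun s hs => ?_)
    fun s hs => Z.card_ext (mf.1 hs).2.1)
  · obtain ⟨a0, s, a1, a2, a3, a4, a5, -⟩ := (mf.1 hz).2
    exact mem_biUnion.2 ⟨s, mf.2 ⟨mem_univ _, a1, a2, z, a3, a0, a4, a5⟩, a3⟩
  · obtain ⟨a1, a2, z, a3, a4, a5, y, a6, a7, a8⟩ := (mf.1 hs).2
    exact ⟨a1, a4 ▸ Z.ext_lt a3, (mf.1 a2).1, ⟨z, (mf.1 a3).1, a4⟩, z, (mf.1 a3).1, y, (mf.1 a6).1,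
      by rintro rfl; omega, a7, fun h => by have := Z.hb_T h; omega, by rw [a4],
      a4 ▸ Z.pos_le_of_T a8.le⟩

/-- plain vertices of a heavy triple, missing exactly the face `i` -/
def Plain (s : Nd) (i : Fin 3) (z : V) : Prop :=
  Z.O.τ z = s ∧ z ∉ S.N (S.fc s i) ∧ (∀ j, j ≠ i → z ∈ S.N (S.fc s j)) ∧
    ∀ s', S.sup s' → z ∈ Z.Ext s' → ∀ x ∈ Z.X s', Z.O.pos (Z.O.τ x) ≤ Z.O.pos s →
      Z.O.τ x = s ∧ ∀ j, j ≠ i → x ∈ S.N (S.fc s j)

noncomputable def NP (s : Nd) : Finset V :=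
  (Z.X s).filter fun z => Z.O.τ z = s ∧ ∀ i, ¬ Z.Plain s i z

lemma card_NP {s : Nd} (hs : S.sup s) :
    (Z.NP s).card ≤ Z.C + 2 + 3 * (2216154 + 2 + Z.C * 2) := by
  have inj := S.fc_sup s hs
  have oth : ∀ i : Fin 3, i + 1 ≠ i ∧ i + 2 ≠ i ∧ i + 1 ≠ i + 2 ∧
      ∀ j, j ≠ i → j = i + 1 ∨ j = i + 2 := by decide
  let Ty : Fin 3 → Finset V := fun i => (Z.NP s).filter fun z =>
    z ∉ S.N (S.fc s i) ∧ ∀ j, j ≠ i → z ∈ S.N (S.fc s j)
  have a1 : Z.NP s ⊆ (((Z.X s).filter fun z => S.Sing z s) ∪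
      univ.filter fun z => ∀ i, z ∈ S.N (S.fc s i)) ∪ univ.biUnion Ty := by
    intro z hz
    by_cases h1 : S.Sing z s
    · exact mem_union_left _ (mem_union_left _ (mf.2 ⟨(mf.1 hz).1, h1⟩))
    by_cases h2 : ∀ i, z ∈ S.N (S.fc s i)
    · exact mem_union_left _ (mem_union_right _ (mf.2 ⟨mem_univ _, h2⟩))
    push Not at h2
    obtain ⟨i, hi⟩ := h2
    refine mem_union_right _ (mem_biUnion.2 ⟨i, mem_univ _, mf.2 ⟨hz, hi, fun j hj => ?_⟩⟩)
    simp only [Sys.Sing] at h1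
    push Not at h1
    obtain ⟨a, b, h3, h4, h5⟩ := h1
    have : ∀ i j a b : Fin 3, a ≠ i → b ≠ i → j ≠ i → a ≠ b → j = a ∨ j = b := by decide
    rcases this i j a b (by rintro rfl; exact hi h3) (by rintro rfl; exact hi h4) hj h5 with
      rfl | rfl <;> assumption
  refine (card_le_card a1).trans ((card_union_le _ _).trans (Nat.add_le_add
    ((card_union_le _ _).trans (Nat.add_le_add (Z.hC s hs) ?_))
    (card_biUnion_le_mul _ _ 3 _ (by simp) fun i _ => ?_)))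
  · exact S.tri (a := S.fc s 0) (b := S.fc s 1) (c := S.fc s 2) (inj.ne (by decide))
      (inj.ne (by decide)) (inj.ne (by decide)) _
      fun z hz => ⟨(mf.1 hz).2 _, (mf.1 hz).2 _, (mf.1 hz).2 _⟩
  obtain ⟨o1, o2, o3, o4⟩ := oth i
  have h3 : ∀ s', S.sup s' → Z.O.pos s < Z.O.pos s' →
      S.nd (S.fc s (i + 1)) ≠ s' ∧ S.nd (S.fc s (i + 2)) ≠ s' := fun s' _ h => by
    rw [S.nd_fc, S.nd_fc]
    exact ⟨by rintro rfl; omega, by rintro rfl; omega⟩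
  have base : ∀ z ∈ Ty i, z ∈ S.N (S.fc s (i + 1)) ∧ z ∈ S.N (S.fc s (i + 2)) ∧ Z.O.τ z = s :=
    fun z hz => ⟨(mf.1 hz).2.2 _ o1, (mf.1 hz).2.2 _ o2, (mf.1 (mf.1 hz).1).2.1⟩
  have a2 : Ty i ⊆ (((Ty i).filter Z.O.Bad) ∪ (Ty i).filter fun z => ∃ s', S.sup s' ∧
      Z.O.pos s < Z.O.pos s' ∧ z ∈ Z.X s' ∧ ∃ x ∈ Z.X s', x ∈ S.N (S.fc s i)) ∪
      ((Z.X s).filter fun z => S.Sing z s).biUnion fun x => (Ty i).filter fun z => ∃ s', S.sup s' ∧
        Z.O.pos s < Z.O.pos s' ∧ z ∈ Z.X s' ∧ x ∈ Z.X s' := by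
    intro z hz
    obtain ⟨b1, b2, b3⟩ := mf.1 hz
    obtain ⟨b4, b5, b6⟩ := mf.1 b1
    have := b6 i
    simp only [Plain, not_and, not_forall] at this
    obtain ⟨s', c1, c2, x, c3, c4, c5⟩ := this b5 b2 b3
    have c6 := Z.ext_lt c2
    by_cases d1 : Z.O.τ x = s
    · rw [b5] at c6
      by_cases d2 : x ∈ S.N (S.fc s i)
      · exact mem_union_left _ (mem_union_right _
          (mf.2 ⟨hz, s', c1, c6, (mf.1 c2).1, x, c3, d2⟩))
      · refine mem_union_right _ (mem_biUnion.2 ⟨x, mf.2 ⟨d1 ▸ Z.O.τ_mem x s' c3, ?_⟩,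
          mf.2 ⟨hz, s', c1, c6, (mf.1 c2).1, c3⟩⟩)
        obtain ⟨j, e1, e2⟩ := c5 d1
        intro a b ha hb
        have : ∀ i j a b : Fin 3, a ≠ i → b ≠ i → a ≠ j → b ≠ j → j ≠ i → a = b := by
          intro i j a b; omega
        exact this i j a b (by rintro rfl; exact d2 ha) (by rintro rfl; exact d2 hb)
          (by rintro rfl; exact e2 ha) (by rintro rfl; exact e2 hb) e1
    · refine mem_union_left _ (mem_union_left _ (mf.2 ⟨hz, s', c1, c6, (mf.1 c2).1, x, c3, ?_⟩))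
      rw [b5]
      exact lt_of_le_of_ne c4 fun e => d1 (Z.O.inj e)
  refine (card_le_card a2).trans ((card_union_le _ _).trans (Nat.add_le_add
    ((card_union_le _ _).trans (Nat.add_le_add ?_ ?_))
    (card_biUnion_le_mul _ _ _ 2 (Z.hC s hs) fun x hx => ?_)))
  · exact Z.O.bl_early Z.hX s (inj.ne o3) (by rw [S.nd_fc]) (by rw [S.nd_fc]) h3 _ fun z hz =>
      ⟨(base z (mf.1 hz).1).1, (base z (mf.1 hz).1).2.1, (base z (mf.1 hz).1).2.2, (mf.1 hz).2⟩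
  · refine Z.O.bl Z.hX s (inj.ne o3) _
      (conn_star _ (S.fc s i) (fun x => x ∈ S.N (S.fc s i)) fun x hx => hx)
      (by simpa using inj.ne o1) (by simpa using inj.ne o2) h3 _ fun z hz => ?_
    obtain ⟨c1, s', c2, c3, c4, x, c5, c6⟩ := mf.1 hz
    exact ⟨(base z c1).1, (base z c1).2.1, (base z c1).2.2, by simpa using (mf.1 c1).2.1,
      s', c2, c3, c4, x, c5, Or.inr ⟨x, c6, rfl⟩⟩
  · refine Z.O.bl Z.hX s (inj.ne o3) {Sum.inl x} (conn_singleton _ _) (by simp) (by simp) h3 _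
      fun z hz => ?_
    obtain ⟨c1, s', c2, c3, c4, c5⟩ := mf.1 hz
    refine ⟨(base z c1).1, (base z c1).2.1, (base z c1).2.2, fun h => ?_, s', c2, c3, c4, x, c5, rfl⟩
    obtain rfl := Sum.inl_injective (show Sum.inl z = Sum.inl x from h)
    exact o3 ((mf.1 hx).2 _ _ (base z c1).1 (base z c1).2.1)

end Ctx

end Pool.Agent.P.MP_b2489f_co
end

-- part Pool.Agent.P.MP_b2489f_co.Steps
section

set_option autoImplicit false
set_option linter.unusedSectionVars false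

/-! The sequential colouring. -/

namespace Pool.Agent.P.MP_b2489f_co

open Finset Classical

variable {V F Nd : Type} [Fintype V] [Fintype F] [Fintype Nd]

namespace Ctx

variable {S : Sys V F Nd} (Z : Ctx S)

def cl (z : V) : Fin 3 → Prop := fun i => Z.Plain (Z.O.τ z) i z

/-- the invariant at time `t` -/
structure J (t : ℕ) (c : V → Fin Z.k) : Prop where
  i0 : ∀ z, Z.O.GC z → c z = Z.c0 z
  i1 : ∀ x z, Z.Con x z → Z.T z < t → c x ≠ c z
  i2 : ∀ x z, Z.Grp x z → Z.T z < t → c x ≠ c z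
  i3 : ∀ x y, x ∈ Z.X (Z.O.τ x) → y ∈ Z.X (Z.O.τ y) → Z.T x = Z.T y → Z.T x < t →
    Z.cl x = Z.cl y → c x = c y → x = y
  i4 : ∀ f, ¬ S.sup f → ∀ x ∈ Z.D f, ∀ y ∈ Z.D f, (Z.O.GC x ∨ Z.T x < t) → (Z.O.GC y ∨ Z.T y < t) →
    c x = c y → x = y
  i5 : ∀ s, S.sup s → Z.O.pos s * (Fintype.card V + 1) < t → ∀ i α, ∃ v ∈ S.N (S.fc s i), c v = α

lemma J_zero : Z.J 0 Z.c0 :=
  ⟨fun _ _ => rfl, by simp, by simp, by simp, fun f hf x hx y hy a b =>
    Z.hc0 f hf x (Z.D_keep f hf x hx).1 y (Z.D_keep f hf y hy).1 (by simpa using a)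
      (by simpa using b), by simp⟩

lemma T_le_of_mem {s : Nd} (hs : S.sup s) {v : V} (hv : v ∈ Z.X s) :
    Z.T v ≤ Z.O.pos s * (Fintype.card V + 1) := by
  by_cases h : Z.O.τ v = s
  · rw [Z.T_non (fun a => a.1 (h ▸ hs)), h]
  · exact (Z.T_lt_mul (Z.O.τ_lt hv h)).le

variable {Z}

lemma J.step {t : ℕ} {c : V → Fin Z.k} (h : Z.J t c) (c' : V → Fin Z.k)
    (h0 : ∀ z, (Z.T z ≠ t ∨ Z.O.GC z) → c' z = c z)
    (n1 : ∀ x z, Z.Con x z → Z.T z = t → c x ≠ c' z)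
    (n2 : ∀ x z, Z.Grp x z → Z.T z = t → c' x ≠ c' z)
    (n3 : ∀ x y, x ∈ Z.X (Z.O.τ x) → y ∈ Z.X (Z.O.τ y) → Z.T x = t → Z.T y = t →
      Z.cl x = Z.cl y → c' x = c' y → x = y)
    (n4 : ∀ f, ¬ S.sup f → ∀ x ∈ Z.D f, ∀ y ∈ Z.D f, Z.T x = t → ¬ Z.O.GC x →
      (Z.O.GC y ∨ Z.T y ≤ t) → c' x = c' y → x = y)
    (n5 : ∀ s, S.sup s → Z.O.pos s * (Fintype.card V + 1) = t →
      ∀ i α, ∃ v ∈ S.N (S.fc s i), c' v = α) : Z.J (t + 1) c' := by
  refine ⟨fun z hz => by rw [h0 z (Or.inr hz), h.i0 z hz], fun x z a b => ?_, fun x z a b => ?_,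
    fun x y a b d e f g => ?_, fun f hf x hx y hy a b d => ?_, fun s hs a i α => ?_⟩
  · have : Z.T x < Z.T z := by obtain ⟨s, -, -, -, h, -⟩ := a; exact h
    rw [h0 x (Or.inl (by omega))]
    by_cases e : Z.T z = t
    · exact n1 x z a e
    · rw [h0 z (Or.inl e)]; exact h.i1 x z a (by omega)
  · by_cases e : Z.T z = t
    · exact n2 x z a e
    · rw [h0 z (Or.inl e), h0 x (Or.inl (by rw [a.2.1]; exact e))]
      exact h.i2 x z a (by omega)
  · by_cases e' : Z.T x = t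
    · exact n3 x y a b e' (d ▸ e') f g
    · rw [h0 x (Or.inl e'), h0 y (Or.inl (d ▸ e'))] at g
      exact h.i3 x y a b d (by omega) f g
  · by_cases e1 : Z.T x = t ∧ ¬ Z.O.GC x
    · exact n4 f hf x hx y hy e1.1 e1.2 (b.imp id Nat.le_of_lt_succ) d
    by_cases e2 : Z.T y = t ∧ ¬ Z.O.GC y
    · exact (n4 f hf y hy x hx e2.1 e2.2 (a.imp id Nat.le_of_lt_succ) d.symm).symm
    rw [h0 x (by tauto), h0 y (by tauto)] at d
    refine h.i4 f hf x hx y hy ?_ ?_ d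
    · by_contra e; push Not at e
      exact e1 ⟨by have := a.resolve_left e.1; omega, e.1⟩
    · by_contra e; push Not at e
      exact e2 ⟨by have := b.resolve_left e.1; omega, e.1⟩
  · by_cases e : Z.O.pos s * (Fintype.card V + 1) = t
    · exact n5 s hs e i α
    · obtain ⟨v, h1, h2⟩ := h.i5 s hs (by omega) i α
      have := Z.T_le_of_mem hs (Z.hX.sup s hs i h1)
      exact ⟨v, h1, by rw [h0 v (Or.inl (by omega)), h2]⟩

lemma gc_non {z : V} (h : Z.O.GC z) : ¬ Z.Extra z := fun e => by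
  obtain ⟨n, -, a⟩ := h.2.1
  exact e.2 (Z.D_must _ h.1 z ⟨⟨Z.O.τ_mem z n a.1, Or.inl rfl⟩, Or.inl h⟩)

lemma con_bad {x z : V} (hz : ¬ Z.Extra z) (h : Z.Con x z) : Z.O.Bad z := by
  obtain ⟨s, a1, a2, a3, a4, -⟩ := h
  exact ⟨s, a1, Z.ext_lt a3, (mf.1 a3).1, x, (mf.1 a2).1, Z.pos_lt_of_T hz a4⟩

lemma step_extra (hB : Z.B < Z.k) {c : V → Fin Z.k} {z0 : V} (hz : Z.Extra z0)
    (h : Z.J (Z.T z0) c) : ∃ c', Z.J (Z.T z0 + 1) c' := by
  obtain ⟨α, -, hα⟩ := exists_mem_notMem_of_card_lt_card (s := (univ.filter fun x =>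
    Z.Con x z0).image c) (t := univ) (by
      rw [card_univ, Fintype.card_fin]
      exact (card_image_le.trans (Z.card_con1 z0)).trans_lt hB)
  refine ⟨Function.update c z0 α, h.step _ (fun z a => Function.update_of_ne ?_ _ _)
    (fun x z a b => ?_) (fun x z a b => ?_) (fun x y _ _ a b _ _ => ?_)
    (fun f hf x hx y hy a b _ _ => ?_) fun s hs a => ?_⟩
  · rintro rfl
    exact a.elim (fun a => a rfl) fun a => gc_non a hz
  · obtain rfl := Z.T_extra hz b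
    rw [Function.update_self]
    exact fun e => hα (mem_image.2 ⟨x, mf.2 ⟨mem_univ _, a⟩, e⟩)
  · exact (a.1 ((Z.T_extra hz (a.2.1.trans b)).trans (Z.T_extra hz b).symm)).elim
  · rw [Z.T_extra hz a, Z.T_extra hz b]
  · obtain rfl := Z.T_extra hz a
    rcases (Z.D_keep f hf x hx).2 with e | ⟨-, e | e⟩
    · exact (hz.2 (e ▸ hx)).elim
    · exact (b e).elim
    · exact (hz.1 e.1).elim
  · exact ((Z.T_eq_mul a.symm).2 hz).elim

lemma card_col {t : ℕ} {c : V → Fin Z.k} (h : Z.J t c) (o : Nd) (α : Fin Z.k) (Y : Finset V)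
    (hY : ∀ x ∈ Y, c x = α ∧ Z.T x < t ∧ ∃ z, Z.O.τ z = o ∧ Z.Con x z) :
    Y.card ≤ 369360 * (3 + Z.κ) * 8 := by
  refine le_trans (card_le_card_of_injOn (t := Z.Lb o ×ˢ univ) (fun x => (Z.hb x, Z.cl x))
    (fun x hx => ?_) fun x hx y hy e => ?_) ?_
  · obtain ⟨-, -, z, rfl, s, a1, a2, a3, a4, -⟩ := hY x hx
    exact mem_coe.2 (mem_product.2 ⟨mem_image_of_mem _ (mf.2 ⟨mem_univ _, Z.pos_le_of_T a4.le, s,
      a1, Z.ext_lt a3, (mf.1 a2).1, z, (mf.1 a3).1, rfl⟩), mem_univ _⟩)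
  · obtain ⟨a1, a2, -, -, s, -, a3, -⟩ := hY x hx
    obtain ⟨b1, -, -, -, s', -, b3, -⟩ := hY y hy
    exact h.i3 x y (Z.O.τ_mem x s (mf.1 a3).1) (Z.O.τ_mem y s' (mf.1 b3).1)
      (Z.hb_T (Prod.mk.inj e).1) a2 (Prod.mk.inj e).2 (a1.trans b1.symm)
  · rw [card_product]
    exact Nat.mul_le_mul (Z.card_Lb o) (by simp)

lemma step_normal (hk : 0 < Z.k) (hB : Z.M + Z.B + 369360 * (3 + Z.κ) * 8 * Z.B ≤ Z.k)
    {c : V → Fin Z.k} {f : Nd} (hf : ¬ S.sup f)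
    (h : Z.J (Z.O.pos f * (Fintype.card V + 1)) c) :
    ∃ c', Z.J (Z.O.pos f * (Fintype.card V + 1) + 1) c' := by
  have : Nonempty (Fin Z.k) := ⟨⟨0, hk⟩⟩
  let P := (Z.D f).filter fun z => Z.O.τ z = f ∧ ¬ Z.O.GC z
  let R := (Z.D f).filter fun z => ¬ (Z.O.τ z = f ∧ ¬ Z.O.GC z)
  have hR : ∀ z ∈ R, Z.O.GC z ∨ Z.T z < Z.O.pos f * (Fintype.card V + 1) := fun z hz => by
    by_cases a : Z.O.GC z
    · exact Or.inl a
    · exact Or.inr (Z.T_lt_mul (Z.O.τ_lt (Z.D_keep f hf z (mf.1 hz).1).1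
        fun e => (mf.1 hz).2 ⟨e, a⟩))
  have hP : ∀ z ∈ P, Z.T z = Z.O.pos f * (Fintype.card V + 1) := fun z hz => by
    rw [Z.T_non fun e => e.2 ((mf.1 hz).2.1.symm ▸ (mf.1 hz).1), (mf.1 hz).2.1]
  have hT : ∀ z, Z.T z = Z.O.pos f * (Fintype.card V + 1) → Z.O.τ z = f ∧ z ∈ Z.D f := fun z hz => by
    obtain ⟨a, b⟩ := Z.T_eq_mul hz
    refine ⟨a, ?_⟩
    by_contra e
    exact b ⟨a ▸ hf, a ▸ e⟩
  have iR : Set.InjOn c R := fun x hx y hy e =>
    h.i4 f hf x (mf.1 hx).1 y (mf.1 hy).1 (hR x hx) (hR y hy) e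
  have c1 : P.card + R.card = Z.k := by
    rw [card_filter_add_card_filter_not, Z.D_card f hf]
  have c2 : (R.image c)ᶜ.card + R.card = Z.k := by
    rw [← card_image_of_injOn iR, card_compl_add_card, Fintype.card_fin]
  have c3 : R.card ≤ Z.M := le_trans (card_le_card fun z hz => mf.2 ⟨mem_univ _,
    Z.D_keep f hf z (mf.1 hz).1, by have := (mf.1 hz).2; tauto⟩) (Z.hM f hf)
  obtain ⟨e, e1, e2⟩ := hall_bij P (R.image c)ᶜ (by omega) (fun z α => ∃ x, Z.Con x z ∧ c x = α)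
    Z.B (369360 * (3 + Z.κ) * 8 * Z.B)
    (fun z _ => le_trans (card_le_card fun α hα => by
      obtain ⟨x, a, b⟩ := (mf.1 hα).2
      exact mem_image.2 ⟨x, mf.2 ⟨mem_univ _, a⟩, b⟩) (card_image_le.trans (Z.card_con1 z)))
    (fun α _ => le_trans (card_le_card fun z hz => by
      obtain ⟨a, x, b, d⟩ := mf.1 hz
      have : Z.T x < Z.T z := by obtain ⟨s, -, -, -, h, -⟩ := b; exact h
      exact mem_biUnion.2 ⟨x, mf.2 ⟨mem_univ _, d, hP z a ▸ this, z, (mf.1 a).2.1, b⟩,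
        mf.2 ⟨mem_univ _, (mf.1 a).2.1, b⟩⟩)
      (card_biUnion_le_mul (univ.filter fun x => c x = α ∧
        Z.T x < Z.O.pos f * (Fintype.card V + 1) ∧ ∃ z, Z.O.τ z = f ∧ Z.Con x z)
        (fun x => univ.filter fun z => Z.O.τ z = f ∧ Z.Con x z) _ _
        (card_col h f α _ fun x hx => (mf.1 hx).2) fun x _ => Z.card_con2 x f)) (by omega)
  let c' : V → Fin Z.k := fun z => if z ∈ P then e z else c z
  have d1 : ∀ z ∈ P, c' z = e z := fun z hz => if_pos hz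
  have d2 : ∀ z, z ∉ P → c' z = c z := fun z hz => if_neg hz
  have inj : ∀ x ∈ Z.D f, ∀ y ∈ Z.D f, c' x = c' y → x = y := by
    have pr : ∀ x ∈ Z.D f, x ∉ P → x ∈ R := fun x a b => mf.2 ⟨a, fun d => b (mf.2 ⟨a, d⟩)⟩
    intro x hx y hy e0
    by_cases a : x ∈ P <;> by_cases b : y ∈ P
    · rw [d1 x a, d1 y b] at e0; exact e1 a b e0
    · rw [d1 x a, d2 y b] at e0
      exact (mem_compl.1 (e2 x a).1 (e0 ▸ mem_image_of_mem c (pr y hy b))).elim
    · rw [d2 x a, d1 y b] at e0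
      exact (mem_compl.1 (e2 y b).1 (e0 ▸ mem_image_of_mem c (pr x hx a))).elim
    · rw [d2 x a, d2 y b] at e0; exact iR (pr x hx a) (pr y hy b) e0
  refine ⟨c', h.step c' (fun z a => d2 z fun b => ?_) (fun x z a b => ?_) (fun x z a b => ?_)
    (fun x y _ _ a b _ => ?_) (fun f' hf' x hx y hy a b d => ?_) fun s hs a => ?_⟩
  · exact a.elim (fun a => a (hP z b)) (mf.1 b).2.2
  · have : z ∈ P := mf.2 ⟨(hT z b).2, (hT z b).1, fun g => g.2.2 (con_bad (gc_non g) a)⟩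
    rw [d1 z this]
    exact fun g => (e2 z this).2 ⟨x, a, g⟩
  · exact fun g => a.1 (inj x (hT x (a.2.1.trans b)).2 z (hT z b).2 g)
  · exact inj x (hT x a).2 y (hT y b).2
  · rcases (Z.D_keep f' hf' x hx).2 with g | ⟨-, g | g⟩
    · obtain rfl : f = f' := (hT x a).1.symm.trans g
      exact inj x hx y hy
    · exact (b g).elim
    · exact (hf ((hT x a).1 ▸ g.1)).elim
  · exact (hf (Z.O.inj (Nat.eq_of_mul_eq_mul_right (Nat.succ_pos _) a) ▸ hs)).elim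

lemma step_super [Nonempty V] (hk : 0 < Z.k) {g Pm : ℕ} (hN : ∀ φ, (S.N φ).card = g)
    (hg : 4 * Z.k + 1 ≤ 3 * g)
    (hPm : ∀ s, S.sup s → ∀ i j, i ≠ j → (S.N (S.fc s i) ∩ S.N (S.fc s j)).card ≤ Pm)
    (n2 : Z.M + (71 + 143 * (Z.C + 54)) + Z.B + (Z.C + 2 + 3 * (2216154 + 2 + Z.C * 2)) ≤ Z.k)
    (n3 : Pm + (71 + 143 * (Z.C + 54)) + (Z.C + 2 + 3 * (2216154 + 2 + Z.C * 2)) ≤ Z.k)
    {c : V → Fin Z.k} {s : Nd} (hs : S.sup s)
    (h : Z.J (Z.O.pos s * (Fintype.card V + 1)) c) :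
    ∃ c', Z.J (Z.O.pos s * (Fintype.card V + 1) + 1) c' := by
  have : Nonempty (Fin Z.k) := ⟨⟨0, hk⟩⟩
  have oth : ∀ i : Fin 3, i + 1 ≠ i ∧ i + 2 ≠ i ∧ i + 1 ≠ i + 2 := by decide
  have cE := Z.card_ext hs
  have cN := Z.card_NP hs
  have hT : ∀ z, Z.T z = Z.O.pos s * (Fintype.card V + 1) ↔ Z.O.τ z = s := fun z =>
    ⟨fun a => (Z.T_eq_mul a).1, fun a => by rw [Z.T_non fun e => e.1 (a ▸ hs), a]⟩
  have hE : ∀ z ∈ Z.Ext s, Z.T z < Z.O.pos s * (Fintype.card V + 1) := fun z hz =>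
    Z.T_lt_mul (Z.ext_lt hz)
  let G : V → Finset V := fun z => univ.filter fun y => ∃ f, ¬ S.sup f ∧ Z.O.sec z f ∧ Z.O.Must f y
  have hG : ∀ z, (G z).card ≤ Z.M := fun z => by
    rcases (G z).eq_empty_or_nonempty with a | ⟨y, a⟩
    · rw [a]; simp
    · obtain ⟨f, a1, a2, -⟩ := (mf.1 a).2
      refine le_trans (card_le_card fun y hy => ?_) (Z.hM f a1)
      obtain ⟨f', -, b2, b3⟩ := (mf.1 hy).2
      exact mf.2 ⟨mem_univ _, Z.O.sec_uniq b2 a2 ▸ b3⟩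
  obtain ⟨e, e1, e2⟩ := hall_greedy (Z.NP s)
    (fun z => (G z ∪ Z.Ext s ∪ univ.filter fun x => Z.Con x z).image c) fun z _ => by
      have a1 := card_image_le (f := c) (s := G z ∪ Z.Ext s ∪ univ.filter fun x => Z.Con x z)
      have a2 := card_union_le (G z ∪ Z.Ext s) (univ.filter fun x => Z.Con x z)
      have a3 := card_union_le (G z) (Z.Ext s)
      have a4 := hG z
      have a5 := Z.card_con1 z
      rw [Fintype.card_fin]
      omega
  let c1 : V → Fin Z.k := fun z => if z ∈ Z.NP s then e z else c z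
  have d1 : ∀ z ∈ Z.NP s, c1 z = e z := fun z hz => if_pos hz
  have d2 : ∀ z, z ∉ Z.NP s → c1 z = c z := fun z hz => if_neg hz
  have EN : ∀ z ∈ Z.Ext s, z ∉ Z.NP s := fun z a b => (mf.1 a).2 (mf.1 b).2.1
  obtain ⟨u, hu⟩ := inj_off_one (Z.Ext s) Z.T c
    (fun x a z b d1 d2 d3 => h.i1 x z ⟨s, hs, a, b, d1, d2, d3⟩ (hE z b))
    (fun x a z b d1 d2 => h.i2 x z ⟨d1, d2, s, hs, a, b⟩ (hE z b))
  let P : Fin 3 → Finset V := fun i => univ.filter (Z.Plain s i)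
  have hP : ∀ i z, z ∈ P i ↔ Z.Plain s i z := fun i z => by simp [P]
  obtain ⟨c', g1, g2, g3, g4⟩ := complete hk (fun i => S.N (S.fc s i)) P (Z.Ext s ∪ Z.NP s)
    (fun i => hN _) hg
    (S.tri (a := S.fc s 0) (b := S.fc s 1) (c := S.fc s 2) ((S.fc_sup s hs).ne (by decide))
      ((S.fc_sup s hs).ne (by decide)) ((S.fc_sup s hs).ne (by decide)) _
      fun z hz => ⟨(mf.1 hz).2 _, (mf.1 hz).2 _, (mf.1 hz).2 _⟩)
    (fun i v hv => by
      have a := (hP i v).1 hv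
      refine ⟨a.2.1, fun b => ?_, a.2.2.1⟩
      rcases mem_union.1 b with b | b
      · exact (mf.1 b).2 a.1
      · exact (mf.1 b).2.2 i a)
    (fun v hv => Z.hX.sub s v (by
      rcases mem_union.1 hv with b | b
      · exact (mf.1 b).1
      · exact (mf.1 b).1))
    (fun i v hv => by
      have a := Z.hX.sup s hs i hv
      by_cases b : Z.O.τ v = s
      · by_cases d : ∃ j, Z.Plain s j v
        · exact Or.inr (d.imp fun j hj => (hP j v).2 hj)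
        · exact Or.inl (mem_union_right _ (mf.2 ⟨a, b, not_exists.1 d⟩))
      · exact Or.inl (mem_union_left _ (mf.2 ⟨a, b⟩)))
    (fun i => by
      have a1 := card_union_le (Z.Ext s) (Z.NP s)
      have a2 : (P i).card ≤ Pm := le_trans (card_le_card fun z hz => mem_inter.2
        ⟨((hP i z).1 hz).2.2.1 _ (oth i).1, ((hP i z).1 hz).2.2.1 _ (oth i).2.1⟩)
        (hPm s hs _ _ (oth i).2.2)
      omega) c1 u
    (fun x hx z hz a b d => by
      by_cases p1 : x ∈ Z.NP s <;> by_cases p2 : z ∈ Z.NP s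
      · rw [d1 x p1, d1 z p2] at d; exact e1 p1 p2 d
      · rw [d1 x p1, d2 z p2] at d
        exact (e2 x p1 (d ▸ mem_image_of_mem c (mem_union_left _ (mem_union_right _
          ((mem_union.1 hz).resolve_right p2))))).elim
      · rw [d2 x p1, d1 z p2] at d
        exact (e2 z p2 (d ▸ mem_image_of_mem c (mem_union_left _ (mem_union_right _
          ((mem_union.1 hx).resolve_right p1))))).elim
      · rw [d2 x p1, d2 z p2] at d
        exact hu x ((mem_union.1 hx).resolve_right p1) z ((mem_union.1 hz).resolve_right p2) a b d)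
  have k1 : ∀ z ∈ Z.NP s, c' z = e z := fun z hz => by
    rw [g1 z fun i a => (mf.1 hz).2.2 i ((hP i z).1 a), d1 z hz]
  have k2 : ∀ z, Z.O.τ z ≠ s → c' z = c z := fun z hz => by
    rw [g1 z fun i a => hz ((hP i z).1 a).1, d2 z fun a => hz (mf.1 a).2.1]
  have cas : ∀ z n, z ∈ Z.X n → Z.O.τ z = s → z ∈ Z.NP s ∨ ∃ i, Z.Plain s i z := fun z n a b => by
    by_cases d : ∃ j, Z.Plain s j z
    · exact Or.inr d
    · exact Or.inl (mf.2 ⟨b ▸ Z.O.τ_mem z n a, b, not_exists.1 d⟩)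
  have pl : ∀ i x z, Z.Plain s i z → x ≠ z → x ∈ Z.X s → Z.O.τ x = s →
      (∀ j, j ≠ i → x ∈ S.N (S.fc s j)) → c' z ≠ c' x := by
    intro i x z a b d1' d2' d3
    rcases cas x s d1' d2' with p | ⟨j, p⟩
    · rw [k1 x p, ← d1 x p]
      exact g3 i z ((hP i z).2 a) x (mem_union_right _ p) d3
    · obtain rfl : j = i := by
        by_contra q
        exact p.2.1 (d3 j q)
      exact fun q => b (g2 j ((hP j z).2 a) ((hP j x).2 p) q).symm
  have gs : ∀ f, ¬ S.sup f → ∀ x ∈ Z.D f, Z.O.τ x = s → x ∈ Z.NP s ∧ Z.O.sec x f := by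
    intro f hf x hx a
    obtain ⟨b1, b2 | ⟨b2, b3 | b3⟩⟩ := Z.D_keep f hf x hx
    · exact (hf (b2 ▸ a ▸ hs)).elim
    · exact (b3.1 (a ▸ hs)).elim
    · refine ⟨(cas x f b1 a).resolve_right ?_, b2⟩
      rintro ⟨i, p⟩
      exact (oth i).2.2 (b3.2 _ _ (a ▸ p.2.2.1 _ (oth i).1) (a ▸ p.2.2.1 _ (oth i).2.1))
  refine ⟨c', h.step c' (fun z a => k2 z fun b => ?_) (fun x z a b => ?_) (fun x z a b => ?_)
    (fun x y hx hy a b d q => ?_) (fun f hf x hx y hy a b d q => ?_) fun s' hs' a => ?_⟩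
  · exact a.elim (fun a => a ((hT z).2 b)) fun a => a.1 (b ▸ hs)
  · have b' := (hT z).1 b
    have a' := a
    obtain ⟨s', a1, a2, a3, a4, -⟩ := a'
    rcases cas z s' (mf.1 a3).1 b' with p | ⟨i, p⟩
    · rw [k1 z p]
      exact fun q => e2 z p (q ▸ mem_image_of_mem c (mem_union_right _ (mf.2 ⟨mem_univ _, a⟩)))
    · have := (p.2.2.2 s' a1 a3 x (mf.1 a2).1 (b' ▸ Z.pos_le_of_T a4.le)).1
      rw [← hT] at this
      omega
  · obtain ⟨a0, a4, s', a1, a2, a3⟩ := a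
    have bz := (hT z).1 b
    have bx := (hT x).1 (a4.trans b)
    rcases cas z s' (mf.1 a3).1 bz with p | ⟨i, p⟩
    · rcases cas x s' (mf.1 a2).1 bx with p' | ⟨i, p'⟩
      · rw [k1 x p', k1 z p]
        exact fun q => a0 (e1 p' p q)
      · exact pl i z x p' a0.symm (mf.1 p).1 bz (p'.2.2.2 s' a1 a2 z (mf.1 a3).1 (by rw [bz])).2
    · exact (pl i x z p a0 (bx ▸ Z.O.τ_mem x s' (mf.1 a2).1) bx
        (p.2.2.2 s' a1 a3 x (mf.1 a2).1 (by rw [bx])).2).symm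
  · have bx := (hT x).1 a
    have by' := (hT y).1 b
    have d' : ∀ i, Z.Plain s i x ↔ Z.Plain s i y := fun i => by
      have := congrFun d i
      simp only [cl, bx, by'] at this
      rw [this]
    rcases cas x _ hx bx with p | ⟨i, p⟩
    · have p' : y ∈ Z.NP s := (cas y _ hy by').resolve_right
        fun ⟨i, r⟩ => (mf.1 p).2.2 i ((d' i).2 r)
      rw [k1 x p, k1 y p'] at q
      exact e1 p p' q
    · exact g2 i ((hP i x).2 p) ((hP i y).2 ((d' i).1 p)) q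
  · obtain ⟨p, r⟩ := gs f hf x hx ((hT x).1 a)
    by_cases b' : Z.O.τ y = s
    · rw [k1 x p, k1 y (gs f hf y hy b').1] at q
      exact e1 p (gs f hf y hy b').1 q
    · rw [k1 x p, k2 y b'] at q
      refine (e2 x p (q ▸ mem_image_of_mem c (mem_union_left _ (mem_union_left _
        (mf.2 ⟨mem_univ _, f, hf, r, Z.D_keep f hf y hy, d.imp id fun d e => ?_⟩))))).elim
      have r1 := Z.O.sec_lt r
      have r2 := Z.pos_le_of_T (d.trans a.ge)
      rw [e] at r2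
      omega
  · obtain rfl := Z.O.inj (Nat.eq_of_mul_eq_mul_right (Nat.succ_pos _) a)
    exact g4

theorem colouring [Nonempty V] (Z : Ctx S) (hk : 0 < Z.k) {g Pm : ℕ} (hN : ∀ φ, (S.N φ).card = g)
    (hg : 4 * Z.k + 1 ≤ 3 * g)
    (hPm : ∀ s, S.sup s → ∀ i j, i ≠ j → (S.N (S.fc s i) ∩ S.N (S.fc s j)).card ≤ Pm)
    (n1 : Z.M + Z.B + 369360 * (3 + Z.κ) * 8 * Z.B ≤ Z.k)
    (n2 : Z.M + (71 + 143 * (Z.C + 54)) + Z.B + (Z.C + 2 + 3 * (2216154 + 2 + Z.C * 2)) ≤ Z.k)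
    (n3 : Pm + (71 + 143 * (Z.C + 54)) + (Z.C + 2 + 3 * (2216154 + 2 + Z.C * 2)) ≤ Z.k) :
    ∃ c : V → Fin Z.k, ∀ φ α, ∃ v ∈ S.N φ, c v = α := by
  have all : ∀ t, ∃ c, Z.J t c := by
    intro t
    induction t with
    | zero => exact ⟨_, Z.J_zero⟩
    | succ t ih =>
      obtain ⟨c, h⟩ := ih
      by_cases a : ∃ n, Z.O.pos n * (Fintype.card V + 1) = t
      · obtain ⟨n, rfl⟩ := a
        by_cases hn : S.sup n
        · exact step_super hk hN hg hPm n2 n3 hn h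
        · exact step_normal hk n1 hn h
      by_cases b : ∃ z, Z.T z = t
      · obtain ⟨z, rfl⟩ := b
        refine step_extra (by omega) ?_ h
        by_contra e
        exact a ⟨_, (Z.T_non e).symm⟩
      push Not at a b
      exact ⟨c, h.step c (fun _ _ => rfl) (fun _ z _ e => (b z e).elim) (fun _ z _ e => (b z e).elim)
        (fun x _ _ _ e => (b x e).elim) (fun _ _ x _ _ _ e => (b x e).elim)
        fun s _ e => (a s e).elim⟩
  obtain ⟨c, h⟩ := all ((univ.sup Z.O.pos + 1) * (Fintype.card V + 1))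
  have big : ∀ n, Z.O.pos n < univ.sup Z.O.pos + 1 := fun n =>
    Nat.lt_succ_of_le (le_sup (mem_univ n))
  refine ⟨c, fun φ α => ?_⟩
  obtain ⟨i, hi⟩ := S.fc_nd φ
  generalize S.nd φ = n at hi
  subst hi
  by_cases hn : S.sup n
  · exact h.i5 n hn (Nat.mul_lt_mul_of_pos_right (big n) (Nat.succ_pos _)) i α
  · have : (Z.D n).image c = univ := eq_univ_of_card _ (by
      rw [card_image_of_injOn fun x hx y hy => h.i4 n hn x hx y hy
        (Or.inr (Z.T_lt_mul (big _))) (Or.inr (Z.T_lt_mul (big _))), Z.D_card n hn,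
        Fintype.card_fin])
    obtain ⟨v, h1, h2⟩ := mem_image.1 (this ▸ mem_univ α)
    obtain ⟨j, hj⟩ := Z.hX.sub n v (Z.D_keep n hn v h1).1
    rw [S.fc_nor n hn] at hj ⊢
    exact ⟨v, hj, h2⟩

end Ctx

end Pool.Agent.P.MP_b2489f_co
end

-- part Pool.Agent.P.MP_b2489f_co.Trim
section

set_option autoImplicit false
set_option linter.unusedSectionVars false

/-! Trimming the ordinary faces and colouring the core. -/

namespace Pool.Agent.P.MP_b2489f_co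

open Finset Classical

variable {V F Nd : Type} [Fintype V] [Fintype F] [Fintype Nd]

theorem Sys.trim [Nonempty V] [Nonempty Nd] (S : Sys V F Nd) (g k κ b0 Q Δ : ℕ)
    (hN : ∀ φ, (S.N φ).card = g) (hh : 71 + 143 * 54 < S.h)
    (nocrit : ∀ x y z, ¬ S.sup x → ¬ S.sup y → ¬ S.sup z → x ≠ y → x ≠ z → y ≠ z →
      (S.N (S.fc x 0) ∩ S.N (S.fc y 0)).card ≤ S.h ∨ (S.N (S.fc x 0) ∩ S.N (S.fc z 0)).card ≤ S.h ∨
      (S.N (S.fc y 0) ∩ S.N (S.fc z 0)).card ≤ S.h)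
    (hQ : Q = 4 * b0 + 2)
    (na : Q * (k + κ + 71) + b0 * g + 144 * (Q * Q) ≤ Q * g)
    (nb : (2 * b0 + 2) * g + 144 * (Q * Q) ≤ Q * Δ)
    (nc : Q * Δ + 2 * (Q * Q) + (2 * b0 + 2) * S.h ≤ Q * k)
    (nd : Δ < k) (ne : k < 4 * (k - Δ) + 2) :
    ∃ X, S.Adm X ∧ (∀ n, ¬ S.sup n → (X n).card = k + κ) ∧ ∃ c0 : V → Fin k, ∀ n, ¬ S.sup n →
      ((X n).filter fun v => ∃ m, ¬ S.sup m ∧ m ≠ n ∧ v ∈ X m).card ≤ Δ ∧
      Set.InjOn c0 ((X n).filter fun v => ∃ m, ¬ S.sup m ∧ m ≠ n ∧ v ∈ X m) := by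
  have hQ0 : 0 < Q := by omega
  let X0 : Nd → Finset V := fun n => univ.biUnion fun i => S.N (S.fc n i)
  have hX0 : S.Adm X0 := ⟨fun n v hv => by simpa [X0] using hv,
    fun n _ i => subset_biUnion_of_mem (fun i => S.N (S.fc n i)) (mem_univ i)⟩
  have nor : ∀ n, ¬ S.sup n → ∀ v, v ∈ X0 n ↔ v ∈ S.N (S.fc n 0) := fun n hn v => by
    simp [X0, S.fc_nor n hn]
  obtain ⟨O⟩ := S.ord hX0 hh
  have : ∀ v, ∃ t, ∀ m, O.sec v m → t = m := fun v => by
    by_cases h : ∃ m, O.sec v m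
    · obtain ⟨m, hm⟩ := h
      exact ⟨m, fun m' hm' => O.sec_uniq hm hm'⟩
    · exact ⟨O.τ v, fun m hm => absurd ⟨m, hm⟩ h⟩
  choose b hb using this
  let W : Finset V := univ.filter fun v => ¬ S.sup (O.τ v) ∧ ¬ S.sup (b v) ∧ O.sec v (b v)
  have hW : ∀ v, v ∈ W ↔ ¬ S.sup (O.τ v) ∧ ¬ S.sup (b v) ∧ O.sec v (b v) := fun v => by simp [W]
  have W1 : ∀ v ∈ W, v ∈ S.N (S.fc (O.τ v) 0) := fun v hv =>
    (nor _ ((hW v).1 hv).1 v).1 (O.τ_mem v _ ((hW v).1 hv).2.2.1)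
  have W2 : ∀ v ∈ W, v ∈ S.N (S.fc (b v) 0) := fun v hv =>
    (nor _ ((hW v).1 hv).2.1 v).1 ((hW v).1 hv).2.2.1
  obtain ⟨lab, hlab⟩ := split2 hQ0 W O.τ b
  obtain ⟨J0, -, j0⟩ := exists_subset_card_eq (s := (univ : Finset (Fin Q))) (n := 2 * b0 + 2)
    (by simp; omega)
  have j0' : J0ᶜ.card = 2 * b0 := by rw [card_compl]; simp; omega
  obtain ⟨J1, j1', j1⟩ := exists_subset_card_eq (s := J0ᶜ) (n := b0) (by omega)
  have j2 : (J0ᶜ \ J1).card = b0 := by rw [card_sdiff_of_subset j1']; omega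
  have cnt : ∀ (n : Nd) (J J' : Finset (Fin Q)), J'.card = J.card →
      Q * ((W.filter fun v => O.τ v = n ∧ lab v ∈ J).card +
        (W.filter fun v => b v = n ∧ lab v ∈ J').card) ≤ J.card * g + 144 * (Q * Q) := by
    intro n J J' hJ
    have a1 := (hlab J).2 n
    let T := univ.filter fun m => ∃ v, O.sec v n ∧ O.τ v = m
    have hT : ∀ v ∈ W, b v = n → O.τ v ∈ T := fun v hv h =>
      mf.2 ⟨mem_univ _, v, h ▸ ((hW v).1 hv).2.2, rfl⟩
    have a2 : (W.filter fun v => b v = n ∧ lab v ∈ J').card =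
        ∑ m ∈ T, (W.filter fun v => O.τ v = m ∧ b v = n ∧ lab v ∈ J').card := by
      rw [card_eq_sum_card_fiberwise (f := O.τ) (t := T)
        fun v hv => hT v (mf.1 hv).1 (mf.1 hv).2.1]
      refine sum_congr rfl fun m _ => ?_
      rw [filter_filter]
      exact congrArg card (filter_congr fun v _ => and_comm)
    have a3 : (W.filter fun v => b v = n).card =
        ∑ m ∈ T, (W.filter fun v => O.τ v = m ∧ b v = n).card := by
      rw [card_eq_sum_card_fiberwise (f := O.τ) (t := T) fun v hv => hT v (mf.1 hv).1 (mf.1 hv).2]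
      refine sum_congr rfl fun m _ => ?_
      rw [filter_filter]
      exact congrArg card (filter_congr fun v _ => and_comm)
    have a4 : Q * (W.filter fun v => b v = n ∧ lab v ∈ J').card ≤
        J.card * (W.filter fun v => b v = n).card + 143 * (Q * Q) := by
      rw [a2, a3, mul_sum, mul_sum, ← hJ]
      refine (sum_le_sum fun m _ => (hlab J').1 m n).trans ?_
      rw [sum_add_distrib, sum_const, smul_eq_mul]
      exact Nat.add_le_add_left (Nat.mul_le_mul_right _ (O.p3 n)) _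
    have a5 : (W.filter fun v => O.τ v = n).card + (W.filter fun v => b v = n).card ≤ g := by
      rw [← card_union_of_disjoint, ← hN (S.fc n 0)]
      · refine card_le_card fun v hv => ?_
        rcases mem_union.1 hv with h | h
        · exact (mf.1 h).2 ▸ W1 v (mf.1 h).1
        · exact (mf.1 h).2 ▸ W2 v (mf.1 h).1
      · rw [disjoint_left]
        intro v h1 h2
        exact ((hW v).1 (mf.1 h1).1).2.2.2.1 ((mf.1 h1).2.trans (mf.1 h2).2.symm)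
    have a6 := Nat.mul_le_mul_left J.card a5
    rw [mul_add] at a6 ⊢
    omega
  let D0 : Nd → Finset V := fun n => (S.N (S.fc n 0)).filter fun v =>
    (O.τ v = n ∨ O.sec v n) ∧ ¬ (v ∈ W ∧ O.τ v = n ∧ lab v ∈ J0ᶜ \ J1) ∧
      ¬ (v ∈ W ∧ b v = n ∧ lab v ∈ J1)
  have hD0 : ∀ n, ∃ D, ¬ S.sup n → D ⊆ D0 n ∧ D.card = k + κ := fun n => by
    by_cases hn : S.sup n
    · exact ⟨∅, fun h => absurd hn h⟩
    have a1 : S.N (S.fc n 0) ⊆ D0 n ∪ (((X0 n).filter fun v => O.τ v ≠ n ∧ ¬ O.sec v n) ∪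
        ((W.filter fun v => O.τ v = n ∧ lab v ∈ J0ᶜ \ J1) ∪
          (W.filter fun v => b v = n ∧ lab v ∈ J1))) := by
      intro v hv
      by_contra h
      simp only [mem_union, not_or, mem_filter, D0, hv, true_and, (nor n hn v).2 hv] at h
      tauto
    have a2 := (card_le_card a1).trans ((card_union_le _ _).trans (Nat.add_le_add_left
      ((card_union_le _ _).trans (Nat.add_le_add (O.p2 n) (card_union_le _ _))) _))
    have a3 := cnt n (J0ᶜ \ J1) J1 (by omega)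
    rw [hN] at a2
    rw [j2] at a3
    have a4 := Nat.mul_le_mul_left Q a2
    rw [mul_add, mul_add] at a4
    rw [mul_add Q (k + κ)] at na
    obtain ⟨D, h1, h2⟩ := exists_subset_card_eq (s := D0 n) (n := k + κ)
      (Nat.le_of_mul_le_mul_left (by omega) hQ0)
    exact ⟨D, fun _ => ⟨h1, h2⟩⟩
  choose D hD using hD0
  let X : Nd → Finset V := fun n => if S.sup n then X0 n else D n
  have hX : ∀ n, ¬ S.sup n → X n = D n := fun n hn => if_neg hn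
  let A := W.filter fun v => lab v ∈ J0
  have hdeg : ∀ n, (A.filter fun v => Kempe.Ic O.τ b v n).card ≤ Δ := fun n => by
    have a1 := cnt n J0 J0 rfl
    have a2 : (A.filter fun v => Kempe.Ic O.τ b v n) ⊆ (W.filter fun v => O.τ v = n ∧ lab v ∈ J0) ∪
        (W.filter fun v => b v = n ∧ lab v ∈ J0) := by
      intro v hv
      obtain ⟨h1, h2 | h2⟩ := mf.1 hv
      · exact mem_union_left _ (mf.2 ⟨(mf.1 h1).1, h2, (mf.1 h1).2⟩)
      · exact mem_union_right _ (mf.2 ⟨(mf.1 h1).1, h2, (mf.1 h1).2⟩)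
    have a3 := Nat.mul_le_mul_left Q ((card_le_card a2).trans (card_union_le _ _))
    rw [j0] at a1
    exact Nat.le_of_mul_le_mul_left (by omega) hQ0
  have hloop : ∀ v ∈ A, O.τ v ≠ b v := fun v hv => ((hW v).1 (mf.1 hv).1).2.2.2.1
  have star : ∀ (x y z w : Nd), (∀ v ∈ A, (O.τ v = x ∨ O.τ v = y ∨ O.τ v = z) →
      (b v = x ∨ b v = y ∨ b v = z) → Kempe.Ic O.τ b v w) → (A.filter fun e =>
      (O.τ e = x ∨ O.τ e = y ∨ O.τ e = z) ∧ (b e = x ∨ b e = y ∨ b e = z)).card ≤ k :=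
    fun x y z w h => le_trans (card_le_card fun v hv =>
      mf.2 ⟨(mf.1 hv).1, h v (mf.1 hv).1 (mf.1 hv).2.1 (mf.1 hv).2.2⟩) ((hdeg w).trans nd.le)
  have light : ∀ (x y z : Nd), y ≠ z → (S.N (S.fc y 0) ∩ S.N (S.fc z 0)).card ≤ S.h →
      ∀ T : Finset V, (∀ v ∈ T, v ∈ A ∧ (O.τ v = x ∨ O.τ v = y ∨ O.τ v = z) ∧
        (b v = x ∨ b v = y ∨ b v = z)) → T.card ≤ k := by
    intro x y z hyz h T hT
    have a1 : T ⊆ (A.filter fun v => Kempe.Ic O.τ b v x) ∪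
        ((W.filter fun v => O.τ v = y ∧ b v = z ∧ lab v ∈ J0) ∪
          (W.filter fun v => O.τ v = z ∧ b v = y ∧ lab v ∈ J0)) := by
      intro v hv
      obtain ⟨h1, h2, h3⟩ := hT v hv
      have h4 := hloop v h1
      have h5 := mf.1 h1
      simp only [mem_union, mem_filter, Kempe.Ic, h1, h5.1, h5.2, true_and, and_true]
      rcases h2 with h2 | h2 | h2 <;> rcases h3 with h3 | h3 | h3 <;> simp_all
    have a2 := (card_le_card a1).trans ((card_union_le _ _).trans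
      (Nat.add_le_add (hdeg x) (card_union_le _ _)))
    have a3 := (hlab J0).1 y z
    have a4 := (hlab J0).1 z y
    have a5 : (W.filter fun v => O.τ v = y ∧ b v = z).card +
        (W.filter fun v => O.τ v = z ∧ b v = y).card ≤ S.h := by
      rw [← card_union_of_disjoint]
      · refine le_trans (card_le_card fun v hv => ?_) h
        rcases mem_union.1 hv with h | h
        · obtain ⟨h1, rfl, rfl⟩ := mf.1 h
          exact mem_inter.2 ⟨W1 v h1, W2 v h1⟩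
        · obtain ⟨h1, rfl, rfl⟩ := mf.1 h
          exact mem_inter.2 ⟨W2 v h1, W1 v h1⟩
      · rw [disjoint_left]
        intro v h1 h2
        exact hyz ((mf.1 h1).2.1.symm.trans (mf.1 h2).2.1)
    have a6 := Nat.mul_le_mul_left Q a2
    have a7 := Nat.mul_le_mul_left (2 * b0 + 2) a5
    rw [j0] at a3 a4
    rw [mul_add, mul_add] at a6
    rw [mul_add] at a7
    exact Nat.le_of_mul_le_mul_left (by omega) hQ0
  obtain ⟨c0, hc0⟩ := Kempe.colour O.τ b k Δ nd ne A hloop hdeg fun x y z => by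
    have ns : ∀ v ∈ A, ¬ S.sup (O.τ v) ∧ ¬ S.sup (b v) := fun v hv =>
      ⟨((hW v).1 (mf.1 hv).1).1, ((hW v).1 (mf.1 hv).1).2.1⟩
    by_cases h1 : S.sup x ∨ x = y
    · refine star x y z z fun v hv h2 h3 => ?_
      have := hloop v hv
      have := ns v hv
      unfold Kempe.Ic
      grind
    by_cases h2 : S.sup y ∨ y = z
    · refine star x y z x fun v hv h2 h3 => ?_
      have := hloop v hv
      have := ns v hv
      unfold Kempe.Ic
      grind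
    by_cases h3 : S.sup z ∨ x = z
    · refine star x y z y fun v hv h2 h3 => ?_
      have := hloop v hv
      have := ns v hv
      unfold Kempe.Ic
      grind
    push Not at h1 h2 h3
    rcases nocrit x y z h1.1 h2.1 h3.1 h1.2 h3.2 h2.2 with h | h | h
    · exact light z x y h1.2 h _ fun v hv => by have := mf.1 hv; tauto
    · exact light y x z h3.2 h _ fun v hv => by have := mf.1 hv; tauto
    · exact light x y z h2.2 h _ fun v hv => mf.1 hv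
  have core : ∀ n, ¬ S.sup n → ((X n).filter fun v => ∃ m, ¬ S.sup m ∧ m ≠ n ∧ v ∈ X m) ⊆
      A.filter fun v => Kempe.Ic O.τ b v n := by
    intro n hn v hv
    obtain ⟨h1, m, hm, h2, h3⟩ := mf.1 hv
    rw [hX n hn] at h1
    rw [hX m hm] at h3
    obtain ⟨-, a1, a2, a3⟩ := mf.1 ((hD n hn).1 h1)
    obtain ⟨-, b1, b2, b3⟩ := mf.1 ((hD m hm).1 h3)
    have fin : ∀ n m, ¬ S.sup n → ¬ S.sup m → O.τ v = n → O.sec v m →
        ¬ (v ∈ W ∧ O.τ v = n ∧ lab v ∈ J0ᶜ \ J1) → ¬ (v ∈ W ∧ b v = m ∧ lab v ∈ J1) →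
        v ∈ A := fun n m hn hm c1 c2 c3 c4 => by
      have c5 := hb v m c2
      have c6 : v ∈ W := (hW v).2 ⟨c1 ▸ hn, c5 ▸ hm, c5 ▸ c2⟩
      refine mf.2 ⟨c6, ?_⟩
      by_contra c7
      exact c3 ⟨c6, c1, mem_sdiff.2 ⟨mem_compl.2 c7, fun c8 => c4 ⟨c6, c5, c8⟩⟩⟩
    rcases a1 with a1 | a1 <;> rcases b1 with b1 | b1
    · exact absurd (b1.symm.trans a1) h2
    · exact mf.2 ⟨fin n m hn hm a1 b1 a2 b3, Or.inl a1⟩
    · exact mf.2 ⟨fin m n hm hn b1 a1 b2 a3, Or.inr (hb v n a1)⟩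
    · exact absurd (O.sec_uniq b1 a1) h2
  refine ⟨X, ⟨fun n v hv => ?_, fun n hn i => ?_⟩, fun n hn => by rw [hX n hn, (hD n hn).2], c0,
    fun n hn => ⟨(card_le_card (core n hn)).trans (hdeg n), fun x hx y hy h => ?_⟩⟩
  · by_cases hn : S.sup n
    · exact hX0.sub n v (by simpa [X, hn] using hv)
    · rw [hX n hn] at hv
      exact ⟨0, (mf.1 ((hD n hn).1 hv)).1⟩
  · simp only [X, if_pos hn]
    exact hX0.sup n hn i
  · obtain ⟨a1, a2⟩ := mf.1 (core n hn hx)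
    obtain ⟨a3, a4⟩ := mf.1 (core n hn hy)
    exact hc0 x a1 y a3 n a2 a4 h

end Pool.Agent.P.MP_b2489f_co
end

-- part Pool.Agent.P.MP_b2489f_co.Main
section

set_option autoImplicit false
set_option linter.unusedSectionVars false

/-! The lower bound for large `g` and the exact value. -/

namespace Pool.Agent.P.MP_b2489f_co

open Finset Classical

variable {V F : Type} [Fintype V] [Fintype F]

lemma tri0 {N : F → Finset V} (plan : Plan fun v f => v ∈ N f) {a b c : F} (h1 : a ≠ b)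
    (h2 : a ≠ c) (h3 : b ≠ c) : (N a ∩ N b ∩ N c).card ≤ 2 :=
  plan.bl h1 {Sum.inr c} (conn_singleton _ _) (by simpa) (by simpa) _
    fun z hz => ⟨(mem_inter.1 (mem_inter.1 hz).1).1, (mem_inter.1 (mem_inter.1 hz).1).2, by simp,
      c, rfl, (mem_inter.1 hz).2⟩

lemma two_heavy {N : F → Finset V} (plan : Plan fun v f => v ∈ N f) {a b c : F} (h1 : a ≠ b)
    (h2 : a ≠ c) (h3 : b ≠ c) :
    (N a ∩ N b).card + (N a ∩ N c).card ≤ (N a ∩ (N b ∪ N c)).card + 2 := by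
  have a1 := card_union_add_card_inter (N a ∩ N b) (N a ∩ N c)
  have a2 := tri0 plan h1 h2 h3
  rw [← inter_union_distrib_left] at a1
  have : N a ∩ N b ∩ (N a ∩ N c) = N a ∩ N b ∩ N c := by ext; simp; tauto
  rw [this] at a1
  omega

lemma three_heavy {N : F → Finset V} (plan : Plan fun v f => v ∈ N f) {a b c d : F} (h1 : a ≠ b)
    (h2 : a ≠ c) (h3 : a ≠ d) (h4 : b ≠ c) (h5 : b ≠ d) (h6 : c ≠ d) :
    (N a ∩ N b).card + (N a ∩ N c).card + (N a ∩ N d).card ≤ (N a).card + 6 := by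
  have a1 := two_heavy plan h1 h2 h4
  have a2 := card_union_add_card_inter (N a ∩ (N b ∪ N c)) (N a ∩ N d)
  have a3 : (N a ∩ (N b ∪ N c) ∪ N a ∩ N d).card ≤ (N a).card :=
    card_le_card (union_subset inter_subset_left inter_subset_left)
  have a4 : (N a ∩ (N b ∪ N c) ∩ (N a ∩ N d)).card ≤
      (N a ∩ N b ∩ N d ∪ N a ∩ N c ∩ N d).card := card_le_card fun v hv => by
    simp only [mem_inter, mem_union] at hv ⊢; tauto
  have a5 := card_union_le (N a ∩ N b ∩ N d) (N a ∩ N c ∩ N d)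
  have a6 := tri0 plan h1 h3 h5
  have a7 := tri0 plan h2 h3 h6
  omega

theorem sys_ex (N : F → Finset V) (plan : Plan fun v f => v ∈ N f) (g h : ℕ)
    (hN : ∀ φ, (N φ).card = g) (hh : g + 6 < 3 * h) :
    ∃ (Nd : Type) (_ : Fintype Nd) (S : Sys V F Nd), S.N = N ∧ S.h = h ∧
      ∀ x y z, ¬ S.sup x → ¬ S.sup y → ¬ S.sup z → x ≠ y → x ≠ z → y ≠ z →
        (N (S.fc x 0) ∩ N (S.fc y 0)).card ≤ h ∨ (N (S.fc x 0) ∩ N (S.fc z 0)).card ≤ h ∨
        (N (S.fc y 0) ∩ N (S.fc z 0)).card ≤ h := by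
  let Hv : F → F → Prop := fun a b => a ≠ b ∧ h ≤ (N a ∩ N b).card
  have hsym : ∀ a b, Hv a b → Hv b a := fun a b x => ⟨x.1.symm, by rw [inter_comm]; exact x.2⟩
  have no3 : ∀ a b c d, Hv a b → Hv a c → Hv a d → b ≠ c → d = b ∨ d = c := by
    intro a b c d x y z e
    by_contra q
    push Not at q
    have := three_heavy plan x.1 y.1 z.1 e q.1.symm q.2.symm
    have := hN a
    have := x.2
    have := y.2
    have := z.2
    omega
  let r : Setoid F := ⟨fun a b => a = b ∨ ∃ c, Hv a b ∧ Hv a c ∧ Hv b c, fun _ => Or.inl rfl,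
    fun {a b} x => x.imp Eq.symm fun ⟨c, x1, x2, x3⟩ => ⟨c, hsym _ _ x1, x3, x2⟩, by
      rintro a b d (rfl | ⟨c, x1, x2, x3⟩) (rfl | ⟨e, y1, y2, y3⟩)
      · exact Or.inl rfl
      · exact Or.inr ⟨e, y1, y2, y3⟩
      · exact Or.inr ⟨c, x1, x2, x3⟩
      · rcases no3 b a c d (hsym _ _ x1) x3 y1 x2.1 with rfl | rfl
        · exact Or.inl rfl
        · exact Or.inr ⟨b, x2, x1, hsym _ _ x3⟩⟩
  have : ∀ n : Quotient r, ∃ f : Fin 3 → F, f 0 = n.out ∧ (∀ i, Quotient.mk r (f i) = n) ∧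
      (∀ φ, Quotient.mk r φ = n → ∃ i, f i = φ) ∧
      ((∃ b c, Hv n.out b ∧ Hv n.out c ∧ Hv b c) → ∀ i j, i ≠ j → Hv (f i) (f j)) ∧
      ((¬ ∃ b c, Hv n.out b ∧ Hv n.out c ∧ Hv b c) → ∀ i, f i = f 0) := by
    intro n
    have key : ∀ φ, Quotient.mk r φ = n → n.out = φ ∨ ∃ c, Hv n.out φ ∧ Hv n.out c ∧ Hv φ c :=
      fun φ e => Quotient.exact (n.out_eq.trans e.symm)
    by_cases q : ∃ b c, Hv n.out b ∧ Hv n.out c ∧ Hv b c
    · obtain ⟨b, c, x1, x2, x3⟩ := q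
      refine ⟨![n.out, b, c], rfl, fun i => ?_, fun φ e => ?_, fun _ i j e => ?_,
        fun q => absurd ⟨b, c, x1, x2, x3⟩ q⟩
      · fin_cases i
        · exact n.out_eq
        · exact (Quotient.sound (Or.inr ⟨c, x1, x2, x3⟩)).symm.trans n.out_eq
        · exact (Quotient.sound (Or.inr ⟨b, x2, x1, hsym _ _ x3⟩)).symm.trans n.out_eq
      · rcases key φ e with e | ⟨d, y1, -⟩
        · exact ⟨0, e⟩
        · rcases no3 _ b c φ x1 x2 y1 x3.1 with rfl | rfl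
          · exact ⟨1, rfl⟩
          · exact ⟨2, rfl⟩
      · fin_cases i <;> fin_cases j
        exacts [absurd rfl e, x1, x2, hsym _ _ x1, absurd rfl e, x3, hsym _ _ x2, hsym _ _ x3,
          absurd rfl e]
    · exact ⟨fun _ => n.out, rfl, fun _ => n.out_eq, fun φ e => ⟨0, (key φ e).resolve_right
        fun ⟨c, x⟩ => q ⟨φ, c, x⟩⟩, fun q' => absurd q' q, fun _ _ => rfl⟩
  choose fc f0 f1 f2 f3 f4 using this
  refine ⟨Quotient r, Fintype.ofFinite _, ⟨N, plan, Quotient.mk r, fc,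
    fun n => ∃ b c, Hv n.out b ∧ Hv n.out c ∧ Hv b c, h, f1, fun φ => f2 _ φ rfl,
    fun n hn i j e => by_contra fun q => (f3 n hn i j q).1 e, f4,
    fun n hn i j q => (f3 n hn i j q).2⟩, rfl, rfl, fun x y z hx _ _ a b c => ?_⟩
  by_contra q
  push Not at q
  have ne : ∀ n m : Quotient r, n ≠ m → fc n 0 ≠ fc m 0 := fun n m e e' =>
    e (by rw [← f1 n 0, e', f1])
  exact hx ⟨fc y 0, fc z 0, f0 x ▸ ⟨ne _ _ a, q.1.le⟩, f0 x ▸ ⟨ne _ _ b, q.2.1.le⟩,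
    ⟨ne _ _ c, q.2.2.le⟩⟩

theorem lower_hyp [Nonempty V] [Nonempty F] (N : F → Finset V) (plan : Plan fun v f => v ∈ N f)
    (g : ℕ) (hg : 10 ^ 110 ≤ g) (hN : ∀ φ, (N φ).card = g) :
    ∃ c : V → Fin ((3 * g - 1) / 4), ∀ φ α, ∃ v ∈ N φ, c v = α := by
  obtain ⟨Nd, _, S, rfl, hh, nocrit⟩ := sys_ex N plan g (g / 2 - 4 * (g / (4 * 10 ^ 50 + 2))) hN
    (by omega)
  have : Nonempty Nd := ⟨S.nd (Classical.arbitrary F)⟩
  have hh' : 71 + 143 * 54 < S.h := by omega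
  obtain ⟨X, hX, hXc, c0, hc0⟩ := S.trim g ((3 * g - 1) / 4) 316910093 (10 ^ 50) (4 * 10 ^ 50 + 2)
    (g / 2 + g / (4 * 10 ^ 50 + 2) + 144 * (4 * 10 ^ 50 + 2) + 2) hN hh' (by rw [hh]; exact nocrit)
    rfl (by omega) (by omega) (by omega) (by omega) (by omega)
  obtain ⟨O⟩ := S.ord hX hh'
  obtain ⟨can, can1, can2⟩ := hX.can
  have oth : ∀ i : Fin 3, i ≠ i + 1 ∧ i ≠ i + 2 ∧ i + 1 ≠ i + 2 := by decide
  have hC : ∀ s, S.sup s → ((X s).filter fun z => S.Sing z s).card ≤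
      3 * (8 * (g / (4 * 10 ^ 50 + 2)) + 3) := by
    intro s hs
    refine le_trans (card_le_card fun z hz => ?_) (card_biUnion_le_mul univ (fun i =>
      S.N (S.fc s i) \ (S.N (S.fc s (i + 1)) ∪ S.N (S.fc s (i + 2)))) 3 _ (by simp) fun i _ => ?_)
    · obtain ⟨i, hi⟩ := hX.sub s z (mf.1 hz).1
      refine mem_biUnion.2 ⟨i, mem_univ _, mem_sdiff.2 ⟨hi, fun q => ?_⟩⟩
      rcases mem_union.1 q with q | q
      · exact (oth i).1 ((mf.1 hz).2 _ _ hi q)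
      · exact (oth i).2.1 ((mf.1 hz).2 _ _ hi q)
    · have inj := S.fc_sup s hs
      have a1 := two_heavy plan (inj.ne (oth i).1) (inj.ne (oth i).2.1) (inj.ne (oth i).2.2)
      have a2 := card_sdiff_add_card_inter (S.N (S.fc s i))
        (S.N (S.fc s (i + 1)) ∪ S.N (S.fc s (i + 2)))
      have a3 := S.heavy s hs _ _ (oth i).1
      have a4 := S.heavy s hs _ _ (oth i).2.1
      rw [hN] at a2
      omega
  have hPm : ∀ s, S.sup s → ∀ i j, i ≠ j → (S.N (S.fc s i) ∩ S.N (S.fc s j)).card ≤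
      g / 2 + 4 * (g / (4 * 10 ^ 50 + 2)) + 3 := by
    intro s hs i j hij
    have inj := S.fc_sup s hs
    obtain ⟨l, h1, h2⟩ : ∃ l : Fin 3, i ≠ l ∧ j ≠ l := by
      revert i j; decide
    have a1 := two_heavy plan (inj.ne hij) (inj.ne h1) (inj.ne h2)
    have a2 : (S.N (S.fc s i) ∩ (S.N (S.fc s j) ∪ S.N (S.fc s l))).card ≤ g :=
      (card_le_card inter_subset_left).trans (hN _).le
    have a3 := S.heavy s hs _ _ h1
    omega
  have hM := fun f hf => O.card_must (f := f) (hc0 f hf).1 hC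
  have : ∀ f, ∃ D : Finset V, ¬ S.sup f → univ.filter (O.Must f) ⊆ D ∧
      D ⊆ (X f).filter (O.Keep f) ∧ D.card = (3 * g - 1) / 4 := fun f => by
    by_cases hf : S.sup f
    · exact ⟨∅, fun q => absurd hf q⟩
    · have a1 := hM f hf
      have a2 := O.card_notKeep hX hf
      have a3 := card_filter_add_card_filter_not (s := X f) (O.Keep f)
      rw [hXc f hf] at a3
      obtain ⟨D, h⟩ := exists_subsuperset_card_eq (s := univ.filter (O.Must f))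
        (t := (X f).filter (O.Keep f)) (n := (3 * g - 1) / 4)
        (fun z hz => mf.2 ⟨(mf.1 hz).2.1.1, (mf.1 hz).2.1⟩) (by omega) (by omega)
      exact ⟨D, fun _ => h⟩
  choose D hD using this
  refine Ctx.colouring ⟨X, hX, O, (3 * g - 1) / 4, 316910093, _, _, c0,
    fun f hf x hx y hy a b => (hc0 f hf).2 (O.gc_core hx a) (O.gc_core hy b), hC, hM, can, can1,
    can2, D, fun f hf z hz => (mf.1 ((hD f hf).2.1 hz)).2, fun f hf => (hD f hf).2.2,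
    fun f hf z hz => (hD f hf).1 (mf.2 ⟨mem_univ _, hz⟩), fun f hf => ?_⟩ ?_ hN ?_ hPm ?_ ?_ ?_
  · rw [card_sdiff_of_subset ((hD f hf).2.1.trans (filter_subset _ _)), hXc f hf, (hD f hf).2.2]
    omega
  · show 0 < (3 * g - 1) / 4
    omega
  · show 4 * ((3 * g - 1) / 4) + 1 ≤ 3 * g
    omega
  · simp only [Ctx.B]
    have h1 : (4 * 10 ^ 50 + 2) * (g / (4 * 10 ^ 50 + 2)) ≤ g := Nat.mul_div_le _ _
    have h2 : 2 * (g / 2) ≤ g := Nat.mul_div_le _ _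
    have h3 : 3 * g ≤ 4 * ((3 * g - 1) / 4) + 4 := by omega
    generalize g / (4 * 10 ^ 50 + 2) = e at h1 ⊢
    generalize g / 2 = a at h2 ⊢
    generalize (3 * g - 1) / 4 = k at h3 ⊢
    linarith
  · simp only [Ctx.B]
    norm_num only
    omega
  · simp only
    omega

theorem lower (g : ℕ) (hg : 10 ^ 110 ≤ g) (D : Type) [Finite D] (M : PlaneMap D)
    (hM : M.minFace = g) : (3 * g - 1) / 4 ≤ M.polyNum := by
  have := Fintype.ofFinite D
  obtain ⟨d⟩ := M.nonempty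
  have : Nonempty (Orb M.σ) := ⟨orb _ d⟩
  have : Nonempty (Orb (M.σ * M.α)) := ⟨orb _ d⟩
  have : ∀ f, ∃ N : Finset (Orb M.σ), (∀ v ∈ N, v ∈ M.faceVerts f) ∧ N.card = g := fun f => by
    have h1 : g ≤ (M.faceVerts f).ncard := hM ▸ Nat.sInf_le ⟨f, rfl⟩
    rw [Set.ncard_eq_toFinset_card'] at h1
    obtain ⟨N, h2, h3⟩ := exists_subset_card_eq h1
    exact ⟨N, fun v hv => Set.mem_toFinset.1 (h2 hv), h3⟩
  choose N h1 h2 using this
  obtain ⟨c, hc⟩ := lower_hyp N (M.plan.mono fun v f => h1 f v) g hg h2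
  refine le_csSup ⟨Fintype.card (Orb M.σ), ?_⟩ ⟨c, fun f α => ?_⟩
  · rintro k ⟨c, hc⟩
    rw [← Fintype.card_fin k]
    refine Fintype.card_le_of_surjective c fun α => ?_
    obtain ⟨v, -, h⟩ := hc (orb _ d) α
    exact ⟨v, h⟩
  · obtain ⟨v, a, b⟩ := hc f α
    exact ⟨v, h1 f v a, b⟩

theorem main (g : ℕ) (hg : 10 ^ 110 ≤ g) :
    IsLeast {k | ∃ (D : Type) (_ : Finite D) (M : PlaneMap D), M.minFace = g ∧ M.polyNum = k}
      ((3 * g - 1) / 4) := by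
  obtain ⟨D, _, M, h1, h2⟩ := upper g (by omega)
  refine ⟨⟨D, inferInstance, M, h1, le_antisymm h2 (lower g hg D M h1)⟩, ?_⟩
  rintro k ⟨D', _, M', h3, rfl⟩
  exact lower g hg D' M' h3

end Pool.Agent.P.MP_b2489f_co
end
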