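import Pool.Agent.K.MP_b2489f_co.C3

-- part Pool.Agent.P.MP_b2489f_co.Cover
section

set_option autoImplicit false
set_option linter.unusedSectionVars false

/-! Edge-cover colourings of multigraphs without sparse triples: local lemmas. -/

namespace Pool.Agent.P.MP_b2489f_co.Cover

open Finset Classical Kempe Sum

variable {E N : Type} [Fintype E] [Fintype N] {k : ℕ}

/-- the other end of an edge -/
def fl (h : E × Bool) : E × Bool := (h.1, !h.2)

@[simp] lemma fl_fl (h : E × Bool) : fl (fl h) = h := by simp [fl]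
@[simp] lemma fl_1 (h : E × Bool) : (fl h).1 = h.1 := rfl
lemma eq_or_fl {h g : E × Bool} (e : g.1 = h.1) : g = h ∨ g = fl h := by
  obtain ⟨a, b⟩ := h
  obtain ⟨c, d⟩ := g
  cases b <;> cases d <;> simp_all [fl]

variable (nd : E × Bool → N) (R : N → Prop)

/-- a state: the attached ends have distinct colours at each node -/
structure Ok (c : E → Fin k) (a : Finset (E × Bool)) : Prop where
  real : ∀ h ∈ a, R (nd h)
  inj : ∀ h ∈ a, ∀ g ∈ a, nd h = nd g → c h.1 = c g.1 → h = g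

def Mi (c : E → Fin k) (a : Finset (E × Bool)) (v : N) (α : Fin k) : Prop :=
  ∀ h ∈ a, nd h = v → c h.1 ≠ α

noncomputable def dn (a : Finset (E × Bool)) (h : E × Bool) : N ⊕ E × Bool :=
  if h ∈ a then inl (nd h) else inr h

def Lk (c : E → Fin k) (a : Finset (E × Bool)) (α γ : Fin k) :
    N ⊕ E × Bool → N ⊕ E × Bool → Prop :=
  Rc (fun e => dn nd a (e, false)) (fun e => dn nd a (e, true)) univ c α γ

/-- a handle of colour `α` at `v`: a missing colour or a detached end -/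
def Hd (c : E → Fin k) (a : Finset (E × Bool)) (Z : E → Prop) (v : N) (α : Fin k)
    (X : N ⊕ E × Bool) : Prop :=
  (X = inl v ∧ Mi nd c a v α) ∨ ∃ h, X = inr h ∧ h ∉ a ∧ nd h = v ∧ c h.1 = α ∧ ¬ Z h.1

structure Crit (k s M : ℕ) : Prop where
  loop : ∀ h, R (nd h) → nd (fl h) ≠ nd h
  deg : ∀ v, R v → k + s ≤ (univ.filter fun h => nd h = v).card ∨
    (univ.filter fun h => nd h = v).card + s ≤ k
  pos : 1 ≤ s
  big : k < 4 * s + 2
  max : ∀ (c : E → Fin k) a, Ok nd R c a → a.card ≤ M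

/-- a configuration: both ends of one edge are detached -/
structure Cf (M : ℕ) (c : E → Fin k) (a : Finset (E × Bool)) (h0 : E × Bool) (x y : N) :
    Prop where
  ok : Ok nd R c a
  card : a.card + 1 = M
  n0 : h0 ∉ a
  n1 : fl h0 ∉ a
  jx : nd h0 = x
  jy : nd (fl h0) = y
  rx : R x
  ry : R y
  mx : ∃ α, Mi nd c a x α
  my : ∃ α, Mi nd c a y α

/-- an edge at `x` whose colour has a handle at `y` -/
structure Fan (c : E → Fin k) (a : Finset (E × Bool)) (e0 : E) (x y : N) (h : E × Bool) (z : N) :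
    Prop where
  mem : h ∈ a
  jx : nd h = x
  jz : nd (fl h) = z
  ne : z ≠ y
  hd : ∃ Y, Hd nd c a (· = e0) y (c h.1) Y

variable {nd R} {c c' : E → Fin k} {a a' : Finset (E × Bool)} {α β γ δ : Fin k}
  {X Y W : N ⊕ E × Bool} {Z Z' : E → Prop} {u v w x y z : N} {h g h0 : E × Bool} {s M : ℕ}

lemma Ok.att (O : Ok nd R c a) (r : R (nd h)) (m : Mi nd c a (nd h) (c h.1)) :
    Ok nd R c (insert h a) := by
  refine ⟨fun g hg => ?_, fun g hg g' hg' e1 e2 => ?_⟩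
  · rcases mem_insert.1 hg with rfl | hg
    exacts [r, O.real g hg]
  · rcases mem_insert.1 hg with rfl | q <;> rcases mem_insert.1 hg' with rfl | q'
    exacts [rfl, (m g' q' e1.symm e2.symm).elim, (m g q e1 e2).elim, O.inj g q g' q' e1 e2]

lemma Ok.sub (O : Ok nd R c a) (hs : a' ⊆ a) : Ok nd R c a' :=
  ⟨fun g hg => O.real g (hs hg), fun g hg g' hg' => O.inj g (hs hg) g' (hs hg')⟩

lemma Ok.cg (O : Ok nd R c a) (e : ∀ h ∈ a, c' h.1 = c h.1) : Ok nd R c' a :=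
  ⟨O.real, fun g hg g' hg' e1 e2 => O.inj g hg g' hg' e1 (by rwa [e g hg, e g' hg'] at e2)⟩

lemma Mi.cg (m : Mi nd c a v α) (e : ∀ h ∈ a, c' h.1 = c h.1) : Mi nd c' a v α :=
  fun g hg e1 => by rw [e g hg]; exact m g hg e1

lemma Mi.ins (m : Mi nd c a v α) (e : nd h = v → c h.1 ≠ α) : Mi nd c (insert h a) v α := by
  intro g hg
  rcases mem_insert.1 hg with rfl | hg
  exacts [e, m g hg]

lemma Mi.sub (m : Mi nd c a v α) (hs : a' ⊆ a) : Mi nd c a' v α := fun g hg => m g (hs hg)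

lemma Mi.hd (m : Mi nd c a v α) : Hd nd c a Z v α (inl v) := Or.inl ⟨rfl, m⟩

lemma Hd.mi (m : Hd nd c a Z v α (inl w)) : Mi nd c a v α := by
  rcases m with ⟨-, m⟩ | ⟨_, e, -⟩
  exacts [m, by simp at e]

lemma Hd.nd_eq (m : Hd nd c a Z v α X) (m' : Hd nd c' a' Z' w γ X) : v = w := by
  rcases m with ⟨rfl, -⟩ | ⟨h, rfl, -, rfl, -⟩ <;> rcases m' with ⟨e, -⟩ | ⟨g, e, -, rfl, -⟩ <;>
    simp_all

lemma Hd.ne (m : Hd nd c a Z v α X) (m' : Hd nd c' a' Z' w γ Y) (n : v ≠ w) : X ≠ Y := by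
  rintro rfl
  exact n (m.nd_eq m')

lemma upd_eq (n0 : h0 ∉ a) (n1 : fl h0 ∉ a) (α : Fin k) :
    ∀ h ∈ a, Function.update c h0.1 α h.1 = c h.1 := by
  intro h hh
  refine Function.update_of_ne (fun e => ?_) _ _
  rcases eq_or_fl e with rfl | rfl
  exacts [n0 hh, n1 hh]

lemma Hd.tr (m : Hd nd c a Z v δ X) (h1 : ∀ h ∈ a', nd h = v → c' h.1 = δ → h ∈ a ∧ c h.1 = δ)
    (h2 : ∀ h, h ∉ a → nd h = v → c h.1 = δ → ¬ Z h.1 → h ∉ a' ∧ c' h.1 = δ ∧ ¬ Z' h.1) :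
    Hd nd c' a' Z' v δ X := by
  rcases m with ⟨rfl, m⟩ | ⟨h, rfl, b1, b2, b3, b4⟩
  · exact Or.inl ⟨rfl, fun h hh e e' => m h (h1 h hh e e').1 e (h1 h hh e e').2⟩
  · exact Or.inr ⟨h, rfl, (h2 h b1 b2 b3 b4).1, b2, (h2 h b1 b2 b3 b4).2⟩

lemma Lk.symm (l : Lk nd c a α γ X Y) : Lk nd c a α γ Y X := Rc.symm l
lemma Lk.trans (l : Lk nd c a α γ X Y) (l' : Lk nd c a α γ Y W) : Lk nd c a α γ X W :=
  Rc.trans l l'

lemma Lk.mono {α' γ' : Fin k} (l : Lk nd c a α γ X Y)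
    (hm : ∀ h, c h.1 = α ∨ c h.1 = γ → (c' h.1 = α' ∨ c' h.1 = γ') ∧ (h ∈ a' ↔ h ∈ a)) :
    Lk nd c' a' α' γ' X Y := by
  unfold Lk Rc at *
  induction l with
  | refl => rfl
  | tail _ l ih =>
    obtain ⟨e, -, b1, b2⟩ := l
    refine ih.tail ⟨e, mem_univ _, (hm (e, true) b1).1, ?_⟩
    simpa only [Jn, dn, (hm (e, true) b1).2, (hm (e, false) b1).2] using b2

lemma Lk.comm (l : Lk nd c a α γ X Y) : Lk nd c a γ α X Y :=
  l.mono fun _ e => ⟨e.symm, Iff.rfl⟩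

lemma ic_iff {e : E} : Ic (fun e => dn nd a (e, false)) (fun e => dn nd a (e, true)) e X ↔
    ∃ b, dn nd a (e, b) = X := by simp [Ic]

lemma dn_inl : dn nd a h = inl v ↔ h ∈ a ∧ nd h = v := by
  unfold dn; split_ifs <;> simp [*]

lemma dn_inr : dn nd a h = inr g ↔ h ∉ a ∧ h = g := by
  unfold dn; split_ifs <;> simp [*]

lemma Ok.dn_inj (O : Ok nd R c a) (e : dn nd a h = dn nd a g) (e' : c h.1 = c g.1) : h = g := by
  by_cases q : g ∈ a
  · rw [(dn_inl (h := g)).2 ⟨q, rfl⟩, dn_inl] at e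
    exact O.inj h e.1 g q e.2 e'
  · rw [(dn_inr (h := g)).2 ⟨q, rfl⟩, dn_inr] at e
    exact e.2

lemma Hd.en (m : Hd nd c a Z v δ X) (n : α ≠ γ) (e : δ = α ∨ δ = γ) :
    Ms (fun e => dn nd a (e, false)) (fun e => dn nd a (e, true)) univ c X α ∨
    Ms (fun e => dn nd a (e, false)) (fun e => dn nd a (e, true)) univ c X γ := by
  rcases m with ⟨rfl, m⟩ | ⟨h, rfl, -, -, b3, -⟩
  · refine e.imp ?_ ?_ <;> rintro rfl e - he <;> obtain ⟨b, he⟩ := ic_iff.1 he <;>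
      exact m _ (dn_inl.1 he).1 (dn_inl.1 he).2
  · refine e.symm.imp ?_ ?_ <;> rintro rfl e - he <;> obtain ⟨b, he⟩ := ic_iff.1 he <;>
      obtain ⟨-, rfl⟩ := dn_inr.1 he <;> rw [b3]
    exacts [n.symm, n]

lemma Ok.ends {δ1 δ2 δ3 : Fin k} {Z'' : E → Prop} (O : Ok nd R c a) (n : α ≠ γ)
    (m1 : Hd nd c a Z u δ1 X) (m2 : Hd nd c a Z' v δ2 Y) (m3 : Hd nd c a Z'' w δ3 W)
    (e1 : δ1 = α ∨ δ1 = γ) (e2 : δ2 = α ∨ δ2 = γ) (e3 : δ3 = α ∨ δ3 = γ)
    (l1 : Lk nd c a α γ Y X) (l2 : Lk nd c a α γ W X) (n1 : X ≠ Y) (n2 : X ≠ W) : Y = W := by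
  by_contra n3
  refine Kempe.ends (fun e _ q => ?_) (fun e _ e' _ v q q' r => ?_) n1 n2 n3 l1.symm l2.symm
    (m1.en n e1) (m2.en n e2) (m3.en n e3)
  · simpa using O.dn_inj q rfl
  · obtain ⟨b, q⟩ := ic_iff.1 q
    obtain ⟨b', q'⟩ := ic_iff.1 q'
    exact congrArg Prod.fst (O.dn_inj (q.trans q'.symm) r)

lemma Ok.tri {Z'' : E → Prop} (O : Ok nd R c a) (n : α ≠ γ)
    (m1 : Hd nd c a Z u α X) (m2 : Hd nd c a Z' v γ Y) (m3 : Hd nd c a Z'' w γ W)
    (l1 : Lk nd c a α γ Y X) (l2 : Lk nd c a α γ W X) (n1 : X ≠ Y) (n2 : X ≠ W) : Y = W :=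
  O.ends n m1 m2 m3 (Or.inl rfl) (Or.inr rfl) (Or.inr rfl) l1 l2 n1 n2

/-- the result of a Kempe change -/
structure Sw (nd : E × Bool → N) (c c' : E → Fin k) (a : Finset (E × Bool)) (α γ : Fin k)
    (X : N ⊕ E × Bool) : Prop where
  fi : ∀ h, Lk nd c a α γ X (dn nd a h) → c' h.1 = Equiv.swap α γ (c h.1)
  fo : ∀ h, ¬ Lk nd c a α γ X (dn nd a h) → c' h.1 = c h.1

lemma Ok.swap (O : Ok nd R c a) (α γ : Fin k) (X : N ⊕ E × Bool) :
    ∃ c', Ok nd R c' a ∧ Sw nd c c' a α γ X := by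
  have key : ∀ h, (c h.1 = α ∨ c h.1 = γ) →
      (Lk nd c a α γ X (dn nd a (h.1, false)) ↔ Lk nd c a α γ X (dn nd a h)) := by
    rintro ⟨e, _ | _⟩ q
    · rfl
    · exact ⟨fun l => Relation.ReflTransGen.tail l ⟨e, mem_univ _, q, Or.inl ⟨rfl, rfl⟩⟩,
        fun l => Relation.ReflTransGen.tail l ⟨e, mem_univ _, q, Or.inr ⟨rfl, rfl⟩⟩⟩
  have S : Sw nd c (fun e => if Lk nd c a α γ X (dn nd a (e, false)) then Equiv.swap α γ (c e)
      else c e) a α γ X := by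
    refine ⟨fun h l => ?_, fun h l => ?_⟩ <;> by_cases q : c h.1 = α ∨ c h.1 = γ
    · exact if_pos ((key h q).2 l)
    · push Not at q
      rw [Equiv.swap_apply_of_ne_of_ne q.1 q.2, ite_self]
    · exact if_neg fun l' => l ((key h q).1 l')
    · push Not at q
      rw [Equiv.swap_apply_of_ne_of_ne q.1 q.2, ite_self]
  refine ⟨_, ⟨O.real, fun g hg g' hg' e1 e2 => O.inj g hg g' hg' e1 ?_⟩, S⟩
  have e : dn nd a g' = dn nd a g := by simp [dn, hg, hg', e1]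
  by_cases l : Lk nd c a α γ X (dn nd a g)
  · rw [S.fi g l, S.fi g' (e ▸ l)] at e2
    exact (Equiv.swap α γ).injective e2
  · rwa [S.fo g l, S.fo g' (e ▸ l)] at e2

lemma Sw.iff (S : Sw nd c c' a α γ X) (n1 : δ ≠ α) (n2 : δ ≠ γ) (e : E) : c' e = δ ↔ c e = δ := by
  by_cases l : Lk nd c a α γ X (dn nd a (e, true))
  · rw [S.fi _ l, Equiv.swap_apply_eq_iff, Equiv.swap_apply_of_ne_of_ne n1 n2]
  · rw [S.fo _ l]

lemma Sw.ne (S : Sw nd c c' a α γ X) (m : Hd nd c a Z v δ Y) (n1 : δ ≠ α) (n2 : δ ≠ γ) :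
    Hd nd c' a Z v δ Y :=
  m.tr (fun _ b _ e => ⟨b, (S.iff n1 n2 _).1 e⟩) fun _ b _ e b' => ⟨b, (S.iff n1 n2 _).2 e, b'⟩

lemma Sw.out (S : Sw nd c c' a α γ X) (m : Hd nd c a Z v δ Y) (l : ¬ Lk nd c a α γ X Y) :
    Hd nd c' a Z v δ Y := by
  rcases m with ⟨rfl, m⟩ | ⟨h, rfl, b1, b2, b3, b4⟩
  · refine Or.inl ⟨rfl, fun h b e => ?_⟩
    rw [S.fo h (by rwa [dn_inl.2 ⟨b, e⟩])]
    exact m h b e
  · exact Or.inr ⟨h, rfl, b1, b2, by rw [S.fo h (by rwa [dn_inr.2 ⟨b1, rfl⟩]), b3], b4⟩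

lemma Sw.ins (S : Sw nd c c' a α γ X) (m : Hd nd c a Z v δ Y) (l : Lk nd c a α γ X Y) :
    Hd nd c' a Z v (Equiv.swap α γ δ) Y := by
  rcases m with ⟨rfl, m⟩ | ⟨h, rfl, b1, b2, b3, b4⟩
  · refine Or.inl ⟨rfl, fun h b e => ?_⟩
    rw [S.fi h (by rwa [dn_inl.2 ⟨b, e⟩])]
    exact fun q => m h b e ((Equiv.swap α γ).injective q)
  · exact Or.inr ⟨h, rfl, b1, b2, by rw [S.fi h (by rwa [dn_inr.2 ⟨b1, rfl⟩]), b3], b4⟩

lemma Sw.self (S : Sw nd c c' a α γ X) (m : Hd nd c a Z v γ X) : Hd nd c' a Z v α X := by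
  simpa using S.ins m Relation.ReflTransGen.refl

lemma Sw.mi (S : Sw nd c c' a α γ X) (m : Mi nd c a v δ) : ∃ δ', Mi nd c' a v δ' := by
  by_cases l : Lk nd c a α γ X (inl v)
  · exact ⟨_, (S.ins (m.hd (Z := fun _ => True)) l).mi⟩
  · exact ⟨_, (S.out (m.hd (Z := fun _ => True)) l).mi⟩

lemma Cf.symm (C : Cf nd R M c a h0 x y) : Cf nd R M c a (fl h0) y x :=
  ⟨C.ok, C.card, C.n1, by simpa using C.n0, C.jy, by simpa using C.jx, C.ry, C.rx, C.my, C.mx⟩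

lemma Cf.swap (C : Cf nd R M c a h0 x y) (α γ : Fin k) (X : N ⊕ E × Bool) :
    ∃ c', Cf nd R M c' a h0 x y ∧ Sw nd c c' a α γ X := by
  obtain ⟨c', O, S⟩ := C.ok.swap α γ X
  exact ⟨c', ⟨O, C.card, C.n0, C.n1, C.jx, C.jy, C.rx, C.ry, S.mi C.mx.choose_spec,
    S.mi C.my.choose_spec⟩, S⟩

lemma Ok.two (O : Ok nd R c a) (r : R y) (m : Mi nd c a y β) (n : β ≠ γ) (b1 : h ∉ a) (b2 : g ∉ a)
    (ne : h ≠ g) (e1 : nd h = y) (e2 : nd g = y) (e3 : c h.1 = γ) (e4 : c g.1 = γ) :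
    ∃ c' t, t ∉ a ∧ nd t = y ∧ c t.1 = γ ∧ Ok nd R c' (insert t a) ∧
      (∀ e δ, δ ≠ β → δ ≠ γ → (c' e = δ ↔ c e = δ)) ∧
      ∀ v δ, v ≠ y → Mi nd c a v δ → ∃ δ', Mi nd c' (insert t a) v δ' := by
  have hd : ∀ t, t ∉ a → nd t = y → c t.1 = γ → Hd nd c a (fun _ => False) y γ (inr t) :=
    fun t q1 q2 q3 => Or.inr ⟨t, rfl, q1, q2, q3, id⟩
  obtain ⟨t, q1, q2, q3, l⟩ : ∃ t, t ∉ a ∧ nd t = y ∧ c t.1 = γ ∧
      ¬ Lk nd c a β γ (inr t) (inl y) := by
    by_contra q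
    push Not at q
    exact ne (inr_injective (O.tri n (m.hd (Z := fun _ => True)) (hd h b1 e1 e3) (hd g b2 e2 e4)
      (q h b1 e1 e3) (q g b2 e2 e4) (by simp) (by simp)))
  obtain ⟨c', O', S⟩ := O.swap β γ (inr t)
  have e5 : c' t.1 = β := by
    rw [S.fi t (by rw [dn_inr.2 ⟨q1, rfl⟩]; exact Relation.ReflTransGen.refl), q3]; simp
  refine ⟨c', t, q1, q2, q3, O'.att (q2 ▸ r) ?_, fun e δ n1 n2 => S.iff n1 n2 e,
    fun v δ n' m' => ?_⟩
  · rw [e5, q2]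
    exact (S.out (m.hd (Z := fun _ => True)) l).mi
  · obtain ⟨δ', m''⟩ := S.mi m'
    exact ⟨δ', m''.ins fun e => absurd (e.symm.trans q2) n'⟩

end Pool.Agent.P.MP_b2489f_co.Cover
end

-- part Pool.Agent.P.MP_b2489f_co.Cover2
section

set_option autoImplicit false
set_option linter.unusedSectionVars false

/-! Edge-cover colourings: the structure of a critical configuration. -/

namespace Pool.Agent.P.MP_b2489f_co.Cover

open Finset Classical Kempe Sum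

variable {E N : Type} [Fintype E] [Fintype N] {k : ℕ} {nd : E × Bool → N} {R : N → Prop}
  {c c' : E → Fin k} {a a' : Finset (E × Bool)} {α β γ δ : Fin k}
  {X Y W : N ⊕ E × Bool} {Z Z' : E → Prop} {u v w x y z : N} {h g h0 : E × Bool} {s M : ℕ}
  (H : Crit nd R k s M)

lemma ex_of_not_mi (m : ¬ Mi nd c a v α) : ∃ h ∈ a, nd h = v ∧ c h.1 = α := by
  unfold Mi at m
  push Not at m
  exact m

lemma Cf.ne0 (C : Cf nd R M c a h0 x y) (b : h ∈ a) : h.1 ≠ h0.1 := fun e => by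
  rcases eq_or_fl e with rfl | rfl
  exacts [C.n0 b, C.n1 b]

lemma Cf.upd (C : Cf nd R M c a h0 x y) (α : Fin k) :
    Cf nd R M (Function.update c h0.1 α) a h0 x y :=
  have e := upd_eq (c := c) C.n0 C.n1 α
  ⟨C.ok.cg e, C.card, C.n0, C.n1, C.jx, C.jy, C.rx, C.ry, C.mx.imp fun _ m => m.cg e,
    C.my.imp fun _ m => m.cg e⟩

include H

lemma Cf.xy (C : Cf nd R M c a h0 x y) : x ≠ y := fun e =>
  H.loop h0 (C.jx ▸ C.rx) (C.jy.trans (e.symm.trans C.jx.symm))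

lemma free (O : Ok nd R c a) (hM : M ≤ a.card) (n0 : h ∉ a) (n1 : fl h ∉ a) (r : R (nd h))
    (m : Mi nd c a (nd h) α) : False := by
  have e := upd_eq (c := c) n0 n1 α
  have := H.max _ _ ((O.cg e).att r (by rw [Function.update_self]; exact m.cg e))
  rw [card_insert_of_notMem n0] at this
  omega

lemma nodet (C : Cf nd R M c a h0 x y) (b : h ∉ a) (n : h.1 ≠ h0.1) (r : R (nd h))
    (m : Mi nd c a (nd h) (c h.1)) : False := by
  have O := C.ok.att r m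
  have hc : M ≤ (insert h a).card := by rw [card_insert_of_notMem b, C.card]
  have n0 : h0 ∉ insert h a := by
    rw [mem_insert, not_or]; exact ⟨fun e => n (e ▸ rfl), C.n0⟩
  have n1 : fl h0 ∉ insert h a := by
    rw [mem_insert, not_or]; exact ⟨fun e => n (e ▸ rfl), C.n1⟩
  by_cases q : nd h = x
  · obtain ⟨β, m'⟩ := C.my
    exact free H O hc n1 (by simpa using n0) (C.jy ▸ C.ry)
      (C.jy ▸ m'.ins fun e => absurd (q.symm.trans e) (C.xy H))
  · obtain ⟨β, m'⟩ := C.mx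
    exact free H O hc n0 n1 (C.jx ▸ C.rx) (C.jx ▸ m'.ins fun e => absurd e q)

lemma nodet' (C : Cf nd R M c a h0 x y) (r : R v) (m : Mi nd c a v α)
    (d : Hd nd c a (· = h0.1) v α (inr h)) : False := by
  rcases d with ⟨e, -⟩ | ⟨g, -, b1, rfl, rfl, b4⟩
  exacts [by simp at e, nodet H C b1 b4 r m]

lemma c0a (C : Cf nd R M c a h0 x y) (m : Mi nd c a x α) (d : Hd nd c a (· = h0.1) y α Y) :
    False := by
  have e := upd_eq (c := c) C.n0 C.n1 α
  have O := (C.ok.cg e).att (h := h0) (C.jx ▸ C.rx)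
    (by rw [Function.update_self, C.jx]; exact m.cg e)
  have n1 : fl h0 ∉ insert h0 a := by
    rw [mem_insert, not_or]
    exact ⟨fun e => C.xy H (C.jx.symm.trans (e ▸ C.jy)), C.n1⟩
  have my : ∀ β, Mi nd c a y β → Mi nd (Function.update c h0.1 α) (insert h0 a) y β :=
    fun β m' => (m'.cg e).ins fun q => absurd (C.jx.symm.trans q) (C.xy H)
  have hc := card_insert_of_notMem C.n0
  have hM := C.card
  rcases d with ⟨-, m'⟩ | ⟨g, rfl, b1, b2, b3, b4⟩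
  · have := H.max _ _ (O.att (h := fl h0) (C.jy ▸ C.ry)
      (by rw [fl_1, Function.update_self, C.jy]; exact my _ m'))
    rw [card_insert_of_notMem n1] at this
    omega
  · obtain ⟨β, m'⟩ := C.my
    obtain ⟨c', t, q1, -, -, O', -⟩ := O.two (γ := α) C.ry (my β m')
      (by rintro rfl; exact nodet H C b1 b4 (b2 ▸ C.ry) (b2 ▸ b3 ▸ m')) n1 (g := g)
      (by rw [mem_insert, not_or]; exact ⟨fun e => b4 (e ▸ rfl), b1⟩)
      (fun e => b4 (e ▸ rfl)) C.jy b2 (by simp) (by rw [Function.update_of_ne b4, b3])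
    have := H.max _ _ O'
    rw [card_insert_of_notMem q1] at this
    omega

lemma c0 (C : Cf nd R M c a h0 x y) (d : Hd nd c a (· = h0.1) x α X)
    (d' : Hd nd c a (· = h0.1) y α Y) : False := by
  rcases X with X | X
  · exact c0a H C d.mi d'
  obtain ⟨β, m⟩ := C.mx
  have n : β ≠ α := by rintro rfl; exact nodet' H C C.rx m d
  have l : Lk nd c a β α (inr X) (inl x) := by
    by_contra l
    obtain ⟨c', C', S⟩ := C.swap β α (inr X)
    exact nodet' H C' C.rx (S.out (m.hd (Z := fun _ => True)) l).mi (S.self d)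
  obtain ⟨c', C', S⟩ := C.swap β α Y
  refine c0a H C' (S.out (m.hd (Z := fun _ => True)) fun l' => ?_).mi (S.self d')
  exact d.ne d' (C.xy H) (C.ok.tri n (m.hd (Z := fun _ => True)) d d' l l' (by simp)
    ((m.hd (Z := fun _ => True)).ne d' (C.xy H)))

lemma link (C : Cf nd R M c a h0 x y) (d : Hd nd c a (· = h0.1) x α X)
    (d' : Hd nd c a (· = h0.1) y γ Y) : Lk nd c a α γ Y X := by
  by_contra l
  obtain ⟨c', C', S⟩ := C.swap α γ Y
  exact c0 H C' (S.out d l) (S.self d')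

lemma uniq (C : Cf nd R M c a h0 x y) (d : Hd nd c a (· = h0.1) y γ Y)
    (d' : Hd nd c a (· = h0.1) y γ W) : Y = W := by
  obtain ⟨α, m⟩ := C.mx
  exact C.ok.tri (by rintro rfl; exact c0 H C m.hd d) (m.hd (Z := fun _ => True)) d d' (link H C m.hd d)
    (link H C m.hd d') ((m.hd (Z := fun _ => True)).ne d (C.xy H)) ((m.hd (Z := fun _ => True)).ne d' (C.xy H))

lemma Fan.xz (C : Cf nd R M c a h0 x y) (F : Fan nd c a h0.1 x y h z) : x ≠ z := fun e =>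
  H.loop h (F.jx ▸ C.rx) (F.jz.trans (e.symm.trans F.jx.symm))

lemma shift (C : Cf nd R M c a h0 x y) (F : Fan nd c a h0.1 x y h z) :
    fl h ∈ a ∧ ∃ c' a', Cf nd R M c' a' h x z ∧ ∀ v δ W, (∀ Y, ¬ Hd nd c a (· = h0.1) y δ Y) →
      Hd nd c a (· = h0.1) v δ W → Hd nd c' a' (· = h.1) v δ W := by
  obtain ⟨Y, d⟩ := F.hd
  have xy := C.xy H
  have xz := F.xz H C
  set a1 := (a.erase h).erase (fl h) with ha1
  have s1 : a1 ⊆ a := (erase_subset _ _).trans (erase_subset _ _)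
  have n0 : h0 ∉ a1 := fun q => C.n0 (s1 q)
  have e := upd_eq (c := c) n0 (fun q => C.n1 (s1 q)) (c h.1)
  set c1 := Function.update c h0.1 (c h.1) with hc1
  have u0 : c1 h0.1 = c h.1 := Function.update_self ..
  have mβ : ∀ g ∈ a, c g.1 = c h.1 → g ∉ a1 → Mi nd c1 a1 (nd g) (c h.1) :=
    fun g b1 b2 b3 => Mi.cg (fun g' q1 q2 q3 =>
      b3 (C.ok.inj g' (s1 q1) g b1 q2 (q3.trans b2.symm) ▸ q1)) e
  have O := ((C.ok.sub s1).cg e).att (h := h0) (C.jx ▸ C.rx)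
    (by rw [u0, C.jx, ← F.jx]; exact mβ h F.mem rfl (by simp [a1]))
  have n1 : fl h0 ∉ insert h0 a1 := by
    rw [mem_insert, not_or]
    exact ⟨fun e => xy (C.jx.symm.trans (e ▸ C.jy)), fun q => C.n1 (s1 q)⟩
  have my : ∀ β, Mi nd c a y β → Mi nd c1 (insert h0 a1) y β :=
    fun β m' => ((m'.sub s1).cg e).ins fun q => absurd (C.jx.symm.trans q) xy
  obtain ⟨β, mb⟩ := C.my
  obtain ⟨c', t, q1, q2, q3, O', q4, q5⟩ : ∃ c' t, t ∉ insert h0 a1 ∧ nd t = y ∧ c1 t.1 = c h.1 ∧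
      Ok nd R c' (insert t (insert h0 a1)) ∧
      (∀ e δ, δ ≠ β → δ ≠ c h.1 → (c' e = δ ↔ c1 e = δ)) ∧
      ∀ v δ, v ≠ y → Mi nd c1 (insert h0 a1) v δ →
        ∃ δ', Mi nd c' (insert t (insert h0 a1)) v δ' := by
    rcases d with ⟨-, m'⟩ | ⟨g, rfl, b1, b2, b3, b4⟩
    · exact ⟨c1, fl h0, n1, C.jy, u0, O.att (C.jy ▸ C.ry) (by rw [fl_1, u0, C.jy]; exact my _ m'),
        fun _ _ _ _ => Iff.rfl, fun v δ n m => ⟨δ, m.ins fun q => absurd (q.symm.trans C.jy) n⟩⟩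
    · exact O.two C.ry (my β mb)
        (by rintro rfl; exact nodet H C b1 b4 (b2 ▸ C.ry) (b2 ▸ b3 ▸ mb)) n1 (g := g)
        (by rw [mem_insert, not_or]; exact ⟨fun e => b4 (e ▸ rfl), fun q => b1 (s1 q)⟩)
        (fun e => b4 (e ▸ rfl)) C.jy b2 u0 (by rw [hc1, Function.update_of_ne b4, b3])
  have ne0 := C.ne0 F.mem
  have m0 : h ∉ insert t (insert h0 a1) := by
    simp only [mem_insert, not_or]
    exact ⟨fun e => xy (F.jx.symm.trans (e ▸ q2)), fun e => ne0 (e ▸ rfl), by simp [a1]⟩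
  have m1 : fl h ∉ insert t (insert h0 a1) := by
    simp only [mem_insert, not_or]
    exact ⟨fun e => F.ne (F.jz.symm.trans (e ▸ q2)), fun e => ne0 (e ▸ rfl), by simp [a1]⟩
  obtain ⟨α, ma⟩ := C.mx
  obtain ⟨α', ma'⟩ := q5 x α xy (((ma.sub s1).cg e).ins fun _ => by
    rw [u0]; exact ma h F.mem F.jx)
  have hc : (insert t (insert h0 a1)).card = a1.card + 2 := by
    rw [card_insert_of_notMem q1, card_insert_of_notMem n0]
  have h1 := card_erase_add_one F.mem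
  have hM := C.card
  have fm : fl h ∈ a := by
    by_contra q
    refine free H O' ?_ m0 m1 (F.jx ▸ C.rx) (F.jx ▸ ma')
    rw [hc, ha1, erase_eq_of_notMem fun q' => q (mem_of_mem_erase q')]
    omega
  have h2 := card_erase_add_one (mem_erase.2 ⟨fun e : fl h = h =>
    xz (F.jx.symm.trans ((congrArg nd e).symm.trans F.jz)), fm⟩)
  refine ⟨fm, c', _, ⟨O', by rw [hc, ha1]; omega, m0, m1, F.jx, F.jz, C.rx,
    F.jz ▸ C.ok.real _ fm, ⟨_, ma'⟩, q5 z (c h.1) F.ne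
      ((F.jz ▸ mβ (fl h) fm rfl (by simp [a1])).ins fun q => absurd (C.jx.symm.trans q) xz)⟩,
    fun v δ W n d' => ?_⟩
  have n2 : δ ≠ β := by rintro rfl; exact n _ mb.hd
  have n3 : δ ≠ c h.1 := by rintro rfl; exact n _ d
  refine d'.tr (fun g b _ b' => ?_) fun g b _ b' b'' => ?_
  · rw [q4 _ _ n2 n3] at b'
    simp only [mem_insert] at b
    rcases b with rfl | rfl | b
    exacts [absurd (b'.symm.trans q3) n3, absurd (b'.symm.trans u0) n3, ⟨s1 b, e g b ▸ b'⟩]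
  · have e' : c1 g.1 = δ := by rw [hc1, Function.update_of_ne b'', b']
    refine ⟨?_, (q4 _ _ n2 n3).2 e', fun q => n3 (by rw [← b', q])⟩
    simp only [mem_insert, not_or]
    exact ⟨fun q => n3 (by rw [← e', q, q3]), fun q => b'' (q ▸ rfl), fun q => b (s1 q)⟩

lemma c1a (C : Cf nd R M c a h0 x y) (F : Fan nd c a h0.1 x y h z)
    (d : Hd nd c a (· = h0.1) x α X) (d' : Hd nd c a (· = h0.1) z α W) : False := by
  obtain ⟨-, c', a', C', t⟩ := shift H C F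
  exact c0 H C' (t _ _ _ (fun _ => c0 H C d) d) (t _ _ _ (fun _ => c0 H C d) d')

lemma c1β (C : Cf nd R M c a h0 x y) (F : Fan nd c a h0.1 x y h z)
    (d' : Hd nd c a (· = h0.1) z (c h.1) W) : False := by
  obtain ⟨Y, d⟩ := F.hd
  obtain ⟨α, m⟩ := C.mx
  have l := link H C m.hd d
  have l' : ¬ Lk nd c a α (c h.1) W (inl x) := fun l' => d.ne d' F.ne.symm
    (C.ok.tri (m h F.mem F.jx).symm (m.hd (Z := fun _ => True)) d d' l l' ((m.hd (Z := fun _ => True)).ne d (C.xy H))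
      ((m.hd (Z := fun _ => True)).ne d' (F.xz H C)))
  obtain ⟨c', C', S⟩ := C.swap α (c h.1) W
  refine c1a H C' ⟨F.mem, F.jx, F.jz, F.ne, Y, ?_⟩ (S.out m.hd l') (S.self d')
  rw [S.fo h (by rwa [dn_inl.2 ⟨F.mem, F.jx⟩])]
  exact S.out d fun q => l' (q.trans l)

lemma c1b (C : Cf nd R M c a h0 x y) (F : Fan nd c a h0.1 x y h z)
    (d : Hd nd c a (· = h0.1) x α X) (d' : Hd nd c a (· = h0.1) z γ W) : Lk nd c a α γ W X := by
  by_contra l
  obtain ⟨Y, d''⟩ := F.hd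
  have n1 : c h.1 ≠ α := by rintro rfl; exact c0 H C d d''
  have n2 : c h.1 ≠ γ := by rintro rfl; exact c1β H C F d'
  obtain ⟨c', C', S⟩ := C.swap α γ W
  refine c1a H C' ⟨F.mem, F.jx, F.jz, F.ne, Y, ?_⟩ (S.out d l) (S.self d')
  rw [(S.iff n1 n2 _).2 rfl]
  exact S.ne d'' n1 n2

lemma c1c (C : Cf nd R M c a h0 x y) (F : Fan nd c a h0.1 x y h z)
    (d : Hd nd c a (· = h0.1) y γ Y) (d' : Hd nd c a (· = h0.1) z γ W) : False := by
  obtain ⟨α, m⟩ := C.mx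
  exact d.ne d' F.ne.symm (C.ok.tri (by rintro rfl; exact c0 H C m.hd d) (m.hd (Z := fun _ => True)) d d'
    (link H C m.hd d) (c1b H C F m.hd d') ((m.hd (Z := fun _ => True)).ne d (C.xy H))
    ((m.hd (Z := fun _ => True)).ne d' (F.xz H C)))

lemma uniqz (C : Cf nd R M c a h0 x y) (F : Fan nd c a h0.1 x y h z)
    (d : Hd nd c a (· = h0.1) z γ Y) (d' : Hd nd c a (· = h0.1) z γ W) : Y = W := by
  obtain ⟨α, m⟩ := C.mx
  exact C.ok.tri (by rintro rfl; exact c1a H C F m.hd d) (m.hd (Z := fun _ => True)) d d'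
    (c1b H C F m.hd d) (c1b H C F m.hd d') ((m.hd (Z := fun _ => True)).ne d (F.xz H C))
    ((m.hd (Z := fun _ => True)).ne d' (F.xz H C))

omit H in
lemma card_mi (O : Ok nd R c a) (v : N) :
    (univ.filter (Mi nd c a v)).card + (a.filter fun h => nd h = v).card = k := by
  have h1 := card_filter_add_card_filter_not (s := univ) (Mi nd c a v)
  have h2 : (univ.filter fun α => ¬ Mi nd c a v α) =
      (a.filter fun h => nd h = v).image fun h => c h.1 := by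
    ext α
    simp only [mem_filter, mem_univ, true_and, mem_image, and_assoc]
    exact ⟨ex_of_not_mi, fun ⟨h, b1, b2, b3⟩ m => m h b1 b2 b3⟩
  rw [h2, card_image_of_injOn fun h b g b' e => O.inj h (mem_filter.1 b).1 g (mem_filter.1 b').1
    ((mem_filter.1 b).2.trans (mem_filter.1 b').2.symm) e] at h1
  simpa using h1

/-- the colours with a handle at `v` -/
noncomputable def Ph (nd : E × Bool → N) (c : E → Fin k) (a : Finset (E × Bool)) (Z : E → Prop)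
    (v : N) : Finset (Fin k) := univ.filter fun γ => ∃ X, Hd nd c a Z v γ X

lemma ph_ge (O : Ok nd R c a) (r : R v) (hz : ∀ h ∈ a, ¬ Z h.1)
    (un : ∀ γ X Y, Hd nd c a Z v γ X → Hd nd c a Z v γ Y → X = Y) {j : ℕ}
    (hj : (univ.filter fun h => nd h = v ∧ Z h.1).card = j)
    (hm : j ≤ (univ.filter (Mi nd c a v)).card) : s + j ≤ (Ph nd c a Z v).card := by
  have h1 := card_mi O v
  let D := univ.filter fun h => nd h = v ∧ h ∉ a ∧ ¬ Z h.1
  have hd : ∀ h ∈ D, Hd nd c a Z v (c h.1) (inr h) := fun h b =>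
    Or.inr ⟨h, rfl, (mem_filter.1 b).2.2.1, (mem_filter.1 b).2.1, rfl, (mem_filter.1 b).2.2.2⟩
  have h2 : (univ.filter fun h => nd h = v).card =
      (a.filter fun h => nd h = v).card + D.card + j := by
    rw [← hj, show (a.filter fun h => nd h = v) = univ.filter fun h => h ∈ a ∧ nd h = v by
      ext; simp]
    simp only [D, card_filter, ← sum_add_distrib]
    refine sum_congr rfl fun h _ => ?_
    have := hz h
    split_ifs <;> first | rfl | (exfalso; tauto)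
  have h3 : (univ.filter (Mi nd c a v)).card + D.card ≤ (Ph nd c a Z v).card := by
    rw [← card_image_of_injOn (s := D) (f := fun h => c h.1) fun h b g b' e =>
      inr_injective (un _ _ _ (hd h b) (by rw [show c h.1 = c g.1 from e]; exact hd g b')),
      ← card_union_of_disjoint]
    · refine card_le_card fun γ b => mem_filter.2 ⟨mem_univ _, ?_⟩
      rcases mem_union.1 b with b | b
      · exact ⟨_, (mem_filter.1 b).2.hd⟩
      · obtain ⟨h, q, rfl⟩ := mem_image.1 b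
        exact ⟨_, hd h q⟩
    · refine disjoint_left.2 fun γ b b' => ?_
      obtain ⟨h, q, rfl⟩ := mem_image.1 b'
      simpa using un _ _ _ (mem_filter.1 b).2.hd (hd h q)
  have := H.deg v r
  omega

lemma ph_x (C : Cf nd R M c a h0 x y) : s + 1 ≤ (Ph nd c a (· = h0.1) x).card := by
  refine ph_ge H C.ok C.rx (fun h => C.ne0) (fun _ _ _ => uniq H C.symm) (card_eq_one.2 ⟨h0, ?_⟩)
    (card_pos.2 (C.mx.imp fun α m => mem_filter.2 ⟨mem_univ _, m⟩))
  ext g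
  simp only [mem_filter, mem_univ, true_and, mem_singleton]
  refine ⟨fun ⟨b1, b2⟩ => (eq_or_fl (h := h0) b2).resolve_right ?_, ?_⟩ <;> rintro rfl
  exacts [C.xy H (b1.symm.trans C.jy), ⟨C.jx, rfl⟩]

lemma ph_w (C : Cf nd R M c a h0 x y) (r : R w) (n1 : w ≠ x) (n2 : w ≠ y)
    (un : ∀ γ X Y, Hd nd c a (· = h0.1) w γ X → Hd nd c a (· = h0.1) w γ Y → X = Y) :
    s ≤ (Ph nd c a (· = h0.1) w).card := by
  refine ph_ge H C.ok r (fun h => C.ne0) un (j := 0) (card_eq_zero.2 ?_) (Nat.zero_le _)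
  refine filter_eq_empty_iff.2 fun g _ ⟨b1, b2⟩ => ?_
  rcases eq_or_fl b2 with rfl | rfl
  exacts [n1 (b1.symm.trans C.jx), n2 (b1.symm.trans C.jy)]

lemma c4 (C : Cf nd R M c a h0 x y) (F : Fan nd c a h0.1 x y h z) (r : R w) (n1 : w ≠ x)
    (n2 : w ≠ y)
    (un : ∀ γ X Y, Hd nd c a (· = h0.1) w γ X → Hd nd c a (· = h0.1) w γ Y → X = Y) :
    ∃ γ W X, Hd nd c a (· = h0.1) w γ W ∧ (Hd nd c a (· = h0.1) x γ X ∨
      Hd nd c a (· = h0.1) y γ X ∨ Hd nd c a (· = h0.1) z γ X) := by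
  by_contra q
  push Not at q
  have a1 := ph_x H C
  have a2 := ph_x H C.symm
  have a3 := ph_w H C (F.jz ▸ C.ok.real _ (shift H C F).1) (F.xz H C).symm F.ne
    fun _ _ _ => uniqz H C F
  have a4 := ph_w H C r n1 n2 un
  have a5 := H.big
  have : (Ph nd c a (· = h0.1) x).card + (Ph nd c a (· = h0.1) y).card
      + (Ph nd c a (· = h0.1) z).card + (Ph nd c a (· = h0.1) w).card ≤ ∑ _γ : Fin k, 1 := by
    simp only [Ph, card_filter, ← sum_add_distrib]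
    refine sum_le_sum fun γ _ => ?_
    have b1 := fun X Y => c0 H C (α := γ) (X := X) (Y := Y)
    have b2 := fun X Y => c1a H C F (α := γ) (X := X) (W := Y)
    have b3 := fun X Y => c1c H C F (γ := γ) (Y := X) (W := Y)
    have b4 := q γ
    split_ifs <;> first | omega | (exfalso; grind)
  simp only [sum_const, card_univ, Fintype.card_fin, smul_eq_mul, fl_1] at this a2
  omega

lemma c2 {z' : N} (C : Cf nd R M c a h0 x y) (F : Fan nd c a h0.1 x y h z)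
    (F' : Fan nd c a h0.1 y x g z') : z = z' := by
  by_contra n
  obtain ⟨γ, W, X, d, d' | d' | d'⟩ := c4 H C F (F'.jz ▸ C.ok.real _ (shift H C.symm F').1) F'.ne
    (F'.xz H C.symm).symm fun _ _ _ => uniqz (h0 := fl h0) H C.symm F'
  · exact c1c H C.symm F' d' d
  · exact c1a H C.symm F' d' d
  have := H.pos
  obtain ⟨α, b, n1⟩ := exists_mem_ne (s := Ph nd c a (· = h0.1) x)
    (by have := ph_x H C; omega) (c g.1)
  obtain ⟨Y, m⟩ := (mem_filter.1 b).2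
  obtain ⟨Y', m'⟩ := F'.hd
  have l : ¬ Lk nd c a α γ W Y := fun l => d'.ne d n (C.ok.tri
    (by rintro rfl; exact c1a H C F m d') m d' d (c1b H C F m d') l (m.ne d' (F.xz H C))
    (m.ne d F'.ne.symm))
  obtain ⟨c', C', S⟩ := C.swap α γ W
  have n2 : c g.1 ≠ γ := by rintro rfl; exact c1a H C F m' d'
  refine c1c H C'.symm ⟨F'.mem, F'.jx, F'.jz, F'.ne, Y', ?_⟩ (S.out m l) (S.self d)
  rw [(S.iff n1.symm n2 _).2 rfl]
  exact S.ne m' n1.symm n2

lemma rep0 (C : Cf nd R M c a h0 x y) (m0 : Mi nd c a x (c h0.1)) (F : Fan nd c a h0.1 x y h z)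
    (d : Hd nd c a (· = h0.1) y (c h.1) (inr g)) : False := by
  have xy := C.xy H
  obtain ⟨t, tm, ty, tc⟩ := ex_of_not_mi fun m => nodet' H C C.ry m d
  obtain ⟨β, mb⟩ := C.my
  obtain ⟨gm, gy, gc, g0⟩ : g ∉ a ∧ nd g = y ∧ c g.1 = c h.1 ∧ g.1 ≠ h0.1 := by
    rcases d with ⟨e, -⟩ | ⟨g, e, b⟩
    · simp at e
    · obtain rfl := inr_injective e
      exact b
  have O := C.ok.att (h := h0) (C.jx ▸ C.rx) (C.jx ▸ m0)
  have hc := card_insert_of_notMem C.n0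
  have hM := C.card
  have g1 : g ∉ insert h0 a := by
    rw [mem_insert, not_or]; exact ⟨fun e => g0 (e ▸ rfl), gm⟩
  have mb1 : Mi nd c (insert h0 a) y β := mb.ins fun q => absurd (C.jx.symm.trans q) xy
  have f1 : fl g ∈ insert h0 a := by
    by_contra q
    exact free H O (by omega) g1 q (gy ▸ C.ry) (gy ▸ mb1)
  have f2 : fl g ∈ a := (mem_insert.1 f1).resolve_left fun e => g0 (e ▸ rfl)
  have nx : ∀ t, fl t ∈ a → nd t = y → c t.1 = c h.1 → x ≠ nd (fl t) := fun t b1 b2 b3 e => by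
    obtain rfl := C.ok.inj _ b1 _ F.mem (e.symm.trans F.jx.symm) b3
    exact F.ne (F.jz.symm.trans (by simpa using b2))
  have wy : nd (fl g) ≠ y := gy ▸ H.loop g (gy ▸ C.ry)
  have mw : Mi nd c ((insert h0 a).erase (fl g)) (nd (fl g)) (c g.1) := fun g' b1 b2 b3 =>
    (mem_erase.1 b1).1 (O.inj _ (mem_of_mem_erase b1) _ f1 b2 b3)
  have mb2 : Mi nd c ((insert h0 a).erase (fl g)) y β := mb1.sub (erase_subset _ _)
  have C' : Cf nd R M c ((insert h0 a).erase (fl g)) g y (nd (fl g)) :=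
    ⟨O.sub (erase_subset _ _), by have := card_erase_add_one f1; omega,
      fun q => g1 (mem_of_mem_erase q), by simp, gy, rfl, C.ry, C.ok.real _ f2, ⟨_, mb2⟩, _, mw⟩
  have tg : t.1 ≠ g.1 := fun e => by
    rcases eq_or_fl e with rfl | rfl
    exacts [gm tm, wy ty]
  have F' : Fan nd c ((insert h0 a).erase (fl g)) g.1 y (nd (fl g)) t (nd (fl t)) := by
    refine ⟨mem_erase.2 ⟨fun e => tg (e ▸ rfl), mem_insert_of_mem tm⟩, ty, rfl, fun e => ?_, _,
      by rw [tc, ← gc]; exact mw.hd⟩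
    refine nodet H C' (h := fl t) (fun q => ?_) tg (e ▸ C'.ry) (by rw [e, fl_1, tc, ← gc]; exact mw)
    exact mw _ q e (tc.trans gc.symm)
  have f3 : fl t ∈ a := (mem_insert.1 (mem_of_mem_erase (shift H C' F').1)).resolve_left
    fun e => C.ne0 tm (e ▸ rfl)
  have bk : ∀ v γ W, v ≠ nd (fl g) → (v = x ∨ γ ≠ c h0.1) →
      Hd nd c ((insert h0 a).erase (fl g)) (· = g.1) v γ W → Hd nd c a (· = h0.1) v γ W := by
    refine fun v γ W n1 n2 d' => d'.tr (fun t b1 b2 b3 => ⟨mem_erase.2 ⟨fun e => n1 (e ▸ b2.symm),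
      mem_insert_of_mem b1⟩, b3⟩) fun t b1 b2 b3 _ => ?_
    have b4 : t ∉ insert h0 a := fun q => b1 (mem_erase.2 ⟨fun e => n1 (e ▸ b2.symm), q⟩)
    refine ⟨fun q => b4 (mem_insert_of_mem q), b3, fun e => ?_⟩
    rcases eq_or_fl e with rfl | rfl
    · simp at b4
    · rcases n2 with rfl | n2
      exacts [xy (b2.symm.trans C.jy), n2 b3.symm]
  have xw := nx g f2 gy gc
  obtain ⟨γ, W, X, d1, d2⟩ := c4 H C' F' C.rx xy xw fun γ X Y d1 d2 =>
    uniq H C.symm (bk _ _ _ xw (Or.inl rfl) d1) (bk _ _ _ xw (Or.inl rfl) d2)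
  have d3 := bk _ _ _ xw (Or.inl rfl) d1
  have n0 : γ ≠ c h0.1 := by
    rintro rfl
    obtain rfl := uniq H C.symm d3 m0.hd
    exact d1.mi h0 (mem_erase.2 ⟨fun e => g0 (e ▸ rfl), mem_insert_self _ _⟩) C.jx rfl
  have n1 : β ≠ γ := by rintro rfl; exact c0 H C d3 mb.hd
  have l : Lk nd c ((insert h0 a).erase (fl g)) β γ W (inl y) := by
    refine (link H C d3 mb.hd).symm.mono fun t b => ⟨b.symm, ?_⟩
    have b1 : t ≠ fl g := by
      rintro rfl
      rw [fl_1, gc] at b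
      rcases b with rfl | rfl
      exacts [c0 H C d3 d, nodet' H C C.ry mb d]
    have b2 : t ≠ h0 := by
      rintro rfl
      rcases b with rfl | rfl
      exacts [n0 rfl, c0 H C m0.hd mb.hd]
    simp [b1, b2]
  rcases d2 with d2 | d2 | d2
  · exact c0 H C d3 (bk _ _ _ wy.symm (Or.inr n0) d2)
  · exact d1.ne d2 xw (C'.ok.tri n1 (mb2.hd (Z := fun _ => True)) d1 d2 l (link H C' mb2.hd d2)
      ((mb2.hd (Z := fun _ => True)).ne d1 xy.symm) ((mb2.hd (Z := fun _ => True)).ne d2 wy.symm))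
  · exact d1.ne d2 (nx t f3 ty tc) (C'.ok.tri n1 (mb2.hd (Z := fun _ => True)) d1 d2 l
      (c1b H C' F' mb2.hd d2) ((mb2.hd (Z := fun _ => True)).ne d1 xy.symm)
      ((mb2.hd (Z := fun _ => True)).ne d2 (F'.xz H C')))

end Pool.Agent.P.MP_b2489f_co.Cover
end
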