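import Pool.Agent.K.MP_b2489f_co.C8
import Pool.Agent.K.MP_b2489f_co.C1

-- part Pool.Agent.P.MP_b2489f_co.Risk2
section

set_option autoImplicit false
set_option linter.unusedSectionVars false

/-! Repair of the sparse triples of faces; the exact value for `g ≡ 0, 1 (mod 4)`. -/

namespace Pool.Agent.P.MP_b2489f_co.Cover

open Finset Classical Sum

variable {V F : Type} [Fintype V] [Fintype F] {k d b : ℕ} {N S : F → Finset V} {U U' : Finset F}
  {T : Finset (Finset F)} {f : F} {v z : V} {c : V → Fin k}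

structure Sy (N S : F → Finset V) (k d b : ℕ) : Prop where
  sub : ∀ f, S f ⊆ N f
  hS : ∀ f, (S f).card = d
  hN : ∀ f, (N f).card = d + 2
  two : ∀ v, (univ.filter fun f => v ∈ S f).card ≤ 2
  hk : 4 * k = 3 * d + 2 + b
  hb : b ≤ 1
  big : 5 + 4 * b ≤ k

/-- the vertices kept by exactly `j` faces of `U` -/
noncomputable def Lv (S : F → Finset V) (U : Finset F) (j : ℕ) : Finset V :=
  univ.filter fun v => (U.filter fun f => v ∈ S f).card = j

def Rk (S : F → Finset V) (k : ℕ) (U : Finset F) : Prop :=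
  U.card = 3 ∧ (Lv S U 1).card + (Lv S U 2).card < 2 * k

def Good (N S : F → Finset V) (T : Finset (Finset F)) (Q : V → Prop) (c : V → Fin k) : Prop :=
  ∀ f, (∀ U ∈ T, f ∉ U) → ∀ α, ∃ v ∈ N f, c v = α ∧ ((∀ U ∈ T, v ∉ Lv S U 2) ∨ Q v)

def Prom (N S : F → Finset V) (U : Finset F) (z : V) (c : V → Fin k) : Prop :=
  z ∈ Lv S U 2 ∧ (∀ v ∈ Lv S U 1, c v ≠ c z) ∧
    ∀ f ∈ U, z ∈ N f \ S f ∨ ∃ r ∈ N f \ S f, c r ≠ c z

lemma mem_lv {j : ℕ} : v ∈ Lv S U j ↔ (U.filter fun f => v ∈ S f).card = j := by simp [Lv]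

lemma lv_ex {j : ℕ} (h : v ∈ Lv S U (j + 1)) : ∃ f ∈ U, v ∈ S f := by
  obtain ⟨f, q⟩ := card_pos.1 ((Nat.succ_pos j).trans_eq (mem_lv.1 h).symm)
  exact ⟨f, mem_filter.1 q⟩

lemma Rk.oth (r : Rk S k U) (h : v ∈ Lv S U 2) {f' : F} (b1 : f ∈ U) (b2 : f' ∈ U) (n : v ∉ S f) :
    v ∈ S f' ∨ f' = f := by
  have : U.filter (fun f => v ∈ S f) = U.erase f := eq_of_subset_of_card_le
    (fun g q => mem_erase.2 ⟨fun e => n (e ▸ (mem_filter.1 q).2), (mem_filter.1 q).1⟩)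
    (by rw [card_erase_of_mem b1, r.1, mem_lv.1 h])
  by_contra q
  push Not at q
  have m := mem_erase.2 ⟨q.2, b2⟩
  rw [← this] at m
  exact q.1 (mem_filter.1 m).2

lemma Rk.sum (r : Rk S k U) (J : Finset V) (hJ : J ⊆ Lv S U 2) :
    ∑ f ∈ U, (J \ S f).card = J.card := by
  simp only [sdiff_eq_filter, card_filter]
  rw [sum_comm, card_eq_sum_ones]
  refine sum_congr rfl fun v q => ?_
  have := card_filter_add_card_filter_not (s := U) fun f => v ∈ S f
  rw [mem_lv.1 (hJ q), r.1] at this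
  rw [← card_filter]
  omega

variable (Y : Sy N S k d b)
include Y

lemma Sy.le2 (v : V) : (U.filter fun f => v ∈ S f).card ≤ 2 :=
  (card_le_card (filter_subset_filter _ (subset_univ _))).trans (Y.two v)

lemma Sy.mem (h : v ∈ Lv S U 2) (q : v ∈ S f) : f ∈ U := by
  have : U.filter (fun f => v ∈ S f) = univ.filter fun f => v ∈ S f := eq_of_subset_of_card_le
    (filter_subset_filter _ (subset_univ _)) (by rw [mem_lv.1 h]; exact Y.two v)
  have m : f ∈ univ.filter fun f => v ∈ S f := by simpa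
  rw [← this] at m
  exact (mem_filter.1 m).1

lemma Sy.lv (b1 : f ∈ U) (q : v ∈ S f) : v ∈ Lv S U 1 ∨ v ∈ Lv S U 2 := by
  have := Y.le2 (U := U) v
  have : 0 < (U.filter fun f => v ∈ S f).card := card_pos.2 ⟨f, by simp [b1, q]⟩
  simp only [mem_lv]
  omega

lemma Sy.cnt (r : Rk S k U) : (Lv S U 1).card = b ∧ (Lv S U 2).card + 1 + b = 2 * k := by
  have : ∑ f ∈ U, (S f).card = (Lv S U 1).card + 2 * (Lv S U 2).card := by
    have : ∀ f, (S f).card = ∑ v, if v ∈ S f then 1 else 0 := fun f => by simp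
    simp only [this]
    rw [sum_comm, Lv, Lv, card_filter, card_filter, mul_sum, ← sum_add_distrib]
    refine sum_congr rfl fun v _ => ?_
    have := Y.le2 (U := U) v
    rw [← card_filter]
    split_ifs <;> omega
  simp only [Y.hS, sum_const, r.1, smul_eq_mul] at this
  have := r.2
  have := Y.hk
  have := Y.hb
  omega

lemma Sy.typ (r : Rk S k U) (q : f ∈ U) :
    3 + b ≤ (Lv S U 2 \ S f).card ∧ (Lv S U 2 \ S f).card + 2 + b ≤ k := by
  have h1 := card_sdiff_add_card_inter (Lv S U 2) (S f)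
  have h2 : (Lv S U 2 ∩ S f).card ≤ d := Y.hS f ▸ card_le_card inter_subset_right
  have h3 : d ≤ (Lv S U 1 ∪ Lv S U 2 ∩ S f).card := Y.hS f ▸ card_le_card fun v h => by
    have := Y.lv q h
    simp only [mem_union, mem_inter]
    tauto
  have := card_union_le (Lv S U 1) (Lv S U 2 ∩ S f)
  have := Y.cnt r
  have := Y.hk
  have := Y.hb
  have := Y.big
  omega

lemma Sy.eq (r : Rk S k U) (r' : Rk S k U') (q : f ∈ U) (q' : f ∈ U') : U = U' := by
  by_contra n
  obtain ⟨g, g1, g2⟩ : ∃ g ∈ U', g ∉ U := by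
    by_contra q
    push Not at q
    exact n (eq_of_subset_of_card_le q (by rw [r.1, r'.1])).symm
  have n1 : g ≠ f := fun e => g2 (e ▸ q)
  obtain ⟨l, hl⟩ : ((U'.erase f).erase g).Nonempty := card_pos.1 (by
    rw [card_erase_of_mem (mem_erase.2 ⟨n1, g1⟩), card_erase_of_mem q', r'.1]; omega)
  simp only [mem_erase] at hl
  have h1 := (Y.typ r' hl.2.2).1
  have h2 : (Lv S U' 2 \ S l).card ≤ (Lv S U 1).card := card_le_card fun v h => by
    obtain ⟨h1, h2⟩ := mem_sdiff.1 h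
    exact (Y.lv q ((r'.oth h1 hl.2.2 q' h2).resolve_right (Ne.symm hl.2.1))).resolve_right fun h3 =>
      g2 (Y.mem h3 ((r'.oth h1 hl.2.2 g1 h2).resolve_right (Ne.symm hl.1)))
  have := (Y.cnt r).1
  omega

lemma Sy.eq' {j : ℕ} (r : Rk S k U) (r' : Rk S k U') (h : v ∈ Lv S U (j + 1))
    (h' : v ∈ Lv S U' 2) : U = U' ∧ j = 1 := by
  obtain ⟨f, q, q'⟩ := lv_ex h
  obtain rfl := Y.eq r r' q (Y.mem h' q')
  have := (mem_lv.1 h).symm.trans (mem_lv.1 h')
  exact ⟨rfl, by omega⟩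

lemma Sy.step (hT : ∀ U ∈ T, Rk S k U) (hU : U ∈ T) (G : Good N S T (· = z) c) (c1 : V → Fin k)
    (h1 : ∀ v, (∀ U ∈ T, v ∉ Lv S U 2) ∨ v = z → c1 v = c v) (P : Finset V) (zP : z ∈ P)
    (hP : P ⊆ Lv S U 2) (Q : V → Prop) (A B : Finset (Fin k)) (AB : Disjoint A B)
    (hA : ∀ α ∈ A, ∀ f ∈ U, ∃ v ∈ N f, c1 v = α ∧ (v ∈ P ∨ (∀ U ∈ T, v ∉ Lv S U 2) ∨
      v ∉ Lv S U 2 ∧ Q v))
    (hB : ∀ α ∈ B, ∃ f ∈ U, ∃ v ∈ N f, c1 v = α ∧ (v ∈ P ∨ ∀ U ∈ T, v ∉ Lv S U 2))
    (n1 : P.card + 1 + b ≤ 2 * A.card + B.card) (n2 : B.card + P.card ≤ 3 + b)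
    (n3 : A.card + B.card ≤ 2 + b) : ∃ c' : V → Fin k, Good N S (T.erase U) Q c' ∧
      (∀ v, v ∉ Lv S U 2 → c' v = c1 v) ∧ ∀ v, c' v = c1 v ∨ c' v ∉ A := by
  have r := hT U hU
  have k0 : 0 < k := by have := Y.big; omega
  have : Nonempty F := ⟨(card_pos.1 (by rw [r.1]; omega)).choose⟩
  choose! t t1 t2 using hB
  let O := univ \ (A ∪ B)
  have hO : O.card + A.card + B.card = k := by
    have := card_sdiff_add_card_eq_card (subset_univ (A ∪ B))
    rw [card_union_of_disjoint AB, card_univ, Fintype.card_fin] at this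
    rw [add_assoc, this]
  let J : F → Finset V := fun f => (Lv S U 2 \ P) \ S f
  let B' : F → Finset (Fin k) := fun f => B.filter fun α => t α = f
  have j1 : ∑ f ∈ U, (J f).card + P.card = (Lv S U 2).card := by
    rw [r.sum _ sdiff_subset, card_sdiff_add_card_eq_card hP]
  have j2 : ∑ f ∈ U, (B' f).card = B.card := (card_eq_sum_card_fiberwise fun α h => t1 α h).symm
  have j3 : ∀ f ∈ U, (B' f).card ≤ (J f).card ∧ (J f).card ≤ O.card := fun f q => by
    have a1 := Y.typ r q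
    have a2 : (B' f).card ≤ B.card := card_filter_le _ _
    have a3 : (J f).card ≤ (Lv S U 2 \ S f).card :=
      card_le_card (sdiff_subset_sdiff sdiff_subset Subset.rfl)
    have a4 : (Lv S U 2 \ S f).card ≤ (J f ∪ P).card := card_le_card fun v h => by
      simp only [J, mem_union, mem_sdiff] at h ⊢
      tauto
    have := card_union_le (J f) P
    omega
  obtain ⟨M, hM⟩ := split U (fun f => O.card + (B' f).card - (J f).card) O (by
    have : ∑ f ∈ U, (O.card + (B' f).card - (J f).card + (J f).card) =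
        ∑ f ∈ U, (O.card + (B' f).card) := sum_congr rfl fun f q => by have := j3 f q; omega
    simp only [sum_add_distrib, sum_const, r.1, smul_eq_mul] at this
    have := (Y.cnt r).2
    omega)
  obtain ⟨c', f1, f2⟩ := fill U J (fun f => O \ M f ∪ B' f) c1 (fun f q f' q' v h h' =>
      ((r.oth (mem_sdiff.1 (mem_sdiff.1 h).1).1 q q' (mem_sdiff.1 h).2).resolve_left
        (mem_sdiff.1 h').2).symm) fun f q => by
    have := card_union_le (O \ M f) (B' f)
    have := card_sdiff_add_card_eq_card (hM f q).1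
    have := (hM f q).2.1
    have := j3 f q
    omega
  have fx : ∀ v, v ∈ P ∨ v ∉ Lv S U 2 → c' v = c1 v := fun v h => (f1 v).resolve_right
    fun ⟨f, _, q, _⟩ => by simp only [J, mem_sdiff] at q; tauto
  have st : ∀ v ∈ Lv S U 2, ∀ U' ∈ T.erase U, v ∉ Lv S U' 2 := fun v h U' q h' =>
    (mem_erase.1 q).1 (Y.eq' r (hT _ (mem_of_mem_erase q)) h h').1.symm
  have key : ∀ v, (v ∈ P ∨ (∀ U ∈ T, v ∉ Lv S U 2) ∨ v ∉ Lv S U 2 ∧ Q v) →
      c' v = c1 v ∧ ((∀ U' ∈ T.erase U, v ∉ Lv S U' 2) ∨ Q v) := by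
    rintro v (h | h | h)
    exacts [⟨fx v (Or.inl h), Or.inl (st v (hP h))⟩, ⟨fx v (Or.inr (h U hU)),
      Or.inl fun U' q => h U' (mem_of_mem_erase q)⟩, ⟨fx v (Or.inr h.1), Or.inr h.2⟩]
  have cov : ∀ f ∈ U, ∀ g ∈ U, f ≠ g → ∀ α ∈ O \ M g ∪ B' g, ∃ v ∈ N f, c' v = α ∧
      ((∀ U' ∈ T.erase U, v ∉ Lv S U' 2) ∨ Q v) := fun f q g q' n α h => by
    obtain ⟨v, h, e⟩ := f2 g q' α h
    have h' := (mem_sdiff.1 (mem_sdiff.1 h).1).1
    exact ⟨v, Y.sub f ((r.oth h' q' q (mem_sdiff.1 h).2).resolve_right n), e, Or.inl (st v h')⟩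
  refine ⟨c', fun f q α => ?_, fun v h => fx v (Or.inr h), fun v => (f1 v).imp id ?_⟩
  · by_cases q' : f ∈ U
    · by_cases a : α ∈ A
      · obtain ⟨v, h, e, h'⟩ := hA α a f q'
        exact ⟨v, h, (key v h').1.trans e, (key v h').2⟩
      by_cases a' : α ∈ B
      · by_cases e : f = t α
        · obtain ⟨v, h, e', h'⟩ := t2 α a'
          have := key v (h'.imp id Or.inl)
          exact ⟨v, e ▸ h, this.1.trans e', this.2⟩
        · exact cov f q' _ (t1 α a') e α (mem_union_right _ (mem_filter.2 ⟨a', rfl⟩))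
      obtain ⟨g, g1, g', g2, n⟩ := one_lt_card.1 (show 1 < (U.erase f).card by
        rw [card_erase_of_mem q', r.1]; omega)
      rw [mem_erase] at g1 g2
      have o : α ∈ O := by simp [O, a, a']
      by_cases m : α ∈ M g
      · exact cov f q' g' g2.2 g2.1.symm α (mem_union_left _ (mem_sdiff.2
          ⟨o, fun m' => n ((hM g g1.2).2.2 g' g2.2 α m m')⟩))
      · exact cov f q' g g1.2 g1.1.symm α (mem_union_left _ (mem_sdiff.2 ⟨o, m⟩))
    · obtain ⟨v, h, e, h'⟩ := G f (fun U' a => by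
        by_cases e : U' = U
        exacts [e ▸ q', q U' (mem_erase.2 ⟨e, a⟩)]) α
      have := key v (h'.elim (fun h => Or.inr (Or.inl h)) fun h => Or.inl (h ▸ zP))
      exact ⟨v, h, this.1.trans ((h1 v h').trans e), this.2⟩
  · rintro ⟨f, -, -, h⟩ a
    rcases mem_union.1 h with h | h
    · simp [O, a] at h
    · exact disjoint_left.1 AB a (mem_filter.1 h).1

lemma Sy.newc (r : Rk S k U) (w : V) (c : V → Fin k) (X : Finset (Fin k)) (hX : X.card ≤ 1 + b) :
    ∃ δ ∉ X, (∀ v ∈ Lv S U 1, c v ≠ δ) ∧ ∀ f ∈ U, ∃ r ∈ N f \ S f, r ≠ w ∧ c r ≠ δ := by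
  have : ∀ f, ∃ r ∈ N f \ S f, r ≠ w := fun f => exists_mem_ne (by
    rw [card_sdiff_of_subset (Y.sub f), Y.hN, Y.hS]; omega) w
  choose ρ h1 h2 using this
  obtain ⟨δ, -, h⟩ := exists_mem_notMem_of_card_lt_card (t := univ)
    (s := X ∪ (Lv S U 1).image c ∪ U.image fun f => c (ρ f)) (by
      have a1 := card_union_le (X ∪ (Lv S U 1).image c) (U.image fun f => c (ρ f))
      have a2 := card_union_le X ((Lv S U 1).image c)
      have a3 : ((Lv S U 1).image c).card ≤ _ := card_image_le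
      have a4 : (U.image fun f => c (ρ f)).card ≤ _ := card_image_le
      have := Y.cnt r
      have := r.1
      have := Y.big
      have := Y.hb
      rw [card_univ, Fintype.card_fin]
      omega)
  simp only [mem_union, mem_image, not_or, not_exists, not_and] at h
  exact ⟨δ, h.1.1, h.1.2, fun f q => ⟨_, h1 f, h2 f, h.2 f q⟩⟩

lemma Sy.start (hT : ∀ U ∈ T, Rk S k U) (G : Good N S T (fun _ => False) c) {p : Prop}
    (h0 : ∀ c : V → Fin k, (∀ f α, ∃ v ∈ N f, c v = α) → p)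
    (ih : ∀ U ∈ T, ∀ z (c : V → Fin k), Prom N S U z c → Good N S T (· = z) c → p) : p := by
  rcases T.eq_empty_or_nonempty with rfl | ⟨U, hU⟩
  · exact h0 c fun f α => (G f (by simp) α).imp fun _ h => ⟨h.1, h.2.1⟩
  have r := hT U hU
  obtain ⟨z, hz⟩ : (Lv S U 2).Nonempty := card_pos.1 (by
    have := Y.cnt r; have := Y.big; omega)
  obtain ⟨δ, -, h1, h2⟩ := Y.newc r z c ∅ (by simp)
  refine ih U hU z (Function.update c z δ) ⟨hz, fun v h => ?_, fun f q => Or.inr ?_⟩ fun f q α => ?_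
  · rw [Function.update_self, Function.update_of_ne fun e => by
      simpa using (Y.eq' r r h (e ▸ hz)).2]
    exact h1 v h
  · obtain ⟨ρ, a1, a2, a3⟩ := h2 f q
    exact ⟨ρ, a1, by rwa [Function.update_self, Function.update_of_ne a2]⟩
  · obtain ⟨v, h, e, h' | h'⟩ := G f q α
    exacts [⟨v, h, by rwa [Function.update_of_ne fun e : v = z => h' U hU (e ▸ hz)], Or.inl h'⟩, h'.elim]

lemma Sy.fix {p : Prop} (h0 : ∀ c : V → Fin k, (∀ f α, ∃ v ∈ N f, c v = α) → p)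
    (T : Finset (Finset F)) : (∀ U ∈ T, Rk S k U) →
    ∀ U ∈ T, ∀ z (c : V → Fin k), Prom N S U z c → Good N S T (· = z) c → p := by
  induction T using Finset.strongInduction with
  | H T ih =>
  intro hT U hU z c ⟨hz, p1, p2⟩ G
  have r := hT U hU
  have hT' : ∀ U' ∈ T.erase U, Rk S k U' := fun U' q => hT U' (mem_of_mem_erase q)
  have ih := ih _ (erase_ssubset hU) hT'
  have fin : ∀ c' : V → Fin k, Good N S (T.erase U) (fun _ => False) c' → p :=
    fun c' G' => Y.start hT' G' h0 ih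
  have hb := Y.hb
  have cB : ((Lv S U 1).image c).card = b := by
    have := (Y.cnt r).1
    rw [card_image_of_injOn fun v h w h' _ => card_le_one.1 (by omega) v h w h', this]
  have nz : c z ∉ (Lv S U 1).image c := fun h => by
    obtain ⟨v, h, e⟩ := mem_image.1 h
    exact p1 v h e
  have cB' := card_insert_of_notMem nz
  have vB : ∀ α ∈ (Lv S U 1).image c, ∃ f ∈ U, ∃ v ∈ N f, c v = α ∧ ∀ U ∈ T, v ∉ Lv S U 2 := by
    intro α h
    obtain ⟨v, h, e⟩ := mem_image.1 h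
    obtain ⟨f, q, q'⟩ := lv_ex h
    exact ⟨f, q, v, Y.sub f q', e, fun U' a h' => by simpa using (Y.eq' r (hT U' a) h h').2⟩
  obtain ⟨fz, z1, z2⟩ := lv_ex hz
  by_cases c1 : ∃ f ∈ U, z ∈ N f \ S f
  · obtain ⟨f, q, h⟩ := c1
    obtain ⟨c', G', -⟩ := Y.step hT hU G c (fun _ _ => rfl) {z} (by simp) (by simpa)
      (fun _ => False) {c z} ((Lv S U 1).image c) (by simpa using p1) (fun α a g q' => ⟨z, by
        rcases r.oth hz q q' (mem_sdiff.1 h).2 with e | rfl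
        exacts [Y.sub g e, (mem_sdiff.1 h).1], by simp_all, by simp⟩)
      (fun α a => by
        obtain ⟨f, q, v, a1, a2, a3⟩ := vB α a
        exact ⟨f, q, v, a1, a2, Or.inr a3⟩) (by rw [cB, card_singleton, card_singleton])
      (by rw [cB, card_singleton]; omega) (by rw [cB, card_singleton]; omega)
    exact fin c' G'
  replace p2 : ∀ f ∈ U, ∃ ρ ∈ N f \ S f, c ρ ≠ c z := fun f q =>
    (p2 f q).resolve_left fun h => c1 ⟨f, q, h⟩
  have ds : ∀ f ∈ U, ∀ ρ ∈ N f \ S f, ∀ w ∈ Lv S U 2 \ S f, w ≠ z → ρ ≠ z →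
      ∀ δ ∉ insert (c z) ((Lv S U 1).image c), ∀ Q : V → Prop,
      (ρ = w ∨ ((∀ U ∈ T, ρ ∉ Lv S U 2) ∧ c ρ = δ) ∨
        (ρ ∉ Lv S U 2 ∧ Q ρ ∧ ∃ U ∈ T, ρ ∈ Lv S U 2)) →
      ∃ c' : V → Fin k, Good N S (T.erase U) Q c' ∧ (ρ ∉ Lv S U 2 → c' ρ = δ) ∧
        ∀ v, v ≠ ρ → v ≠ w → c v ≠ δ → c' v ≠ δ := by
    intro f q ρ hρ w hw wz ρz δ hδ Q h
    obtain ⟨w1, w2⟩ := mem_sdiff.1 hw
    have u1 : Function.update (Function.update c ρ δ) w δ ρ = δ := by
      by_cases e : ρ = w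
      · rw [e, Function.update_self]
      · rw [Function.update_of_ne e, Function.update_self]
    have u2 : ∀ v, (∀ U ∈ T, v ∉ Lv S U 2) ∨ v = z →
        Function.update (Function.update c ρ δ) w δ v = c v := fun v h' => by
      have n : v ≠ w := by rintro rfl; exact h'.elim (fun h' => h' U hU w1) wz
      by_cases e : v = ρ
      · subst e
        rcases h with h | h | ⟨-, -, U', a, h⟩
        exacts [absurd h n, u1.trans h.2.symm, h'.elim (fun h' => absurd h (h' U' a)) (absurd · ρz)]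
      · rw [Function.update_of_ne n, Function.update_of_ne e]
    obtain ⟨c', G', a1, a2⟩ := Y.step hT hU G _ u2 {z, w} (by simp)
      (by simp [insert_subset_iff, hz, w1]) Q {δ} (insert (c z) ((Lv S U 1).image c))
      (disjoint_singleton_left.2 hδ) (fun α a g q' => by
        rw [mem_singleton.1 a]
        rcases r.oth w1 q q' w2 with e | rfl
        · exact ⟨w, Y.sub g e, Function.update_self .., by simp⟩
        · refine ⟨ρ, (mem_sdiff.1 hρ).1, u1, ?_⟩
          rcases h with h | h | h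
          exacts [by simp [h], Or.inr (Or.inl h.1), Or.inr (Or.inr ⟨h.1, h.2.1⟩)])
      (fun α a => by
        rcases mem_insert.1 a with rfl | a
        · exact ⟨fz, z1, z, Y.sub _ z2, u2 z (Or.inr rfl), by simp⟩
        · obtain ⟨f, q, v, a1, a2, a3⟩ := vB α a
          exact ⟨f, q, v, a1, (u2 v (Or.inl a3)).trans a2, Or.inr a3⟩)
      (by rw [cB', cB, card_pair wz.symm, card_singleton]; omega)
      (by rw [cB', cB, card_pair wz.symm]; omega) (by rw [cB', cB, card_singleton]; omega)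
    refine ⟨c', G', fun h => (a1 ρ h).trans u1, fun v n1 n2 n3 => (a2 v).elim (fun e => ?_)
      (by simpa using ·)⟩
    rwa [e, Function.update_of_ne n2, Function.update_of_ne n1]
  have ew : ∀ f ∈ U, ∃ w ∈ Lv S U 2 \ S f, w ≠ z := fun f q =>
    exists_mem_ne (by have := Y.typ r q; omega) z
  have : Nonempty V := ⟨z⟩
  choose! ρ h1 h2 using p2
  have ρz : ∀ f ∈ U, ρ f ≠ z := fun f q e => h2 f q (e ▸ rfl)
  by_cases c2 : ∀ f ∈ U, (∀ U ∈ T, ρ f ∉ Lv S U 2) ∧ c (ρ f) ∈ (Lv S U 1).image c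
  · have := card_pos.2 ⟨_, (c2 fz z1).2⟩
    obtain ⟨c', G', -⟩ := Y.step hT hU G c (fun _ _ => rfl) {z} (by simp) (by simpa)
      (fun _ => False) ((Lv S U 1).image c) {c z} (disjoint_singleton_right.2 nz)
      (fun α a g q' => ⟨ρ g, (mem_sdiff.1 (h1 g q')).1,
        card_le_one.1 (by omega) _ (c2 g q').2 _ a, Or.inr (Or.inl (c2 g q').1)⟩)
      (fun α a => ⟨fz, z1, z, Y.sub _ z2, (mem_singleton.1 a).symm, by simp⟩)
      (by rw [cB, card_singleton, card_singleton]; omega)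
      (by rw [card_singleton, card_singleton]; omega) (by rw [cB, card_singleton]; omega)
    exact fin c' G'
  push Not at c2
  obtain ⟨f, q, c2⟩ := c2
  obtain ⟨w, w1, w2⟩ := ew f q
  by_cases c3 : ∀ U ∈ T, ρ f ∉ Lv S U 2
  · obtain ⟨c', G', -⟩ := ds f q _ (h1 f q) w w1 w2 (ρz f q) (c (ρ f))
      (by rw [mem_insert, not_or]; exact ⟨h2 f q, c2 c3⟩) (fun _ => False)
      (Or.inr (Or.inl ⟨c3, rfl⟩))
    exact fin c' G'
  push Not at c3
  obtain ⟨U', a, h⟩ := c3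
  obtain ⟨δ, d1, d2, d3⟩ := Y.newc (hT U' a) w c (insert (c z) ((Lv S U 1).image c)) (by omega)
  by_cases e : U' = U
  · obtain ⟨c', G', -⟩ := ds f q _ (h1 f q) (ρ f) (mem_sdiff.2 ⟨e ▸ h, (mem_sdiff.1 (h1 f q)).2⟩)
      (ρz f q) (ρz f q) δ d1 (fun _ => False) (Or.inl rfl)
    exact fin c' G'
  have n : ρ f ∉ Lv S U 2 := fun h' => e (Y.eq' (hT U' a) r h h').1
  obtain ⟨c', G', a1, a2⟩ := ds f q _ (h1 f q) w w1 w2 (ρz f q) δ d1 (· = ρ f)
    (Or.inr (Or.inr ⟨n, rfl, U', a, h⟩))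
  refine ih U' (mem_erase.2 ⟨e, a⟩) (ρ f) c' ⟨h, fun v h' => ?_, fun g q' => ?_⟩ G'
  · rw [a1 n]
    refine a2 v ?_ ?_ (d2 v h') <;> rintro rfl
    exacts [by simpa using (Y.eq' (hT U' a) (hT U' a) h' h).2,
      by simpa using (Y.eq' (hT U' a) r h' (mem_sdiff.1 w1).1).2]
  · obtain ⟨v, v1, v2, v3⟩ := d3 g q'
    by_cases e : v = ρ f
    exacts [Or.inl (e ▸ v1), Or.inr ⟨v, v1, a1 n ▸ a2 v e v2 v3⟩]

theorem Sy.poly : ∃ c : V → Fin k, ∀ f α, ∃ v ∈ N f, c v = α := by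
  have := Y.hk
  have := Y.hb
  have := Y.big
  let T : Finset (Finset F) := univ.filter (Rk S k)
  have hT : ∀ U ∈ T, Rk S k U := fun U q => (mem_filter.1 q).2
  obtain ⟨c, hc⟩ := coverS S Y.two (fun f => ∀ U ∈ T, f ∉ U) k (d - k)
    (fun f _ => Or.inl (by rw [Y.hS]; omega)) (by omega) (by omega) (by omega)
    fun x y z rx _ _ n1 n2 n3 => by
      by_contra q
      refine rx {x, y, z} (mem_filter.2 ⟨mem_univ _, card_eq_three.2 ⟨x, y, z, n1, n2, n3, rfl⟩,
        ?_⟩) (by simp)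
      rw [← card_union_of_disjoint (disjoint_left.2 fun v h h' => by
        simpa using (mem_lv.1 h).symm.trans (mem_lv.1 h'))]
      refine (card_le_card (t := S x ∪ S y ∪ S z) fun v h => ?_).trans_lt (by omega)
      obtain ⟨f, a, a'⟩ := (mem_union.1 h).elim lv_ex lv_ex
      simp only [mem_insert, mem_singleton, mem_union] at a ⊢
      rcases a with rfl | rfl | rfl <;> tauto
  have h0 : ∀ c : V → Fin k, (∀ f α, ∃ v ∈ N f, c v = α) →
    ∃ c : V → Fin k, ∀ f α, ∃ v ∈ N f, c v = α := fun c h => ⟨c, h⟩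
  refine Y.start hT (c := c) (fun f q α => ?_) h0 (Y.fix h0 T hT)
  obtain ⟨v, h, e⟩ := (hc f q).1 (by rw [Y.hS]; omega) α
  exact ⟨v, Y.sub f h, e, Or.inl fun U a h' => q U a (Y.mem h' h)⟩

omit Y in
theorem exact_of (g : ℕ) (hg : 5 ≤ g) (h : ∀ (V F : Type) [Fintype V] [Fintype F]
    (N : F → Finset V), (Plan fun v f => v ∈ N f) → (∀ f, (N f).card = g) →
      ∃ c : V → Fin ((3 * g - 1) / 4), ∀ f α, ∃ v ∈ N f, c v = α) :
    IsLeast {k | ∃ (D : Type) (_ : Finite D) (M : PlaneMap D), M.minFace = g ∧ M.polyNum = k}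
      ((3 * g - 1) / 4) := by
  have lower : ∀ (D : Type) [Finite D] (M : PlaneMap D), M.minFace = g →
      (3 * g - 1) / 4 ≤ M.polyNum := by
    intro D _ M hM
    have := Fintype.ofFinite D
    obtain ⟨d⟩ := M.nonempty
    have : ∀ f, ∃ N : Finset (Orb M.σ), (∀ v ∈ N, v ∈ M.faceVerts f) ∧ N.card = g := fun f => by
      have h1 : g ≤ (M.faceVerts f).ncard := hM ▸ Nat.sInf_le ⟨f, rfl⟩
      rw [Set.ncard_eq_toFinset_card'] at h1
      obtain ⟨N, h2, h3⟩ := exists_subset_card_eq h1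
      exact ⟨N, fun v hv => Set.mem_toFinset.1 (h2 hv), h3⟩
    choose N h1 h2 using this
    obtain ⟨c, hc⟩ := h _ _ N (M.plan.mono fun v f => h1 f v) h2
    refine le_csSup ⟨Fintype.card (Orb M.σ), ?_⟩ ⟨c, fun f α => ?_⟩
    · rintro k ⟨c, hc⟩
      rw [← Fintype.card_fin k]
      refine Fintype.card_le_of_surjective c fun α => ?_
      obtain ⟨v, -, h⟩ := hc (orb _ d) α
      exact ⟨v, h⟩
    · obtain ⟨v, a, b⟩ := hc f α
      exact ⟨v, h1 f v a, b⟩
  obtain ⟨D, _, M, h1, h2⟩ := upper g hg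
  refine ⟨⟨D, inferInstance, M, h1, le_antisymm h2 (lower D M h1)⟩, ?_⟩
  rintro k ⟨D', _, M', h3, rfl⟩
  exact lower D' M' h3

omit Y in
theorem res01 (g : ℕ) (hg : (g % 4 = 0 ∧ 8 ≤ g) ∨ (g % 4 = 1 ∧ 13 ≤ g)) :
    IsLeast {k | ∃ (D : Type) (_ : Finite D) (M : PlaneMap D), M.minFace = g ∧ M.polyNum = k}
      ((3 * g - 1) / 4) := by
  refine exact_of g (by omega) fun V F _ _ N plan hN => ?_
  have hN' : ∀ f, (N f).card = g - 2 + 2 := fun f => by rw [hN]; omega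
  obtain ⟨S, h1, h2⟩ := orient N plan (g - 2) hN'
  exact Sy.poly (b := g % 4) ⟨fun f => (h1 f).1, fun f => (h1 f).2, hN', h2, by omega, by omega,
    by omega⟩

end Pool.Agent.P.MP_b2489f_co.Cover
end

-- part Pool.Agent.P.MP_b2489f_co.Spr
section

set_option autoImplicit false
set_option linter.unusedSectionVars false

/-! A minor-closed form of planarity, and the rooted colouring without dense triples. -/

namespace Pool.Agent.P.MP_b2489f_co.Cover

open Finset Classical Sum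

variable {V F : Type} {I : V → F → Prop}

/-- Euler's bound for all bipartite minors of the incidence graph -/
def Spr (I : V → F → Prop) : Prop :=
  ∀ (ι : Type) [Fintype ι] [Nonempty ι] (W : ι → Set (V ⊕ F)),
    (∀ i j x, x ∈ W i → x ∈ W j → i = j) → (∀ i, Conn I (W i)) →
    ∀ (A : Finset (ι × ι)) (χ : ι → Prop), (∀ a ∈ A, χ a.1 ∧ ¬ χ a.2) →
    (∀ a ∈ A, Touch I (W a.1) (W a.2)) → Fintype.card ι ≤ A.card →
    A.card + 4 ≤ 2 * Fintype.card ι

lemma Spr.map {V' F' : Type} {J : V' → F' → Prop} (h : Spr I) (φ : V' ⊕ F' → Set (V ⊕ F))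
    (dis : ∀ x y z, z ∈ φ x → z ∈ φ y → x = y) (cn : ∀ x, Conn I (φ x))
    (ad : ∀ v f, J v f → Touch I (φ (inl v)) (φ (inr f))) : Spr J := by
  have ad' : ∀ x y, Adj J x y → Touch I (φ x) (φ y) := by
    rintro (x | x) (y | y) a
    exacts [a.elim, ad _ _ a, (ad _ _ a).symm, a.elim]
  intro ι _ _ W h1 h2 A χ h3 h4 h5
  refine h ι (fun i => {z | ∃ x ∈ W i, z ∈ φ x}) ?_ (fun i => ?_) A χ h3 (fun a q => ?_) h5
  · rintro i j z ⟨x, a, b⟩ ⟨y, a', b'⟩
    exact h1 i j x a (dis x y z b b' ▸ a')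
  · obtain ⟨r, hr⟩ := h2 i
    choose R hR using cn
    have sb : ∀ x ∈ W i, φ x ⊆ {z | ∃ x ∈ W i, z ∈ φ x} := fun x a z b => ⟨x, a, b⟩
    refine ⟨R r, ?_⟩
    rintro z ⟨x, a, b⟩
    have p := hr x a
    induction p generalizing z with
    | refl => exact rtg_mono (sb _ a) (hR _ z b)
    | @tail y x _ p ih =>
      obtain ⟨u, u1, w, w1, e⟩ := ad' _ _ p.2.2
      exact ((ih u p.1 u1).tail ⟨sb _ p.1 u1, sb _ a w1, e⟩).trans
        (rtg_mono (sb _ a) ((rtg_symm (hR _ w w1)).trans (hR _ z b)))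
  · obtain ⟨x, a, y, a', e⟩ := h4 a q
    exact (ad' _ _ e).mono (fun z b => ⟨x, a, b⟩) fun z b => ⟨y, a', b⟩

lemma Spr.hub (h : Spr I) {H1 H2 H3 : Set (V ⊕ F)} (c1 : Conn I H1) (c2 : Conn I H2)
    (c3 : Conn I H3) (d1 : ∀ x ∈ H1, x ∉ H2) (d2 : ∀ x ∈ H1, x ∉ H3) (d3 : ∀ x ∈ H2, x ∉ H3)
    (Z : Finset V) (hZ : ∀ z ∈ Z, (inl z ∉ H1 ∧ inl z ∉ H2 ∧ inl z ∉ H3) ∧
      (∃ f, inr f ∈ H1 ∧ I z f) ∧ (∃ f, inr f ∈ H2 ∧ I z f) ∧ ∃ f, inr f ∈ H3 ∧ I z f) :
    Z.card ≤ 2 := by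
  by_contra hc
  have : Fintype.card (Fin 3) ≤ Fintype.card Z := by
    rw [Fintype.card_coe, Fintype.card_fin]; omega
  obtain ⟨e⟩ := Function.Embedding.nonempty_of_card_le this
  let A : Finset ((Fin 3 ⊕ Fin 3) × (Fin 3 ⊕ Fin 3)) :=
    univ.image fun p : Fin 3 × Fin 3 => (inl p.1, inr p.2)
  have hA : A.card = 9 := by
    rw [card_image_of_injective]
    · simp
    · rintro ⟨a, b⟩ ⟨c, d⟩ h
      simpa using h
  have n : ∀ i j, inl (e j).1 ∉ ![H1, H2, H3] i := fun i j => by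
    have := (hZ _ (e j).2).1
    fin_cases i <;> simp [this]
  have := h (Fin 3 ⊕ Fin 3) (Sum.elim ![H1, H2, H3] fun j => {inl (e j).1}) ?_ ?_ A
    (fun i => i.isLeft = true) ?_ ?_ (by simp [hA])
  · simp [hA] at this
  · rintro (i | i) (j | j) x a b
    · fin_cases i <;> fin_cases j <;> first | rfl | (exfalso; simp at a b; grind)
    · exact (n i j (b ▸ a)).elim
    · exact (n j i (a ▸ b)).elim
    · rw [e.injective (Subtype.ext (inl_injective (a.symm.trans b)))]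
  · rintro (i | i)
    · fin_cases i
      exacts [c1, c2, c3]
    · exact conn_singleton _ _
  · intro a ha
    obtain ⟨p, -, rfl⟩ := mem_image.1 ha
    simp
  · intro a ha
    obtain ⟨⟨i, j⟩, -, rfl⟩ := mem_image.1 ha
    obtain ⟨-, ⟨f1, a1, b1⟩, ⟨f2, a2, b2⟩, f3, a3, b3⟩ := hZ _ (e j).2
    fin_cases i
    exacts [⟨_, a1, _, rfl, b1⟩, ⟨_, a2, _, rfl, b2⟩, ⟨_, a3, _, rfl, b3⟩]

variable [Fintype V] [Fintype F] {k : ℕ}

lemma spr_of (h : Plan I) : Spr I := fun _ _ _ W a b A χ c d e => h.minor4 W a b A χ c d e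

lemma Spr.sparse (h : Spr I) (E : Finset (V × F)) (hE : ∀ e ∈ E, I e.1 e.2) (ne : E.Nonempty) :
    E.card + 4 ≤ 2 * ((E.image Prod.fst).card + (E.image Prod.snd).card) ∨
      E.card < (E.image Prod.fst).card + (E.image Prod.snd).card := by
  obtain ⟨e0, he0⟩ := ne
  let ι := (E.image Prod.fst : Finset V) ⊕ (E.image Prod.snd : Finset F)
  have : Nonempty ι := ⟨inl ⟨e0.1, mem_image_of_mem _ he0⟩⟩
  let g : E → ι × ι := fun e =>
    (inl ⟨e.1.1, mem_image_of_mem _ e.2⟩, inr ⟨e.1.2, mem_image_of_mem _ e.2⟩)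
  have hg : Function.Injective g := by
    intro a b hab
    simp only [g, ι, Prod.mk.injEq, inl.injEq, Subtype.mk.injEq, inr.injEq] at hab
    exact Subtype.ext (Prod.ext hab.1 hab.2)
  have hA : (univ.image g).card = E.card := by
    rw [card_image_of_injective _ hg]; simp
  have hι : Fintype.card ι = (E.image Prod.fst).card + (E.image Prod.snd).card := by
    simp only [ι, Fintype.card_sum, Fintype.card_coe]
  by_cases hc : Fintype.card ι ≤ (univ.image g).card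
  · have := h ι (fun i => {Sum.map Subtype.val Subtype.val i}) ?_
      (fun i => conn_singleton _ _) (univ.image g) (fun i => i.isLeft = true) ?_ ?_ hc
    · omega
    · intro i j x h1 h2
      exact (Subtype.val_injective.sumMap Subtype.val_injective) (h1.symm.trans h2)
    · intro a ha
      obtain ⟨p, -, rfl⟩ := mem_image.1 ha
      simp [g]
    · intro a ha
      obtain ⟨p, -, rfl⟩ := mem_image.1 ha
      exact ⟨_, rfl, _, rfl, hE _ p.2⟩
  · omega

lemma Spr.orient {N : F → Finset V} (h : Spr fun v f => v ∈ N f) (D : Finset V) (hD : D.card ≤ 2) :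
    ∃ S : F → Finset V, (∀ f, S f ⊆ N f \ D ∧ (S f).card = (N f).card - 2) ∧
      ∀ v, (univ.filter fun f => v ∈ S f).card ≤ 2 := by
  rcases isEmpty_or_nonempty F with _ | _
  · exact ⟨N, fun f => isEmptyElim f, fun v => by simp⟩
  obtain ⟨φ, inj, hφ⟩ := hall_aux (K := V × Bool ⊕ F × Bool)
    (univ.filter fun e : V × F => e.1 ∈ N e.2)
    (fun e => (({e.1} \ D) ×ˢ univ).disjSum ({e.2} ×ˢ univ)) fun S hS ne => by
      refine le_trans ?_ (card_le_card (s := ((S.image Prod.fst \ D) ×ˢ univ).disjSum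
          (S.image Prod.snd ×ˢ univ)) ?_)
      · have := h.sparse S (fun e b => (mem_filter.1 (hS b)).2) ne
        have := le_card_sdiff D (S.image Prod.fst)
        have := card_pos.2 (ne.image Prod.snd)
        simp only [card_disjSum, card_product, card_univ, Fintype.card_bool]
        omega
      · rintro (⟨v, b⟩ | ⟨v, b⟩) q <;> simp only [inl_mem_disjSum, inr_mem_disjSum, mem_product,
          mem_image, mem_univ, and_true, mem_sdiff] at q
        · obtain ⟨⟨e, q, rfl⟩, q'⟩ := q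
          exact (@mem_biUnion _ _ _ _ (_) _).2 ⟨e, q, by simp [q']⟩
        · obtain ⟨e, q, rfl⟩ := q
          exact (@mem_biUnion _ _ _ _ (_) _).2 ⟨e, q, by simp⟩
  have key : ∀ f, ∃ S ⊆ (N f).filter fun v => (φ (v, f)).isLeft, S.card = (N f).card - 2 := by
    refine fun f => exists_subset_card_eq ?_
    have h1 := card_filter_add_card_filter_not (s := N f) fun v => (φ (v, f)).isLeft
    have h2 : ((N f).filter fun v => ¬ (φ (v, f)).isLeft).card ≤
        ({inr (f, false), inr (f, true)} : Finset (V × Bool ⊕ F × Bool)).card := by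
      refine card_le_card_of_injOn (fun v => φ (v, f)) (fun v b => ?_) fun v b w b' e =>
        congrArg Prod.fst (inj (by simpa using (mem_filter.1 b).1)
          (by simpa using (mem_filter.1 b').1) e)
      have q := hφ (v, f) (by simpa using (mem_filter.1 b).1)
      have q' := (mem_filter.1 b).2
      rcases hh : φ (v, f) with x | ⟨x, _ | _⟩ <;> simp_all
    have := h2.trans card_le_two
    omega
  choose S h1 h2 using key
  refine ⟨S, fun f => ⟨fun v b => ?_, h2 f⟩, fun v => ?_⟩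
  · obtain ⟨q, q'⟩ := mem_filter.1 (h1 _ b)
    have q'' := hφ (v, f) (by simpa using q)
    rcases hh : φ (v, f) with ⟨x, _⟩ | x <;> simp_all
    exact q''.1 ▸ q''.2
  refine le_trans (card_le_card_of_injOn
    (t := ({inl (v, false), inl (v, true)} : Finset (V × Bool ⊕ F × Bool)))
    (fun f => φ (v, f)) (fun f b => ?_) fun f b w b' e =>
      congrArg Prod.snd (inj (by simpa using (mem_filter.1 (h1 _ (mem_filter.1 b).2)).1)
        (by simpa using (mem_filter.1 (h1 _ (mem_filter.1 b').2)).1) e)) card_le_two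
  obtain ⟨q, q'⟩ := mem_filter.1 (h1 _ (mem_filter.1 b).2)
  have q := hφ (v, f) (by simpa using q)
  rcases hh : φ (v, f) with ⟨x, _ | _⟩ | x <;> simp_all

/-- at most two repeated colours -/
def Dup (c : V → Fin k) (A : Finset V) : Prop := A.card ≤ (A.image c).card + 2

/-- what is asked of a face: all colours if it is big, at most two repetitions otherwise -/
def Req (g : ℕ) (c : V → Fin k) (A : Finset V) : Prop :=
  (A.card = g → ∀ α, ∃ v ∈ A, c v = α) ∧ (A.card ≠ g → Dup c A)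

lemma Req.cg {g : ℕ} {c c' : V → Fin k} {A : Finset V} (h : Req g c A) (e : ∀ v ∈ A, c' v = c v) :
    Req g c' A :=
  ⟨fun q α => (h.1 q α).imp fun v a => ⟨a.1, (e v a.1).trans a.2⟩,
    fun q => by unfold Dup; rw [image_congr e]; exact h.2 q⟩

lemma base {N : F → Finset V} (h : Spr fun v f => v ∈ N f) {g : ℕ} (hg : 4 * k + 2 = 3 * g)
    (big : 60 ≤ g) (hN : ∀ f, (N f).card = g ∨ (N f).card ≤ 13)
    (nd : ∀ x y z, x ≠ y → x ≠ z → y ≠ z → (N x).card = g → (N y).card = g → (N z).card = g →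
      2 * k + 6 ≤ (N x ∪ N y ∪ N z).card) (ρ : F) (hρ : (N ρ).card ≤ 13) (c0 : V → Fin k)
    (h0 : Dup c0 (N ρ)) : ∃ c : V → Fin k, (∀ v ∈ N ρ, c v = c0 v) ∧ ∀ f, Req g c (N f) := by
  obtain ⟨A, a1, a2, a3⟩ := Finset.exists_subset_injOn_image_eq_of_surjOn (f := c0)
    (N ρ : Set V) ((N ρ).image c0) (by simp [Set.SurjOn])
  obtain ⟨B, b1, b2⟩ := exists_subset_card_eq (s := A) (n := (N ρ).card - 2) (by
    rw [← card_image_of_injOn a2, a3]; unfold Dup at h0; omega)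
  have b3 : B ⊆ N ρ := fun v a => a1 (b1 a)
  obtain ⟨S, s1, s2⟩ := h.orient (N ρ \ B) (by rw [card_sdiff_of_subset b3]; omega)
  have s3 : ∀ f, S f ⊆ N f := fun f => (s1 f).1.trans sdiff_subset
  obtain ⟨c, hc⟩ := coverS S s2 (fun _ => True) k (g - 2 - k)
    (fun f _ => by rw [(s1 f).2]; have := hN f; omega) (by omega) (by omega) (by omega)
    fun x y z _ _ _ n1 n2 n3 => by
      have u1 : (S x).card ≤ (S x ∪ S y ∪ S z).card := card_le_card (by grind)
      have u2 : (S y).card ≤ (S x ∪ S y ∪ S z).card := card_le_card (by grind)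
      have u3 : (S z).card ≤ (S x ∪ S y ∪ S z).card := card_le_card (by grind)
      have u4 : (N x ∪ N y ∪ N z).card ≤
          (S x ∪ S y ∪ S z ∪ (N x \ S x ∪ N y \ S y ∪ N z \ S z)).card := card_le_card (by grind)
      have u5 := card_union_le (S x ∪ S y ∪ S z) (N x \ S x ∪ N y \ S y ∪ N z \ S z)
      have u6 := card_union_le (N x \ S x ∪ N y \ S y) (N z \ S z)
      have u7 := card_union_le (N x \ S x) (N y \ S y)
      simp only [card_sdiff_of_subset (s3 _), (s1 _).2] at u1 u2 u3 u6 u7 ⊢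
      have := nd x y z n1 n2 n3
      have := hN x
      have := hN y
      have := hN z
      omega
  have e : S ρ = B := eq_of_subset_of_card_le (fun v a => by
    have := (s1 ρ).1 a
    grind) (by rw [b2, (s1 ρ).2])
  have i1 : Set.InjOn c B := e ▸ (hc ρ trivial).2 (by rw [(s1 ρ).2]; omega)
  obtain ⟨σ, hσ⟩ := Equiv.Perm.exists_extending_pair (f := fun v : B => c v) (g := fun v => c0 v)
    (fun v w q => Subtype.ext (i1 v.2 w.2 q)) fun v w q => Subtype.ext (a2 (b1 v.2) (b1 w.2) q)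
  have u : ∀ f, ∀ v ∈ S f, (if v ∈ N ρ \ B then c0 v else σ (c v)) = σ (c v) :=
    fun f v a => if_neg (mem_sdiff.1 ((s1 f).1 a)).2
  refine ⟨fun v => if v ∈ N ρ \ B then c0 v else σ (c v), fun v a => ?_,
    fun f => ⟨fun q α => ?_, fun q => ?_⟩⟩
  · by_cases q : v ∈ N ρ \ B
    exacts [if_pos q, (if_neg q).trans (hσ ⟨v, by grind⟩)]
  · obtain ⟨v, a, e⟩ := (hc f trivial).1 (by rw [(s1 f).2]; omega) (σ.symm α)
    exact ⟨v, s3 f a, (u f v a).trans (by simp [e])⟩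
  · have i2 := (hc f trivial).2 (by rw [(s1 f).2]; have := hN f; omega)
    have := card_le_card (image_subset_image
      (f := fun v => if v ∈ N ρ \ B then c0 v else σ (c v)) (s3 f))
    rw [card_image_of_injOn fun v a w a' q => i2 a a'
      (σ.injective (by rwa [← u f v a, ← u f w a'])), (s1 f).2] at this
    unfold Dup
    omega

end Pool.Agent.P.MP_b2489f_co.Cover
end

-- part Pool.Agent.P.MP_b2489f_co.Dense
section

set_option autoImplicit false
set_option linter.unusedSectionVars false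

/-! The regions cut out by a dense triple of faces. -/

namespace Pool.Agent.P.MP_b2489f_co.Cover

open Finset Classical Sum Relation

variable {V F : Type} [Fintype V] [Fintype F] {k g : ℕ} {N : F → Finset V} {U : Finset F}
  {f f' f0 : F} {v : V}

/-- faces outside `U` joined through vertices outside the faces of `U` -/
def Cl (N : F → Finset V) (U : Finset F) : F → F → Prop :=
  ReflTransGen fun a b => a ∉ U ∧ b ∉ U ∧ ∃ v, v ∉ U.biUnion N ∧ v ∈ N a ∧ v ∈ N b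

/-- the attachments of a class -/
noncomputable def Tt (N : F → Finset V) (U : Finset F) (f : F) : Finset V :=
  (U.biUnion N).filter fun v => ∃ f', Cl N U f f' ∧ v ∈ N f'

def Cs (N : F → Finset V) (U : Finset F) (f : F) : Set (V ⊕ F) :=
  {x | ∃ f', Cl N U f f' ∧ (x = inr f' ∨ ∃ v, v ∉ U.biUnion N ∧ v ∈ N f' ∧ x = inl v)}

lemma Cl.symm (h : Cl N U f f') : Cl N U f' f := by
  induction h with
  | refl => exact ReflTransGen.refl
  | tail _ h ih =>
    obtain ⟨a, b, v, c, d, e⟩ := h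
    exact ReflTransGen.head ⟨b, a, v, c, e, d⟩ ih

lemma Cl.out (h : Cl N U f f') (n : f ∉ U) : f' ∉ U := by
  induction h with
  | refl => exact n
  | tail _ h _ => exact h.2.1

lemma cs_inr : inr f' ∈ Cs N U f ↔ Cl N U f f' := by simp [Cs]

lemma cs_inl (h : inl v ∈ Cs N U f) : v ∉ U.biUnion N := by
  obtain ⟨_, -, e | ⟨w, a, -, e⟩⟩ := h
  exacts [by simp at e, inl_injective e ▸ a]

lemma conn_cs : Conn (fun v f => v ∈ N f) (Cs N U f) := by
  have key : ∀ f', Cl N U f f' → ReflTransGen (fun a b => a ∈ Cs N U f ∧ b ∈ Cs N U f ∧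
      Adj (fun v f => v ∈ N f) a b) (inr f) (inr f') := by
    intro f' h
    induction h with
    | refl => rfl
    | @tail a b h h' ih =>
      obtain ⟨v, c, d, e⟩ := h'.2.2
      have m : inl v ∈ Cs N U f := ⟨a, h, Or.inr ⟨v, c, d, rfl⟩⟩
      exact (ih.tail ⟨cs_inr.2 h, m, d⟩).tail ⟨m, cs_inr.2 (h.tail h'), e⟩
  refine ⟨inr f, ?_⟩
  rintro x ⟨f', h, rfl | ⟨v, a, b, rfl⟩⟩
  exacts [key f' h, (key f' h).tail ⟨cs_inr.2 h, ⟨f', h, Or.inr ⟨v, a, b, rfl⟩⟩, b⟩]

lemma mem_tt : v ∈ Tt N U f ↔ v ∈ U.biUnion N ∧ ∃ f', Cl N U f f' ∧ v ∈ N f' := mem_filter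

lemma conn_hub {H : Set (V ⊕ F)} (h : Conn (fun v f => v ∈ N f) H) :
    Conn (fun v f => v ∈ N f)
      (H ∪ {x | ∃ f, (f ∉ U ∧ ∃ v ∈ Tt N U f, inl v ∈ H) ∧ x ∈ Cs N U f}) :=
  conn_iUnion h _ _ (fun _ _ => conn_cs) fun _ ⟨_, v, a, b⟩ => by
    obtain ⟨-, f', c, d⟩ := mem_tt.1 a
    exact ⟨_, b, _, cs_inr.2 c, d⟩

lemma conn_add {H : Set (V ⊕ F)} (h : Conn (fun v f => v ∈ N f) H) (A : Finset V)
    (hA : ∀ v ∈ A, ∃ f, inr f ∈ H ∧ v ∈ N f) :
    Conn (fun v f => v ∈ N f) (H ∪ {x | ∃ v, v ∈ A ∧ x ∈ ({inl v} : Set (V ⊕ F))}) :=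
  conn_iUnion h _ _ (fun _ _ => conn_singleton _ _) fun v a => by
    obtain ⟨f, b, c⟩ := hA v a
    exact ⟨_, b, _, rfl, c⟩

structure Dn (N : F → Finset V) (U : Finset F) (k g : ℕ) : Prop where
  spr : Spr fun v f => v ∈ N f
  card : U.card = 3
  hN : ∀ f ∈ U, (N f).card = g
  den : (U.biUnion N).card < 2 * k + 6
  hk : 4 * k + 2 = 3 * g
  big : 126 ≤ g

variable (D : Dn N U k g)
include D

lemma Dn.rk : Rk N (Fintype.card V + 1) U :=
  ⟨D.card, by have := card_le_univ (Lv N U 1); have := card_le_univ (Lv N U 2); omega⟩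

lemma Dn.lv : v ∈ U.biUnion N ↔ v ∈ Lv N U 1 ∨ v ∈ Lv N U 2 ∨ v ∈ Lv N U 3 := by
  have h1 : (U.filter fun f => v ∈ N f).card ≤ 3 := D.card ▸ card_filter_le _ _
  have h2 : v ∈ U.biUnion N ↔ 0 < (U.filter fun f => v ∈ N f).card := by
    simp [card_pos, filter_nonempty_iff]
  simp only [h2, mem_lv]
  omega

lemma Dn.all (h : v ∈ Lv N U 3) (q : f ∈ U) : v ∈ N f := by
  have := eq_of_subset_of_card_le (filter_subset (fun f => v ∈ N f) U)
    (by rw [D.card, mem_lv.1 h])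
  rw [← this] at q
  exact (mem_filter.1 q).2

lemma Dn.oth (q : f ∈ U) : ∃ a ∈ U, ∃ b ∈ U, a ≠ f ∧ b ≠ f ∧ a ≠ b := by
  obtain ⟨a, a1, b, b1, n⟩ := one_lt_card.1 (show 1 < (U.erase f).card by
    rw [card_erase_of_mem q, D.card]; omega)
  rw [mem_erase] at a1 b1
  exact ⟨a, a1.2, b, b1.2, a1.1, b1.1, n⟩

lemma Dn.cnt : (Lv N U 1).card + 2 * (Lv N U 2).card + 3 * (Lv N U 3).card = 3 * g ∧
    (Lv N U 1).card + (Lv N U 2).card + (Lv N U 3).card < 2 * k + 6 ∧ (Lv N U 3).card ≤ 2 := by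
  have h0 : ∀ v, (U.filter fun f => v ∈ N f).card ≤ 3 := fun v => D.card ▸ card_filter_le _ _
  refine ⟨?_, lt_of_le_of_lt ?_ D.den, ?_⟩
  · have : ∑ f ∈ U, (N f).card = 3 * g := by
      rw [sum_congr rfl D.hN, sum_const, D.card, smul_eq_mul]
    have e : ∀ f, (N f).card = ∑ v, if v ∈ N f then 1 else 0 := fun f => by simp
    simp only [e] at this
    rw [← this, sum_comm, Lv, Lv, Lv, card_filter, card_filter, card_filter, mul_sum, mul_sum,
      ← sum_add_distrib, ← sum_add_distrib]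
    refine sum_congr rfl fun v _ => ?_
    have := h0 v
    rw [← card_filter]
    split_ifs <;> omega
  · rw [← card_union_of_disjoint, ← card_union_of_disjoint]
    · exact card_le_card fun v a => D.lv.2 (by simpa [or_assoc] using a)
    all_goals
      refine disjoint_left.2 fun v a b => ?_
      simp only [mem_union, mem_lv] at a b
      omega
  · obtain ⟨f, q⟩ := card_pos.1 (show 0 < U.card by rw [D.card]; omega)
    obtain ⟨a, a1, b, b1, n1, n2, n3⟩ := D.oth q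
    exact D.spr.hub (conn_singleton _ (inr f)) (conn_singleton _ (inr a)) (conn_singleton _ (inr b))
      (by simp [n1.symm]) (by simp [n2.symm]) (by simp [n3]) _ fun z h =>
        ⟨by simp, ⟨f, rfl, D.all h q⟩, ⟨a, rfl, D.all h a1⟩, b, rfl, D.all h b1⟩

lemma Dn.typ (q : f ∈ U) : 42 ≤ (Lv N U 2 \ N f).card ∧ (Lv N U 2 \ N f).card + 27 ≤ k := by
  have h1 := card_sdiff_add_card_inter (Lv N U 2) (N f)
  have h2 : (Lv N U 2 ∩ N f).card ≤ g := D.hN f q ▸ card_le_card inter_subset_right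
  have h3 : g ≤ (Lv N U 1 ∪ Lv N U 3 ∪ Lv N U 2 ∩ N f).card := D.hN f q ▸ card_le_card fun v h => by
    have := D.lv.1 (mem_biUnion.2 ⟨f, q, h⟩)
    simp only [mem_union, mem_inter]
    tauto
  have := card_union_le (Lv N U 1 ∪ Lv N U 3) (Lv N U 2 ∩ N f)
  have := card_union_le (Lv N U 1) (Lv N U 3)
  have := D.cnt
  have := D.hk
  have := D.big
  omega

lemma Dn.g1 (q : f ∈ U) (n : f0 ∉ U) (Z : Finset V)
    (hZ : ∀ z ∈ Z, z ∈ Tt N U f0 ∧ z ∈ N f ∧ z ∉ Lv N U 1) : Z.card ≤ 2 := by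
  obtain ⟨w, hw⟩ := card_pos.1 (show 0 < (Lv N U 2 \ N f).card by have := D.typ q; omega)
  obtain ⟨w1, w2⟩ := mem_sdiff.1 hw
  refine D.spr.hub (conn_singleton _ (inr f)) (conn_cs (U := U) (f := f0))
    (conn_iUnion (conn_singleton _ (inl w)) (fun a => a ∈ U ∧ a ≠ f) (fun a => {inr a})
      (fun _ _ => conn_singleton _ _) fun a b =>
        ⟨_, rfl, _, rfl, (D.rk.oth w1 q b.1 w2).resolve_right b.2⟩) ?_ ?_ ?_ Z fun z h => ?_
  · rintro _ rfl a
    exact (cs_inr.1 a).out n q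
  · rintro _ rfl (e | ⟨b, c, e⟩)
    exacts [by simp at e, c.2 (inr_injective e).symm]
  · rintro _ a (rfl | ⟨b, c, rfl⟩)
    exacts [cs_inl a (D.lv.2 (by simp [w1])), (cs_inr.1 a).out n c.1]
  · obtain ⟨h1, h2, h3⟩ := hZ z h
    obtain ⟨h4, f', h5, h6⟩ := mem_tt.1 h1
    obtain ⟨a, a1, a2⟩ := exists_mem_ne (s := U.filter fun f => z ∈ N f) (by
      have := D.lv.1 h4
      simp only [mem_lv] at this h3
      omega) f
    exact ⟨⟨by simp, fun a => cs_inl a h4, by simpa using fun e : z = w => w2 (e ▸ h2)⟩,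
      ⟨f, rfl, h2⟩, ⟨f', cs_inr.2 h5, h6⟩, a, Or.inr ⟨a, ⟨(mem_filter.1 a1).1, a2⟩, rfl⟩,
      (mem_filter.1 a1).2⟩

lemma Dn.tt3 (n : f0 ∉ U) : (Tt N U f0 \ Lv N U 1).card ≤ 3 := by
  have h1 : ∑ f ∈ U, ((Tt N U f0 \ Lv N U 1).filter fun v => v ∈ N f).card ≤ U.card * 2 :=
    sum_le_card_nsmul _ _ _ fun f q => D.g1 q n _ fun z h => by
      simp only [mem_filter (s := _ \ _), mem_sdiff] at h
      tauto
  simp only [card_filter] at h1
  rw [sum_comm, D.card] at h1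
  have h2 := card_nsmul_le_sum (Tt N U f0 \ Lv N U 1) (fun v => ∑ f ∈ U, if v ∈ N f then 1 else 0)
    2 fun v h => by
      have := D.lv.1 (mem_tt.1 (mem_sdiff.1 h).1).1
      have := (mem_sdiff.1 h).2
      simp only [mem_lv] at *
      rw [← card_filter]
      omega
  rw [smul_eq_mul] at h2
  omega

lemma Dn.tt (n : f0 ∉ U) : (Tt N U f0).card ≤ 13 := by
  have := D.tt3 n
  have := le_card_sdiff (Lv N U 1) (Tt N U f0)
  have := D.cnt
  have := D.hk
  omega

lemma Dn.g2 (q : f ∈ U) {H : Set (V ⊕ F)} (c : Conn (fun v f => v ∈ N f) H)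
    (h : ∀ a ∈ U, a ≠ f → inr a ∉ H) (Z : Finset V) (hZ : ∀ z ∈ Z, z ∈ Lv N U 2 ∧ z ∉ N f ∧
      inl z ∉ H ∧ ∃ f', f' ∉ U ∧ z ∈ Tt N U f' ∧ ∃ v ∈ Tt N U f', inl v ∈ H) : Z.card ≤ 2 := by
  obtain ⟨a, a1, b, b1, n1, n2, n3⟩ := D.oth q
  have key : ∀ a ∈ U, a ≠ f → ∀ x ∈ ({inr a} : Set (V ⊕ F)),
      x ∉ H ∪ {x | ∃ f, (f ∉ U ∧ ∃ v ∈ Tt N U f, inl v ∈ H) ∧ x ∈ Cs N U f} := by
    rintro a a1 n _ rfl (e | ⟨f', e, e'⟩)
    exacts [h a a1 n e, (cs_inr.1 e').out e.1 a1]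
  refine D.spr.hub (conn_singleton _ (inr a)) (conn_singleton _ (inr b)) (conn_hub (U := U) c)
    (by simp [n3]) (key a a1 n1) (key b b1 n2) Z fun z hz => ?_
  obtain ⟨h1, h2, h3, f', h4, h5, h6⟩ := hZ z hz
  obtain ⟨h7, f'', h8, h9⟩ := mem_tt.1 h5
  refine ⟨⟨by simp, by simp, ?_⟩, ⟨a, rfl, (D.rk.oth h1 q a1 h2).resolve_right n1⟩,
    ⟨b, rfl, (D.rk.oth h1 q b1 h2).resolve_right n2⟩, f'', Or.inr ⟨f', ⟨h4, h6⟩, cs_inr.2 h8⟩, h9⟩
  rintro (e | ⟨_, -, e⟩)
  exacts [h3 e, cs_inl e h7]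

omit D in
/-- the inner vertices that get a colour of their own -/
noncomputable def Sp (N : F → Finset V) (U : Finset F) (ρ : F) : Finset V :=
  (Lv N U 2 \ Tt N U ρ).filter fun y => ∃ f', f' ∉ U ∧ y ∈ Tt N U f' ∧ ∃ v ∈ Tt N U f',
    v ∈ Tt N U ρ ∨ ∀ f ∈ U, y ∉ N f → v ∈ N f

lemma Dn.sp (n : f0 ∉ U) : (Sp N U f0).card ≤ 12 := by
  rw [← D.rk.sum (Sp N U f0) ((filter_subset _ _).trans sdiff_subset)]
  refine (sum_le_card_nsmul _ _ 4 fun f q => ?_).trans (by rw [D.card]; rfl)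
  have h1 := D.g2 q (conn_add (conn_cs (U := U) (f := f0)) (Tt N U f0) fun v a => by
      obtain ⟨-, f', b, c⟩ := mem_tt.1 a
      exact ⟨f', cs_inr.2 b, c⟩)
    (fun a a1 _ e => by simpa using e.imp (fun e => (cs_inr.1 e).out n a1) id)
    ((Sp N U f0 \ N f).filter fun y => ∃ f', f' ∉ U ∧ y ∈ Tt N U f' ∧ ∃ v ∈ Tt N U f',
      v ∈ Tt N U f0) fun z h => by
      obtain ⟨h1, f', h2, h3, v, h4, h5⟩ := mem_filter.1 h
      obtain ⟨h6, h7⟩ := mem_sdiff.1 h1
      obtain ⟨h8, h9⟩ := mem_sdiff.1 (mem_filter.1 h6).1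
      refine ⟨h8, h7, ?_, f', h2, h3, v, h4, Or.inr ⟨v, h5, rfl⟩⟩
      rintro (e | ⟨w, e, e'⟩)
      exacts [cs_inl e (mem_tt.1 h3).1, h9 (inl_injective e' ▸ e)]
  have h2 := D.g2 q (conn_add (conn_singleton _ (inr f)) (N f) fun v a => ⟨f, rfl, a⟩)
    (fun a a1 n => by simpa using n)
    ((Sp N U f0 \ N f).filter fun y => ¬ ∃ f', f' ∉ U ∧ y ∈ Tt N U f' ∧ ∃ v ∈ Tt N U f',
      v ∈ Tt N U f0) fun z h => by
      obtain ⟨h1, h0⟩ := mem_filter.1 h
      obtain ⟨h6, h7⟩ := mem_sdiff.1 h1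
      obtain ⟨h8, f', h2, h3, v, h4, h5⟩ := mem_filter.1 h6
      exact ⟨(mem_sdiff.1 h8).1, h7, by simpa using h7, f', h2, h3, v, h4, Or.inr
        ⟨v, (h5.resolve_left fun e => h0 ⟨f', h2, h3, v, h4, e⟩) f q h7, rfl⟩⟩
  have := card_filter_add_card_filter_not (s := Sp N U f0 \ N f)
    fun y => ∃ f', f' ∉ U ∧ y ∈ Tt N U f' ∧ ∃ v ∈ Tt N U f', v ∈ Tt N U f0
  omega

lemma Dn.con (q : f ∈ U) (n : f0 ∉ U) : Spr fun v a =>
    v ∈ (if a = f then Tt N U f0 else if Cl N U f0 a then N a else ∅) := by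
  have c : Conn (fun v f => v ∈ N f) ({inr f} ∪ {x | ∃ a, (a ∈ U ∧ a ≠ f) ∧ x ∈ {inr a} ∪
      {x | ∃ v, v ∈ (Lv N U 2 \ Tt N U f0).filter (· ∈ N a) ∧ x ∈ ({inl v} : Set (V ⊕ F))}}) := by
    refine conn_iUnion (conn_singleton _ _) _ _ (fun a _ => conn_add (conn_singleton _ _) _
      fun v h => ⟨a, rfl, (mem_filter.1 h).2⟩) fun a ⟨a1, a2⟩ => ?_
    obtain ⟨l, l1⟩ := card_pos.1 (show 0 < ((U.erase f).erase a).card by
      rw [card_erase_of_mem (mem_erase.2 ⟨a2, a1⟩), card_erase_of_mem q, D.card]; omega)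
    simp only [mem_erase] at l1
    obtain ⟨w, w1, w2⟩ := exists_mem_notMem_of_card_lt_card (s := Tt N U f0)
      (t := Lv N U 2 \ N l) (by have := D.typ l1.2.2; have := D.tt n; omega)
    obtain ⟨w3, w4⟩ := mem_sdiff.1 w1
    exact ⟨_, rfl, inl w, Or.inr ⟨w, mem_filter.2 ⟨mem_sdiff.2 ⟨w3, w2⟩,
      (D.rk.oth w3 l1.2.2 a1 w4).resolve_right (Ne.symm l1.1)⟩, rfl⟩,
      (D.rk.oth w3 l1.2.2 q w4).resolve_right (Ne.symm l1.2.1)⟩
  generalize hH : (_ ∪ _ : Set (V ⊕ F)) = H at c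
  have m1 : ∀ a, inr a ∈ H ↔ a ∈ U := fun a => by
    subst hH
    by_cases e : a = f <;> simp [e, q]
  have m2 : ∀ v, inl v ∈ H → v ∈ Lv N U 2 \ Tt N U f0 := fun v => by
    subst hH
    simp only [Set.mem_union, Set.mem_singleton_iff, Set.mem_ofPred_eq, mem_filter (s := _ \ _)]
    grind
  refine D.spr.map (Sum.elim (fun v => if v ∈ Lv N U 2 \ Tt N U f0 then ∅ else {inl v})
    fun a => if a = f then H else if a ∈ U then ∅ else {inr a}) ?_ ?_ fun v a h => ?_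
  · rintro (x | x) (y | y) (z | z) a b <;> simp only [elim_inl, elim_inr] at a b <;>
      split_ifs at a b <;> simp_all
  · rintro (x | x) <;> simp only [elim_inl, elim_inr] <;> split_ifs
    exacts [⟨inl x, by simp⟩, conn_singleton _ _, c, ⟨inr x, by simp⟩, conn_singleton _ _]
  · simp only [elim_inl, elim_inr]
    split_ifs at h with e e'
    · obtain ⟨b, b1, b2⟩ := mem_biUnion.1 (mem_tt.1 h).1
      rw [if_neg (by simp [h]), if_pos e]
      exact ⟨_, rfl, _, (m1 b).2 b1, b2⟩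
    · rw [if_neg fun p => (mem_sdiff.1 p).2 (mem_tt.2 ⟨D.lv.2 (by simp [(mem_sdiff.1 p).1]),
        a, e', h⟩), if_neg e, if_neg (e'.out n)]
      exact ⟨_, rfl, _, rfl, h⟩
    · simp at h

lemma Dn.fill (c1 : V → Fin k) (P : Finset V) (hP : P ⊆ Lv N U 2) (A B : Finset (Fin k))
    (AB : Disjoint A B) (hA : ∀ α ∈ A, ∀ f ∈ U, ∃ v ∈ N f, c1 v = α ∧ v ∉ Lv N U 2 \ P)
    (hB : ∀ α ∈ B, ∃ f ∈ U, ∃ v ∈ N f, c1 v = α ∧ v ∉ Lv N U 2 \ P)
    (n1 : 2 * k + P.card ≤ (Lv N U 2).card + 2 * A.card + B.card) (n2 : P.card ≤ 15)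
    (n3 : A.card + B.card ≤ 27) : ∃ c' : V → Fin k,
      (∀ v, v ∉ Lv N U 2 \ P → c' v = c1 v) ∧ ∀ f ∈ U, ∀ α, ∃ v ∈ N f, c' v = α := by
  have r := D.rk
  have : Nonempty F := ⟨(card_pos.1 (by rw [r.1]; omega)).choose⟩
  choose! t t1 t2 using hB
  let O := univ \ (A ∪ B)
  have hO : O.card + A.card + B.card = k := by
    have := card_sdiff_add_card_eq_card (subset_univ (A ∪ B))
    rw [card_union_of_disjoint AB, card_univ, Fintype.card_fin] at this
    rw [add_assoc, this]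
  let J : F → Finset V := fun f => (Lv N U 2 \ P) \ N f
  let B' : F → Finset (Fin k) := fun f => B.filter fun α => t α = f
  have j1 : ∑ f ∈ U, (J f).card + P.card = (Lv N U 2).card := by
    rw [r.sum _ sdiff_subset, card_sdiff_add_card_eq_card hP]
  have j2 : ∑ f ∈ U, (B' f).card = B.card := (card_eq_sum_card_fiberwise fun α h => t1 α h).symm
  have j3 : ∀ f ∈ U, (B' f).card ≤ (J f).card ∧ (J f).card ≤ O.card := fun f q => by
    have a1 := D.typ q
    have a2 : (B' f).card ≤ B.card := card_filter_le _ _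
    have a3 : (J f).card ≤ (Lv N U 2 \ N f).card :=
      card_le_card (sdiff_subset_sdiff sdiff_subset Subset.rfl)
    have a4 : (Lv N U 2 \ N f).card ≤ (J f ∪ P).card := card_le_card fun v h => by
      simp only [J, mem_union, mem_sdiff] at h ⊢
      tauto
    have := card_union_le (J f) P
    omega
  obtain ⟨M, hM⟩ := split U (fun f => O.card + (B' f).card - (J f).card) O (by
    have : ∑ f ∈ U, (O.card + (B' f).card - (J f).card + (J f).card) =
        ∑ f ∈ U, (O.card + (B' f).card) := sum_congr rfl fun f q => by have := j3 f q; omega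
    simp only [sum_add_distrib, sum_const, r.1, smul_eq_mul] at this
    omega)
  obtain ⟨c', f1, f2⟩ := Cover.fill U J (fun f => O \ M f ∪ B' f) c1 (fun f q f' q' v h h' =>
      ((r.oth (mem_sdiff.1 (mem_sdiff.1 h).1).1 q q' (mem_sdiff.1 h).2).resolve_left
        (mem_sdiff.1 h').2).symm) fun f q => by
    have := card_union_le (O \ M f) (B' f)
    have := card_sdiff_add_card_eq_card (hM f q).1
    have := (hM f q).2.1
    have := j3 f q
    omega
  have fx : ∀ v, v ∉ Lv N U 2 \ P → c' v = c1 v := fun v h => (f1 v).resolve_right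
    fun ⟨f, _, q, _⟩ => h (mem_sdiff.1 q).1
  have cov : ∀ f ∈ U, ∀ a ∈ U, f ≠ a → ∀ α ∈ O \ M a ∪ B' a, ∃ v ∈ N f, c' v = α :=
    fun f q a q' n α h => by
      obtain ⟨v, h, e⟩ := f2 a q' α h
      exact ⟨v, (r.oth (mem_sdiff.1 (mem_sdiff.1 h).1).1 q' q (mem_sdiff.1 h).2).resolve_right n, e⟩
  refine ⟨c', fx, fun f q' α => ?_⟩
  by_cases a : α ∈ A
  · obtain ⟨v, h, e, h'⟩ := hA α a f q'
    exact ⟨v, h, (fx v h').trans e⟩
  by_cases a' : α ∈ B
  · by_cases e : f = t α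
    · obtain ⟨v, h, e', h'⟩ := t2 α a'
      exact ⟨v, e ▸ h, (fx v h').trans e'⟩
    · exact cov f q' _ (t1 α a') e α (mem_union_right _ (mem_filter.2 ⟨a', rfl⟩))
  obtain ⟨x, x1, y, y1, n1, n2, n⟩ := D.oth q'
  have o : α ∈ O := by simp [O, a, a']
  by_cases m : α ∈ M x
  · exact cov f q' y y1 n2.symm α (mem_union_left _ (mem_sdiff.2
      ⟨o, fun m' => n ((hM x x1).2.2 y y1 α m m')⟩))
  · exact cov f q' x x1 n1.symm α (mem_union_left _ (mem_sdiff.2 ⟨o, m⟩))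

end Pool.Agent.P.MP_b2489f_co.Cover
end

-- part Pool.Agent.P.MP_b2489f_co.Dense2
section

set_option autoImplicit false
set_option linter.unusedSectionVars false

/-! The induction over dense triples; the exact value for `g ≡ 2 (mod 4)`. -/

namespace Pool.Agent.P.MP_b2489f_co.Cover

open Finset Classical Sum Relation

variable {V F : Type} [Fintype V] [Fintype F] {k g : ℕ} {N : F → Finset V} {U : Finset F}
  {f f' f0 : F} {v : V}

lemma Dup.mono {c : V → Fin k} {A B : Finset V} (h : Dup c B) (s : A ⊆ B) : Dup c A := by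
  have h1 : (B.image c).card ≤ (A.image c ∪ (B \ A).image c).card := card_le_card (by
    rw [← image_union, union_sdiff_of_subset s])
  have h2 := card_union_le (A.image c) ((B \ A).image c)
  have h3 : ((B \ A).image c).card ≤ _ := card_image_le
  have h4 := card_sdiff_add_card_eq_card s
  unfold Dup at *
  omega

/-- the colouring of the three faces, given the colours on the attachments of the root class -/
lemma Dn.ext (D : Dn N U k g) {ρ : F} (n : ρ ∉ U) (c : V → Fin k) (hc : Dup c (Tt N U ρ)) :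
    ∃ c' : V → Fin k, (∀ v ∈ Tt N U ρ, c' v = c v) ∧ (∀ f ∈ U, ∀ α, ∃ v ∈ N f, c' v = α) ∧
      ∀ f, f ∉ U → Dup c' (Tt N U f) := by
  have cnt := D.cnt
  have hk := D.hk
  have big := D.big
  have t13 := D.tt n
  have t3 := D.tt3 n
  have s12 := D.sp n
  have : Nonempty (Fin k) := ⟨⟨0, by omega⟩⟩
  set T := Tt N U ρ with hT
  let P := Lv N U 2 ∩ T ∪ Sp N U ρ
  let X := Lv N U 1 ∪ Lv N U 3 ∪ P
  have hP : P ⊆ Lv N U 2 := union_subset inter_subset_left ((filter_subset _ _).trans sdiff_subset)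
  have cP : P.card ≤ 15 := by
    have h1 : P.card ≤ _ := card_union_le (Lv N U 2 ∩ T) (Sp N U ρ)
    have h2 : (Lv N U 2 ∩ T).card ≤ (T \ Lv N U 1).card := card_le_card fun v a => by
      simp only [mem_inter, mem_sdiff, mem_lv] at a ⊢
      exact ⟨a.2, by omega⟩
    omega
  have cX : X.card = (Lv N U 1).card + (Lv N U 3).card + P.card := by
    rw [card_union_of_disjoint, card_union_of_disjoint]
    · exact disjoint_left.2 fun v a b => by simp only [mem_lv] at a b; omega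
    · refine disjoint_left.2 fun v a b => ?_
      have := hP b
      simp only [mem_union, mem_lv] at a this
      omega
  have TX : T ⊆ X := fun v a => by
    have := D.lv.1 (mem_tt.1 a).1
    simp only [X, P, mem_union, mem_inter]
    tauto
  have XN : ∀ v ∈ X, v ∈ U.biUnion N ∧ v ∉ Lv N U 2 \ P := fun v a => by
    have := @hP v
    rw [D.lv]
    simp only [X, mem_union (s := _ ∪ _), mem_union (s := Lv N U 1), mem_sdiff, mem_lv] at a this ⊢
    grind
  obtain ⟨φ, p1, p2, -⟩ := cover_inj (X \ T) ∅ (univ \ T.image c) (empty_subset _) (by simp) (by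
    have h1 : (T.image c).card ≤ _ := card_image_le
    rw [card_sdiff_of_subset TX, card_sdiff_of_subset (subset_univ _), card_univ, Fintype.card_fin]
    omega)
  let c1 : V → Fin k := fun v => if v ∈ X \ T then φ v else c v
  have e1 : ∀ v ∈ T, c1 v = c v := fun v a => if_neg (by simp [a])
  have e2 : ∀ v ∈ X \ T, c1 v = φ v := fun v a => if_pos a
  have i1 : Set.InjOn c1 (X \ T : Finset V) := fun v a w b e =>
    p1 a b (by rwa [e2 v a, e2 w b] at e)
  have nT : ∀ v ∈ X \ T, c1 v ∉ T.image c := fun v a => e2 v a ▸ (mem_sdiff.1 (p2 v a)).2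
  have cI : (X.image c1).card + T.card = X.card + (T.image c).card := by
    have : X.image c1 = T.image c ∪ (X \ T).image c1 := by
      rw [← image_congr e1, ← image_union, union_sdiff_of_subset TX]
    rw [this, card_union_of_disjoint (disjoint_right.2 fun α a => by
      obtain ⟨v, b, rfl⟩ := mem_image.1 a
      exact nT v b), card_image_of_injOn i1, ← card_sdiff_add_card_eq_card TX]
    omega
  let A := (X.image c1).filter fun α => ∀ f ∈ U, ∃ v ∈ N f, c1 v = α ∧ v ∈ X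
  have cA := card_sdiff_add_card_eq_card (filter_subset
    (fun α => ∀ f ∈ U, ∃ v ∈ N f, c1 v = α ∧ v ∈ X) (X.image c1))
  have a3 : ∀ x ∈ Lv N U 3, c1 x ∈ A := fun x a =>
    have b : x ∈ X := by simp [X, a]
    mem_filter.2 ⟨mem_image_of_mem _ b, fun f q => ⟨x, D.all a q, rfl, b⟩⟩
  have b1 : 0 < (Lv N U 3).card → 0 < A.card := fun h =>
    card_pos.2 ⟨_, a3 _ (card_pos.1 h).choose_spec⟩
  have b2 : (Lv N U 1).card = 0 → (T.image c).card + 2 ≤ T.card →
      0 < A.card ∧ ((Lv N U 3).card = 2 → 1 < A.card) := by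
    intro h0 h
    have h1 : ∀ v, v ∉ Lv N U 1 := by simp [card_eq_zero.1 h0]
    have h2 := le_card_sdiff (Lv N U 1) T
    have h3 : 0 < (T.image c).card := card_pos.2 ((card_pos.1 (by omega)).image _)
    have h4 : ∀ f ∈ U, ¬ T ⊆ N f := fun f q s => by
      have := D.g1 q n T fun z a => ⟨a, s a, h1 z⟩
      omega
    obtain ⟨γ, hγ⟩ := card_eq_one.1 (show (T.image c).card = 1 by omega)
    have h5 : ∀ v ∈ T, c1 v = γ := fun v a => by
      rw [e1 v a, ← mem_singleton, ← hγ]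
      exact mem_image_of_mem _ a
    have h6 : ∀ f ∈ U, ∃ v ∈ N f, c1 v = γ ∧ v ∈ X := fun f q => by
      by_contra h
      obtain ⟨a, a1, -, -, a2, -⟩ := D.oth q
      refine h4 a a1 fun v b => ?_
      have b' : v ∉ N f := fun b' => h ⟨v, b', h5 v b, TX b⟩
      rcases D.lv.1 (mem_tt.1 b).1 with e | e | e
      exacts [absurd e (h1 v), (D.rk.oth e q a1 b').resolve_right a2, D.all e a1]
    obtain ⟨t, ht⟩ := card_pos.1 (show 0 < T.card by omega)
    have h7 : γ ∈ A := mem_filter.2 ⟨h5 t ht ▸ mem_image_of_mem _ (TX ht), h6⟩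
    refine ⟨card_pos.2 ⟨_, h7⟩, fun h8 => ?_⟩
    obtain ⟨x, x1, x2⟩ : ∃ x ∈ Lv N U 3, x ∉ T := by
      by_contra h
      push Not at h
      obtain ⟨y, hy⟩ := card_eq_one.1 (show (T \ Lv N U 3).card = 1 by
        rw [card_sdiff_of_subset h]; omega)
      obtain ⟨f, q, b⟩ := mem_biUnion.1 (mem_tt.1 (mem_sdiff.1 (hy ▸ mem_singleton_self y)).1).1
      refine h4 f q fun v a => ?_
      by_cases e : v ∈ Lv N U 3
      · exact D.all e q
      · exact mem_singleton.1 (hy ▸ mem_sdiff.2 ⟨a, e⟩) ▸ b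
    refine one_lt_card.2 ⟨_, h7, _, a3 x x1, fun e => nT x (mem_sdiff.2 ⟨by simp [X, x1], x2⟩) ?_⟩
    rw [← e, hγ]
    simp
  have cI' : (X.image c1).card ≤ _ := card_image_le
  have cT : (T.image c).card ≤ _ := card_image_le
  obtain ⟨c', f1, f2⟩ := D.fill c1 P hP A (X.image c1 \ A) disjoint_sdiff
    (fun α a f q => by
      obtain ⟨v, a1, a2, a3⟩ := (mem_filter.1 a).2 f q
      exact ⟨v, a1, a2, (XN v a3).2⟩)
    (fun α a => by
      obtain ⟨v, a1, a2⟩ := mem_image.1 (mem_sdiff.1 a).1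
      obtain ⟨f, q, b⟩ := mem_biUnion.1 (XN v a1).1
      exact ⟨f, q, v, b, a2, (XN v a1).2⟩)
    (by unfold Dup at hc; change (_ \ A).card + A.card = _ at cA; omega) cP
    (by change (_ \ A).card + A.card = _ at cA; omega)
  have e3 : ∀ v ∈ X, c' v = c1 v := fun v a => f1 v (XN v a).2
  refine ⟨c', fun v a => (e3 v (TX a)).trans (e1 v a), f2, fun f q => ?_⟩
  by_cases s : Tt N U f ⊆ X
  · refine Dup.mono ?_ s
    unfold Dup at hc ⊢
    rw [image_congr e3]
    omega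
  obtain ⟨y, y1, y2⟩ := not_subset.1 s
  have ty : ∀ y ∈ Tt N U f, y ∉ X → y ∈ Lv N U 2 := fun y a b => by
    have := D.lv.1 (mem_tt.1 a).1
    simp only [X, mem_union (s := _ ∪ _), mem_union (s := Lv N U 1)] at b
    tauto
  have h1 : ∀ v ∈ Tt N U f, v ∉ T ∧ ∃ l ∈ U, y ∉ N l ∧ v ∉ N l := fun v a => by
    by_contra h
    refine y2 (mem_union_right _ (mem_union_right _ (mem_filter.2
      ⟨mem_sdiff.2 ⟨ty y y1 y2, fun b => y2 (TX b)⟩, f, q, y1, v, a, ?_⟩)))
    grind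
  obtain ⟨-, l, l1, l2, -⟩ := h1 y y1
  obtain ⟨a, a1, -, -, a2, -⟩ := D.oth l1
  have h2 := D.g1 a1 q (Tt N U f \ X) fun z b => by
    obtain ⟨b1, b2⟩ := mem_sdiff.1 b
    obtain ⟨-, l', b3, b4, b5⟩ := h1 z b1
    obtain rfl := (D.rk.oth (ty y y1 y2) l1 b3 l2).resolve_left b4
    exact ⟨b1, (D.rk.oth (ty z b1 b2) l1 a1 b5).resolve_right a2, fun e => b2 (by simp [X, e])⟩
  have h3 := card_sdiff_add_card_inter (Tt N U f) X
  have h4 := card_le_card (image_subset_image (f := c') (inter_subset_left (s₁ := Tt N U f) (s₂ := X)))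
  rw [card_image_of_injOn fun v a w b e => by
    obtain ⟨v1, v2⟩ := mem_inter.1 a
    obtain ⟨w1, w2⟩ := mem_inter.1 b
    exact i1 (mem_sdiff.2 ⟨v2, (h1 v v1).1⟩) (mem_sdiff.2 ⟨w2, (h1 w w1).1⟩)
      (by rwa [e3 v v2, e3 w w2] at e)] at h4
  unfold Dup
  omega

theorem ind (hk : 4 * k + 2 = 3 * g) (big : 126 ≤ g) (n : ℕ) : ∀ N : F → Finset V,
    (univ.filter fun f => (N f).card = g).card < n → (Spr fun v f => v ∈ N f) →
    (∀ f, (N f).card = g ∨ (N f).card ≤ 13) → ∀ ρ, (N ρ).card ≤ 13 → ∀ c0 : V → Fin k,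
    Dup c0 (N ρ) → ∃ c : V → Fin k, (∀ v ∈ N ρ, c v = c0 v) ∧ ∀ f, Req g c (N f) := by
  induction n with
  | zero => simp
  | succ n ih =>
  intro N hn h hN ρ hρ c0 h0
  by_cases nd : ∀ x y z, x ≠ y → x ≠ z → y ≠ z → (N x).card = g → (N y).card = g →
    (N z).card = g → 2 * k + 6 ≤ (N x ∪ N y ∪ N z).card
  · exact base h hk (by omega) hN nd ρ hρ c0 h0
  push Not at nd
  obtain ⟨x, y, z, n1, n2, n3, gx, gy, gz, nd⟩ := nd
  obtain ⟨U, D, xU⟩ : ∃ U, Dn N U k g ∧ x ∈ U := ⟨{x, y, z}, ⟨h, card_eq_three.2 ⟨x, y, z, n1, n2,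
    n3, rfl⟩, by simp [*], by simpa [union_assoc] using nd, hk, big⟩, by simp⟩
  have nρ : ρ ∉ U := fun q => by have := D.hN ρ q; omega
  have sub : ∀ f0, f0 ∉ U → ∀ r (A : Finset V), A.card ≤ 13 →
      (if r = x then Tt N U f0 else if Cl N U f0 r then N r else ∅) = A → ∀ c0 : V → Fin k,
      Dup c0 A → ∃ c : V → Fin k, (∀ v ∈ A, c v = c0 v) ∧ Dup c (Tt N U f0) ∧
        ∀ f, Cl N U f0 f → Req g c (N f) := by
    intro f0 q r A cA e c0 h0
    have t := D.tt q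
    obtain ⟨c, c1, c2⟩ := ih (fun a => if a = x then Tt N U f0 else if Cl N U f0 a then N a else ∅)
      (lt_of_lt_of_le (card_lt_card ((ssubset_iff_of_subset fun a b => by
        have := (mem_filter.1 b).2
        split_ifs at this
        exacts [by omega, mem_filter.2 ⟨mem_univ _, this⟩, by simp at this; omega]).2
        ⟨x, mem_filter.2 ⟨mem_univ _, gx⟩, by simp; omega⟩)) (Nat.le_of_lt_succ hn)) (D.con xU q)
      (fun a => by
        split_ifs
        exacts [Or.inr t, hN a, by simp]) r (e ▸ cA) c0 (e ▸ h0)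
    refine ⟨c, e ▸ c1, by simpa using (c2 x).2 (by simp; omega), fun f b => ?_⟩
    have n : f ≠ x := fun e => b.out q (e ▸ xU)
    simpa [n, b] using c2 f
  obtain ⟨cρ, r1, r2, r3⟩ := sub ρ nρ ρ (N ρ) hρ
    (by rw [if_neg fun e : ρ = x => nρ (e ▸ xU), if_pos (show Cl N U ρ ρ from ReflTransGen.refl)]) c0 h0
  obtain ⟨c1, s1, s2, s3⟩ := D.ext nρ cρ r2
  have : ∀ K : Set F, ∃ c : V → Fin k, ∀ f0, f0 ∉ U → K = {f | Cl N U f0 f} →
      (∀ v ∈ Tt N U f0, c v = c1 v) ∧ (∀ f, Cl N U f0 f → Req g c (N f)) ∧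
        (Cl N U ρ f0 → c = cρ) := by
    intro K
    have tt : ∀ a b, Cl N U a b → ∀ v ∈ Tt N U b, v ∈ Tt N U a := fun a b e v q =>
      mem_tt.2 ⟨(mem_tt.1 q).1, (mem_tt.1 q).2.imp fun _ p => ⟨e.trans p.1, p.2⟩⟩
    by_cases q : ∃ f0, f0 ∉ U ∧ K = {f | Cl N U f0 f}
    · obtain ⟨f0, q, rfl⟩ := q
      have cl : ∀ f1, {f | Cl N U f0 f} = {f | Cl N U f1 f} → Cl N U f0 f1 := fun f1 e =>
        (Set.ext_iff.1 e f1).2 ReflTransGen.refl
      by_cases e : Cl N U ρ f0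
      · exact ⟨cρ, fun f1 _ e' => ⟨fun v a => (s1 v (tt _ _ (e.trans (cl f1 e')) v a)).symm,
          fun f a => r3 f ((e.trans (cl f1 e')).trans a), fun _ => rfl⟩⟩
      · obtain ⟨c, a1, -, a2⟩ := sub f0 q x _ (D.tt q) (if_pos rfl) c1 (s3 f0 q)
        exact ⟨c, fun f1 _ e' => ⟨fun v a => a1 v (tt _ _ (cl f1 e') v a),
          fun f a => a2 f ((cl f1 e').trans a), fun a => absurd (a.trans (cl f1 e').symm) e⟩⟩
    · exact ⟨c1, fun f0 a b => absurd ⟨f0, a, b⟩ q⟩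
  choose G hG using this
  let c : V → Fin k := fun v => if v ∈ U.biUnion N then c1 v else
    G {f | ∃ f0, f0 ∉ U ∧ v ∈ N f0 ∧ Cl N U f0 f} v
  have key : ∀ f, f ∉ U → ∀ v ∈ N f, c v = G {f' | Cl N U f f'} v := fun f q v a => by
    by_cases b : v ∈ U.biUnion N
    · exact (if_pos b).trans ((hG _ f q rfl).1 v (mem_tt.2 ⟨b, f, ReflTransGen.refl, a⟩)).symm
    · have : {f | ∃ f0, f0 ∉ U ∧ v ∈ N f0 ∧ Cl N U f0 f} = {f' | Cl N U f f'} := Set.ext fun f' =>
        ⟨fun ⟨f0, b1, b2, b3⟩ => ReflTransGen.head ⟨q, b1, v, b, a, b2⟩ b3, fun e => ⟨f, q, a, e⟩⟩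
      exact (if_neg b).trans (by rw [this])
  refine ⟨c, fun v a => ?_, fun f => ?_⟩
  · rw [key ρ nρ v a, (hG _ ρ nρ rfl).2.2 ReflTransGen.refl, r1 v a]
  · by_cases q : f ∈ U
    · refine ⟨fun _ α => ?_, fun e => absurd (D.hN f q) e⟩
      obtain ⟨v, a, e⟩ := s2 f q α
      exact ⟨v, a, (if_pos (mem_biUnion.2 ⟨f, q, a⟩)).trans e⟩
    · exact ((hG _ f q rfl).2.1 f ReflTransGen.refl).cg (key f q)

theorem res012 (g : ℕ)
    (hg : (g % 4 = 0 ∧ 8 ≤ g) ∨ (g % 4 = 1 ∧ 13 ≤ g) ∨ (g % 4 = 2 ∧ 126 ≤ g)) :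
    IsLeast {k | ∃ (D : Type) (_ : Finite D) (M : PlaneMap D), M.minFace = g ∧ M.polyNum = k}
      ((3 * g - 1) / 4) := by
  rw [← or_assoc] at hg
  rcases hg with hg | hg
  · exact res01 g hg
  refine exact_of g (by omega) fun V F _ _ N plan hN => ?_
  have k0 : 0 < (3 * g - 1) / 4 := by omega
  rcases isEmpty_or_nonempty F with _ | ⟨⟨f0⟩⟩
  · exact ⟨fun _ => ⟨0, k0⟩, fun f => isEmptyElim f⟩
  obtain ⟨c, -, hc⟩ := ind (V := V) (F := Option F) (k := (3 * g - 1) / 4) (g := g) (by omega)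
    hg.2 _ (fun o => o.elim ∅ N) (Nat.lt_succ_self _)
    ((spr_of plan).map (Sum.elim (fun v => {inl v}) fun o : Option F => o.elim ∅ fun f => {inr f})
      (by rintro (x | _ | x) (y | _ | y) z a b <;> simp_all)
      (by rintro (x | _ | x); exacts [conn_singleton _ _, ⟨inr f0, by simp⟩, conn_singleton _ _])
      (by rintro v (_ | f) a; exacts [by simp at a, ⟨_, rfl, _, rfl, a⟩]))
    (by rintro (_ | f); exacts [by simp, Or.inl (hN f)]) none (by simp)
    (fun _ => ⟨0, k0⟩) (by simp [Dup])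
  exact ⟨c, fun f => (hc (some f)).1 (hN f)⟩

end Pool.Agent.P.MP_b2489f_co.Cover
end
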